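import Pool.Agent.N940.TSP.Asm4

/-!
# Assembly of the central limit theorem, part 5: conclusion
-/

set_option autoImplicit false
set_option linter.unusedSectionVars false
set_option linter.unusedVariables false

open Filter Topology

namespace Pool.Agent.N940.TSP

open Finset

lemma Vr_scale {ι : Type} [Fintype ι] [DecidableEq ι] (q a : ℝ) (g : Finset ι → ℝ) :
    Vr q (fun A => a * g A) = a ^ 2 * Vr q g := by
  have e3 : Ex q (fun A => a * g A) = a * Ex q g := Ex_mul_left _ _ _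
  have e4 : (fun B => (a * g B - a * Ex q g) ^ 2) = fun B => a ^ 2 * (g B - Ex q g) ^ 2 := by
    funext B
    ring
  unfold Vr
  simp only [e3, e4]
  exact Ex_mul_left _ _ _

lemma norm_Ex_le {ι : Type} [Fintype ι] [DecidableEq ι] {q : ℝ} (h0 : 0 ≤ q) (h1 : q ≤ 1)
    (φ : Finset ι → ℂ) (hφ : ∀ A, ‖φ A‖ ≤ 1) : ‖Ex q φ‖ ≤ 1 := by
  unfold Ex
  refine (norm_sum_le _ _).trans ?_
  rw [← sum_mu (ι := ι) q]
  refine sum_le_sum fun A _ => ?_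
  rw [norm_smul, Real.norm_eq_abs, abs_of_nonneg (mu_nonneg h0 h1 A)]
  exact mul_le_of_le_one_right (mu_nonneg h0 h1 A) (hφ A)

/-- the intensity -/
noncomputable def qn (n : ℕ) : ℝ := (n : ℝ) / Fintype.card (Ix (Nn n) (Kn n) (Mn n))

lemma card_Ix (N K M : ℕ) : (Fintype.card (Ix N K M) : ℝ) = ((N : ℝ) * K * M) ^ 2 := by
  unfold Ix
  rw [Fintype.card_prod, Fintype.card_fin]
  push_cast
  ring

lemma qn_facts {n : ℕ} (hn : 2 ≤ n) : 0 ≤ qn n ∧ qn n ≤ 1 ∧ 1 ≤ qn n * (Mn n : ℝ) ^ 2 ∧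
    qn n * (Mn n : ℝ) ^ 2 ≤ 4 ∧ qn n * (Fintype.card (Ix (Nn n) (Kn n) (Mn n)) : ℝ) = n ∧
    2 * n ≤ Fintype.card (Ix (Nn n) (Kn n) (Mn n)) := by
  have hn1 : 1 ≤ n := by omega
  have hM := Mn_pos hn1
  have hN := Nn_pos n
  have hK := Kn_pos n
  have hMR : (0 : ℝ) < Mn n := by exact_mod_cast hM
  have hNR : (0 : ℝ) < Nn n := by exact_mod_cast hN
  have hKR : (0 : ℝ) < Kn n := by exact_mod_cast hK
  have hcard := card_Ix (Nn n) (Kn n) (Mn n)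
  have hpos : (0 : ℝ) < Fintype.card (Ix (Nn n) (Kn n) (Mn n)) := by rw [hcard]; positivity
  have hle : 2 * n ≤ Fintype.card (Ix (Nn n) (Kn n) (Mn n)) := by
    have h1 : Fintype.card (Ix (Nn n) (Kn n) (Mn n)) =
        (Nn n * Kn n * Mn n) * (Nn n * Kn n * Mn n) := by
      unfold Ix
      rw [Fintype.card_prod, Fintype.card_fin]
    rw [h1]
    have h2 : 1 ≤ Nn n * Kn n := Nat.mul_pos hN hK
    have h3 : n ^ 3 ≤ Nn n * Kn n * Mn n := by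
      unfold Mn
      exact Nat.le_mul_of_pos_left _ h2
    have h4 : n ^ 3 * n ^ 3 ≤ (Nn n * Kn n * Mn n) * (Nn n * Kn n * Mn n) := Nat.mul_le_mul h3 h3
    have h5 : 2 * n ≤ n ^ 3 * n ^ 3 := by
      have h6 : 1 ≤ n ^ 4 := Nat.one_le_pow _ _ hn1
      calc 2 * n ≤ n * n := Nat.mul_le_mul_right _ hn
        _ ≤ (n * n) * n ^ 4 := Nat.le_mul_of_pos_right _ h6
        _ = n ^ 3 * n ^ 3 := by ring
    omega
  have hq4 : qn n * (Mn n : ℝ) ^ 2 = n / ((Nn n : ℝ) * Kn n) ^ 2 := by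
    unfold qn
    rw [hcard]
    field_simp
  have hlow : ((Nn n : ℝ) * Kn n) ^ 2 ≤ n := by exact_mod_cast NK_le hn1
  have hupp : (n : ℝ) ≤ 4 * ((Nn n : ℝ) * Kn n) ^ 2 := by exact_mod_cast (lt_NK hn1).le
  have hRR : (0 : ℝ) < ((Nn n : ℝ) * Kn n) ^ 2 := by positivity
  refine ⟨?_, ?_, ?_, ?_, ?_, hle⟩
  · unfold qn; positivity
  · unfold qn
    rw [div_le_one hpos]
    have : (2 : ℝ) * n ≤ Fintype.card (Ix (Nn n) (Kn n) (Mn n)) := by exact_mod_cast hle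
    have h0 : (0 : ℝ) ≤ n := Nat.cast_nonneg n
    linarith
  · rw [hq4, le_div_iff₀ hRR]; linarith
  · rw [hq4, div_le_iff₀ hRR]; exact hupp
  · unfold qn
    field_simp

/-- the normalized functional -/
noncomputable def Fn (n : ℕ) (A : Finset (Ix (Nn n) (Kn n) (Mn n))) : ℝ :=
  fT (Nn n) (Kn n) (Mn n) A / ((Nn n : ℝ) * (Kn n : ℝ))

/-- the error in the normal approximation -/
noncomputable def Dn (n : ℕ) (p : ℝ × ℝ) : ℝ :=
  ‖Ex (qn n) (fun A : Finset (Ix (Nn n) (Kn n) (Mn n)) => Complex.exp (Complex.I *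
      ((p.1 * (Fn n A - Ex (qn n) (Fn n)) + p.2 * (((A.card : ℝ) - n) / Real.sqrt n) : ℝ) : ℂ))) -
    Complex.exp ((-(Vr (qn n) fun A : Finset (Ix (Nn n) (Kn n) (Mn n)) =>
      p.1 * Fn n A + p.2 * ((A.card : ℝ) / Real.sqrt n)) / 2 : ℝ) : ℂ)‖

lemma Dn_le_two {n : ℕ} (hn : 2 ≤ n) (p : ℝ × ℝ) : Dn n p ≤ 2 := by
  obtain ⟨h0, h1, _⟩ := qn_facts hn
  unfold Dn
  refine (norm_sub_le _ _).trans ?_
  have e1 : ‖Ex (qn n) (fun A : Finset (Ix (Nn n) (Kn n) (Mn n)) => Complex.exp (Complex.I *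
      ((p.1 * (Fn n A - Ex (qn n) (Fn n)) + p.2 * (((A.card : ℝ) - n) / Real.sqrt n) : ℝ) : ℂ)))‖
      ≤ 1 := by
    refine norm_Ex_le h0 h1 _ fun A => ?_
    rw [mul_comm, Complex.norm_exp_ofReal_mul_I]
  have e2 : ‖Complex.exp ((-(Vr (qn n) fun A : Finset (Ix (Nn n) (Kn n) (Mn n)) =>
      p.1 * Fn n A + p.2 * ((A.card : ℝ) / Real.sqrt n)) / 2 : ℝ) : ℂ)‖ ≤ 1 := by
    rw [Complex.norm_exp, Complex.ofReal_re, Real.exp_le_one_iff]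
    have : 0 ≤ Vr (qn n) fun A : Finset (Ix (Nn n) (Kn n) (Mn n)) =>
      p.1 * Fn n A + p.2 * ((A.card : ℝ) / Real.sqrt n) := Ex_nonneg h0 h1 fun _ => sq_nonneg _
    linarith
  linarith

lemma sites (hES : S_ES) (hD1 : S_D1) {n : ℕ} (hn : 2 ≤ n) :
    ∑ x : Ix (Nn n) (Kn n) (Mn n), (en (qn n) (fT (Nn n) (Kn n) (Mn n)) univ -
      en (qn n) (fT (Nn n) (Kn n) (Mn n)) {x}ᶜ) ≤ 56 * ((Nn n : ℝ) * Kn n) ^ 2 := by
  obtain ⟨h0, h1, _⟩ := qn_facts hn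
  exact hES _ _ h0 h1 _ _ fun A => hD1 _ _ _ (Nn_pos n) (Kn_pos n) (Mn_pos (by omega)) A

lemma Dn_small (hES : S_ES) (hm : S_MOM) (hCLT : S_CLT) (hD1 : S_D1) (hLOC : S_LOC) (ε : ℝ)
    (hε : 0 < ε) : ∃ n₁ : ℕ, ∀ n ≥ n₁, ∀ p : ℝ × ℝ, Dn n p ≤ ε * (1 + |p.1| + |p.2|) ^ 4 := by
  obtain ⟨ε', hε'⟩ : ∃ ε', ε' = min (ε / 2) ((ε / 4) ^ 2) := ⟨_, rfl⟩
  have hε'0 : 0 < ε' := by rw [hε']; positivity
  have hε'1 : ε' ≤ ε / 2 := by rw [hε']; exact min_le_left _ _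
  have hε'2 : Real.sqrt ε' ≤ ε / 4 := by
    rw [Real.sqrt_le_left (by positivity), hε']
    exact min_le_right _ _
  obtain ⟨j₀, hj₀⟩ := thmA 56 108 ε' (by norm_num) (by norm_num) hε'0
  have hKt := Kn_tendsto'
  have hev1 : ∀ᶠ n : ℕ in atTop, 4 * 10 ^ 8 * 2 ^ (10 * j₀) / ε ≤ (Kn n : ℝ) :=
    hKt.eventually_ge_atTop _
  have hev2 : ∀ᶠ n : ℕ in atTop, 2 ^ j₀ ≤ Kn n := Kn_tendsto.eventually_ge_atTop _
  obtain ⟨n₁, hn₁⟩ := (hev1.and (hev2.and (eventually_ge_atTop 2))).exists_forall_of_atTop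
  refine ⟨n₁, fun n hn p => ?_⟩
  obtain ⟨g1, g2, g3⟩ := hn₁ n hn
  obtain ⟨h0, h1, hq1, hq4, hqn, _⟩ := qn_facts g3
  have hN := Nn_pos n
  have hK := Kn_pos n
  have hM := Mn_pos (by omega : 1 ≤ n)
  have hdvd : ∀ t ≤ j₀, 2 ^ t ∣ Nn n := by
    intro t ht
    unfold Nn
    refine pow_dvd_pow 2 ?_
    have h5 : 2 ^ t ≤ 2 ^ (Jn n / 10) := by
      have : 2 ^ t ≤ 2 ^ j₀ := Nat.pow_le_pow_right (by norm_num) ht
      unfold Kn at g2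
      omega
    have h6 : t ≤ Jn n / 10 := (Nat.pow_le_pow_iff_right (by norm_num)).1 h5
    omega
  have hKR : (0 : ℝ) < Kn n := by exact_mod_cast hK
  have hK1 : (1 : ℝ) ≤ Kn n := by exact_mod_cast hK
  have hNR : (0 : ℝ) < Nn n := by exact_mod_cast hN
  have hA := hj₀ (Ix (Nn n) (Kn n) (Mn n)) (ℕ × ℕ) (dl (Nn n) (Kn n) (Mn n))
    (dl_nested _ _ _ _) (fun t _ c => dl_ch _ _ _ t c) ((Kn n : ℝ) ^ 2)
    (((Nn n : ℝ) * Kn n) ^ 2) (by positivity) (by positivity)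
    (fun t ht => dl_count _ _ _ hK hM t (hdvd t ht)) (qn n) h0 h1
    (fT (Nn n) (Kn n) (Mn n)) (sites hES hD1 g3)
    (fun t _ c A A' Z Z' => mixed hLOC hN hK hM t c A A' Z Z')
  have h10 : (Kn n : ℝ) ^ 10 ≤ (Nn n : ℝ) * Kn n := by exact_mod_cast K10_le n
  have hpow : ∀ a : ℕ, a ≤ 10 → (2 : ℝ) ^ (j₀ * a) ≤ 2 ^ (10 * j₀) := by
    intro a ha
    refine pow_le_pow_right₀ (by norm_num) ?_
    rw [mul_comm]
    exact Nat.mul_le_mul_right _ ha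
  set κ : ℝ := 2 ^ (10 * j₀) / Kn n with hκ
  have hκ0 : 0 ≤ κ := by positivity
  have hκ1 : ((Kn n : ℝ) * 2 ^ j₀) ^ 7 ≤ κ * ((Nn n : ℝ) * Kn n) := by
    rw [hκ, div_mul_eq_mul_div, le_div_iff₀ hKR, mul_pow, ← pow_mul]
    calc (Kn n : ℝ) ^ 7 * 2 ^ (j₀ * 7) * Kn n = 2 ^ (j₀ * 7) * (Kn n : ℝ) ^ 8 := by ring
      _ ≤ 2 ^ (10 * j₀) * (Kn n : ℝ) ^ 10 :=
          mul_le_mul (hpow 7 (by norm_num)) (pow_le_pow_right₀ hK1 (by norm_num))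
            (by positivity) (by positivity)
      _ ≤ 2 ^ (10 * j₀) * ((Nn n : ℝ) * Kn n) := mul_le_mul_of_nonneg_left h10 (by positivity)
  have hκ2 : ((Kn n : ℝ) * 2 ^ j₀) ^ 10 ≤ κ * ((Nn n : ℝ) * Kn n) ^ 2 := by
    rw [hκ, div_mul_eq_mul_div, le_div_iff₀ hKR, mul_pow, ← pow_mul]
    calc (Kn n : ℝ) ^ 10 * 2 ^ (j₀ * 10) * Kn n = 2 ^ (j₀ * 10) * (Kn n : ℝ) ^ 11 := by ring
      _ ≤ 2 ^ (10 * j₀) * (Kn n : ℝ) ^ 20 :=
          mul_le_mul (hpow 10 (by norm_num)) (pow_le_pow_right₀ hK1 (by norm_num))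
            (by positivity) (by positivity)
      _ = 2 ^ (10 * j₀) * ((Kn n : ℝ) ^ 10) ^ 2 := by ring
      _ ≤ 2 ^ (10 * j₀) * ((Nn n : ℝ) * Kn n) ^ 2 :=
          mul_le_mul_of_nonneg_left (pow_le_pow_left₀ (by positivity) h10 2) (by positivity)
  have hnR : ((Nn n : ℝ) * Kn n) ^ 2 ≤ (n : ℝ) := by
    exact_mod_cast NK_le (by omega : 1 ≤ n)
  have hmain := char_bound hLOC hm hCLT hN hK hM h0 h1 hq4 hnR hqn j₀ (hdvd j₀ le_rfl) ε' κ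
    hε'0.le hκ0 hA hκ1 hκ2 p.1 p.2
  refine le_trans (le_of_eq ?_) (hmain.trans ?_)
  · rfl
  · refine mul_le_mul_of_nonneg_right ?_ (by positivity)
    have h8 : 2 * 10 ^ 8 * κ ≤ ε / 2 := by
      have h9 : 4 * 10 ^ 8 * 2 ^ (10 * j₀) ≤ (Kn n : ℝ) * ε := by
        rwa [div_le_iff₀ hε] at g1
      rw [hκ, mul_div_assoc', div_le_iff₀ hKR]
      linarith
    linarith

theorem asm (hES : S_ES) (hm : S_MOM) (hCLT : S_CLT) (hD1 : S_D1) (hLOC : S_LOC)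
    (hVLB : S_VLB) (hLINK : S_LINK) (hDEP : S_DEP) (hFIN : S_FIN) : Frozen := by
  obtain ⟨c, M₀, hc, hV⟩ := hVLB
  obtain ⟨η, hη, hDη⟩ := exists_eta Dn (fun p : ℝ × ℝ => (1 + |p.1| + |p.2|) ^ 4)
    (fun p => one_le_pow₀ (by linarith [abs_nonneg p.1, abs_nonneg p.2])) 2
    (fun n p _ => norm_nonneg _) (fun n p hn => Dn_le_two hn p)
    (fun ε hε => Dn_small hES hm hCLT hD1 hLOC ε hε)
  set n₀ := max 2 M₀ with hn₀
  have hD1' : ∀ n, n₀ ≤ n → ∀ A : Finset (Ix (Nn n) (Kn n) (Mn n)),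
      ∑ x ∈ A, (Fn n A - Fn n (A.erase x)) ^ 2 ≤ 56 := by
    intro n hn A
    have hn2 : 2 ≤ n := (le_max_left _ _).trans hn
    have h := hD1 (Nn n) (Kn n) (Mn n) (Nn_pos n) (Kn_pos n) (Mn_pos (by omega)) A
    have hR : (0 : ℝ) < (Nn n : ℝ) * Kn n := by
      have := Nn_pos n
      have := Kn_pos n
      positivity
    have e : ∀ x, (Fn n A - Fn n (A.erase x)) ^ 2 =
        (fT (Nn n) (Kn n) (Mn n) A - fT (Nn n) (Kn n) (Mn n) (A.erase x)) ^ 2 /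
          ((Nn n : ℝ) * Kn n) ^ 2 := by
      intro x
      unfold Fn
      rw [← sub_div, div_pow]
    simp only [e]
    rw [← sum_div, div_le_iff₀ (by positivity)]
    exact h
  have hVle : ∀ n, n₀ ≤ n → Vr (qn n) (Fn n) ≤ 56 := by
    intro n hn
    have hn2 : 2 ≤ n := (le_max_left _ _).trans hn
    obtain ⟨h0, h1, _⟩ := qn_facts hn2
    exact Vr_le_of_sites h0 h1 _ _ (hES _ _ h0 h1 _ _ (hD1' n hn))
  have hlow : ∀ n, n₀ ≤ n → ∀ β : ℝ, c ≤ Vr (qn n) fun A : Finset (Ix (Nn n) (Kn n) (Mn n)) =>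
      Fn n A + β * ((A.card : ℝ) / Real.sqrt n) := by
    intro n hn β
    have hn2 : 2 ≤ n := (le_max_left _ _).trans hn
    obtain ⟨h0, h1, hq1, hq4, _⟩ := qn_facts hn2
    have hM0 : M₀ ≤ Mn n := by
      have h1 : M₀ ≤ n := (le_max_right _ _).trans hn
      have h2 : n ≤ n ^ 3 := Nat.le_self_pow (by norm_num) n
      unfold Mn
      omega
    have hR : (0 : ℝ) < (Nn n : ℝ) * Kn n := by
      have := Nn_pos n
      have := Kn_pos n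
      positivity
    set R := (Nn n : ℝ) * Kn n with hRd
    have h := hV (Nn n) (Kn n) (Mn n) (Nn_pos n) (Kn_pos n) hM0 (qn n) hq1 hq4
      (β * (R / Real.sqrt n))
    have e : (fun A : Finset (Ix (Nn n) (Kn n) (Mn n)) =>
        Fn n A + β * ((A.card : ℝ) / Real.sqrt n)) = fun A => R⁻¹ * (fT (Nn n) (Kn n) (Mn n) A +
          β * (R / Real.sqrt n) * (A.card : ℝ)) := by
      funext A
      unfold Fn
      rw [← hRd]
      field_simp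
    have e2 : ∀ g : Finset (Ix (Nn n) (Kn n) (Mn n)) → ℝ,
        Vr (qn n) (fun A => R⁻¹ * g A) = (R⁻¹) ^ 2 * Vr (qn n) g :=
      fun g => Vr_scale _ _ _
    rw [e, e2]
    calc c = (R⁻¹) ^ 2 * (c * R ^ 2) := by field_simp
      _ ≤ _ := mul_le_mul_of_nonneg_left h (by positivity)
  obtain ⟨s₀, s, hs₀, hs, hlim⟩ := hDEP (fun n => Ix (Nn n) (Kn n) (Mn n)) Fn qn 56 c η n₀
    (by norm_num) hc hη
    (fun n hn => by
      have hn2 : 2 ≤ n := (le_max_left _ _).trans hn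
      obtain ⟨_, _, _, _, _, h2n⟩ := qn_facts hn2
      exact ⟨by omega, h2n, rfl⟩)
    hD1' hVle
    (fun n hn α β => hDη n (α, β) ((le_max_left _ _).trans hn))
    hlow
  refine hFIN (fun n => Nn n * Kn n * Mn n) (fun n => Ex (qn n) (Fn n)) s s₀ n₀ hs₀ ?_ hs ?_
  · intro n hn
    have hn2 : 2 ≤ n := (le_max_left _ _).trans hn
    have h2 : 1 ≤ Nn n * Kn n := Nat.mul_pos (Nn_pos n) (Kn_pos n)
    have h3 : n ^ 3 ≤ Nn n * Kn n * Mn n := by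
      unfold Mn
      exact Nat.le_mul_of_pos_left _ h2
    refine ⟨h3, ?_⟩
    exact Nat.mul_pos h2 (Mn_pos (by omega))
  · refine hLINK Nn Kn Mn n₀ ?_ empty_tendsto (fun n => Ex (qn n) (Fn n)) s hlim
    intro n hn
    have hn2 : 2 ≤ n := (le_max_left _ _).trans hn
    have h2 : 1 ≤ Nn n * Kn n := Nat.mul_pos (Nn_pos n) (Kn_pos n)
    refine ⟨Nn_pos n, Kn_pos n, Mn_pos (by omega), NK_le (by omega), ?_⟩
    unfold Mn
    exact Nat.le_mul_of_pos_left _ h2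

end Pool.Agent.N940.TSP
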