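import Pool.Agent.N940.TSP.Mod

/-!
# Efron-Stein, third moments, block normal approximation
-/

set_option autoImplicit false
set_option linter.unusedSectionVars false
set_option linter.unusedVariables false

namespace Pool.Agent.N940.TSP.Abs

open Finset

section site

variable {ι : Type} [Fintype ι] [DecidableEq ι]

lemma mix_site (x : ι) (A B : Finset ι) :
    mix {x}ᶜ A B = if x ∈ B then insert x A else A.erase x := by
  ext y
  by_cases hx : x ∈ B
  · rw [if_pos hx]
    simp only [mem_mix, mem_compl, mem_singleton, mem_insert, not_not]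
    constructor
    · rintro (⟨h, _⟩ | ⟨_, h⟩)
      · exact Or.inr h
      · exact Or.inl h
    · rintro (h | h)
      · exact Or.inr ⟨h ▸ hx, h⟩
      · by_cases hy : y = x
        · exact Or.inr ⟨hy ▸ hx, hy⟩
        · exact Or.inl ⟨h, hy⟩
  · rw [if_neg hx]
    simp only [mem_mix, mem_compl, mem_singleton, mem_erase, not_not]
    constructor
    · rintro (⟨h, h'⟩ | ⟨h, h'⟩)
      · exact ⟨h', h⟩
      · exact absurd (h' ▸ h) hx
    · rintro ⟨h, h'⟩
      exact Or.inl ⟨h', h⟩

/-- the probability that `x` is chosen -/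
lemma Ex_mem (q : ℝ) (x : ι) : Ex q (fun B : Finset ι => if x ∈ B then (1 : ℝ) else 0) = q := by
  have hx : x ∉ (univ : Finset ι).erase x := notMem_erase x _
  have hu : (univ : Finset (Finset ι)) = (insert x ((univ : Finset ι).erase x)).powerset := by
    rw [insert_erase (mem_univ x)]
    simp
  have h1 : ∀ t ∈ ((univ : Finset ι).erase x).powerset, x ∉ t := fun t ht h =>
    hx (mem_powerset.1 ht h)
  have hs : ∑ t ∈ ((univ : Finset ι).erase x).powerset, mu q t +
      ∑ t ∈ ((univ : Finset ι).erase x).powerset, mu q (insert x t) = 1 := by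
    rw [← sum_powerset_insert hx, ← hu, sum_mu]
  have hr : ∀ t ∈ ((univ : Finset ι).erase x).powerset,
      (1 - q) * mu q (insert x t) = q * mu q t := by
    intro t ht
    have hxt := h1 t ht
    have hc1 : (insert x t).card = t.card + 1 := card_insert_of_notMem hxt
    have hc2 : (tᶜ).card = ((insert x t)ᶜ).card + 1 := by
      rw [card_compl, card_compl, hc1]
      have : t.card + 1 ≤ Fintype.card ι := by
        rw [← hc1]
        exact card_le_univ _
      omega
    unfold mu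
    rw [hc1, hc2]
    ring
  have hr' : (1 - q) * ∑ t ∈ ((univ : Finset ι).erase x).powerset, mu q (insert x t) =
      q * ∑ t ∈ ((univ : Finset ι).erase x).powerset, mu q t := by
    rw [mul_sum, mul_sum]
    exact sum_congr rfl hr
  have he : Ex q (fun B : Finset ι => if x ∈ B then (1 : ℝ) else 0) =
      ∑ t ∈ ((univ : Finset ι).erase x).powerset, mu q (insert x t) := by
    unfold Ex
    rw [hu, sum_powerset_insert hx]
    have e1 : ∑ t ∈ ((univ : Finset ι).erase x).powerset,
        mu q t • (if x ∈ t then (1 : ℝ) else 0) = 0 := by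
      refine sum_eq_zero fun t ht => ?_
      rw [if_neg (h1 t ht), smul_zero]
    rw [e1, zero_add]
    refine sum_congr rfl fun t _ => ?_
    beta_reduce
    rw [if_pos (mem_insert_self x t), smul_eq_mul, mul_one]
  rw [he]
  linear_combination (-1 : ℝ) * (hr' * (-1 : ℝ)) + q * hs

lemma Av_site (q : ℝ) (x : ι) (f : Finset ι → ℝ) (A : Finset ι) :
    Av q {x}ᶜ f A = q * f (insert x A) + (1 - q) * f (A.erase x) := by
  unfold Av
  have h : (fun B : Finset ι => f (mix {x}ᶜ A B)) = fun B =>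
      (f (insert x A) - f (A.erase x)) * (if x ∈ B then (1 : ℝ) else 0) + f (A.erase x) := by
    funext B
    rw [mix_site]
    by_cases hx : x ∈ B
    · simp [hx]
    · simp [hx]
  rw [h, Ex_add, Ex_mul_left, Ex_mem, Ex_const]
  ring

/-- resampling one site -/
lemma Ex_site (q : ℝ) (x : ι) (g : Finset ι → ℝ) :
    Ex q g = Ex q (fun A => q * g (insert x A) + (1 - q) * g (A.erase x)) := by
  rw [← Ex_Av q {x}ᶜ g]
  congr 1
  funext A
  exact Av_site q x g A

end site

/-- **Efron-Stein** -/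
theorem es : S_ES := by
  intro ι _ _ q h0 h1 f C hC
  have hC0 : 0 ≤ C := by
    have := hC ∅
    simpa using this
  have key : ∀ x : ι, en q f univ - en q f {x}ᶜ =
      (1 - q) * Ex q (fun A => if x ∈ A then (f A - f (A.erase x)) ^ 2 else 0) := by
    intro x
    rw [← en_sub f (subset_univ _), Av_univ]
    rw [Ex_site q x, ← Ex_mul_left, Ex_site q x (fun A =>
      (1 - q) * if x ∈ A then (f A - f (A.erase x)) ^ 2 else 0)]
    congr 1
    funext A
    rw [Av_site, Av_site]
    have e1 : insert x (insert x A) = insert x A := insert_idem x A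
    have e2 : (insert x A).erase x = A.erase x := by
      ext y
      simp only [mem_erase, mem_insert]
      tauto
    have e3 : insert x (A.erase x) = insert x A := by
      ext y
      simp only [mem_erase, mem_insert]
      tauto
    have e4 : (A.erase x).erase x = A.erase x := by
      ext y
      simp only [mem_erase]
      tauto
    rw [e1, e2, e3, e4, if_pos (mem_insert_self x A), if_neg (notMem_erase x A)]
    ring
  rw [sum_congr rfl fun x _ => key x, ← mul_sum, ← Ex_sum]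
  have h2 : Ex q (fun A : Finset ι => ∑ x : ι, if x ∈ A then (f A - f (A.erase x)) ^ 2 else 0) ≤
      C := by
    rw [← Ex_const (ι := ι) q C]
    refine Ex_mono h0 h1 fun A => ?_
    rw [← sum_filter]
    have : univ.filter (fun x => x ∈ A) = A := by
      ext y
      simp
    rw [this]
    exact hC A
  have h3 : 0 ≤ Ex q (fun A : Finset ι => ∑ x : ι, if x ∈ A then (f A - f (A.erase x)) ^ 2
      else 0) := by
    refine Ex_nonneg h0 h1 fun A => sum_nonneg fun x _ => ?_
    split_ifs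
    · exact sq_nonneg _
    · exact le_refl _
  nlinarith

/-- **third moments** -/
theorem mom : S_MOM := by
  intro ι _ _ q h0 h1 U
  have key : Ex q (fun A : Finset ι => ((A ∩ U).card : ℝ)) = q * U.card ∧
      Ex q (fun A : Finset ι => ((A ∩ U).card : ℝ) ^ 2) ≤ (q * U.card) ^ 2 + q * U.card ∧
      Ex q (fun A : Finset ι => ((A ∩ U).card : ℝ) ^ 3) ≤
        (q * U.card) ^ 3 + 3 * (q * U.card) ^ 2 + q * U.card := by
    induction U using Finset.induction_on with
    | empty =>
      simp only [inter_empty, card_empty, Nat.cast_zero, mul_zero]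
      refine ⟨Ex_const q _, ?_, ?_⟩
      · rw [Ex_const]; norm_num
      · rw [Ex_const]; norm_num
    | insert x U hx ih =>
      obtain ⟨i1, i2, i3⟩ := ih
      have hc : ((insert x U).card : ℝ) = U.card + 1 := by
        rw [card_insert_of_notMem hx]; push_cast; ring
      have c1 : ∀ A : Finset ι, ((insert x A ∩ insert x U).card : ℝ) = (A ∩ U).card + 1 := by
        intro A
        have : insert x A ∩ insert x U = insert x (A ∩ U) := by
          ext y; simp only [mem_inter, mem_insert]; tauto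
        rw [this, card_insert_of_notMem (fun h => hx (mem_inter.1 h).2)]
        push_cast; ring
      have c2 : ∀ A : Finset ι, ((A.erase x ∩ insert x U).card : ℝ) = (A ∩ U).card := by
        intro A
        have : A.erase x ∩ insert x U = A ∩ U := by
          ext y
          simp only [mem_inter, mem_insert, mem_erase]
          constructor
          · rintro ⟨⟨h, h'⟩, h'' | h''⟩
            · exact absurd h'' h
            · exact ⟨h', h''⟩
          · rintro ⟨h, h'⟩
            exact ⟨⟨fun e => hx (e ▸ h'), h⟩, Or.inr h'⟩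
        rw [this]
      have r1 : Ex q (fun A : Finset ι => ((A ∩ insert x U).card : ℝ)) =
          Ex q (fun A : Finset ι => ((A ∩ U).card : ℝ)) + q := by
        rw [Ex_site q x]
        simp only [c1, c2]
        have : (fun A : Finset ι => q * (((A ∩ U).card : ℝ) + 1) + (1 - q) * ((A ∩ U).card : ℝ)) =
            fun A => ((A ∩ U).card : ℝ) + q := by
          funext A; ring
        rw [this, Ex_add, Ex_const]
      have r2 : Ex q (fun A : Finset ι => ((A ∩ insert x U).card : ℝ) ^ 2) =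
          Ex q (fun A : Finset ι => ((A ∩ U).card : ℝ) ^ 2) +
            (2 * q * Ex q (fun A : Finset ι => ((A ∩ U).card : ℝ)) + q) := by
        rw [Ex_site q x]
        simp only [c1, c2]
        have : (fun A : Finset ι => q * (((A ∩ U).card : ℝ) + 1) ^ 2 +
            (1 - q) * ((A ∩ U).card : ℝ) ^ 2) =
            fun A => ((A ∩ U).card : ℝ) ^ 2 + (2 * q * ((A ∩ U).card : ℝ) + q) := by
          funext A; ring
        rw [this, Ex_add, Ex_add, Ex_const, Ex_mul_left]
      have r3 : Ex q (fun A : Finset ι => ((A ∩ insert x U).card : ℝ) ^ 3) =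
          Ex q (fun A : Finset ι => ((A ∩ U).card : ℝ) ^ 3) +
            (3 * q * Ex q (fun A : Finset ι => ((A ∩ U).card : ℝ) ^ 2) +
              (3 * q * Ex q (fun A : Finset ι => ((A ∩ U).card : ℝ)) + q)) := by
        rw [Ex_site q x]
        simp only [c1, c2]
        have : (fun A : Finset ι => q * (((A ∩ U).card : ℝ) + 1) ^ 3 +
            (1 - q) * ((A ∩ U).card : ℝ) ^ 3) =
            fun A => ((A ∩ U).card : ℝ) ^ 3 + (3 * q * ((A ∩ U).card : ℝ) ^ 2 +
              (3 * q * ((A ∩ U).card : ℝ) + q)) := by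
          funext A; ring
        rw [this, Ex_add, Ex_add, Ex_add, Ex_const, Ex_mul_left, Ex_mul_left]
      rw [r1, r2, r3, hc, i1]
      have hl : (0 : ℝ) ≤ q * U.card := by positivity
      refine ⟨by ring, ?_, ?_⟩
      · nlinarith [mul_nonneg h0 h0]
      · have p1 : 3 * q * Ex q (fun A : Finset ι => ((A ∩ U).card : ℝ) ^ 2) ≤
            3 * q * ((q * U.card) ^ 2 + q * U.card) :=
          mul_le_mul_of_nonneg_left i2 (by positivity)
        have p2 : 0 ≤ 3 * (q * U.card) * q ^ 2 + q ^ 3 + 3 * q ^ 2 := by positivity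
        nlinarith
  obtain ⟨k1, k2, k3⟩ := key
  have hl : (0 : ℝ) ≤ q * U.card := by positivity
  refine ⟨k1, k2.trans ?_, k3.trans ?_⟩
  · nlinarith
  · nlinarith [sq_nonneg (q * (U.card : ℝ))]

/-! ### the normal approximation -/

lemma abs_sin_sub (x : ℝ) : |Real.sin x - x| ≤ |x| ^ 3 / 6 := by
  rcases le_total 0 x with h | h
  · rw [abs_of_nonneg h]
    have h1 := Real.sin_ge_sub_cube h
    have h2 := Real.sin_le h
    rw [abs_le]
    constructor <;> linarith
  · have h' : 0 ≤ -x := by linarith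
    rw [abs_of_nonpos h]
    have h1 := Real.sin_ge_sub_cube h'
    have h2 := Real.sin_le h'
    rw [Real.sin_neg] at h1 h2
    rw [abs_le]
    constructor <;> linarith

lemma exp3 (x : ℝ) : ‖Complex.exp (Complex.I * (x : ℂ)) -
    (1 + Complex.I * (x : ℂ) - (x : ℂ) ^ 2 / 2)‖ ≤ |x| ^ 3 := by
  rcases le_total |x| 1 with h | h
  · have hn : ‖Complex.I * (x : ℂ)‖ = |x| := by simp
    have h1 := Complex.exp_bound (x := Complex.I * (x : ℂ)) (by rw [hn]; exact h) (n := 3)
      (by norm_num)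
    have e : ∑ m ∈ range 3, (Complex.I * (x : ℂ)) ^ m / (m.factorial : ℂ) =
        1 + Complex.I * (x : ℂ) - (x : ℂ) ^ 2 / 2 := by
      simp only [Finset.sum_range_succ, Finset.sum_range_zero, Nat.factorial]
      have : (Complex.I * (x : ℂ)) ^ 2 = -(x : ℂ) ^ 2 := by
        rw [mul_pow, Complex.I_sq]; ring
      rw [this]
      push_cast
      ring
    rw [e, hn] at h1
    refine h1.trans ?_
    have h3 : 0 ≤ |x| ^ 3 := by positivity
    have : ((Nat.succ 3 : ℕ) : ℝ) * (((Nat.factorial 3 : ℕ) : ℝ) * ((3 : ℕ) : ℝ))⁻¹ ≤ 1 := by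
      norm_num [Nat.factorial]
    calc _ ≤ |x| ^ 3 * 1 := mul_le_mul_of_nonneg_left this h3
      _ = |x| ^ 3 := mul_one _
  · have e : Complex.exp (Complex.I * (x : ℂ)) - (1 + Complex.I * (x : ℂ) - (x : ℂ) ^ 2 / 2) =
        ((Real.cos x - 1 + x ^ 2 / 2 : ℝ) : ℂ) + ((Real.sin x - x : ℝ) : ℂ) * Complex.I := by
      rw [mul_comm, Complex.exp_mul_I]
      push_cast
      ring
    rw [e]
    refine (norm_add_le _ _).trans ?_
    rw [norm_mul, Complex.norm_I, mul_one, Complex.norm_real, Complex.norm_real,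
      Real.norm_eq_abs, Real.norm_eq_abs]
    have h1 := abs_sin_sub x
    have h2 : |Real.cos x - 1 + x ^ 2 / 2| ≤ |x| ^ 3 / 2 := by
      have a1 := Real.one_sub_sq_div_two_le_cos (x := x)
      have a2 := Real.cos_le_one x
      have a3 : x ^ 2 ≤ |x| ^ 3 := by
        rw [← sq_abs]
        nlinarith [sq_nonneg |x|]
      rw [abs_le]
      constructor
      · have : 0 ≤ |x| ^ 3 := by positivity
        linarith
      · linarith
    have h3 : 0 ≤ |x| ^ 3 := by positivity
    linarith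

lemma exp_neg_bound {y : ℝ} (hy : 0 ≤ y) : |Real.exp (-y) - (1 - y)| ≤ y ^ 2 / 2 := by
  have h1 : 1 - y ≤ Real.exp (-y) := by
    have := Real.add_one_le_exp (-y)
    linarith
  have h2 : Real.exp (-y) ≤ 1 - y + y ^ 2 / 2 := by
    have := Real.quadratic_le_exp_of_nonneg hy
    have h3 : 0 < 1 + y + y ^ 2 / 2 := by positivity
    have h4 : Real.exp (-y) ≤ (1 + y + y ^ 2 / 2)⁻¹ := by
      rw [Real.exp_neg]
      exact inv_anti₀ h3 this
    refine h4.trans ?_
    rw [inv_le_iff_one_le_mul₀ h3]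
    have : 0 ≤ y ^ 4 := by positivity
    nlinarith
  rw [abs_le]
  constructor <;> nlinarith [sq_nonneg y]

section clt

variable {ι : Type} [Fintype ι] [DecidableEq ι]

lemma Ex_norm_le {q : ℝ} (h0 : 0 ≤ q) (h1 : q ≤ 1) (f : Finset ι → ℂ) :
    ‖Ex q f‖ ≤ Ex q fun A => ‖f A‖ := by
  unfold Ex
  refine (norm_sum_le _ _).trans (le_of_eq ?_)
  refine sum_congr rfl fun A _ => ?_
  rw [norm_smul, Real.norm_eq_abs, abs_of_nonneg (mu_nonneg h0 h1 A), smul_eq_mul]

lemma Ex_ofReal (q : ℝ) (f : Finset ι → ℝ) :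
    Ex q (fun A => ((f A : ℝ) : ℂ)) = ((Ex q f : ℝ) : ℂ) := by
  unfold Ex
  push_cast
  refine sum_congr rfl fun A _ => ?_
  rw [smul_eq_mul, Complex.real_smul]
  push_cast
  ring

lemma Ex_mul_c (q : ℝ) (c : ℂ) (f : Finset ι → ℂ) :
    Ex q (fun A => c * f A) = c * Ex q f := by
  unfold Ex
  rw [mul_sum]
  refine sum_congr rfl fun A _ => ?_
  rw [mul_smul_comm]

lemma exp_sub_exp_le (x y : ℝ) :
    ‖Complex.exp (Complex.I * (x : ℂ)) - Complex.exp (Complex.I * (y : ℂ))‖ ≤ |x - y| := by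
  have e : Complex.exp (Complex.I * (x : ℂ)) - Complex.exp (Complex.I * (y : ℂ)) =
      Complex.exp (Complex.I * (y : ℂ)) *
        (Complex.exp (Complex.I * ((x - y : ℝ) : ℂ)) - 1) := by
    rw [mul_sub, ← Complex.exp_add, mul_one]
    congr 2
    push_cast
    ring
  rw [e, norm_mul]
  have h1 : ‖Complex.exp (Complex.I * (y : ℂ))‖ = 1 := by
    rw [mul_comm]
    exact Complex.norm_exp_ofReal_mul_I y
  rw [h1, one_mul]
  have := Real.norm_exp_I_mul_ofReal_sub_one_le (x := x - y)
  rwa [Real.norm_eq_abs] at this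

/-- one block -/
lemma block {q : ℝ} (h0 : 0 ≤ q) (h1 : q ≤ 1) (u : Finset ι → ℝ) (hu : Ex q u = 0) :
    ‖Ex q (fun A => Complex.exp (Complex.I * (u A : ℂ))) -
      Complex.exp ((-(Ex q fun A => u A ^ 2) / 2 : ℝ) : ℂ)‖ ≤
    Ex q (fun A => |u A| ^ 3) + (Ex q fun A => u A ^ 2) ^ 2 := by
  set v := Ex q fun A => u A ^ 2 with hv
  have hv0 : 0 ≤ v := Ex_nonneg h0 h1 fun _ => sq_nonneg _
  have e1 : Ex q (fun A => (1 + Complex.I * (u A : ℂ) - (u A : ℂ) ^ 2 / 2)) =
      ((1 - v / 2 : ℝ) : ℂ) := by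
    have : (fun A => (1 + Complex.I * (u A : ℂ) - (u A : ℂ) ^ 2 / 2)) =
        fun A => ((1 : ℂ) + Complex.I * ((u A : ℝ) : ℂ)) - (1 / 2 : ℂ) * ((u A ^ 2 : ℝ) : ℂ) := by
      funext A
      push_cast
      ring
    rw [this, Ex_sub, Ex_add, Ex_const, Ex_mul_c, Ex_mul_c, Ex_ofReal, Ex_ofReal, hu, ← hv]
    push_cast
    ring
  have a1 : ‖Ex q (fun A => Complex.exp (Complex.I * (u A : ℂ))) - ((1 - v / 2 : ℝ) : ℂ)‖ ≤
      Ex q (fun A => |u A| ^ 3) := by
    rw [← e1, ← Ex_sub]
    exact (Ex_norm_le h0 h1 _).trans (Ex_mono h0 h1 fun A => exp3 (u A))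
  have a2 : ‖((1 - v / 2 : ℝ) : ℂ) - Complex.exp ((-v / 2 : ℝ) : ℂ)‖ ≤ v ^ 2 := by
    rw [← Complex.ofReal_exp, ← Complex.ofReal_sub, Complex.norm_real, Real.norm_eq_abs,
      abs_sub_comm]
    have := exp_neg_bound (y := v / 2) (by positivity)
    have e : -v / 2 = -(v / 2) := by ring
    rw [e]
    refine this.trans ?_
    nlinarith [sq_nonneg v]
  calc _ ≤ ‖Ex q (fun A => Complex.exp (Complex.I * (u A : ℂ))) - ((1 - v / 2 : ℝ) : ℂ)‖ +
        ‖((1 - v / 2 : ℝ) : ℂ) - Complex.exp ((-v / 2 : ℝ) : ℂ)‖ := norm_sub_le_norm_sub_add_norm_sub _ _ _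
    _ ≤ _ := add_le_add a1 a2

lemma prod_diff {κ : Type} [DecidableEq κ] (T : Finset κ) (a b : κ → ℂ)
    (ha : ∀ c ∈ T, ‖a c‖ ≤ 1) (hb : ∀ c ∈ T, ‖b c‖ ≤ 1) :
    ‖∏ c ∈ T, a c - ∏ c ∈ T, b c‖ ≤ ∑ c ∈ T, ‖a c - b c‖ := by
  induction T using Finset.induction_on with
  | empty => simp
  | insert c T hc ih =>
    rw [prod_insert hc, prod_insert hc, sum_insert hc]
    have ih' := ih (fun d hd => ha d (mem_insert_of_mem hd))
      (fun d hd => hb d (mem_insert_of_mem hd))
    have e : a c * ∏ d ∈ T, a d - b c * ∏ d ∈ T, b d =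
        (a c - b c) * ∏ d ∈ T, a d + b c * (∏ d ∈ T, a d - ∏ d ∈ T, b d) := by ring
    rw [e]
    refine (norm_add_le _ _).trans ?_
    rw [norm_mul, norm_mul]
    have p1 : ‖∏ d ∈ T, a d‖ ≤ 1 := by
      rw [norm_prod]
      exact prod_le_one (fun _ _ => norm_nonneg _) fun d hd => ha d (mem_insert_of_mem hd)
    have p2 := hb c (mem_insert_self c T)
    have q1 : ‖a c - b c‖ * ‖∏ d ∈ T, a d‖ ≤ ‖a c - b c‖ * 1 :=
      mul_le_mul_of_nonneg_left p1 (norm_nonneg _)
    have q2 : ‖b c‖ * ‖∏ d ∈ T, a d - ∏ d ∈ T, b d‖ ≤ 1 * ‖∏ d ∈ T, a d - ∏ d ∈ T, b d‖ :=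
      mul_le_mul_of_nonneg_right p2 (norm_nonneg _)
    linarith

end clt

/-- **normal approximation** -/
theorem clt : S_CLT := by
  intro ι _ _ κ _ q h0 h1 T cl hd G hG δ hδ
  obtain ⟨u, hu⟩ : ∃ u : κ → Finset ι → ℝ, u = fun c => Av q (cl c) G := ⟨_, rfl⟩
  have huc : ∀ c, Av q (cl c) G = u c := fun c => by rw [hu]
  have hen : ∀ c, en q G (cl c) = Ex q fun A => u c A ^ 2 := fun c => by rw [hu]; rfl
  have hVr : Vr q G = en q G univ := by
    unfold Vr en
    rw [hG, Av_univ]
    simp only [sub_zero]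
  obtain ⟨d, hdd⟩ : ∃ d, d = Vr q G - ∑ c ∈ T, en q G (cl c) := ⟨_, rfl⟩
  rw [← hdd] at hδ
  have hW : Ex q (fun A => (G A - ∑ c ∈ T, u c A) ^ 2) = d := by
    have := pyth (q := q) G hG T cl hd univ (fun c _ => subset_univ _)
    rw [Av_univ] at this
    rw [hdd, hVr, ← this, hu]
  have hd0 : 0 ≤ d := by
    rw [← hW]
    exact Ex_nonneg h0 h1 fun _ => sq_nonneg _
  have hu0 : ∀ c, Ex q (u c) = 0 := fun c => by rw [hu]; show Ex q (Av q (cl c) G) = 0; rw [Ex_Av, hG]
  -- step 1
  have s1 : ‖Ex q (fun A : Finset ι => Complex.exp (Complex.I * (G A : ℂ))) -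
      Ex q (fun A : Finset ι => Complex.exp (Complex.I * ((∑ c ∈ T, u c A : ℝ) : ℂ)))‖ ≤
      Real.sqrt δ := by
    rw [← Ex_sub]
    refine (Ex_norm_le h0 h1 _).trans ?_
    have a1 : Ex q (fun A : Finset ι => ‖Complex.exp (Complex.I * (G A : ℂ)) -
        Complex.exp (Complex.I * ((∑ c ∈ T, u c A : ℝ) : ℂ))‖) ≤
        Ex q (fun A : Finset ι => |G A - ∑ c ∈ T, u c A|) :=
      Ex_mono h0 h1 fun A => exp_sub_exp_le _ _
    refine a1.trans ((Ex_abs_le_sqrt h0 h1 _).trans ?_)
    rw [hW]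
    exact Real.sqrt_le_sqrt hδ
  -- step 2
  have s2 : Ex q (fun A : Finset ι => Complex.exp (Complex.I * ((∑ c ∈ T, u c A : ℝ) : ℂ))) =
      ∏ c ∈ T, Ex q (fun A : Finset ι => Complex.exp (Complex.I * (u c A : ℂ))) := by
    have e := Ex_prod_indep (E := ℂ) q T cl hd
      (fun c A => Complex.exp (Complex.I * (u c A : ℂ)))
      (fun c hc => by
        intro A B hAB
        have : u c A = u c B := by
          rw [← huc c]
          exact Dep_Av q (cl c) G A B hAB
        simp only [this])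
    have e2 : (fun A : Finset ι => Complex.exp (Complex.I * ((∑ c ∈ T, u c A : ℝ) : ℂ))) =
        fun A => ∏ c ∈ T, Complex.exp (Complex.I * (u c A : ℂ)) := by
      funext A
      rw [← Complex.exp_sum]
      congr 1
      push_cast
      rw [mul_sum]
    rw [e2]
    exact e
  -- step 3
  have s3 : ‖∏ c ∈ T, Ex q (fun A : Finset ι => Complex.exp (Complex.I * (u c A : ℂ))) -
      ∏ c ∈ T, Complex.exp ((-(Ex q fun A => u c A ^ 2) / 2 : ℝ) : ℂ)‖ ≤
      ∑ c ∈ T, (Ex q (fun A => |Av q (cl c) G A| ^ 3) + (en q G (cl c)) ^ 2) := by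
    refine (prod_diff T _ _ (fun c _ => ?_) (fun c _ => ?_)).trans ?_
    · refine (Ex_norm_le h0 h1 _).trans (le_of_eq ?_)
      have : (fun A : Finset ι => ‖Complex.exp (Complex.I * (u c A : ℂ))‖) = fun _ => (1 : ℝ) := by
        funext A
        rw [mul_comm]
        exact Complex.norm_exp_ofReal_mul_I _
      rw [this, Ex_const]
    · rw [← Complex.ofReal_exp, Complex.norm_real, Real.norm_eq_abs,
        abs_of_pos (Real.exp_pos _)]
      apply Real.exp_le_one_iff.2
      have : 0 ≤ Ex q fun A => u c A ^ 2 := Ex_nonneg h0 h1 fun _ => sq_nonneg _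
      linarith
    · refine sum_le_sum fun c _ => ?_
      rw [huc c, hen c]
      exact block h0 h1 (u c) (hu0 c)
  -- step 4
  have s4 : ∏ c ∈ T, Complex.exp ((-(Ex q fun A => u c A ^ 2) / 2 : ℝ) : ℂ) =
      ((Real.exp (-(∑ c ∈ T, en q G (cl c)) / 2) : ℝ) : ℂ) := by
    rw [← Complex.exp_sum, Complex.ofReal_exp]
    congr 1
    rw [← Complex.ofReal_sum]
    congr 1
    rw [← Finset.sum_neg_distrib, Finset.sum_div]
    refine sum_congr rfl fun c _ => ?_
    rw [hen c]
  have s5 : ‖((Real.exp (-(∑ c ∈ T, en q G (cl c)) / 2) : ℝ) : ℂ) -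
      Complex.exp ((-(Vr q G) / 2 : ℝ) : ℂ)‖ ≤ δ / 2 := by
    rw [← Complex.ofReal_exp, ← Complex.ofReal_sub, Complex.norm_real, Real.norm_eq_abs]
    obtain ⟨τ, hτ⟩ : ∃ τ, τ = ∑ c ∈ T, en q G (cl c) := ⟨_, rfl⟩
    rw [← hτ]
    have hτ0 : 0 ≤ τ := by
      rw [hτ]
      exact sum_nonneg fun c _ => en_nonneg h0 h1 _ _
    have hV : Vr q G = τ + d := by rw [hdd, hτ]; ring
    rw [hV]
    have e : Real.exp (-(τ + d) / 2) = Real.exp (-τ / 2) * Real.exp (-d / 2) := by
      rw [← Real.exp_add]; congr 1; ring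
    rw [e]
    have b1 : Real.exp (-τ / 2) ≤ 1 := Real.exp_le_one_iff.2 (by linarith)
    have b2 : Real.exp (-d / 2) ≤ 1 := Real.exp_le_one_iff.2 (by linarith)
    have b3 : -d / 2 + 1 ≤ Real.exp (-d / 2) := Real.add_one_le_exp _
    have b4 := Real.exp_pos (-τ / 2)
    rw [abs_of_nonneg (by nlinarith)]
    nlinarith
  calc _ ≤ ‖Ex q (fun A : Finset ι => Complex.exp (Complex.I * (G A : ℂ))) -
        Ex q (fun A : Finset ι => Complex.exp (Complex.I * ((∑ c ∈ T, u c A : ℝ) : ℂ)))‖ +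
        ‖Ex q (fun A : Finset ι => Complex.exp (Complex.I * ((∑ c ∈ T, u c A : ℝ) : ℂ))) -
          Complex.exp ((-(Vr q G) / 2 : ℝ) : ℂ)‖ := norm_sub_le_norm_sub_add_norm_sub _ _ _
    _ ≤ Real.sqrt δ + (∑ c ∈ T, (Ex q (fun A => |Av q (cl c) G A| ^ 3) + (en q G (cl c)) ^ 2) +
          δ / 2) := by
        refine add_le_add s1 ?_
        rw [s2]
        refine (norm_sub_le_norm_sub_add_norm_sub _
          (∏ c ∈ T, Complex.exp ((-(Ex q fun A => u c A ^ 2) / 2 : ℝ) : ℂ)) _).trans ?_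
        refine add_le_add s3 ?_
        rw [s4]
        exact s5
    _ = _ := by ring

end Pool.Agent.N940.TSP.Abs
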