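import Pool.Agent.N940.TSP.Dep1

/-!
# De-Poissonization, part 2: Gaussian smoothing
-/

set_option autoImplicit false
set_option linter.unusedSectionVars false
set_option linter.unusedVariables false
set_option linter.unusedSimpArgs false

open Filter Topology Finset MeasureTheory ProbabilityTheory

namespace Pool.Agent.N940.TSP.Dep

lemma exp_lip (u v : ℝ) :
    ‖Complex.exp (Complex.I * (u : ℂ)) - Complex.exp (Complex.I * (v : ℂ))‖ ≤ |u - v| := by
  have h : Complex.exp (Complex.I * (u : ℂ)) - Complex.exp (Complex.I * (v : ℂ)) =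
      Complex.exp (Complex.I * (v : ℂ)) * (Complex.exp (Complex.I * ((u - v : ℝ) : ℂ)) - 1) := by
    rw [mul_sub, ← Complex.exp_add, mul_one]
    congr 2
    push_cast; ring
  rw [h, norm_mul]
  have h1 : ‖Complex.exp (Complex.I * (v : ℂ))‖ = 1 := by
    rw [mul_comm]; exact Complex.norm_exp_ofReal_mul_I v
  rw [h1, one_mul]
  exact Real.norm_exp_I_mul_ofReal_sub_one_le

/-- the standard Gaussian measure -/
noncomputable abbrev γ : Measure ℝ := gaussianReal 0 1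

/-- the smoothing weight -/
noncomputable def psi (δ x : ℝ) : ℝ := Real.exp (-(x ^ 2) / (2 * δ ^ 2))

lemma psi_pos (δ x : ℝ) : 0 < psi δ x := Real.exp_pos _

lemma psi_int (δ x : ℝ) (hδ : 0 < δ) :
    ((psi δ x : ℝ) : ℂ) = ∫ G : ℝ, Complex.exp (Complex.I * ((G / δ * x : ℝ) : ℂ)) ∂γ := by
  have h := charFun_gaussianReal (μ := 0) (v := 1) (x / δ)
  rw [charFun_apply_real] at h
  have h2 : ∀ G : ℝ, Complex.exp (((x / δ : ℝ) : ℂ) * (G : ℂ) * Complex.I) =
      Complex.exp (Complex.I * ((G / δ * x : ℝ) : ℂ)) := by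
    intro G
    congr 1
    push_cast
    ring
  simp only [h2] at h
  rw [h]
  unfold psi
  push_cast
  congr 1
  have : (δ : ℂ) ≠ 0 := by exact_mod_cast hδ.ne'
  field_simp
  ring

lemma J_eval (τ : ℝ) (hτ : 0 ≤ τ) :
    ∫ G : ℝ, Real.exp (-(τ * G ^ 2) / 2) ∂γ = (Real.sqrt (1 + τ))⁻¹ := by
  rw [integral_gaussianReal_eq_integral_smul (by norm_num)]
  have h1 : ∀ x : ℝ, gaussianPDFReal 0 1 x • Real.exp (-(τ * x ^ 2) / 2) =
      (Real.sqrt (2 * Real.pi))⁻¹ * Real.exp (-((1 + τ) / 2) * x ^ 2) := by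
    intro x
    rw [gaussianPDFReal_def]
    simp only [NNReal.coe_one, mul_one, sub_zero, smul_eq_mul]
    rw [mul_assoc, ← Real.exp_add]
    congr 2
    ring
  simp only [h1]
  rw [integral_const_mul, integral_gaussian]
  have hp : 0 < Real.pi := Real.pi_pos
  have ht : 0 < 1 + τ := by linarith
  have e : Real.pi / ((1 + τ) / 2) = (2 * Real.pi) / (1 + τ) := by
    field_simp
  rw [e, Real.sqrt_div (by positivity)]
  have h2 : Real.sqrt (2 * Real.pi) ≠ 0 := (Real.sqrt_pos.mpr (by positivity)).ne'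
  field_simp

lemma integrable_pow4 (B δ : ℝ) : Integrable (fun G : ℝ => (B + |G| / δ) ^ 4) γ := by
  have h : MemLp (fun G : ℝ => B + δ⁻¹ * |G|) ((4 : ℕ) : ENNReal) γ := by
    refine (memLp_const B).add (MemLp.const_mul ?_ _)
    have := (memLp_id_gaussianReal' (μ := 0) (v := 1) ((4 : ℕ) : ENNReal) (by simp)).norm
    simpa using this
  have h2 := h.integrable_norm_pow (by norm_num)
  refine h2.congr (ae_of_all _ fun G => ?_)
  simp only [Real.norm_eq_abs]
  rw [Even.pow_abs (by decide)]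
  congr 1
  ring

/-- the error constant -/
noncomputable def R4 (B δ : ℝ) : ℝ := ∫ G : ℝ, (B + |G| / δ) ^ 4 ∂γ

lemma R4_nonneg (B δ : ℝ) : 0 ≤ R4 B δ := integral_nonneg fun G => by positivity

section fin

variable {ι : Type} [Fintype ι] [DecidableEq ι]

lemma norm_expI (u : ℝ) : ‖Complex.exp (Complex.I * (u : ℂ))‖ = 1 := by
  rw [mul_comm]; exact Complex.norm_exp_ofReal_mul_I u

lemma continuous_expI {f : ℝ → ℝ} (hf : Continuous f) :
    Continuous fun G : ℝ => Complex.exp (Complex.I * ((f G : ℝ) : ℂ)) := by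
  fun_prop

lemma integrable_expI {f : ℝ → ℝ} (hf : Continuous f) :
    Integrable (fun G : ℝ => Complex.exp (Complex.I * ((f G : ℝ) : ℂ))) γ := by
  refine Integrable.of_bound (continuous_expI hf).aestronglyMeasurable 1 (ae_of_all _ fun G => ?_)
  rw [norm_expI]

/-- exchange of the Gaussian average and the finite expectation -/
lemma smooth_eq (q δ : ℝ) (hδ : 0 < δ) (u x : Finset ι → ℝ) :
    Ex q (fun A : Finset ι => ((psi δ (x A) : ℝ) : ℂ) * Complex.exp (Complex.I * (u A : ℂ))) =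
      ∫ G : ℝ, Ex q (fun A : Finset ι =>
        Complex.exp (Complex.I * ((u A + G / δ * x A : ℝ) : ℂ))) ∂γ := by
  unfold Ex
  rw [integral_finsetSum]
  · refine Finset.sum_congr rfl fun A _ => ?_
    rw [integral_smul]
    congr 1
    beta_reduce
    rw [psi_int δ (x A) hδ, ← integral_mul_const]
    refine integral_congr_ae (ae_of_all _ fun G => ?_)
    beta_reduce
    rw [← Complex.exp_add]
    congr 1
    push_cast
    ring
  · intro A _
    refine Integrable.smul _ (integrable_expI ?_)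
    fun_prop

/-- the smoothed characteristic function -/
lemma smooth_close (q δ η a k' s2 θ B : ℝ) (hδ : 0 < δ) (hη : 0 ≤ η) (hθ : 0 ≤ θ)
    (f x : Finset ι → ℝ) (hB : 1 + |a| + |a * k'| ≤ B)
    (hchar : ∀ β : ℝ, ‖Ex q (fun A : Finset ι => Complex.exp (Complex.I *
          ((a * f A + β * x A : ℝ) : ℂ))) -
        Complex.exp ((-(a ^ 2 * s2 + (β + a * k') ^ 2 * θ) / 2 : ℝ) : ℂ)‖
        ≤ η * (1 + |a| + |β|) ^ 4) :
    ‖Ex q (fun A : Finset ι => ((psi δ (x A) : ℝ) : ℂ) *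
        Complex.exp (Complex.I * ((a * (f A - k' * x A) : ℝ) : ℂ))) -
      Complex.exp ((-(a ^ 2 * s2) / 2 : ℝ) : ℂ) * (((Real.sqrt (1 + θ / δ ^ 2))⁻¹ : ℝ) : ℂ)‖ ≤
      η * R4 B δ := by
  have hτ : 0 ≤ θ / δ ^ 2 := by positivity
  rw [smooth_eq q δ hδ, ← J_eval _ hτ, ← integral_complex_ofReal, ← integral_const_mul]
  have hint1 : Integrable (fun G : ℝ => Ex q (fun A : Finset ι =>
        Complex.exp (Complex.I * ((a * (f A - k' * x A) + G / δ * x A : ℝ) : ℂ)))) γ := by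
    unfold Ex
    refine integrable_finsetSum _ fun A _ => ?_
    refine Integrable.smul _ (integrable_expI ?_)
    fun_prop
  have hint2 : Integrable (fun G : ℝ => Complex.exp ((-(a ^ 2 * s2) / 2 : ℝ) : ℂ) *
      ((Real.exp (-(θ / δ ^ 2 * G ^ 2) / 2) : ℝ) : ℂ)) γ := by
    refine Integrable.const_mul ?_ _
    refine Integrable.of_bound (by fun_prop) 1 (ae_of_all _ fun G => ?_)
    rw [Complex.norm_real, Real.norm_of_nonneg (Real.exp_pos _).le]
    refine Real.exp_le_one_iff.mpr ?_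
    have : 0 ≤ θ / δ ^ 2 * G ^ 2 := by positivity
    linarith
  rw [← integral_sub hint1 hint2]
  unfold R4
  rw [← integral_const_mul]
  refine norm_integral_le_of_norm_le ((integrable_pow4 B δ).const_mul η) (ae_of_all _ fun G => ?_)
  have h := hchar (G / δ - a * k')
  have e1 : ∀ A : Finset ι, a * f A + (G / δ - a * k') * x A =
      a * (f A - k' * x A) + G / δ * x A := fun A => by ring
  simp only [e1] at h
  have e2 : Complex.exp ((-(a ^ 2 * s2 + (G / δ - a * k' + a * k') ^ 2 * θ) / 2 : ℝ) : ℂ) =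
      Complex.exp ((-(a ^ 2 * s2) / 2 : ℝ) : ℂ) *
        ((Real.exp (-(θ / δ ^ 2 * G ^ 2) / 2) : ℝ) : ℂ) := by
    rw [Complex.ofReal_exp, ← Complex.exp_add]
    congr 1
    push_cast
    field_simp
    ring
  rw [e2] at h
  refine h.trans ?_
  refine mul_le_mul_of_nonneg_left ?_ hη
  refine pow_le_pow_left₀ (by positivity) ?_ 4
  have h3 : |G / δ - a * k'| ≤ |G| / δ + |a * k'| := by
    refine (abs_sub _ _).trans ?_
    rw [abs_div, abs_of_pos hδ]
  linarith

lemma psi_mul_le (δ y : ℝ) (hδ : 0 < δ) : psi δ y * |y| ≤ 2 * δ * psi (2 * δ) y := by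
  unfold psi
  have h4 : |y| / (2 * δ) ≤ Real.exp (3 * y ^ 2 / (8 * δ ^ 2)) := by
    have h5 := Real.add_one_le_exp (3 * y ^ 2 / (8 * δ ^ 2))
    refine le_trans ?_ h5
    set z := |y| / (2 * δ) with hz
    have h6 : 3 * y ^ 2 / (8 * δ ^ 2) = 3 / 2 * z ^ 2 := by
      rw [hz, div_pow, sq_abs]
      field_simp
      ring
    rw [h6]
    nlinarith [sq_nonneg (z - 1), sq_nonneg z, sq_nonneg (3 * z - 1)]
  have h7 : Real.exp (-(y ^ 2) / (2 * (2 * δ) ^ 2)) =
      Real.exp (-(y ^ 2) / (2 * δ ^ 2)) * Real.exp (3 * y ^ 2 / (8 * δ ^ 2)) := by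
    rw [← Real.exp_add]
    congr 1
    field_simp
    ring
  rw [h7]
  rw [div_le_iff₀ (by positivity)] at h4
  have := mul_le_mul_of_nonneg_left h4 (Real.exp_pos (-(y ^ 2) / (2 * δ ^ 2))).le
  calc _ ≤ _ := this
    _ = _ := by ring

/-- the averages with the smoothing weight against the fixed layer -/
lemma layer_close (q δ K a : ℝ) (n : ℕ) (hn : 1 ≤ n) (h0 : 0 ≤ q) (h1 : q ≤ 1) (hδ : 0 < δ)
    (hK : 0 ≤ K) (ha : 0 ≤ a) (Φ : Finset ι → ℂ)
    (hreg : ∀ m : ℕ, m ≤ Fintype.card ι →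
      ‖U m Φ - U n Φ‖ ≤ a * K * |((m : ℝ) - n) / Real.sqrt n|) :
    ‖Ex q (fun A : Finset ι =>
        ((psi δ (((A.card : ℝ) - n) / Real.sqrt n) : ℝ) : ℂ) * Φ A) -
      U n Φ * ((Ex q (fun A : Finset ι => psi δ (((A.card : ℝ) - n) / Real.sqrt n)) : ℝ) : ℂ)‖ ≤
      a * K * (2 * δ) *
        Ex q (fun A : Finset ι => psi (2 * δ) (((A.card : ℝ) - n) / Real.sqrt n)) := by
  set g := Fintype.card ι with hg
  rw [Ex_layer q (fun m => psi δ (((m : ℝ) - n) / Real.sqrt n)),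
    Ex_card (ι := ι) q (fun m => psi δ (((m : ℝ) - n) / Real.sqrt n)),
    Ex_card (ι := ι) q (fun m => psi (2 * δ) (((m : ℝ) - n) / Real.sqrt n))]
  rw [Complex.ofReal_sum, Finset.mul_sum, ← Finset.sum_sub_distrib, Finset.mul_sum]
  refine (norm_sum_le _ _).trans (Finset.sum_le_sum fun m hm => ?_)
  have hm' : m ≤ Fintype.card ι := Nat.lt_succ_iff.mp (Finset.mem_range.mp hm)
  set y := ((m : ℝ) - n) / Real.sqrt n with hy
  have hP : 0 ≤ Pm g q m := Pm_nonneg h0 h1 _ _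
  have e1 : ((Pm (Fintype.card ι) q m * psi δ y : ℝ) : ℂ) * U m Φ -
      U n Φ * ((Pm (Fintype.card ι) q m * psi δ y : ℝ) : ℂ) =
      ((Pm (Fintype.card ι) q m * psi δ y : ℝ) : ℂ) * (U m Φ - U n Φ) := by ring
  rw [e1, norm_mul, Complex.norm_real, Real.norm_of_nonneg (mul_nonneg hP (psi_pos _ _).le)]
  have h2 := hreg m hm'
  have h3 : psi δ y * |y| ≤ 2 * δ * psi (2 * δ) y := psi_mul_le δ y hδ
  calc Pm (Fintype.card ι) q m * psi δ y * ‖U m Φ - U n Φ‖
      ≤ Pm (Fintype.card ι) q m * psi δ y * (a * K * |y|) :=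
        mul_le_mul_of_nonneg_left h2 (mul_nonneg hP (psi_pos _ _).le)
    _ = (Pm (Fintype.card ι) q m * (a * K)) * (psi δ y * |y|) := by ring
    _ ≤ (Pm (Fintype.card ι) q m * (a * K)) * (2 * δ * psi (2 * δ) y) :=
        mul_le_mul_of_nonneg_left h3 (by positivity)
    _ = _ := by ring

end fin

/-- the final inequality -/
lemma concl (W u e : ℂ) (E0 E2 J J2 r r' a K δ : ℝ) (haK : 0 ≤ a * K) (hδ : 0 < δ) (hJ : 0 < J)
    (h1 : ‖W - u * (E0 : ℂ)‖ ≤ a * K * (2 * δ) * E2) (h2 : ‖W - e * (J : ℂ)‖ ≤ r)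
    (h3 : |E0 - J| ≤ r) (h4 : E2 ≤ J2 + r') (h5 : J2 ≤ 2 * J) (he : ‖e‖ ≤ 1)
    (hr : r ≤ J / 2) (hr2 : r ≤ δ * J) (hr' : r' ≤ J) :
    ‖u - e‖ ≤ (12 * (a * K) + 4) * δ := by
  have hE0 : J / 2 ≤ E0 := by
    have := (abs_le.mp h3).1
    linarith
  have hE0' : 0 < E0 := by linarith
  have h6 : ‖(u - e) * (E0 : ℂ)‖ ≤ a * K * (2 * δ) * E2 + r + r := by
    have e1 : (u - e) * (E0 : ℂ) = -(W - u * (E0 : ℂ)) + (W - e * (J : ℂ)) +
        e * ((J - E0 : ℝ) : ℂ) := by push_cast; ring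
    rw [e1]
    refine (norm_add_le _ _).trans (add_le_add ((norm_add_le _ _).trans (add_le_add ?_ h2)) ?_)
    · rwa [norm_neg]
    · rw [norm_mul, Complex.norm_real, Real.norm_eq_abs, abs_sub_comm]
      calc ‖e‖ * |E0 - J| ≤ 1 * |E0 - J| := mul_le_mul_of_nonneg_right he (abs_nonneg _)
        _ ≤ r := by rw [one_mul]; exact h3
  rw [norm_mul, Complex.norm_real, Real.norm_of_nonneg hE0'.le] at h6
  have h7 : E2 ≤ 3 * J := by linarith
  have h8 : a * K * (2 * δ) * E2 ≤ a * K * (2 * δ) * (3 * J) :=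
    mul_le_mul_of_nonneg_left h7 (by positivity)
  have h9 : ‖u - e‖ * (J / 2) ≤ ‖u - e‖ * E0 := mul_le_mul_of_nonneg_left hE0 (norm_nonneg _)
  have h10 : ‖u - e‖ * (J / 2) ≤ ((12 * (a * K) + 4) * δ) * (J / 2) := by
    nlinarith
  exact le_of_mul_le_mul_right h10 (by positivity)

end Pool.Agent.N940.TSP.Dep
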