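import Pool.Agent.N940.TSP.Stm

/-!
# From uniform points of a fine grid to uniform points of the unit square

Proof of `S_FIN`.
-/

set_option autoImplicit false

open MeasureTheory Filter Topology

namespace Pool.Agent.N940.TSP.FinStep

/-- the length of the shortest closed tour -/
noncomputable def Ln (n : ℕ) (x : Fin n → Fin 2 → ℝ) : ℝ :=
  ⨅ σ : Equiv.Perm (Fin n), ∑ i : Fin n,
    Real.sqrt ((x (σ i) 0 - x (σ (finRotate n i)) 0) ^ 2
      + (x (σ i) 1 - x (σ (finRotate n i)) 1) ^ 2)

/-- the uniform distribution on the unit square -/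
noncomputable def U : Measure (Fin 2 → ℝ) :=
  (volume : Measure (Fin 2 → ℝ)).restrict (Set.Icc (0 : Fin 2 → ℝ) 1)

/-- the distribution of `n` independent uniform points -/
noncomputable def P (n : ℕ) : Measure (Fin n → Fin 2 → ℝ) := Measure.pi (fun _ : Fin n => U)

instance : IsProbabilityMeasure U := ⟨by
  unfold U
  rw [Measure.restrict_apply MeasurableSet.univ, Set.univ_inter, Real.volume_Icc_pi]
  simp⟩

instance (n : ℕ) : IsProbabilityMeasure (P n) := by unfold P; infer_instance

theorem measurable_Ln (n : ℕ) : Measurable (Ln n) := by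
  unfold Ln
  refine Measurable.iInf fun σ => ?_
  fun_prop

/-- a point of the plane as a complex number -/
noncomputable def toC (x : Fin 2 → ℝ) : ℂ := ⟨x 0, x 1⟩

theorem Ln_eq (hperm : S_PERM) (n : ℕ) (x : Fin n → Fin 2 → ℝ) (hx : Function.Injective x) :
    Ln n x = tsp (Set.range fun i => toC (x i)) := by
  have hinj : Function.Injective (fun i => toC (x i)) := by
    intro i j h
    apply hx
    have h0 : x i 0 = x j 0 := congrArg Complex.re h
    have h1 : x i 1 = x j 1 := congrArg Complex.im h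
    funext k
    fin_cases k
    · exact h0
    · exact h1
  have := hperm n (fun i => toC (x i)) hinj
  rw [← this]
  unfold Ln
  congr 1
  funext σ
  refine Finset.sum_congr rfl fun i _ => ?_
  rw [Complex.dist_eq_re_im]
  rfl

theorem ae_inj (n : ℕ) : ∀ᵐ x ∂(P n), Function.Injective x := by
  have hac : P n ≪ (volume : Measure (Fin n → Fin 2 → ℝ)) := by
    unfold P U
    rw [← Measure.restrict_pi_pi]
    exact Measure.restrict_le_self.absolutelyContinuous
  apply hac.ae_le
  have key : ∀ i j : Fin n, i ≠ j → ∀ᵐ x : Fin n → Fin 2 → ℝ, x i ≠ x j := by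
    intro i j hij
    let s : Submodule ℝ (Fin n → Fin 2 → ℝ) :=
      LinearMap.ker ((LinearMap.proj i : (Fin n → Fin 2 → ℝ) →ₗ[ℝ] (Fin 2 → ℝ)) - LinearMap.proj j)
    have hs : s ≠ ⊤ := by
      intro h
      have h1 : (Pi.single i (fun _ => (1 : ℝ)) : Fin n → Fin 2 → ℝ) ∈ s := by rw [h]; trivial
      rw [LinearMap.mem_ker] at h1
      simp only [LinearMap.sub_apply, LinearMap.proj_apply, Pi.single_eq_same,
        Pi.single_eq_of_ne (Ne.symm hij), sub_zero] at h1
      have h2 := congrFun h1 0
      simp at h2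
    have h0 := Measure.addHaar_submodule (volume : Measure (Fin n → Fin 2 → ℝ)) s hs
    rw [ae_iff]
    convert h0 using 2
    ext x
    simp only [ne_eq, not_not, Set.mem_ofPred_eq, SetLike.mem_coe]
    constructor
    · intro h
      show x ∈ LinearMap.ker _
      rw [LinearMap.mem_ker]
      simp [h]
    · intro h
      have h' := LinearMap.mem_ker.1 h
      simp only [LinearMap.sub_apply, LinearMap.proj_apply] at h'
      exact sub_eq_zero.1 h'
  filter_upwards [ae_all_iff.2 fun i => ae_all_iff.2 fun j => ae_all_iff.2 (key i j)] with x hx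
  intro i j hij
  by_contra hne
  exact hx i j hne hij

theorem ae_mem (n : ℕ) : ∀ᵐ x ∂(P n), ∀ i j, 0 ≤ x i j ∧ x i j ≤ 1 := by
  unfold P U
  rw [← Measure.restrict_pi_pi]
  filter_upwards [ae_restrict_mem (MeasurableSet.univ_pi fun _ => measurableSet_Icc)] with x hx
  intro i j
  have h := hx i (Set.mem_univ i)
  exact ⟨h.1 j, h.2 j⟩

/-- index of the cell -/
noncomputable def cl (m : ℕ) (hm : 1 ≤ m) (u : ℝ) : Fin m :=
  ⟨min ⌊(m : ℝ) * u⌋₊ (m - 1), by omega⟩

theorem measurable_cl (m : ℕ) (hm : 1 ≤ m) : Measurable (cl m hm) := by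
  have h1 : Measurable (fun j : ℕ => (⟨min j (m - 1), by omega⟩ : Fin m)) := Measurable.of_discrete
  have h2 : Measurable (fun u : ℝ => ⌊(m : ℝ) * u⌋₊) :=
    Nat.measurable_floor.comp (measurable_const.mul measurable_id)
  exact h1.comp h2

theorem cl_spec (m : ℕ) (hm : 1 ≤ m) (u : ℝ) (h0 : 0 ≤ u) (h1 : u ≤ 1) :
    ((cl m hm u : ℕ) : ℝ) / m ≤ u ∧ u ≤ (((cl m hm u : ℕ) : ℝ) + 1) / m := by
  have hm0 : (0 : ℝ) < m := by exact_mod_cast hm
  have e : (cl m hm u : ℕ) = min ⌊(m : ℝ) * u⌋₊ (m - 1) := rfl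
  have hfl : (⌊(m : ℝ) * u⌋₊ : ℝ) ≤ m * u := Nat.floor_le (by positivity)
  have hlt : (m : ℝ) * u < ⌊(m : ℝ) * u⌋₊ + 1 := Nat.lt_floor_add_one _
  constructor
  · rw [div_le_iff₀ hm0, e]
    have : ((min ⌊(m : ℝ) * u⌋₊ (m - 1) : ℕ) : ℝ) ≤ ⌊(m : ℝ) * u⌋₊ := by
      exact_mod_cast min_le_left _ _
    linarith
  · rw [le_div_iff₀ hm0, e]
    rcases le_total ⌊(m : ℝ) * u⌋₊ (m - 1) with h | h
    · rw [min_eq_left h]; linarith
    · rw [min_eq_right h]
      have : ((m - 1 : ℕ) : ℝ) = m - 1 := by push_cast [Nat.cast_sub hm]; ring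
      rw [this]
      nlinarith

theorem cl_of_mem (m : ℕ) (hm : 1 ≤ m) (u : ℝ) (a : Fin m)
    (h0 : ((a : ℕ) : ℝ) / m ≤ u) (h1 : u < (((a : ℕ) : ℝ) + 1) / m) : cl m hm u = a := by
  have hm0 : (0 : ℝ) < m := by exact_mod_cast hm
  rw [div_le_iff₀ hm0] at h0
  rw [lt_div_iff₀ hm0] at h1
  have hf : ⌊(m : ℝ) * u⌋₊ = a := by
    rw [Nat.floor_eq_iff (by nlinarith [Nat.cast_nonneg (α := ℝ) (a : ℕ)])]
    constructor <;> linarith
  apply Fin.ext
  show min ⌊(m : ℝ) * u⌋₊ (m - 1) = a
  rw [hf]
  have := a.2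
  omega

/-- index of the cell of a point -/
noncomputable def kap (m : ℕ) (hm : 1 ≤ m) (x : Fin 2 → ℝ) : Fin m × Fin m :=
  (cl m hm (x 0), cl m hm (x 1))

theorem measurable_kap (m : ℕ) (hm : 1 ≤ m) : Measurable (kap m hm) :=
  ((measurable_cl m hm).comp (measurable_pi_apply 0)).prodMk
    ((measurable_cl m hm).comp (measurable_pi_apply 1))

theorem U_kap (m : ℕ) (hm : 1 ≤ m) (k : Fin m × Fin m) :
    (U.map (kap m hm)) {k} = ENNReal.ofReal (1 / (m : ℝ)) * ENNReal.ofReal (1 / (m : ℝ)) := by
  have hm0 : (0 : ℝ) < m := by exact_mod_cast hm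
  rw [Measure.map_apply (measurable_kap m hm) (measurableSet_singleton k)]
  unfold U
  rw [Measure.restrict_apply ((measurable_kap m hm) (measurableSet_singleton k))]
  set q : Fin 2 → ℕ := ![(k.1 : ℕ), (k.2 : ℕ)] with hq
  have hql : ∀ i, q i < m := by
    intro i; fin_cases i
    · exact k.1.2
    · exact k.2.2
  have hb : ∀ i, (((q i : ℕ) : ℝ) + 1) / m - ((q i : ℕ) : ℝ) / m = 1 / m := by
    intro i; field_simp; ring
  apply le_antisymm
  · calc volume (kap m hm ⁻¹' {k} ∩ Set.Icc 0 1)
        ≤ volume (Set.Icc (fun i => ((q i : ℕ) : ℝ) / m) (fun i => (((q i : ℕ) : ℝ) + 1) / m)) := by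
          apply measure_mono
          rintro x ⟨hx, hx01⟩
          have hx' : kap m hm x = k := hx
          have e0 : cl m hm (x 0) = k.1 := congrArg Prod.fst hx'
          have e1 : cl m hm (x 1) = k.2 := congrArg Prod.snd hx'
          have s0 := cl_spec m hm (x 0) (hx01.1 0) (hx01.2 0)
          have s1 := cl_spec m hm (x 1) (hx01.1 1) (hx01.2 1)
          rw [e0] at s0
          rw [e1] at s1
          constructor
          · intro i; fin_cases i
            · exact s0.1
            · exact s1.1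
          · intro i; fin_cases i
            · exact s0.2
            · exact s1.2
      _ = ENNReal.ofReal (1 / (m : ℝ)) * ENNReal.ofReal (1 / (m : ℝ)) := by
          rw [Real.volume_Icc_pi, Fin.prod_univ_two, hb, hb]
  · calc ENNReal.ofReal (1 / (m : ℝ)) * ENNReal.ofReal (1 / (m : ℝ))
        = volume (Set.pi Set.univ fun i : Fin 2 =>
            Set.Ico (((q i : ℕ) : ℝ) / m) ((((q i : ℕ) : ℝ) + 1) / m)) := by
          rw [Real.volume_pi_Ico, Fin.prod_univ_two, hb, hb]
      _ ≤ volume (kap m hm ⁻¹' {k} ∩ Set.Icc 0 1) := by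
          apply measure_mono
          intro x hx
          have h0 := hx 0 (Set.mem_univ _)
          have h1 := hx 1 (Set.mem_univ _)
          refine ⟨?_, ?_, ?_⟩
          · show kap m hm x = k
            exact Prod.ext (cl_of_mem m hm _ _ h0.1 h0.2) (cl_of_mem m hm _ _ h1.1 h1.2)
          · intro i
            have hi := (hx i (Set.mem_univ _)).1
            exact le_trans (by positivity) hi
          · intro i
            have hi := (hx i (Set.mem_univ _)).2.le
            refine le_trans hi ?_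
            show _ ≤ (1 : ℝ)
            rw [div_le_one hm0]
            exact_mod_cast hql i

theorem avg (n m : ℕ) (hm : 1 ≤ m) (Ψ : (Fin n → Fin m × Fin m) → ℂ) :
    ∫ x, Ψ (fun i => kap m hm (x i)) ∂(P n) = ((m : ℂ) ^ (2 * n))⁻¹ * ∑ k, Ψ k := by
  have : IsProbabilityMeasure (U.map (kap m hm)) :=
    Measure.isProbabilityMeasure_map (measurable_kap m hm).aemeasurable
  have hmap : (P n).map (fun x i => kap m hm (x i)) = Measure.pi (fun _ : Fin n => U.map (kap m hm)) := by
    unfold P
    exact Measure.pi_map_pi (f := fun _ => kap m hm) fun _ => (measurable_kap m hm).aemeasurable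
  have hmeas : Measurable (fun (x : Fin n → Fin 2 → ℝ) i => kap m hm (x i)) :=
    measurable_pi_lambda _ fun i => (measurable_kap m hm).comp (measurable_pi_apply i)
  have h1 : ∫ x, Ψ (fun i => kap m hm (x i)) ∂(P n) =
      ∫ k, Ψ k ∂((P n).map (fun x i => kap m hm (x i))) := by
    rw [integral_map hmeas.aemeasurable]
    exact (Measurable.of_discrete).aestronglyMeasurable
  rw [h1, hmap, integral_fintype .of_finite, Finset.mul_sum]
  refine Finset.sum_congr rfl fun k _ => ?_
  rw [measureReal_def, Measure.pi_singleton]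
  simp only [U_kap]
  rw [Finset.prod_const, Finset.card_univ, Fintype.card_fin]
  have hm0 : (0 : ℝ) < m := by exact_mod_cast hm
  rw [ENNReal.toReal_pow, ENNReal.toReal_mul, ENNReal.toReal_ofReal (by positivity)]
  rw [Complex.real_smul]
  congr 1
  push_cast
  rw [pow_mul, ← inv_pow]
  congr 1
  rw [one_div, sq, mul_inv]

theorem norm_exp_sub (u v : ℝ) :
    ‖Complex.exp (Complex.I * (u : ℂ)) - Complex.exp (Complex.I * (v : ℂ))‖ ≤ |u - v| := by
  have h : Complex.exp (Complex.I * (u : ℂ)) - Complex.exp (Complex.I * (v : ℂ)) =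
      Complex.exp (Complex.I * (v : ℂ)) * (Complex.exp (Complex.I * ((u - v : ℝ) : ℂ)) - 1) := by
    rw [mul_sub, ← Complex.exp_add, mul_one]
    congr 2
    push_cast
    ring
  rw [h, norm_mul, Complex.norm_exp_I_mul_ofReal, one_mul]
  exact (Real.norm_exp_I_mul_ofReal_sub_one_le).trans (le_of_eq (Real.norm_eq_abs _))

theorem dist_gp (m : ℕ) (hm : 1 ≤ m) (x : Fin 2 → ℝ) (h : ∀ j, 0 ≤ x j ∧ x j ≤ 1) :
    dist (toC x) (gp m (kap m hm x)) ≤ 2 / m := by
  have hm0 : (0 : ℝ) < m := by exact_mod_cast hm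
  rw [Complex.dist_eq]
  refine (Complex.norm_le_abs_re_add_abs_im _).trans ?_
  have s0 := cl_spec m hm (x 0) (h 0).1 (h 0).2
  have s1 := cl_spec m hm (x 1) (h 1).1 (h 1).2
  have e0 : (toC x - gp m (kap m hm x)).re = x 0 - ((cl m hm (x 0) : ℕ) : ℝ) / m := rfl
  have e1 : (toC x - gp m (kap m hm x)).im = x 1 - ((cl m hm (x 1) : ℕ) : ℝ) / m := rfl
  rw [e0, e1, abs_of_nonneg (by linarith [s0.1]), abs_of_nonneg (by linarith [s1.1])]
  have a0 := s0.2
  have a1 := s1.2
  rw [add_div] at a0 a1
  have : (2 : ℝ) / m = 1 / m + 1 / m := by ring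
  linarith

theorem close (hperm : S_PERM) (hbasic : S_BASIC) (n m : ℕ) (hm : 1 ≤ m) :
    ∀ᵐ x ∂(P n), |Ln n x - tsp (Set.range fun i => gp m (kap m hm (x i)))| ≤ 4 * n / m := by
  filter_upwards [ae_inj n, ae_mem n] with x hinj hmem
  rw [Ln_eq hperm n x hinj]
  have := hbasic.2.2.2.2.2.2 n (fun i => toC (x i)) (fun i => gp m (kap m hm (x i))) (2 / m)
    (fun i => dist_gp m hm (x i) (hmem i))
  refine this.trans (le_of_eq ?_)
  ring

theorem main (hperm : Pool.Agent.N940.TSP.S_PERM) (hbasic : Pool.Agent.N940.TSP.S_BASIC) :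
    Pool.Agent.N940.TSP.S_FIN := by
  intro m c s s₀ n₀ hs₀ hm hs hchar
  refine ⟨c, s, fun n => hs₀.trans_le (hs n), fun t => ?_⟩
  set W : ∀ n, (Fin n → Fin 2 → ℝ) → ℝ := fun n x => (Ln n x - c n) / s n with hW
  have hWm : ∀ n, Measurable (W n) := fun n => ((measurable_Ln n).sub_const _).div_const _
  set μ : ℕ → Measure ℝ := fun n => (P n).map (W n) with hμ
  have hprob : ∀ n, IsProbabilityMeasure (μ n) := fun n =>
    Measure.isProbabilityMeasure_map (hWm n).aemeasurable
  set Pm : ℕ → ProbabilityMeasure ℝ := fun n => ⟨μ n, inferInstance⟩ with hPm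
  set G : ProbabilityMeasure ℝ := ⟨ProbabilityTheory.gaussianReal 0 1, inferInstance⟩ with hG
  have hcf : ∀ θ : ℝ, Tendsto (fun n => charFun (μ n) θ) atTop
      (𝓝 (Complex.exp ((-(θ ^ 2) / 2 : ℝ) : ℂ))) := by
    intro θ
    have hbound : ∀ n, n₀ ≤ n → ‖charFun (μ n) θ - (((m n : ℕ) : ℂ) ^ (2 * n))⁻¹ *
        ∑ k : Fin n → Fin (m n) × Fin (m n), Complex.exp (Complex.I *
          ((θ * ((tsp (Set.range fun i => gp (m n) (k i)) - c n) / s n) : ℝ) : ℂ))‖ ≤
        |θ| * (4 * n / m n) / s₀ := by
      intro n hn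
      have hm1 := (hm n hn).2
      rw [← avg n (m n) hm1 (fun k => Complex.exp (Complex.I *
          ((θ * ((tsp (Set.range fun i => gp (m n) (k i)) - c n) / s n) : ℝ) : ℂ)))]
      have h1 : charFun (μ n) θ = ∫ x, Complex.exp (Complex.I * ((θ * W n x : ℝ) : ℂ)) ∂(P n) := by
        rw [charFun_apply_real, hμ]
        rw [integral_map (hWm n).aemeasurable (by fun_prop)]
        congr 1
        funext x
        congr 1
        push_cast
        ring
      have hmeas : Measurable (fun (x : Fin n → Fin 2 → ℝ) i => kap (m n) hm1 (x i)) :=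
        measurable_pi_lambda _ fun i => (measurable_kap (m n) hm1).comp (measurable_pi_apply i)
      have hi1 : Integrable (fun x => Complex.exp (Complex.I * ((θ * W n x : ℝ) : ℂ))) (P n) := by
        refine Integrable.of_bound (C := 1) ?_ ?_
        · have := hWm n
          fun_prop
        · refine Eventually.of_forall fun x => ?_
          rw [Complex.norm_exp_I_mul_ofReal]
      have hi2 : Integrable (fun x : Fin n → Fin 2 → ℝ => Complex.exp (Complex.I *
          ((θ * ((tsp (Set.range fun i => gp (m n) (kap (m n) hm1 (x i))) - c n) / s n) : ℝ) : ℂ)))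
          (P n) := by
        refine Integrable.of_bound (C := 1) ?_ ?_
        · have h2 : Measurable (fun k : Fin n → Fin (m n) × Fin (m n) => Complex.exp (Complex.I *
            ((θ * ((tsp (Set.range fun i => gp (m n) (k i)) - c n) / s n) : ℝ) : ℂ))) :=
              Measurable.of_discrete
          exact (h2.comp hmeas).aestronglyMeasurable
        · refine Eventually.of_forall fun x => ?_
          rw [Complex.norm_exp_I_mul_ofReal]
      rw [h1, ← integral_sub hi1 hi2]
      have h3 := norm_integral_le_of_norm_le_const (μ := P n)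
        (f := fun x => Complex.exp (Complex.I * ((θ * W n x : ℝ) : ℂ)) - Complex.exp (Complex.I *
          ((θ * ((tsp (Set.range fun i => gp (m n) (kap (m n) hm1 (x i))) - c n) / s n) : ℝ) : ℂ)))
        (C := |θ| * (4 * n / m n) / s₀) (by
          filter_upwards [close hperm hbasic n (m n) hm1] with x hx
          refine (norm_exp_sub _ _).trans ?_
          have hsn := hs n
          have hsp : 0 < s n := hs₀.trans_le hsn
          have e : θ * W n x -
              θ * ((tsp (Set.range fun i => gp (m n) (kap (m n) hm1 (x i))) - c n) / s n) =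
              θ * (Ln n x - tsp (Set.range fun i => gp (m n) (kap (m n) hm1 (x i)))) / s n := by
            simp only [hW]
            ring
          rw [e, abs_div, abs_mul, abs_of_pos hsp]
          gcongr)
      refine h3.trans (le_of_eq ?_)
      simp
    have hz : Tendsto (fun n : ℕ => |θ| * (4 * (n : ℝ) / m n) / s₀) atTop (𝓝 0) := by
      have h0 : Tendsto (fun n : ℕ => |θ| * (4 * (1 / (n : ℝ))) / s₀) atTop (𝓝 0) := by
        have := (((tendsto_one_div_atTop_nhds_zero_nat (𝕜 := ℝ)).const_mul 4).const_mul |θ|).div_const s₀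
        simpa using this
      refine tendsto_of_tendsto_of_tendsto_of_le_of_le' tendsto_const_nhds h0 ?_ ?_
      · exact Eventually.of_forall fun n => by positivity
      · filter_upwards [eventually_ge_atTop n₀, eventually_ge_atTop 1] with n hn hn1
        have h3 := (hm n hn).1
        have hn0 : (0 : ℝ) < n := by exact_mod_cast hn1
        have h3' : (n : ℝ) ^ 3 ≤ m n := by exact_mod_cast h3
        have hmp : (0 : ℝ) < m n := by exact_mod_cast (hm n hn).2
        have : 4 * (n : ℝ) / m n ≤ 4 * (1 / (n : ℝ)) := by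
          rw [mul_div_assoc]
          apply mul_le_mul_of_nonneg_left _ (by norm_num)
          rw [div_le_div_iff₀ hmp hn0]
          have hn1' : (1 : ℝ) ≤ n := by exact_mod_cast hn1
          nlinarith [mul_nonneg (mul_nonneg hn0.le hn0.le) (sub_nonneg.2 hn1')]
        gcongr
    have hdiff : Tendsto (fun n => charFun (μ n) θ - (((m n : ℕ) : ℂ) ^ (2 * n))⁻¹ *
        ∑ k : Fin n → Fin (m n) × Fin (m n), Complex.exp (Complex.I *
          ((θ * ((tsp (Set.range fun i => gp (m n) (k i)) - c n) / s n) : ℝ) : ℂ))) atTop (𝓝 0) := by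
      refine squeeze_zero_norm' ?_ hz
      filter_upwards [eventually_ge_atTop n₀] with n hn using hbound n hn
    have := hdiff.add (hchar θ)
    simpa using this
  have hlim : Tendsto Pm atTop (𝓝 G) := by
    rw [ProbabilityMeasure.tendsto_iff_tendsto_charFun]
    intro θ
    have e1 : charFun (G : Measure ℝ) θ = Complex.exp ((-(θ ^ 2) / 2 : ℝ) : ℂ) := by
      change charFun (ProbabilityTheory.gaussianReal 0 1) θ = _
      rw [ProbabilityTheory.charFun_gaussianReal]
      congr 1
      push_cast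
      ring
    rw [e1]
    exact hcf θ
  have hnull : (G : Measure ℝ) (frontier (Set.Iic t)) = 0 := by
    rw [frontier_Iic]
    change ProbabilityTheory.gaussianReal 0 1 {t} = 0
    have := ProbabilityTheory.nullSingletonClass_gaussianReal (μ := 0) (v := 1) one_ne_zero
    exact measure_singleton t
  have h1 := ProbabilityMeasure.tendsto_measure_of_null_frontier_of_tendsto' hlim hnull
  have h2 := (ENNReal.tendsto_toReal (measure_ne_top (G : Measure ℝ) (Set.Iic t))).comp h1
  refine h2.congr fun n => ?_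
  show ((P n).map (W n) (Set.Iic t)).toReal = _
  rw [Measure.map_apply (hWm n) measurableSet_Iic]
  rfl

end Pool.Agent.N940.TSP.FinStep
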