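import Pool.Agent.N940.TSP.Mod2
import Pool.Agent.N940.TSP.Fin

/-!
# From uniform points of a fine grid to uniform points of the unit square: variances

Proof of `S_FINV`.
-/

set_option autoImplicit false

open MeasureTheory Filter Topology

namespace Pool.Agent.N940.TSP.FinV

open Pool.Agent.N940.TSP.FinStep (cl measurable_cl cl_spec cl_of_mem)

/-- the length of the shortest closed tour -/
noncomputable def Ln (n : ℕ) (x : Fin n → ℝ × ℝ) : ℝ :=
  ⨅ σ : Equiv.Perm (Fin n), ∑ i : Fin n,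
    Real.sqrt (((x (σ i)).1 - (x (σ (finRotate n i))).1) ^ 2
      + ((x (σ i)).2 - (x (σ (finRotate n i))).2) ^ 2)

/-- the uniform distribution on the unit square -/
noncomputable def U : Measure (ℝ × ℝ) :=
  (volume : Measure (ℝ × ℝ)).restrict (Set.Icc (0 : ℝ) 1 ×ˢ Set.Icc (0 : ℝ) 1)

/-- the distribution of `n` independent uniform points -/
noncomputable def P (n : ℕ) : Measure (Fin n → ℝ × ℝ) := Measure.pi (fun _ : Fin n => U)

theorem volume_sq (a b c d : ℝ) : (volume : Measure (ℝ × ℝ)) (Set.Icc a b ×ˢ Set.Icc c d) =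
    ENNReal.ofReal (b - a) * ENNReal.ofReal (d - c) := by
  rw [Measure.volume_eq_prod, Measure.prod_prod, Real.volume_Icc, Real.volume_Icc]

instance : IsProbabilityMeasure U := ⟨by
  unfold U
  rw [Measure.restrict_apply MeasurableSet.univ, Set.univ_inter, volume_sq]
  simp⟩

instance (n : ℕ) : IsProbabilityMeasure (P n) := by unfold P; infer_instance

theorem P_eq (n : ℕ) : (volume : Measure (Fin n → ℝ × ℝ)).restrict
    (Set.univ.pi fun _ : Fin n => Set.Icc (0 : ℝ) 1 ×ˢ Set.Icc (0 : ℝ) 1) = P n := by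
  unfold P U
  rw [← Measure.restrict_pi_pi]
  rfl

theorem measurable_Ln (n : ℕ) : Measurable (Ln n) := by
  unfold Ln
  refine Measurable.iInf fun σ => ?_
  fun_prop

/-- a point of the plane as a complex number -/
noncomputable def toC (x : ℝ × ℝ) : ℂ := ⟨x.1, x.2⟩

theorem Ln_eq (hperm : S_PERM) (n : ℕ) (x : Fin n → ℝ × ℝ) (hx : Function.Injective x) :
    Ln n x = tsp (Set.range fun i => toC (x i)) := by
  have hinj : Function.Injective (fun i => toC (x i)) := by
    intro i j h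
    apply hx
    have h0 : (x i).1 = (x j).1 := congrArg Complex.re h
    have h1 : (x i).2 = (x j).2 := congrArg Complex.im h
    exact Prod.ext h0 h1
  have := hperm n (fun i => toC (x i)) hinj
  rw [← this]
  unfold Ln
  congr 1
  funext σ
  refine Finset.sum_congr rfl fun i _ => ?_
  rw [Complex.dist_eq_re_im]
  rfl

theorem ae_inj (n : ℕ) : ∀ᵐ x ∂(P n), Function.Injective x := by
  have hac : P n ≪ (volume : Measure (Fin n → ℝ × ℝ)) := by
    rw [← P_eq]
    exact Measure.restrict_le_self.absolutelyContinuous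
  apply hac.ae_le
  have key : ∀ i j : Fin n, i ≠ j → ∀ᵐ x : Fin n → ℝ × ℝ, x i ≠ x j := by
    intro i j hij
    let s : Submodule ℝ (Fin n → ℝ × ℝ) :=
      LinearMap.ker ((LinearMap.proj i : (Fin n → ℝ × ℝ) →ₗ[ℝ] (ℝ × ℝ)) - LinearMap.proj j)
    have hs : s ≠ ⊤ := by
      intro h
      have h1 : (Pi.single i ((1 : ℝ), (1 : ℝ)) : Fin n → ℝ × ℝ) ∈ s := by rw [h]; trivial
      rw [LinearMap.mem_ker] at h1
      simp only [LinearMap.sub_apply, LinearMap.proj_apply, Pi.single_eq_same,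
        Pi.single_eq_of_ne (Ne.symm hij), sub_zero] at h1
      have h2 := congrArg Prod.fst h1
      simp at h2
    have h0 := Measure.addHaar_submodule (volume : Measure (Fin n → ℝ × ℝ)) s hs
    rw [ae_iff]
    convert h0 using 2
    ext x
    simp only [ne_eq, not_not, Set.mem_ofPred_eq, SetLike.mem_coe]
    constructor
    · intro h
      show x ∈ LinearMap.ker _
      rw [LinearMap.mem_ker]
      simp [h]
    · intro h
      have h' := LinearMap.mem_ker.1 h
      simp only [LinearMap.sub_apply, LinearMap.proj_apply] at h'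
      exact sub_eq_zero.1 h'
  filter_upwards [ae_all_iff.2 fun i => ae_all_iff.2 fun j => ae_all_iff.2 (key i j)] with x hx
  intro i j hij
  by_contra hne
  exact hx i j hne hij

theorem ae_mem (n : ℕ) : ∀ᵐ x ∂(P n), ∀ i : Fin n,
    (0 ≤ (x i).1 ∧ (x i).1 ≤ 1) ∧ 0 ≤ (x i).2 ∧ (x i).2 ≤ 1 := by
  rw [← P_eq]
  filter_upwards [ae_restrict_mem (MeasurableSet.univ_pi fun _ =>
    measurableSet_Icc.prod measurableSet_Icc)] with x hx
  intro i
  exact hx i (Set.mem_univ i)

/-- index of the cell of a point -/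
noncomputable def kap (m : ℕ) (hm : 1 ≤ m) (x : ℝ × ℝ) : Fin m × Fin m :=
  (cl m hm x.1, cl m hm x.2)

theorem measurable_kap (m : ℕ) (hm : 1 ≤ m) : Measurable (kap m hm) :=
  ((measurable_cl m hm).comp measurable_fst).prodMk ((measurable_cl m hm).comp measurable_snd)

theorem U_kap (m : ℕ) (hm : 1 ≤ m) (k : Fin m × Fin m) :
    (U.map (kap m hm)) {k} = ENNReal.ofReal (1 / (m : ℝ)) * ENNReal.ofReal (1 / (m : ℝ)) := by
  have hm0 : (0 : ℝ) < m := by exact_mod_cast hm
  rw [Measure.map_apply (measurable_kap m hm) (measurableSet_singleton k)]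
  unfold U
  rw [Measure.restrict_apply ((measurable_kap m hm) (measurableSet_singleton k))]
  have hb : ∀ q : ℕ, ((q : ℝ) + 1) / m - (q : ℝ) / m = 1 / m := by
    intro q; field_simp; ring
  have hlt : ∀ q : Fin m, (((q : ℕ) : ℝ) + 1) / m ≤ 1 := by
    intro q
    rw [div_le_one hm0]
    exact_mod_cast q.2
  apply le_antisymm
  · calc volume (kap m hm ⁻¹' {k} ∩ Set.Icc (0 : ℝ) 1 ×ˢ Set.Icc (0 : ℝ) 1)
        ≤ volume (Set.Icc (((k.1 : ℕ) : ℝ) / m) ((((k.1 : ℕ) : ℝ) + 1) / m) ×ˢ
            Set.Icc (((k.2 : ℕ) : ℝ) / m) ((((k.2 : ℕ) : ℝ) + 1) / m)) := by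
          apply measure_mono
          rintro x ⟨hx, hx0, hx1⟩
          have hx' : kap m hm x = k := hx
          have e0 : cl m hm x.1 = k.1 := congrArg Prod.fst hx'
          have e1 : cl m hm x.2 = k.2 := congrArg Prod.snd hx'
          have s0 := cl_spec m hm x.1 hx0.1 hx0.2
          have s1 := cl_spec m hm x.2 hx1.1 hx1.2
          rw [e0] at s0
          rw [e1] at s1
          exact ⟨s0, s1⟩
      _ = ENNReal.ofReal (1 / (m : ℝ)) * ENNReal.ofReal (1 / (m : ℝ)) := by
          rw [volume_sq, hb, hb]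
  · calc ENNReal.ofReal (1 / (m : ℝ)) * ENNReal.ofReal (1 / (m : ℝ))
        = volume (Set.Ico (((k.1 : ℕ) : ℝ) / m) ((((k.1 : ℕ) : ℝ) + 1) / m) ×ˢ
            Set.Ico (((k.2 : ℕ) : ℝ) / m) ((((k.2 : ℕ) : ℝ) + 1) / m)) := by
          rw [Measure.volume_eq_prod, Measure.prod_prod, Real.volume_Ico, Real.volume_Ico, hb, hb]
      _ ≤ volume (kap m hm ⁻¹' {k} ∩ Set.Icc (0 : ℝ) 1 ×ˢ Set.Icc (0 : ℝ) 1) := by
          apply measure_mono
          rintro x ⟨h0, h1⟩
          refine ⟨?_, ⟨?_, ?_⟩, ?_, ?_⟩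
          · show kap m hm x = k
            exact Prod.ext (cl_of_mem m hm _ _ h0.1 h0.2) (cl_of_mem m hm _ _ h1.1 h1.2)
          · exact le_trans (by positivity) h0.1
          · exact h0.2.le.trans (hlt k.1)
          · exact le_trans (by positivity) h1.1
          · exact h1.2.le.trans (hlt k.2)

theorem measurable_kaps (n m : ℕ) (hm : 1 ≤ m) :
    Measurable (fun (x : Fin n → ℝ × ℝ) i => kap m hm (x i)) :=
  measurable_pi_lambda _ fun i => (measurable_kap m hm).comp (measurable_pi_apply i)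

theorem int_avg (n m : ℕ) (hm : 1 ≤ m) (Ψ : (Fin n → Fin m × Fin m) → ℝ) :
    ∫ x, Ψ (fun i => kap m hm (x i)) ∂(P n) = avg n m Ψ := by
  have : IsProbabilityMeasure (U.map (kap m hm)) :=
    Measure.isProbabilityMeasure_map (measurable_kap m hm).aemeasurable
  have hmap : (P n).map (fun x i => kap m hm (x i)) = Measure.pi (fun _ : Fin n => U.map (kap m hm)) := by
    unfold P
    exact Measure.pi_map_pi (f := fun _ => kap m hm) fun _ => (measurable_kap m hm).aemeasurable
  have h1 : ∫ x, Ψ (fun i => kap m hm (x i)) ∂(P n) =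
      ∫ k, Ψ k ∂((P n).map (fun x i => kap m hm (x i))) := by
    rw [integral_map (measurable_kaps n m hm).aemeasurable]
    exact (Measurable.of_discrete).aestronglyMeasurable
  unfold avg
  rw [h1, hmap, integral_fintype .of_finite, Finset.mul_sum]
  refine Finset.sum_congr rfl fun k _ => ?_
  rw [measureReal_def, Measure.pi_singleton]
  simp only [U_kap]
  rw [Finset.prod_const, Finset.card_univ, Fintype.card_fin]
  have hm0 : (0 : ℝ) < m := by exact_mod_cast hm
  rw [ENNReal.toReal_pow, ENNReal.toReal_mul, ENNReal.toReal_ofReal (by positivity)]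
  rw [smul_eq_mul]
  congr 1
  rw [pow_mul, ← inv_pow]
  congr 1
  rw [one_div, pow_two, mul_inv]

theorem dist_gp (m : ℕ) (hm : 1 ≤ m) (x : ℝ × ℝ)
    (h : (0 ≤ x.1 ∧ x.1 ≤ 1) ∧ 0 ≤ x.2 ∧ x.2 ≤ 1) :
    dist (toC x) (gp m (kap m hm x)) ≤ 2 / m := by
  have hm0 : (0 : ℝ) < m := by exact_mod_cast hm
  rw [Complex.dist_eq]
  refine (Complex.norm_le_abs_re_add_abs_im _).trans ?_
  have s0 := cl_spec m hm x.1 h.1.1 h.1.2
  have s1 := cl_spec m hm x.2 h.2.1 h.2.2
  have e0 : (toC x - gp m (kap m hm x)).re = x.1 - ((cl m hm x.1 : ℕ) : ℝ) / m := rfl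
  have e1 : (toC x - gp m (kap m hm x)).im = x.2 - ((cl m hm x.2 : ℕ) : ℝ) / m := rfl
  rw [e0, e1, abs_of_nonneg (by linarith [s0.1]), abs_of_nonneg (by linarith [s1.1])]
  have a0 := s0.2
  have a1 := s1.2
  rw [add_div] at a0 a1
  have : (2 : ℝ) / m = 1 / m + 1 / m := by ring
  linarith

theorem close (hperm : S_PERM) (hbasic : S_BASIC) (n m : ℕ) (hm : 1 ≤ m) :
    ∀ᵐ x ∂(P n), |Ln n x - Gr n m (fun i => kap m hm (x i))| ≤ 4 * n / m := by
  filter_upwards [ae_inj n, ae_mem n] with x hinj hmem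
  rw [Ln_eq hperm n x hinj]
  have := hbasic.2.2.2.2.2.2 n (fun i => toC (x i)) (fun i => gp m (kap m hm (x i))) (2 / m)
    (fun i => dist_gp m hm (x i) (hmem i))
  refine this.trans (le_of_eq ?_)
  ring

theorem tsp_const (hbasic : S_BASIC) (n : ℕ) : tsp (Set.range fun _ : Fin n => (0 : ℂ)) = 0 := by
  rcases Nat.eq_zero_or_pos n with rfl | hn
  · rw [Set.range_eq_empty]
    exact hbasic.2.1.1
  · have : Nonempty (Fin n) := ⟨⟨0, hn⟩⟩
    rw [Set.range_const]
    exact hbasic.2.1.2 0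

theorem tsp_le (hbasic : S_BASIC) (n : ℕ) (z : Fin n → ℂ) (h : ∀ i, ‖z i‖ ≤ 2) :
    tsp (Set.range z) ≤ 4 * n := by
  have := hbasic.2.2.2.2.2.2 n z (fun _ => 0) 2 (fun i => by simpa using h i)
  rw [tsp_const hbasic, sub_zero] at this
  have := (le_abs_self _).trans this
  linarith

theorem Gr_bounds (hbasic : S_BASIC) (n m : ℕ) (hm : 1 ≤ m) (k : Fin n → Fin m × Fin m) :
    0 ≤ Gr n m k ∧ Gr n m k ≤ 4 * n := by
  refine ⟨hbasic.1 _, tsp_le hbasic n _ fun i => ?_⟩
  have hm0 : (0 : ℝ) < m := by exact_mod_cast hm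
  refine (Complex.norm_le_abs_re_add_abs_im _).trans ?_
  have h : ∀ q : Fin m, |((q : ℕ) : ℝ) / m| ≤ 1 := by
    intro q
    rw [abs_of_nonneg (by positivity), div_le_one hm0]
    exact_mod_cast q.2.le
  have h1 := h (k i).1
  have h2 := h (k i).2
  have e1 : (gp m (k i)).re = (((k i).1 : ℕ) : ℝ) / m := rfl
  have e2 : (gp m (k i)).im = (((k i).2 : ℕ) : ℝ) / m := rfl
  rw [e1, e2]
  linarith

theorem Ln_bounds (hperm : S_PERM) (hbasic : S_BASIC) (n : ℕ) :
    ∀ᵐ x ∂(P n), 0 ≤ Ln n x ∧ Ln n x ≤ 4 * n := by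
  filter_upwards [ae_inj n, ae_mem n] with x hinj hmem
  rw [Ln_eq hperm n x hinj]
  refine ⟨hbasic.1 _, tsp_le hbasic n _ fun i => ?_⟩
  refine (Complex.norm_le_abs_re_add_abs_im _).trans ?_
  have h := hmem i
  have e1 : (toC (x i)).re = (x i).1 := rfl
  have e2 : (toC (x i)).im = (x i).2 := rfl
  rw [e1, e2, abs_of_nonneg h.1.1, abs_of_nonneg h.2.1]
  linarith [h.1.2, h.2.2]

/-- variances of two nearly equal bounded random variables -/
theorem var_close {Ω : Type} [MeasurableSpace Ω] (μ : Measure Ω) [IsProbabilityMeasure μ]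
    (X Y : Ω → ℝ) (hX : Measurable X) (hY : Measurable Y) (B ε : ℝ)
    (hXB : ∀ᵐ x ∂μ, 0 ≤ X x ∧ X x ≤ B) (hYB : ∀ᵐ x ∂μ, 0 ≤ Y x ∧ Y x ≤ B)
    (hXY : ∀ᵐ x ∂μ, |X x - Y x| ≤ ε) :
    |(∫ x, (X x - ∫ x, X x ∂μ) ^ 2 ∂μ) - ∫ x, (Y x - ∫ x, Y x ∂μ) ^ 2 ∂μ| ≤ 4 * ε * B := by
  have iX : Integrable X μ := Integrable.of_bound (C := B) hX.aestronglyMeasurable (by
    filter_upwards [hXB] with x hx
    rw [Real.norm_eq_abs, abs_of_nonneg hx.1]
    exact hx.2)
  have iY : Integrable Y μ := Integrable.of_bound (C := B) hY.aestronglyMeasurable (by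
    filter_upwards [hYB] with x hx
    rw [Real.norm_eq_abs, abs_of_nonneg hx.1]
    exact hx.2)
  set a := ∫ x, X x ∂μ with ha
  set b := ∫ x, Y x ∂μ with hb
  have ha0 : 0 ≤ a := integral_nonneg_of_ae (by filter_upwards [hXB] with x hx using hx.1)
  have hb0 : 0 ≤ b := integral_nonneg_of_ae (by filter_upwards [hYB] with x hx using hx.1)
  have haB : a ≤ B := by
    have := integral_mono_ae iX (integrable_const B) (by filter_upwards [hXB] with x hx using hx.2)
    simpa using this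
  have hbB : b ≤ B := by
    have := integral_mono_ae iY (integrable_const B) (by filter_upwards [hYB] with x hx using hx.2)
    simpa using this
  have hB : 0 ≤ B := ha0.trans haB
  have hab : |a - b| ≤ ε := by
    rw [ha, hb, ← integral_sub iX iY, ← Real.norm_eq_abs]
    have := norm_integral_le_of_norm_le_const (μ := μ) (f := fun x => X x - Y x) (C := ε) (by
      filter_upwards [hXY] with x hx
      rwa [Real.norm_eq_abs])
    simpa using this
  have hε : 0 ≤ ε := (abs_nonneg _).trans hab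
  have i1 : Integrable (fun x => (X x - a) ^ 2) μ := Integrable.of_bound (C := B ^ 2)
    ((hX.sub_const a).pow_const 2).aestronglyMeasurable (by
      filter_upwards [hXB] with x hx
      rw [Real.norm_eq_abs, abs_of_nonneg (sq_nonneg _)]
      exact sq_le_sq' (by linarith [hx.1]) (by linarith [hx.2]))
  have i2 : Integrable (fun x => (Y x - b) ^ 2) μ := Integrable.of_bound (C := B ^ 2)
    ((hY.sub_const b).pow_const 2).aestronglyMeasurable (by
      filter_upwards [hYB] with x hx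
      rw [Real.norm_eq_abs, abs_of_nonneg (sq_nonneg _)]
      exact sq_le_sq' (by linarith [hx.1]) (by linarith [hx.2]))
  rw [← integral_sub i1 i2, ← Real.norm_eq_abs]
  have := norm_integral_le_of_norm_le_const (μ := μ)
    (f := fun x => (X x - a) ^ 2 - (Y x - b) ^ 2) (C := 4 * ε * B) (by
      filter_upwards [hXY, hXB, hYB] with x hx h1 h2
      rw [Real.norm_eq_abs]
      have e : (X x - a) ^ 2 - (Y x - b) ^ 2 =
          ((X x - Y x) - (a - b)) * ((X x - a) + (Y x - b)) := by ring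
      rw [e, abs_mul]
      have h3 : |(X x - Y x) - (a - b)| ≤ 2 * ε := (abs_sub _ _).trans (by linarith)
      have h4 : |(X x - a) + (Y x - b)| ≤ 2 * B := by
        rw [abs_le]
        constructor <;> linarith [h1.1, h1.2, h2.1, h2.2]
      calc _ ≤ (2 * ε) * (2 * B) := mul_le_mul h3 h4 (abs_nonneg _) (by positivity)
        _ = 4 * ε * B := by ring)
  simpa using this

theorem frozenVar_eq (n : ℕ) :
    frozenVar n = ∫ x, (Ln n x - ∫ x, Ln n x ∂(P n)) ^ 2 ∂(P n) := by
  unfold frozenVar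
  rw [P_eq]
  exact ProbabilityTheory.variance_eq_integral (measurable_Ln n).aemeasurable

theorem main (hperm : S_PERM) (hbasic : S_BASIC) : S_FINV := by
  intro m n₀ hm
  have hbound : ∀ n, n₀ ≤ n → ‖frozenVar n -
      avg n (m n) (fun k => (Gr n (m n) k - avg n (m n) (Gr n (m n))) ^ 2)‖ ≤
        4 * (4 * n / m n) * (4 * n) := by
    intro n hn
    have hm1 := (hm n hn).2
    have hY : Measurable (fun x : Fin n → ℝ × ℝ => Gr n (m n) (fun i => kap (m n) hm1 (x i))) :=
      (Measurable.of_discrete (f := Gr n (m n))).comp (measurable_kaps n (m n) hm1)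
    have h1 := var_close (P n) (Ln n) (fun x => Gr n (m n) (fun i => kap (m n) hm1 (x i)))
      (measurable_Ln n) hY (4 * n) (4 * n / m n) (Ln_bounds hperm hbasic n)
      (Eventually.of_forall fun x => Gr_bounds hbasic n (m n) hm1 _)
      (close hperm hbasic n (m n) hm1)
    rw [int_avg n (m n) hm1 (Gr n (m n)),
      int_avg n (m n) hm1 (fun k => (Gr n (m n) k - avg n (m n) (Gr n (m n))) ^ 2),
      ← frozenVar_eq] at h1
    rw [Real.norm_eq_abs]
    exact h1
  have h0 : Tendsto (fun n : ℕ => 64 * (1 / (n : ℝ))) atTop (𝓝 0) := by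
    have := (tendsto_one_div_atTop_nhds_zero_nat (𝕜 := ℝ)).const_mul 64
    simpa using this
  refine squeeze_zero_norm' ?_ h0
  filter_upwards [eventually_ge_atTop n₀, eventually_ge_atTop 1] with n hn hn1
  refine (hbound n hn).trans ?_
  have h3 := (hm n hn).1
  have hn0 : (0 : ℝ) < n := by exact_mod_cast hn1
  have h3' : (n : ℝ) ^ 3 ≤ m n := by exact_mod_cast h3
  have hmp : (0 : ℝ) < m n := by exact_mod_cast (hm n hn).2
  have e : 4 * (4 * (n : ℝ) / m n) * (4 * n) = 64 * ((n : ℝ) ^ 2 / m n) := by ring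
  rw [e]
  apply mul_le_mul_of_nonneg_left _ (by norm_num)
  rw [div_le_div_iff₀ hmp hn0, one_mul]
  refine le_trans (le_of_eq ?_) h3'
  ring

end Pool.Agent.N940.TSP.FinV
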