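import Pool.Agent.N940.TSP.Mod

/-!
# From random `n`-subsets with anchors to independent random grid points (`S_LINK`)
-/

set_option autoImplicit false

open Filter Topology Pointwise

namespace Pool.Agent.N940.TSP.Link

open Finset

/-! ### scaling -/

lemma len_scale {a : ℝ} (ha : 0 ≤ a) :
    ∀ l : List ℂ, len (l.map fun z => (a : ℂ) * z) = a * len l
  | [] => by simp [len]
  | [_] => by simp [len]
  | x :: y :: l => by
      have h := len_scale ha (y :: l)
      simp only [List.map_cons, len] at h ⊢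
      rw [h, mul_add]
      congr 1
      rw [dist_eq_norm, dist_eq_norm, ← mul_sub, norm_mul, Complex.norm_of_nonneg ha]

lemma cyc_scale {a : ℝ} (ha : 0 ≤ a) (l : List ℂ) :
    cyc (l.map fun z => (a : ℂ) * z) = a * cyc l := by
  cases l with
  | nil => simp [cyc]
  | cons x l =>
      have h := len_scale ha (x :: (l ++ [x]))
      simpa [cyc] using h

lemma tsp_scale {a : ℝ} (ha : 0 < a) (F : Set ℂ) :
    tsp ((fun z => (a : ℂ) * z) '' F) = a * tsp F := by
  have ha0 : (a : ℂ) ≠ 0 := by exact_mod_cast ha.ne'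
  have hset : {r : ℝ | ∃ l : List ℂ, (∀ x ∈ (fun z => (a : ℂ) * z) '' F, x ∈ l) ∧ r = cyc l} =
      a • {r : ℝ | ∃ l : List ℂ, (∀ x ∈ F, x ∈ l) ∧ r = cyc l} := by
    ext r
    simp only [Set.mem_ofPred_eq, Set.mem_smul_set, smul_eq_mul]
    constructor
    · rintro ⟨l, hl, rfl⟩
      refine ⟨cyc (l.map fun z => ((a⁻¹ : ℝ) : ℂ) * z),
        ⟨l.map fun z => ((a⁻¹ : ℝ) : ℂ) * z, ?_, rfl⟩, ?_⟩
      · intro x hx
        rw [List.mem_map]
        refine ⟨(a : ℂ) * x, hl _ ⟨x, hx, rfl⟩, ?_⟩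
        push_cast
        field_simp
      · rw [cyc_scale (inv_nonneg.2 ha.le)]
        field_simp
    · rintro ⟨_, ⟨l, hl, rfl⟩, rfl⟩
      refine ⟨l.map fun z => (a : ℂ) * z, ?_, (cyc_scale ha.le l).symm⟩
      rintro _ ⟨x, hx, rfl⟩
      exact List.mem_map.2 ⟨x, hl x hx, rfl⟩
  unfold tsp
  rw [hset, Real.sInf_smul_of_nonneg ha.le, smul_eq_mul]

/-! ### counting -/

section Count

variable {α : Type} [Fintype α] [DecidableEq α]

lemma card_fib (n : ℕ) (A : Finset α) (hA : A.card = n) :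
    ((univ : Finset (Fin n → α)).filter
      fun k => Function.Injective k ∧ univ.image k = A).card = n.factorial := by
  have h1 : Fintype.card (Fin n ≃ A) = n.factorial := by
    have e : Fin n ≃ A := Fintype.equivOfCardEq (by simp [hA])
    rw [Fintype.card_equiv e, Fintype.card_fin]
  rw [← h1, ← Finset.card_univ (α := Fin n ≃ A)]
  symm
  refine Finset.card_bij (fun e _ => fun i => ((e i : A) : α)) ?_ ?_ ?_
  · intro e _
    rw [Finset.mem_filter]
    refine ⟨Finset.mem_univ _, ?_, ?_⟩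
    · exact Subtype.val_injective.comp e.injective
    · ext x
      simp only [Finset.mem_image, Finset.mem_univ, true_and]
      constructor
      · rintro ⟨i, rfl⟩
        exact (e i).2
      · intro hx
        exact ⟨e.symm ⟨x, hx⟩, by simp⟩
  · intro e _ e' _ h
    ext i
    exact congrFun h i
  · intro k hk
    rw [Finset.mem_filter] at hk
    obtain ⟨_, hinj, him⟩ := hk
    have hmem : ∀ i, k i ∈ A := fun i => by
      rw [← him]; exact Finset.mem_image_of_mem _ (Finset.mem_univ _)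
    refine ⟨Equiv.ofBijective (fun i => (⟨k i, hmem i⟩ : A)) ⟨?_, ?_⟩, Finset.mem_univ _, ?_⟩
    · intro i j hij
      exact hinj (by simpa using hij)
    · rintro ⟨x, hx⟩
      rw [← him, Finset.mem_image] at hx
      obtain ⟨i, _, rfl⟩ := hx
      exact ⟨i, rfl⟩
    · funext i
      rfl

lemma sum_inj (n : ℕ) (Φ : Finset α → ℂ) :
    ∑ k ∈ (univ : Finset (Fin n → α)).filter (fun k => Function.Injective k), Φ (univ.image k) =
      (n.factorial : ℂ) * ∑ A ∈ (univ : Finset α).powersetCard n, Φ A := by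
  rw [← Finset.sum_fiberwise_of_maps_to (s := (univ : Finset (Fin n → α)).filter
    (fun k => Function.Injective k)) (t := (univ : Finset α).powersetCard n)
    (g := fun k => univ.image k)]
  · rw [Finset.mul_sum]
    refine Finset.sum_congr rfl fun A hA => ?_
    rw [Finset.mem_powersetCard] at hA
    rw [Finset.sum_congr rfl (g := fun _ => Φ A)]
    · rw [Finset.sum_const, Finset.filter_filter, card_fib n A hA.2, nsmul_eq_mul]
    · intro k hk
      rw [Finset.mem_filter] at hk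
      rw [hk.2]
  · intro k hk
    rw [Finset.mem_filter] at hk
    rw [Finset.mem_powersetCard]
    refine ⟨Finset.subset_univ _, ?_⟩
    rw [Finset.card_image_of_injective _ hk.2, Finset.card_univ, Fintype.card_fin]

lemma card_inj (n : ℕ) :
    (((univ : Finset (Fin n → α)).filter (fun k => Function.Injective k)).card : ℂ) =
      (n.factorial : ℂ) * ((Fintype.card α).choose n : ℂ) := by
  have h := sum_inj (α := α) n (fun _ => 1)
  simp only [Finset.sum_const, nsmul_eq_mul, mul_one, Finset.card_powersetCard,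
    Finset.card_univ] at h
  exact h

lemma card_inj_nat (n : ℕ) :
    ((univ : Finset (Fin n → α)).filter (fun k => Function.Injective k)).card =
      n.factorial * ((Fintype.card α).choose n) := by
  have h := card_inj (α := α) n
  exact_mod_cast h

/-- most maps are injective -/
lemma card_not_inj (n : ℕ) (hn : n ≤ Fintype.card α) (hg : 1 ≤ Fintype.card α) :
    (((univ : Finset (Fin n → α)).filter (fun k => ¬ Function.Injective k)).card : ℝ) ≤
      (n : ℝ) ^ 2 / (Fintype.card α : ℝ) * (Fintype.card α : ℝ) ^ n := by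
  set g := Fintype.card α with hgdef
  have hgR : (0 : ℝ) < g := by exact_mod_cast hg
  have h1 : ((univ : Finset (Fin n → α)).filter (fun k => Function.Injective k)).card +
      ((univ : Finset (Fin n → α)).filter (fun k => ¬ Function.Injective k)).card = g ^ n := by
    rw [Finset.card_filter_add_card_filter_not, Finset.card_univ]
    simp [hgdef]
  have h2 : ((univ : Finset (Fin n → α)).filter (fun k => Function.Injective k)).card =
      g.descFactorial n := by
    rw [card_inj_nat, Nat.descFactorial_eq_factorial_mul_choose]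
  have h3 : (g + 1 - n) ^ n ≤ g.descFactorial n := Nat.pow_sub_le_descFactorial g n
  have h4 : ((g : ℝ) - n) ^ n ≤ (g.descFactorial n : ℝ) := by
    have h5 : (g : ℝ) - n ≤ ((g + 1 - n : ℕ) : ℝ) := by
      rw [Nat.cast_sub (by omega)]
      push_cast
      linarith
    have h6 : (0 : ℝ) ≤ (g : ℝ) - n := by
      have : (n : ℝ) ≤ g := by exact_mod_cast hn
      linarith
    calc ((g : ℝ) - n) ^ n ≤ ((g + 1 - n : ℕ) : ℝ) ^ n := pow_le_pow_left₀ h6 h5 n
      _ = (((g + 1 - n) ^ n : ℕ) : ℝ) := by push_cast; rfl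
      _ ≤ _ := by exact_mod_cast h3
  have h7 : (1 : ℝ) + n * (-(n / g)) ≤ (1 + -(n / g : ℝ)) ^ n := by
    apply one_add_mul_le_pow
    have : (n : ℝ) / g ≤ 1 := by
      rw [div_le_one hgR]
      exact_mod_cast hn
    linarith
  have h8 : ((g : ℝ) - n) ^ n = (1 + -(n / g : ℝ)) ^ n * (g : ℝ) ^ n := by
    rw [← mul_pow]
    congr 1
    field_simp
    ring
  have h9 : (((univ : Finset (Fin n → α)).filter (fun k => Function.Injective k)).card : ℝ) +
      (((univ : Finset (Fin n → α)).filter (fun k => ¬ Function.Injective k)).card : ℝ) =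
        (g : ℝ) ^ n := by exact_mod_cast h1
  rw [h2] at h9
  have h10 : (1 + n * (-(n / g : ℝ))) * (g : ℝ) ^ n ≤ (g.descFactorial n : ℝ) := by
    refine le_trans ?_ h4
    rw [h8]
    exact mul_le_mul_of_nonneg_right h7 (by positivity)
  have h11 : (1 + n * (-(n / g : ℝ))) * (g : ℝ) ^ n =
      (g : ℝ) ^ n - (n : ℝ) ^ 2 / g * (g : ℝ) ^ n := by
    ring
  linarith

/-- comparison of the average over the `n`-subsets and the average over all maps -/
lemma compare (n : ℕ) (hn : n ≤ Fintype.card α) (hg : 1 ≤ Fintype.card α) (Φ : Finset α → ℂ)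
    (Ψ : (Fin n → α) → ℂ) (hΦ : ∀ A, ‖Φ A‖ ≤ 1) (hΨ : ∀ k, ‖Ψ k‖ ≤ 1)
    (P : (Fin n → α) → Prop) [DecidablePred P]
    (hP : ∀ k, Function.Injective k → P k → Ψ k = Φ (univ.image k)) :
    ‖((Fintype.card α : ℂ) ^ n)⁻¹ * ∑ k : Fin n → α, Ψ k -
      (((Fintype.card α).choose n : ℂ))⁻¹ * ∑ A ∈ (univ : Finset α).powersetCard n, Φ A‖ ≤
      2 * ((n : ℝ) ^ 2 / (Fintype.card α : ℝ)) +
        2 * (((univ : Finset (Fin n → α)).filter (fun k => ¬ P k)).card : ℝ) /
          (Fintype.card α : ℝ) ^ n := by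
  set g := Fintype.card α with hgdef
  have hgR : (0 : ℝ) < g := by exact_mod_cast hg
  have hgC : (g : ℂ) ≠ 0 := by exact_mod_cast hgR.ne'
  have hcpos : 0 < g.choose n := Nat.choose_pos hn
  have hcR : (0 : ℝ) < (g.choose n : ℝ) := by exact_mod_cast hcpos
  have hcC : ((g.choose n : ℕ) : ℂ) ≠ 0 := by exact_mod_cast hcR.ne'
  set I := (univ : Finset (Fin n → α)).filter (fun k => Function.Injective k) with hI
  set J := (univ : Finset (Fin n → α)).filter (fun k => ¬ Function.Injective k) with hJ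
  set Q := (univ : Finset (Fin n → α)).filter (fun k => ¬ P k) with hQ
  set S := ∑ A ∈ (univ : Finset α).powersetCard n, Φ A with hS
  have hsplit : ∑ k : Fin n → α, Ψ k = ∑ k ∈ I, Ψ k + ∑ k ∈ J, Ψ k :=
    (Finset.sum_filter_add_sum_filter_not _ _ _).symm
  have hsum : ∑ k ∈ I, Φ (univ.image k) = (n.factorial : ℂ) * S := sum_inj n Φ
  have hd1 : ‖∑ k ∈ J, Ψ k‖ ≤ (J.card : ℝ) := by
    refine (norm_sum_le _ _).trans ?_
    calc ∑ k ∈ J, ‖Ψ k‖ ≤ ∑ k ∈ J, (1 : ℝ) := Finset.sum_le_sum fun k _ => hΨ k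
      _ = J.card := by simp
  have hd2 : ‖∑ k ∈ I, Ψ k - ∑ k ∈ I, Φ (univ.image k)‖ ≤ 2 * (Q.card : ℝ) := by
    rw [← Finset.sum_sub_distrib]
    refine (norm_sum_le _ _).trans ?_
    calc ∑ k ∈ I, ‖Ψ k - Φ (univ.image k)‖ ≤ ∑ k ∈ I, (if ¬ P k then (2 : ℝ) else 0) := by
          refine Finset.sum_le_sum fun k hk => ?_
          rw [hI, Finset.mem_filter] at hk
          by_cases h : P k
          · rw [hP k hk.2 h, sub_self, norm_zero, if_neg (not_not.2 h)]
          · rw [if_pos h]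
            calc ‖Ψ k - Φ (univ.image k)‖ ≤ ‖Ψ k‖ + ‖Φ (univ.image k)‖ := norm_sub_le _ _
              _ ≤ 1 + 1 := add_le_add (hΨ k) (hΦ _)
              _ = 2 := by norm_num
      _ ≤ ∑ k : Fin n → α, (if ¬ P k then (2 : ℝ) else 0) := by
          refine Finset.sum_le_sum_of_subset_of_nonneg (Finset.subset_univ _) ?_
          intro k _ _
          split_ifs <;> norm_num
      _ = 2 * (Q.card : ℝ) := by
          rw [← Finset.sum_filter, Finset.sum_const, nsmul_eq_mul, mul_comm]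
  have hSn : ‖S‖ ≤ (g.choose n : ℝ) := by
    refine (norm_sum_le _ _).trans ?_
    calc ∑ A ∈ (univ : Finset α).powersetCard n, ‖Φ A‖
        ≤ ∑ A ∈ (univ : Finset α).powersetCard n, (1 : ℝ) := Finset.sum_le_sum fun A _ => hΦ A
      _ = _ := by simp [Finset.card_powersetCard, hgdef]
  have hIJ : (I.card : ℝ) + J.card = (g : ℝ) ^ n := by
    have : I.card + J.card = g ^ n := by
      rw [hI, hJ, Finset.card_filter_add_card_filter_not, Finset.card_univ]
      simp [hgdef]
    exact_mod_cast this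
  have hIc : (I.card : ℝ) = (n.factorial : ℝ) * (g.choose n : ℝ) := by
    have := card_inj_nat (α := α) n
    rw [← hI] at this
    exact_mod_cast this
  have hJb : (J.card : ℝ) ≤ (n : ℝ) ^ 2 / (g : ℝ) * (g : ℝ) ^ n := card_not_inj n hn hg
  have hgn : (0 : ℝ) < (g : ℝ) ^ n := by positivity
  -- decomposition
  have hdec : ((g : ℂ) ^ n)⁻¹ * ∑ k : Fin n → α, Ψ k - (((g).choose n : ℂ))⁻¹ * S =
      ((g : ℂ) ^ n)⁻¹ * (∑ k ∈ I, Ψ k - ∑ k ∈ I, Φ (univ.image k)) +
      ((g : ℂ) ^ n)⁻¹ * ∑ k ∈ J, Ψ k +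
      (((n.factorial : ℂ) * ((g.choose n : ℕ) : ℂ) - (g : ℂ) ^ n) *
        (((g : ℂ) ^ n)⁻¹ * (((g).choose n : ℂ))⁻¹)) * S := by
    rw [hsplit, hsum]
    field_simp
    ring
  have hgnC : ‖((g : ℂ) ^ n)⁻¹‖ = ((g : ℝ) ^ n)⁻¹ := by
    rw [norm_inv, norm_pow, Complex.norm_natCast]
  have hcnC : ‖(((g).choose n : ℂ))⁻¹‖ = ((g.choose n : ℝ))⁻¹ := by
    rw [norm_inv, Complex.norm_natCast]
  have hfac : ‖(n.factorial : ℂ) * ((g.choose n : ℕ) : ℂ) - (g : ℂ) ^ n‖ = (J.card : ℝ) := by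
    have h1 : (n.factorial : ℂ) * ((g.choose n : ℕ) : ℂ) - (g : ℂ) ^ n =
        ((-(J.card : ℝ) : ℝ) : ℂ) := by
      have h2 : (n.factorial : ℝ) * (g.choose n : ℝ) - (g : ℝ) ^ n = -(J.card : ℝ) := by
        rw [← hIc, ← hIJ]; ring
      rw [← h2]
      push_cast
      ring
    rw [h1, Complex.norm_real, norm_neg, Real.norm_of_nonneg (by positivity)]
  rw [hdec]
  refine (norm_add_le _ _).trans ?_
  have e1 : ‖((g : ℂ) ^ n)⁻¹ * (∑ k ∈ I, Ψ k - ∑ k ∈ I, Φ (univ.image k)) +
      ((g : ℂ) ^ n)⁻¹ * ∑ k ∈ J, Ψ k‖ ≤ 2 * (Q.card : ℝ) / (g : ℝ) ^ n + (n : ℝ) ^ 2 / g := by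
    refine (norm_add_le _ _).trans ?_
    rw [norm_mul, norm_mul, hgnC]
    apply add_le_add
    · rw [inv_mul_eq_div]
      exact div_le_div_of_nonneg_right hd2 hgn.le
    · rw [inv_mul_eq_div, div_le_iff₀ hgn]
      exact hd1.trans hJb
  have e2 : ‖(((n.factorial : ℂ) * ((g.choose n : ℕ) : ℂ) - (g : ℂ) ^ n) *
        (((g : ℂ) ^ n)⁻¹ * (((g).choose n : ℂ))⁻¹)) * S‖ ≤ (n : ℝ) ^ 2 / g := by
    rw [norm_mul, norm_mul, norm_mul, hfac, hgnC, hcnC]
    calc (J.card : ℝ) * (((g : ℝ) ^ n)⁻¹ * ((g.choose n : ℝ))⁻¹) * ‖S‖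
        ≤ (J.card : ℝ) * (((g : ℝ) ^ n)⁻¹ * ((g.choose n : ℝ))⁻¹) * (g.choose n : ℝ) :=
          mul_le_mul_of_nonneg_left hSn (by positivity)
      _ = (J.card : ℝ) / (g : ℝ) ^ n := by
          field_simp
      _ ≤ _ := by
          rw [div_le_iff₀ hgn]
          exact hJb
  linarith

end Count

/-! ### the squares of side `K` -/

/-- number of the indices in a block -/
lemma card_div (m N b a : ℕ) (hm : m = N * b) (hb : 0 < b) (ha : a < N) :
    ((univ : Finset (Fin m)).filter fun i : Fin m => (i : ℕ) / b = a).card = b := by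
  subst hm
  have h : ((univ : Finset (Fin (N * b))).filter fun i : Fin (N * b) => (i : ℕ) / b = a).card =
      (Finset.Ico (a * b) ((a + 1) * b)).card := by
    refine Finset.card_bij (fun i _ => (i : ℕ)) ?_ ?_ ?_
    · intro i hi
      rw [Finset.mem_filter] at hi
      rw [Finset.mem_Ico]
      constructor
      · have := Nat.div_mul_le_self (i : ℕ) b
        rw [hi.2] at this
        exact this
      · exact (Nat.div_lt_iff_lt_mul hb).1 (by rw [hi.2]; exact Nat.lt_succ_self a)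
    · intro i _ j _ h
      exact Fin.ext h
    · intro x hx
      rw [Finset.mem_Ico] at hx
      have hlt : x < N * b := lt_of_lt_of_le hx.2 (Nat.mul_le_mul_right b ha)
      refine ⟨⟨x, hlt⟩, ?_, rfl⟩
      rw [Finset.mem_filter]
      refine ⟨Finset.mem_univ _, ?_⟩
      have h1 : a ≤ x / b := (Nat.le_div_iff_mul_le hb).2 hx.1
      have h2 : x / b < a + 1 := (Nat.div_lt_iff_lt_mul hb).2 hx.2
      show x / b = a
      omega
  rw [h, Nat.card_Ico, Nat.succ_mul]
  omega

/-- number of the grid cells in a square -/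
lemma card_bl (N K M : ℕ) (hK : 0 < K) (hM : 0 < M) (v : ℕ × ℕ) (h1 : v.1 < N) (h2 : v.2 < N) :
    (bl N K M K v).card = (M * K) * (M * K) := by
  have hb : 0 < M * K := Nat.mul_pos hM hK
  have h : bl N K M K v =
      ((univ : Finset (Fin (N * K * M))).filter fun i : Fin (N * K * M) =>
        (i : ℕ) / (M * K) = v.1) ×ˢ
      ((univ : Finset (Fin (N * K * M))).filter fun i : Fin (N * K * M) =>
        (i : ℕ) / (M * K) = v.2) := by
    ext k
    simp only [bl, lb, Finset.mem_filter, Finset.mem_univ, true_and, Finset.mem_product,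
      Prod.ext_iff]
  rw [h, Finset.card_product, card_div (N * K * M) N (M * K) v.1 (by ring) hb h1,
    card_div (N * K * M) N (M * K) v.2 (by ring) hb h2]

/-- number of the maps which avoid a square -/
lemma card_avoid (N K M n : ℕ) (hK : 0 < K) (hM : 0 < M) (v : ℕ × ℕ) (h1 : v.1 < N)
    (h2 : v.2 < N) :
    ((univ : Finset (Fin n → Ix N K M)).filter fun k => ∀ i, lb N K M K (k i) ≠ v).card =
      (N * K * M * (N * K * M) - (M * K) * (M * K)) ^ n := by
  have h : ((univ : Finset (Fin n → Ix N K M)).filter fun k => ∀ i, lb N K M K (k i) ≠ v) =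
      Fintype.piFinset fun _ : Fin n => (bl N K M K v)ᶜ := by
    ext k
    simp only [Finset.mem_filter, Finset.mem_univ, true_and, Fintype.mem_piFinset, bl,
      Finset.mem_compl]
  rw [h, Fintype.card_piFinset, Finset.prod_const, Finset.card_univ, Fintype.card_fin,
    Finset.card_compl, card_bl N K M hK hM v h1 h2, Fintype.card_prod, Fintype.card_fin]

/-- the probability that a square is avoided -/
lemma prob_avoid (N K M n : ℕ) (hN : 0 < N) (hK : 0 < K) (hM : 0 < M) (hn : (N * K) ^ 2 ≤ n)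
    (v : ℕ × ℕ) (h1 : v.1 < N) (h2 : v.2 < N) :
    (((univ : Finset (Fin n → Ix N K M)).filter
      fun k => ∀ i, lb N K M K (k i) ≠ v).card : ℝ) ≤
      Real.exp (-((K : ℝ) ^ 2)) * ((N * K * M * (N * K * M) : ℕ) : ℝ) ^ n := by
  have hNR : (0 : ℝ) < N := by exact_mod_cast hN
  have hKR : (0 : ℝ) < K := by exact_mod_cast hK
  have hMR : (0 : ℝ) < M := by exact_mod_cast hM
  have hN1 : (1 : ℝ) ≤ N := by exact_mod_cast hN
  rw [card_avoid N K M n hK hM v h1 h2]
  have hle : (M * K) * (M * K) ≤ N * K * M * (N * K * M) := by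
    apply Nat.mul_le_mul
    · calc M * K = 1 * (K * M) := by ring
        _ ≤ N * (K * M) := Nat.mul_le_mul_right _ hN
        _ = N * K * M := by ring
    · calc M * K = 1 * (K * M) := by ring
        _ ≤ N * (K * M) := Nat.mul_le_mul_right _ hN
        _ = N * K * M := by ring
  rw [Nat.cast_pow, Nat.cast_sub hle]
  have e1 : ((N * K * M * (N * K * M) : ℕ) : ℝ) - ((M * K * (M * K) : ℕ) : ℝ) =
      (1 - 1 / (N : ℝ) ^ 2) * ((N * K * M * (N * K * M) : ℕ) : ℝ) := by
    push_cast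
    field_simp
  rw [e1, mul_pow]
  refine mul_le_mul_of_nonneg_right ?_ (by positivity)
  have h3 : (0 : ℝ) ≤ 1 - 1 / (N : ℝ) ^ 2 := by
    rw [sub_nonneg, div_le_one (by positivity)]
    nlinarith
  have h4 : 1 - 1 / (N : ℝ) ^ 2 ≤ Real.exp (-(1 / (N : ℝ) ^ 2)) := by
    have := Real.add_one_le_exp (-(1 / (N : ℝ) ^ 2))
    linarith
  calc (1 - 1 / (N : ℝ) ^ 2) ^ n ≤ Real.exp (-(1 / (N : ℝ) ^ 2)) ^ n := pow_le_pow_left₀ h3 h4 n
    _ = Real.exp (n * (-(1 / (N : ℝ) ^ 2))) := (Real.exp_nat_mul _ _).symm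
    _ ≤ Real.exp (-((K : ℝ) ^ 2)) := by
        apply Real.exp_le_exp.2
        have h5 : ((N : ℝ) * K) ^ 2 ≤ n := by exact_mod_cast hn
        have h6 : (K : ℝ) ^ 2 ≤ n / (N : ℝ) ^ 2 := by
          rw [le_div_iff₀ (by positivity)]
          nlinarith
        have h7 : (n : ℝ) * (-(1 / (N : ℝ) ^ 2)) = -(n / (N : ℝ) ^ 2) := by ring
        rw [h7]
        linarith

/-- every square is hit -/
def Hit (N K M n : ℕ) (k : Fin n → Ix N K M) : Prop :=
  ∀ v : Fin N × Fin N, ∃ i, lb N K M K (k i) = ((v.1 : ℕ), (v.2 : ℕ))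

instance (N K M n : ℕ) : DecidablePred (Hit N K M n) := fun k => by
  unfold Hit; infer_instance

lemma prob_hit (N K M n : ℕ) (hN : 0 < N) (hK : 0 < K) (hM : 0 < M) (hn : (N * K) ^ 2 ≤ n) :
    (((univ : Finset (Fin n → Ix N K M)).filter fun k => ¬ Hit N K M n k).card : ℝ) ≤
      (N : ℝ) ^ 2 * (Real.exp (-((K : ℝ) ^ 2)) * ((N * K * M * (N * K * M) : ℕ) : ℝ) ^ n) := by
  have h : ((univ : Finset (Fin n → Ix N K M)).filter fun k => ¬ Hit N K M n k) ⊆
      (univ : Finset (Fin N × Fin N)).biUnion fun v =>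
        (univ : Finset (Fin n → Ix N K M)).filter
          fun k => ∀ i, lb N K M K (k i) ≠ ((v.1 : ℕ), (v.2 : ℕ)) := by
    intro k hk
    rw [Finset.mem_filter] at hk
    have h2 := hk.2
    unfold Hit at h2
    push Not at h2
    obtain ⟨v, hv⟩ := h2
    rw [Finset.mem_biUnion]
    exact ⟨v, Finset.mem_univ _, Finset.mem_filter.2 ⟨Finset.mem_univ _, hv⟩⟩
  calc (((univ : Finset (Fin n → Ix N K M)).filter fun k => ¬ Hit N K M n k).card : ℝ)
      ≤ (((univ : Finset (Fin N × Fin N)).biUnion fun v =>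
        (univ : Finset (Fin n → Ix N K M)).filter
          fun k => ∀ i, lb N K M K (k i) ≠ ((v.1 : ℕ), (v.2 : ℕ))).card : ℝ) := by
        exact_mod_cast Finset.card_le_card h
    _ ≤ ∑ v : Fin N × Fin N, (((univ : Finset (Fin n → Ix N K M)).filter
          fun k => ∀ i, lb N K M K (k i) ≠ ((v.1 : ℕ), (v.2 : ℕ))).card : ℝ) := by
        exact_mod_cast Finset.card_biUnion_le
    _ ≤ ∑ v : Fin N × Fin N,
          (Real.exp (-((K : ℝ) ^ 2)) * ((N * K * M * (N * K * M) : ℕ) : ℝ) ^ n) :=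
        Finset.sum_le_sum fun v _ =>
          prob_avoid N K M n hN hK hM hn ((v.1 : ℕ), (v.2 : ℕ)) v.1.2 v.2.2
    _ = _ := by
        rw [Finset.sum_const, Finset.card_univ, Fintype.card_prod, Fintype.card_fin, nsmul_eq_mul]
        push_cast
        ring

/-! ### the two functionals agree if every square is hit -/

lemma sp_eq (N K M : ℕ) (hN : 0 < N) (hK : 0 < K) (hM : 0 < M) (k : Ix N K M) :
    sp N K M k = (((N : ℝ) * K : ℝ) : ℂ) * gp (N * K * M) k := by
  have hNR : (N : ℝ) ≠ 0 := by exact_mod_cast hN.ne'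
  have hKR : (K : ℝ) ≠ 0 := by exact_mod_cast hK.ne'
  have hMR : (M : ℝ) ≠ 0 := by exact_mod_cast hM.ne'
  apply Complex.ext
  · rw [Complex.re_ofReal_mul]
    simp only [sp, gp]
    push_cast
    field_simp
  · rw [Complex.im_ofReal_mul]
    simp only [sp, gp]
    push_cast
    field_simp

lemma plus_hit (N K M n : ℕ) (k : Fin n → Ix N K M) (hk : Hit N K M n k) :
    plus N K M (univ.image k) = Set.range fun i => sp N K M (k i) := by
  ext z
  simp only [plus, Set.mem_union, Set.mem_ofPred_eq, Set.mem_range, Finset.mem_image,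
    Finset.mem_univ, true_and]
  constructor
  · rintro (⟨_, ⟨i, rfl⟩, rfl⟩ | ⟨v, h1, h2, h3, _⟩)
    · exact ⟨i, rfl⟩
    · obtain ⟨i, hi⟩ := hk (⟨v.1, h1⟩, ⟨v.2, h2⟩)
      exact absurd hi (h3 _ ⟨i, rfl⟩)
  · rintro ⟨i, rfl⟩
    exact Or.inl ⟨k i, ⟨i, rfl⟩, rfl⟩

lemma fT_hit (N K M n : ℕ) (hN : 0 < N) (hK : 0 < K) (hM : 0 < M) (k : Fin n → Ix N K M)
    (hk : Hit N K M n k) :
    fT N K M (univ.image k) / ((N : ℝ) * (K : ℝ)) =
      tsp (Set.range fun i => gp (N * K * M) (k i)) := by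
  have hR : (0 : ℝ) < (N : ℝ) * K := by positivity
  have h : (Set.range fun i => sp N K M (k i)) =
      (fun z => (((N : ℝ) * K : ℝ) : ℂ) * z) '' (Set.range fun i => gp (N * K * M) (k i)) := by
    rw [← Set.range_comp]
    congr 1
    funext i
    exact sp_eq N K M hN hK hM (k i)
  rw [fT, plus_hit N K M n k hk, h, tsp_scale hR]
  field_simp

/-! ### the main statement -/

lemma norm_exp_I (x : ℝ) : ‖Complex.exp (Complex.I * (x : ℂ))‖ ≤ 1 := by
  rw [mul_comm, Complex.norm_exp_ofReal_mul_I]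

theorem main : S_LINK := by
  intro N K M n₀ hyp hlim c s hA t
  have hA := hA t
  -- the difference tends to zero
  have hbound : ∀ n : ℕ, n₀ ≤ n →
      ‖(((N n * K n * M n : ℕ) : ℂ) ^ (2 * n))⁻¹ *
        ∑ k : Fin n → Fin (N n * K n * M n) × Fin (N n * K n * M n), Complex.exp (Complex.I *
          ((t * ((tsp (Set.range fun i => gp (N n * K n * M n) (k i)) - c n) / s n) : ℝ) : ℂ)) -
        (((Fintype.card (Ix (N n) (K n) (M n))).choose n : ℂ))⁻¹ *
        ∑ A ∈ (Finset.univ : Finset (Ix (N n) (K n) (M n))).powersetCard n,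
          Complex.exp (Complex.I * ((t * ((fT (N n) (K n) (M n) A /
            ((N n : ℝ) * (K n : ℝ)) - c n) / s n) : ℝ) : ℂ))‖ ≤
      2 * (1 / (n : ℝ)) + 2 * (((N n : ℝ)) ^ 2 * Real.exp (-((K n : ℝ) ^ 2))) := by
    intro n hn
    obtain ⟨hN, hK, hM, hNK, hm⟩ := hyp n hn
    set m := N n * K n * M n with hmdef
    have hn1 : 1 ≤ n := by
      have : 1 ≤ (N n * K n) ^ 2 := Nat.one_le_pow _ _ (Nat.mul_pos hN hK)
      omega
    have hn3 : n ≤ n ^ 3 := Nat.le_self_pow (by norm_num) n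
    have hnm : n ≤ m := hn3.trans hm
    have hm1 : 1 ≤ m := hn1.trans hnm
    have hcard : Fintype.card (Ix (N n) (K n) (M n)) = m * m := by
      rw [Fintype.card_prod, Fintype.card_fin]
    have hmm : m ≤ m * m := Nat.le_mul_of_pos_left m hm1
    have hng : n ≤ Fintype.card (Ix (N n) (K n) (M n)) := by
      rw [hcard]; exact hnm.trans hmm
    have hg1 : 1 ≤ Fintype.card (Ix (N n) (K n) (M n)) := hn1.trans hng
    have key := compare (α := Ix (N n) (K n) (M n)) n hng hg1
      (fun A => Complex.exp (Complex.I * ((t * ((fT (N n) (K n) (M n) A /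
            ((N n : ℝ) * (K n : ℝ)) - c n) / s n) : ℝ) : ℂ)))
      (fun k => Complex.exp (Complex.I *
          ((t * ((tsp (Set.range fun i => gp m (k i)) - c n) / s n) : ℝ) : ℂ)))
      (fun A => norm_exp_I _) (fun k => norm_exp_I _) (Hit (N n) (K n) (M n) n)
      (fun k _ hk => by
        rw [fT_hit (N n) (K n) (M n) n hN hK hM k hk])
    have hpow : ((m : ℕ) : ℂ) ^ (2 * n) =
        (Fintype.card (Ix (N n) (K n) (M n)) : ℂ) ^ n := by
      rw [hcard, pow_mul]
      push_cast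
      rw [pow_two]
    rw [hpow]
    refine key.trans (add_le_add ?_ ?_)
    · refine mul_le_mul_of_nonneg_left ?_ (by norm_num)
      rw [hcard]
      have hnR : (1 : ℝ) ≤ n := by exact_mod_cast hn1
      have hmR : ((n : ℝ)) ^ 3 ≤ m := by exact_mod_cast hm
      have hm1R : (1 : ℝ) ≤ m := by exact_mod_cast hm1
      push_cast
      rw [div_le_div_iff₀ (by positivity) (by positivity), one_mul]
      calc (n : ℝ) ^ 2 * (n : ℝ) = (n : ℝ) ^ 3 := by ring
        _ ≤ (m : ℝ) := hmR
        _ ≤ (m : ℝ) * (m : ℝ) := by nlinarith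
    · have hh := prob_hit (N n) (K n) (M n) n hN hK hM hNK
      have hgp : (0 : ℝ) < (Fintype.card (Ix (N n) (K n) (M n)) : ℝ) ^ n := by
        have : (0 : ℝ) < (Fintype.card (Ix (N n) (K n) (M n)) : ℝ) := by exact_mod_cast hg1
        positivity
      rw [mul_div_assoc]
      refine mul_le_mul_of_nonneg_left ?_ (by norm_num)
      rw [div_le_iff₀ hgp]
      refine hh.trans (le_of_eq ?_)
      rw [hcard]
      ring
  have hzero : Tendsto (fun n : ℕ => 2 * (1 / (n : ℝ)) +
      2 * (((N n : ℝ)) ^ 2 * Real.exp (-((K n : ℝ) ^ 2)))) atTop (𝓝 0) := by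
    have h1 := (tendsto_one_div_atTop_nhds_zero_nat (𝕜 := ℝ)).const_mul 2
    have h2 := hlim.const_mul 2
    have h3 := h1.add h2
    simpa using h3
  have hdiff : Tendsto (fun n : ℕ => (((N n * K n * M n : ℕ) : ℂ) ^ (2 * n))⁻¹ *
        ∑ k : Fin n → Fin (N n * K n * M n) × Fin (N n * K n * M n), Complex.exp (Complex.I *
          ((t * ((tsp (Set.range fun i => gp (N n * K n * M n) (k i)) - c n) / s n) : ℝ) : ℂ)) -
        (((Fintype.card (Ix (N n) (K n) (M n))).choose n : ℂ))⁻¹ *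
        ∑ A ∈ (Finset.univ : Finset (Ix (N n) (K n) (M n))).powersetCard n,
          Complex.exp (Complex.I * ((t * ((fT (N n) (K n) (M n) A /
            ((N n : ℝ) * (K n : ℝ)) - c n) / s n) : ℝ) : ℂ))) atTop (𝓝 0) := by
    rw [tendsto_zero_iff_norm_tendsto_zero]
    refine squeeze_zero' (Filter.Eventually.of_forall fun n => norm_nonneg _) ?_ hzero
    filter_upwards [eventually_ge_atTop n₀] with n hn using hbound n hn
  have h := hdiff.add hA
  rw [zero_add] at h
  refine h.congr fun n => ?_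
  ring

end Pool.Agent.N940.TSP.Link
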