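import Pool.Agent.N940.TSP.Stm

/-!
# Cutting a closed tour at the boundary of a square (`S_CUT`), by helper768

Pieces of the tour are kept as triples `(a, m, b)` (the path `a :: (m ++ [b])`) with ends on the boundary of
the square. A list of such paths in which every point is an even number of times an end can be inserted in any
closed tour which visits all the ends.
-/

set_option autoImplicit false

namespace Pool.Agent.N940.TSP.CutB

/-! ### lengths -/

theorem len_nonneg : ∀ l : List ℂ, 0 ≤ len l
  | [] => le_rfl
  | [_] => le_rfl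
  | _ :: y :: l => add_nonneg dist_nonneg (len_nonneg (y :: l))

theorem len_cons_cons (x y : ℂ) (l : List ℂ) : len (x :: y :: l) = dist x y + len (y :: l) := rfl

theorem len_singleton (x : ℂ) : len [x] = 0 := rfl

theorem cyc_cons (x : ℂ) (l : List ℂ) : cyc (x :: l) = len (x :: (l ++ [x])) := rfl

theorem cyc_nonneg : ∀ l : List ℂ, 0 ≤ cyc l
  | [] => le_rfl
  | _ :: _ => len_nonneg _

/-- splitting a path at one of its vertices -/
theorem len_append (z : ℂ) : ∀ l m : List ℂ,
    len (l ++ z :: m) = len (l ++ [z]) + len (z :: m)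
  | [], m => by simp [len_singleton]
  | [x], m => by simp [len_cons_cons, len_singleton]
  | x :: y :: l, m => by
      have h := len_append z (y :: l) m
      simp only [List.cons_append, len_cons_cons] at h ⊢
      rw [h]; ring

theorem len_reverse : ∀ l : List ℂ, len l.reverse = len l
  | [] => rfl
  | [x] => rfl
  | x :: y :: l => by
      have h := len_reverse (y :: l)
      rw [List.reverse_cons, List.reverse_cons, List.append_assoc, List.singleton_append,
        len_append, ← List.reverse_cons, h, len_cons_cons, len_cons_cons, len_singleton,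
        dist_comm]
      ring

/-! ### paths -/

/-- a path with a first point, a list of inner points and a last point -/
abbrev Path := ℂ × List ℂ × ℂ

/-- length of a path -/
noncomputable def pl (p : Path) : ℝ := len (p.1 :: (p.2.1 ++ [p.2.2]))

/-- total length -/
noncomputable def tl (P : List Path) : ℝ := (P.map pl).sum

/-- the list of the ends -/
def ends (P : List Path) : List ℂ := P.flatMap fun p => [p.1, p.2.2]

@[simp] theorem ends_nil : ends [] = [] := rfl

@[simp] theorem ends_cons (p : Path) (P : List Path) :
    ends (p :: P) = p.1 :: p.2.2 :: ends P := rfl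

@[simp] theorem ends_append (P R : List Path) : ends (P ++ R) = ends P ++ ends R := by
  simp [ends]

@[simp] theorem tl_nil : tl [] = 0 := rfl

@[simp] theorem tl_cons (p : Path) (P : List Path) : tl (p :: P) = pl p + tl P := rfl

@[simp] theorem tl_append (P R : List Path) : tl (P ++ R) = tl P + tl R := by
  simp [tl]

theorem ends_length (P : List Path) : (ends P).length = 2 * P.length := by
  induction P with
  | nil => rfl
  | cons p P ih =>
    rw [ends_cons, List.length_cons, List.length_cons, ih, List.length_cons]
    ring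

theorem mem_ends {P : List Path} {x : ℂ} : x ∈ ends P ↔ ∃ p ∈ P, x = p.1 ∨ x = p.2.2 := by
  simp [ends]

/-- inserting a closed path -/
theorem cyc_insert (w1 w2 m : List ℂ) (a : ℂ) :
    cyc (w1 ++ a :: (m ++ a :: w2)) = cyc (w1 ++ a :: w2) + len (a :: (m ++ [a])) := by
  rcases w1 with _ | ⟨w, w1⟩
  · rw [List.nil_append, List.nil_append, cyc_cons, cyc_cons]
    have h := len_append a (a :: m) (w2 ++ [a])
    simp only [List.cons_append, List.append_assoc] at h ⊢
    rw [h]
    ring
  · rw [List.cons_append, List.cons_append, cyc_cons, cyc_cons]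
    have h1 := len_append a (w :: w1) (m ++ a :: (w2 ++ [w]))
    have h2 := len_append a (a :: m) (w2 ++ [w])
    have h3 := len_append a (w :: w1) (w2 ++ [w])
    simp only [List.cons_append, List.append_assoc] at h1 h2 h3 ⊢
    rw [h1, h2, h3]
    ring

/-- rotation of a closed tour -/
theorem cyc_rotate (l1 l2 : List ℂ) (x : ℂ) :
    cyc (l1 ++ x :: l2) = cyc (x :: (l2 ++ l1)) := by
  rcases l1 with _ | ⟨y, l1⟩
  · simp
  · rw [List.cons_append, cyc_cons, cyc_cons]
    have h1 := len_append x (y :: l1) (l2 ++ [y])
    have h2 := len_append y (x :: l2) (l1 ++ [x])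
    simp only [List.cons_append, List.append_assoc] at h1 h2 ⊢
    rw [h1, h2]
    ring

/-- the joining lemma -/
theorem join : ∀ (n : ℕ) (P : List Path) (W : List ℂ), P.length = n → (∀ x ∈ ends P, x ∈ W) →
    (∀ x, Even ((ends P).count x)) →
    ∃ l : List ℂ, (∀ x ∈ W, x ∈ l) ∧ (∀ p ∈ P, ∀ x ∈ p.2.1, x ∈ l) ∧ cyc l ≤ cyc W + tl P := by
  intro n
  induction n with
  | zero =>
    intro P W hP _ _
    rw [List.length_eq_zero_iff] at hP
    subst hP
    exact ⟨W, fun x hx => hx, fun p hp => by simp at hp, by simp⟩
  | succ n ih =>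
    intro P W hP hW hev
    obtain ⟨p, R, rfl⟩ := List.exists_cons_of_length_eq_add_one hP
    obtain ⟨a, m, b⟩ := p
    have haW : a ∈ W := hW a (by simp)
    have hbW : b ∈ W := hW b (by simp)
    have hRW : ∀ x ∈ ends R, x ∈ W := fun x hx => hW x (by simp [hx])
    have hRn : R.length = n := by simpa using hP
    by_cases hab : a = b
    · subst hab
      obtain ⟨w1, w2, rfl⟩ := List.append_of_mem haW
      have hev' : ∀ x, Even ((ends R).count x) := by
        intro x
        have h := hev x
        rw [ends_cons] at h
        simp only [List.count_cons] at h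
        by_cases hx : a = x
        · subst hx
          simp only [BEq.rfl, if_true, add_assoc] at h
          simpa [Nat.even_add] using h
        · have hx' : (a == x) = false := by simpa using hx
          simpa [hx'] using h
      obtain ⟨l, hl1, hl2, hl3⟩ := ih R (w1 ++ a :: (m ++ a :: w2)) hRn (by
        intro x hx
        have := hRW x hx
        simp only [List.mem_append, List.mem_cons] at this ⊢
        tauto) hev'
      refine ⟨l, ?_, ?_, ?_⟩
      · intro x hx
        apply hl1
        simp only [List.mem_append, List.mem_cons] at hx ⊢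
        tauto
      · intro p hp x hx
        rw [List.mem_cons] at hp
        rcases hp with rfl | hp
        · apply hl1
          simp only [List.mem_append, List.mem_cons]
          tauto
        · exact hl2 p hp x hx
      · rw [cyc_insert] at hl3
        rw [tl_cons, pl]
        simp only
        linarith
    · -- a second path with the end `b`
      have hodd : (ends R).count b ≠ 0 := by
        intro h0
        have h := hev b
        rw [ends_cons] at h
        simp only [List.count_cons, h0] at h
        have hx' : (a == b) = false := by simpa using hab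
        simp [hx'] at h
      have hbR : b ∈ ends R := by
        rw [← List.count_pos_iff]
        omega
      rw [mem_ends] at hbR
      obtain ⟨p', hp', hb⟩ := hbR
      obtain ⟨s, t, rfl⟩ := List.append_of_mem hp'
      obtain ⟨c, m', d⟩ := p'
      simp only at hb
      rcases hb with rfl | rfl
      · -- `p' = (b, m', d)`
        obtain ⟨l, hl1, hl2, hl3⟩ := ih ((a, m ++ b :: m', d) :: (s ++ t)) W (by
            simp only [List.length_cons, List.length_append] at hRn ⊢
            omega) (by
            intro x hx
            have h1 : x ∈ ends ((a, m, b) :: (s ++ (b, m', d) :: t)) := by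
              simp only [ends_cons, ends_append, List.mem_cons, List.mem_append] at hx ⊢
              tauto
            exact hW x h1) (by
            intro x
            have h := hev x
            simp only [ends_cons, ends_append, List.count_cons, List.count_append] at h ⊢
            generalize (if (b == x) = true then 1 else 0) = u at h
            generalize (if (a == x) = true then 1 else 0) = v at h ⊢
            generalize (if (d == x) = true then 1 else 0) = w at h ⊢
            rw [Nat.even_iff] at h ⊢
            omega)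
        refine ⟨l, hl1, ?_, ?_⟩
        · intro p hp x hx
          simp only [List.mem_cons, List.mem_append] at hp
          rcases hp with rfl | hp | rfl | hp
          · apply hl2 _ (List.mem_cons_self) x
            simp only [List.mem_append] at hx ⊢
            exact Or.inl hx
          · exact hl2 p (by simp [hp]) x hx
          · apply hl2 _ (List.mem_cons_self) x
            simp only [List.mem_append, List.mem_cons] at hx ⊢
            exact Or.inr (Or.inr hx)
          · exact hl2 p (by simp [hp]) x hx
        · refine hl3.trans (le_of_eq ?_)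
          simp only [tl_cons, tl_append, pl]
          have h := len_append b (a :: m) (m' ++ [d])
          simp only [List.cons_append, List.append_assoc] at h ⊢
          rw [h]
          ring
      · -- `p' = (c, m', b)`
        obtain ⟨l, hl1, hl2, hl3⟩ := ih ((a, m ++ b :: m'.reverse, c) :: (s ++ t)) W (by
            simp only [List.length_cons, List.length_append] at hRn ⊢
            omega) (by
            intro x hx
            have h1 : x ∈ ends ((a, m, b) :: (s ++ (c, m', b) :: t)) := by
              simp only [ends_cons, ends_append, List.mem_cons, List.mem_append] at hx ⊢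
              tauto
            exact hW x h1) (by
            intro x
            have h := hev x
            simp only [ends_cons, ends_append, List.count_cons, List.count_append] at h ⊢
            generalize (if (b == x) = true then 1 else 0) = u at h
            generalize (if (a == x) = true then 1 else 0) = v at h ⊢
            generalize (if (c == x) = true then 1 else 0) = w at h ⊢
            rw [Nat.even_iff] at h ⊢
            omega)
        refine ⟨l, hl1, ?_, ?_⟩
        · intro p hp x hx
          simp only [List.mem_cons, List.mem_append] at hp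
          rcases hp with rfl | hp | rfl | hp
          · apply hl2 _ (List.mem_cons_self) x
            simp only [List.mem_append] at hx ⊢
            exact Or.inl hx
          · exact hl2 p (by simp [hp]) x hx
          · apply hl2 _ (List.mem_cons_self) x
            simp only [List.mem_append, List.mem_cons, List.mem_reverse] at hx ⊢
            exact Or.inr (Or.inr hx)
          · exact hl2 p (by simp [hp]) x hx
        · refine hl3.trans (le_of_eq ?_)
          simp only [tl_cons, tl_append, pl]
          have h := len_append b (a :: m) (m'.reverse ++ [c])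
          have h2 := len_reverse (c :: (m' ++ [b]))
          simp only [List.reverse_cons, List.reverse_append, List.reverse_nil, List.nil_append,
            List.cons_append, List.append_assoc] at h h2 ⊢
          rw [h, ← h2]
          ring

/-! ### cutting a path in pieces -/

theorem paths (Q BP : Set ℂ)
    (hcr : ∀ x y : ℂ, (x ∈ Q ↔ y ∉ Q) → ∃ b ∈ BP, dist x b + dist b y = dist x y)
    (b0 : ℂ) (hb0 : b0 ∈ BP) : ∀ (ys : List ℂ) (e : ℂ), e ∈ BP → ∀ (c : List ℂ) (x : ℂ),
    (∀ y ∈ c, (y ∈ Q ↔ x ∈ Q)) → ∃ P R : List Path,
      (∀ w ∈ ends P, w ∈ BP) ∧ (∀ w ∈ ends R, w ∈ BP) ∧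
      (∀ y ∈ c ++ x :: ys, y ∈ Q → ∃ p ∈ P, y ∈ p.2.1) ∧
      (∀ y ∈ c ++ x :: ys, y ∉ Q → ∃ p ∈ R, y ∈ p.2.1) ∧
      tl P + tl R ≤ len (e :: (c ++ x :: (ys ++ [b0]))) ∧
      ∀ w, Even ((ends P).count w + (ends R).count w + (ends [(e, [], b0)]).count w) := by
  intro ys
  induction ys with
  | nil =>
    intro e he c x hc
    by_cases hx : x ∈ Q
    · refine ⟨[(e, c ++ [x], b0)], [], ?_, ?_, ?_, ?_, ?_, ?_⟩
      · intro w hw
        simp only [ends_cons, ends_nil, List.mem_cons, List.not_mem_nil, or_false] at hw
        rcases hw with rfl | rfl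
        · exact he
        · exact hb0
      · intro w hw
        simp at hw
      · intro y hy _
        exact ⟨_, List.mem_singleton_self _, hy⟩
      · intro y hy hyQ
        exfalso
        simp only [List.mem_append, List.mem_singleton] at hy
        rcases hy with hy | rfl
        · exact hyQ ((hc y hy).mpr hx)
        · exact hyQ hx
      · simp [pl]
      · intro w
        simp only [ends_cons, ends_nil, List.count_nil, add_zero]
        exact ⟨_, rfl⟩
    · refine ⟨[], [(e, c ++ [x], b0)], ?_, ?_, ?_, ?_, ?_, ?_⟩
      · intro w hw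
        simp at hw
      · intro w hw
        simp only [ends_cons, ends_nil, List.mem_cons, List.not_mem_nil, or_false] at hw
        rcases hw with rfl | rfl
        · exact he
        · exact hb0
      · intro y hy hyQ
        exfalso
        simp only [List.mem_append, List.mem_singleton] at hy
        rcases hy with hy | rfl
        · exact hx ((hc y hy).mp hyQ)
        · exact hx hyQ
      · intro y hy _
        exact ⟨_, List.mem_singleton_self _, hy⟩
      · simp [pl]
      · intro w
        simp only [ends_cons, ends_nil, List.count_nil, zero_add]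
        exact ⟨_, rfl⟩
  | cons y ys ih =>
    intro e he c x hc
    by_cases hxy : (x ∈ Q ↔ y ∉ Q)
    · obtain ⟨b, hb, hd⟩ := hcr x y hxy
      obtain ⟨P, R, h1, h2, h3, h4, h5, h6⟩ := ih b hb [] y (by simp)
      have hlen : len (e :: (c ++ x :: (y :: ys ++ [b0]))) =
          len (e :: ((c ++ [x]) ++ [b])) + len (b :: ([] ++ y :: (ys ++ [b0]))) := by
        have k1 := len_append x (e :: c) (y :: (ys ++ [b0]))
        have k2 := len_append x (e :: c) [b]
        simp only [List.cons_append, List.append_assoc, List.nil_append] at k1 k2 ⊢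
        rw [k1, k2]
        simp only [len_cons_cons, len_singleton]
        linarith
      by_cases hx : x ∈ Q
      · refine ⟨(e, c ++ [x], b) :: P, R, ?_, h2, ?_, ?_, ?_, ?_⟩
        · intro w hw
          simp only [ends_cons, List.mem_cons] at hw
          rcases hw with rfl | rfl | hw
          · exact he
          · exact hb
          · exact h1 w hw
        · intro z hz hzQ
          simp only [List.mem_append, List.mem_cons] at hz
          rcases hz with hz | rfl | hz
          · exact ⟨_, List.mem_cons_self, by simp [hz]⟩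
          · exact ⟨_, List.mem_cons_self, by simp⟩
          · obtain ⟨p, hp, hzp⟩ := h3 z (by simpa using hz) hzQ
            exact ⟨p, List.mem_cons_of_mem _ hp, hzp⟩
        · intro z hz hzQ
          simp only [List.mem_append, List.mem_cons] at hz
          rcases hz with hz | rfl | hz
          · exact absurd ((hc z hz).mpr hx) hzQ
          · exact absurd hx hzQ
          · exact h4 z (by simpa using hz) hzQ
        · rw [hlen, tl_cons, pl]
          simp only
          linarith
        · intro w
          have h := h6 w
          simp only [ends_cons, ends_nil, List.count_cons, List.count_nil] at h ⊢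
          generalize (if (b == w) = true then 1 else 0) = u at h ⊢
          generalize (if (e == w) = true then 1 else 0) = v at h ⊢
          generalize (if (b0 == w) = true then 1 else 0) = s at h ⊢
          rw [Nat.even_iff] at h ⊢
          omega
      · refine ⟨P, (e, c ++ [x], b) :: R, h1, ?_, ?_, ?_, ?_, ?_⟩
        · intro w hw
          simp only [ends_cons, List.mem_cons] at hw
          rcases hw with rfl | rfl | hw
          · exact he
          · exact hb
          · exact h2 w hw
        · intro z hz hzQ
          simp only [List.mem_append, List.mem_cons] at hz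
          rcases hz with hz | rfl | hz
          · exact absurd ((hc z hz).mp hzQ) hx
          · exact absurd hzQ hx
          · exact h3 z (by simpa using hz) hzQ
        · intro z hz hzQ
          simp only [List.mem_append, List.mem_cons] at hz
          rcases hz with hz | rfl | hz
          · exact ⟨_, List.mem_cons_self, by simp [hz]⟩
          · exact ⟨_, List.mem_cons_self, by simp⟩
          · obtain ⟨p, hp, hzp⟩ := h4 z (by simpa using hz) hzQ
            exact ⟨p, List.mem_cons_of_mem _ hp, hzp⟩
        · rw [hlen, tl_cons, pl]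
          simp only
          linarith
        · intro w
          have h := h6 w
          simp only [ends_cons, ends_nil, List.count_cons, List.count_nil] at h ⊢
          generalize (if (b == w) = true then 1 else 0) = u at h ⊢
          generalize (if (e == w) = true then 1 else 0) = v at h ⊢
          generalize (if (b0 == w) = true then 1 else 0) = s at h ⊢
          rw [Nat.even_iff] at h ⊢
          omega
    · have hxy' : (x ∈ Q ↔ y ∈ Q) := by tauto
      obtain ⟨P, R, h1, h2, h3, h4, h5, h6⟩ := ih e he (c ++ [x]) y (by
        intro z hz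
        simp only [List.mem_append, List.mem_singleton] at hz
        rcases hz with hz | rfl
        · exact (hc z hz).trans hxy'
        · exact hxy')
      refine ⟨P, R, h1, h2, ?_, ?_, ?_, h6⟩
      · intro z hz
        exact h3 z (by simpa using hz)
      · intro z hz
        exact h4 z (by simpa using hz)
      · simpa using h5

/-! ### the boundary of the square -/

/-- cut-off -/
noncomputable def cc (u : ℝ) : ℝ := max 0 (min 1 u)

/-- parametrization of the boundary -/
noncomputable def gb (a b r : ℝ) (t : ℝ) : ℂ :=
  ⟨a + r * (cc t - cc (t - 2)), b + r * (cc (t - 1) - cc (t - 3))⟩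

theorem cc_mono {s t : ℝ} (h : s ≤ t) : cc s ≤ cc t :=
  max_le_max le_rfl (min_le_min le_rfl h)

theorem cc_nonneg (t : ℝ) : 0 ≤ cc t := le_max_left _ _

theorem cc_le (t : ℝ) : cc t ≤ 1 := max_le zero_le_one (min_le_left _ _)

theorem cc_of_nonpos {t : ℝ} (h : t ≤ 0) : cc t = 0 := by
  rw [cc, min_eq_right (by linarith), max_eq_left h]

theorem cc_of_mem {t : ℝ} (h0 : 0 ≤ t) (h1 : t ≤ 1) : cc t = t := by
  rw [cc, min_eq_right h1, max_eq_right h0]

theorem cc_of_ge {t : ℝ} (h : 1 ≤ t) : cc t = 1 := by
  rw [cc, min_eq_left h, max_eq_right zero_le_one]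

theorem cc_sum {t : ℝ} (h0 : 0 ≤ t) (h4 : t ≤ 4) :
    cc t + cc (t - 1) + cc (t - 2) + cc (t - 3) = t := by
  rcases le_total t 1 with h1 | h1
  · rw [cc_of_mem h0 h1, cc_of_nonpos (by linarith), cc_of_nonpos (by linarith),
      cc_of_nonpos (by linarith)]
    ring
  rcases le_total t 2 with h2 | h2
  · rw [cc_of_ge h1, cc_of_mem (by linarith) (by linarith), cc_of_nonpos (by linarith),
      cc_of_nonpos (by linarith)]
    ring
  rcases le_total t 3 with h3 | h3
  · rw [cc_of_ge h1, cc_of_ge (by linarith), cc_of_mem (by linarith) (by linarith),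
      cc_of_nonpos (by linarith)]
    ring
  · rw [cc_of_ge h1, cc_of_ge (by linarith), cc_of_ge (by linarith),
      cc_of_mem (by linarith) (by linarith)]
    ring

/-- the points of the boundary -/
def BP (a b r : ℝ) : Set ℂ := gb a b r '' Set.Icc 0 4

theorem dist_le_add (z w : ℂ) : dist z w ≤ |z.re - w.re| + |z.im - w.im| := by
  rw [dist_eq_norm, ← Complex.sub_re, ← Complex.sub_im]
  exact Complex.norm_le_abs_re_add_abs_im _

theorem gb_dist {a b r s t : ℝ} (hr : 0 < r) (hs : 0 ≤ s) (hst : s ≤ t) (ht : t ≤ 4) :
    dist (gb a b r s) (gb a b r t) ≤ r * (t - s) := by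
  have h1 := cc_sum hs (hst.trans ht)
  have h2 := cc_sum (hs.trans hst) ht
  have m0 := cc_mono hst
  have m1 : cc (s - 1) ≤ cc (t - 1) := cc_mono (by linarith)
  have m2 : cc (s - 2) ≤ cc (t - 2) := cc_mono (by linarith)
  have m3 : cc (s - 3) ≤ cc (t - 3) := cc_mono (by linarith)
  refine (dist_le_add _ _).trans ?_
  have e1 : |(gb a b r s).re - (gb a b r t).re| ≤
      r * ((cc t - cc s) + (cc (t - 2) - cc (s - 2))) := by
    have : (gb a b r s).re - (gb a b r t).re =
        r * ((cc (t - 2) - cc (s - 2)) - (cc t - cc s)) := by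
      simp only [gb]
      ring
    rw [this, abs_mul, abs_of_pos hr]
    apply mul_le_mul_of_nonneg_left _ hr.le
    rw [abs_le]
    constructor <;> linarith
  have e2 : |(gb a b r s).im - (gb a b r t).im| ≤
      r * ((cc (t - 1) - cc (s - 1)) + (cc (t - 3) - cc (s - 3))) := by
    have : (gb a b r s).im - (gb a b r t).im =
        r * ((cc (t - 3) - cc (s - 3)) - (cc (t - 1) - cc (s - 1))) := by
      simp only [gb]
      ring
    rw [this, abs_mul, abs_of_pos hr]
    apply mul_le_mul_of_nonneg_left _ hr.le
    rw [abs_le]
    constructor <;> linarith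
  calc _ ≤ r * ((cc t - cc s) + (cc (t - 2) - cc (s - 2))) +
      r * ((cc (t - 1) - cc (s - 1)) + (cc (t - 3) - cc (s - 3))) := add_le_add e1 e2
    _ = r * ((cc t + cc (t - 1) + cc (t - 2) + cc (t - 3)) -
        (cc s + cc (s - 1) + cc (s - 2) + cc (s - 3))) := by ring
    _ = r * (t - s) := by rw [h1, h2]

/-- the closed square -/
def KK (a b r : ℝ) : Set ℂ := {w | a ≤ w.re ∧ w.re ≤ a + r ∧ b ≤ w.im ∧ w.im ≤ b + r}

theorem dist_KK {a b r : ℝ} (hr : 0 < r) {z w : ℂ} (hz : z ∈ KK a b r) (hw : w ∈ KK a b r) :
    dist z w ≤ 3 / 2 * r := by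
  obtain ⟨z1, z2, z3, z4⟩ := hz
  obtain ⟨w1, w2, w3, w4⟩ := hw
  rw [Complex.dist_eq_re_im, Real.sqrt_le_left (by positivity)]
  have h1 : (z.re - w.re) ^ 2 ≤ r ^ 2 := sq_le_sq' (by linarith) (by linarith)
  have h2 : (z.im - w.im) ^ 2 ≤ r ^ 2 := sq_le_sq' (by linarith) (by linarith)
  nlinarith

theorem gb_mem_KK {a b r : ℝ} (hr : 0 < r) (t : ℝ) : gb a b r t ∈ KK a b r := by
  have h0 := cc_nonneg t
  have h2 := cc_nonneg (t - 2)
  have h1 := cc_nonneg (t - 1)
  have h3 := cc_nonneg (t - 3)
  have k0 := cc_le t
  have k1 := cc_le (t - 1)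
  have m0 : cc (t - 2) ≤ cc t := cc_mono (by linarith)
  have m1 : cc (t - 3) ≤ cc (t - 1) := cc_mono (by linarith)
  refine ⟨?_, ?_, ?_, ?_⟩ <;> simp only [gb]
  · have : 0 ≤ r * (cc t - cc (t - 2)) := mul_nonneg hr.le (by linarith)
    linarith
  · have : r * (cc t - cc (t - 2)) ≤ r * 1 := mul_le_mul_of_nonneg_left (by linarith) hr.le
    linarith
  · have : 0 ≤ r * (cc (t - 1) - cc (t - 3)) := mul_nonneg hr.le (by linarith)
    linarith
  · have : r * (cc (t - 1) - cc (t - 3)) ≤ r * 1 := mul_le_mul_of_nonneg_left (by linarith) hr.le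
    linarith

theorem frontier_sub {a b r : ℝ} (hr : 0 < r) {w : ℂ}
    (hw : w ∈ frontier {w : ℂ | a ≤ w.re ∧ w.re < a + r ∧ b ≤ w.im ∧ w.im < b + r}) :
    w ∈ BP a b r := by
  have hset : {w : ℂ | a ≤ w.re ∧ w.re < a + r ∧ b ≤ w.im ∧ w.im < b + r} =
      Set.Ico a (a + r) ×ℂ Set.Ico b (b + r) := by
    ext w
    simp only [Set.mem_ofPred_eq, Complex.mem_reProdIm, Set.mem_Ico]
    tauto
  rw [hset, Complex.frontier_reProdIm, closure_Ico (by linarith), closure_Ico (by linarith),
    frontier_Ico (by linarith), frontier_Ico (by linarith)] at hw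
  simp only [Set.mem_union, Complex.mem_reProdIm, Set.mem_Icc, Set.mem_insert_iff,
    Set.mem_singleton_iff] at hw
  have key : ∀ t ∈ Set.Icc (0 : ℝ) 4, gb a b r t = w → w ∈ BP a b r := fun t ht h => ⟨t, ht, h⟩
  have hr0 : r ≠ 0 := hr.ne'
  rcases hw with ⟨⟨h1, h2⟩, h3 | h3⟩ | ⟨h3 | h3, ⟨h1, h2⟩⟩
  · -- bottom side
    have hu0 : 0 ≤ (w.re - a) / r := div_nonneg (by linarith) hr.le
    have hu1 : (w.re - a) / r ≤ 1 := by rw [div_le_one hr]; linarith
    apply key ((w.re - a) / r) ⟨hu0, by linarith⟩
    apply Complex.ext
    · simp only [gb]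
      rw [cc_of_mem hu0 hu1, cc_of_nonpos (by linarith)]
      field_simp
      ring
    · simp only [gb]
      rw [cc_of_nonpos (by linarith), cc_of_nonpos (by linarith), h3]
      ring
  · -- top side
    have hu0 : 0 ≤ (w.re - a) / r := div_nonneg (by linarith) hr.le
    have hu1 : (w.re - a) / r ≤ 1 := by rw [div_le_one hr]; linarith
    apply key (3 - (w.re - a) / r) ⟨by linarith, by linarith⟩
    apply Complex.ext
    · simp only [gb]
      rw [cc_of_ge (by linarith), cc_of_mem (by linarith) (by linarith)]
      field_simp
      ring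
    · simp only [gb]
      rw [cc_of_ge (by linarith), cc_of_nonpos (by linarith), h3]
      ring
  · -- left side
    have hu0 : 0 ≤ (w.im - b) / r := div_nonneg (by linarith) hr.le
    have hu1 : (w.im - b) / r ≤ 1 := by rw [div_le_one hr]; linarith
    apply key (4 - (w.im - b) / r) ⟨by linarith, by linarith⟩
    apply Complex.ext
    · simp only [gb]
      rw [cc_of_ge (by linarith), cc_of_ge (by linarith), h3]
      ring
    · simp only [gb]
      rw [cc_of_ge (by linarith), cc_of_mem (by linarith) (by linarith)]
      field_simp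
      ring
  · -- right side
    have hu0 : 0 ≤ (w.im - b) / r := div_nonneg (by linarith) hr.le
    have hu1 : (w.im - b) / r ≤ 1 := by rw [div_le_one hr]; linarith
    apply key (1 + (w.im - b) / r) ⟨by linarith, by linarith⟩
    apply Complex.ext
    · simp only [gb]
      rw [cc_of_ge (by linarith), cc_of_nonpos (by linarith), h3]
      ring
    · simp only [gb]
      rw [cc_of_mem (by linarith) (by linarith), cc_of_nonpos (by linarith)]
      field_simp
      ring

/-- the crossing point -/
theorem crossing (Q : Set ℂ) {x y : ℂ} (hx : x ∈ Q) (hy : y ∉ Q) :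
    ∃ b ∈ frontier Q, dist x b + dist b y = dist x y := by
  by_contra hcon
  push Not at hcon
  have hseg : ∀ b ∈ segment ℝ x y, b ∉ frontier Q := fun b hb hf =>
    hcon b hf (dist_add_dist_of_mem_segment hb)
  have hpre : IsPreconnected (segment ℝ x y) := (convex_segment x y).isPreconnected
  have hxs : x ∈ segment ℝ x y := left_mem_segment ℝ x y
  have hys : y ∈ segment ℝ x y := right_mem_segment ℝ x y
  have hcov : segment ℝ x y ⊆ interior Q ∪ (closure Q)ᶜ := by
    intro b hb
    by_contra h
    rw [Set.mem_union, not_or, Set.notMem_compl_iff] at h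
    exact hseg b hb ⟨h.2, h.1⟩
  have hxi : x ∈ interior Q := by
    rcases hcov hxs with h | h
    · exact h
    · exact absurd (subset_closure hx) h
  have hyi : y ∈ (closure Q)ᶜ := by
    rcases hcov hys with h | h
    · exact absurd (interior_subset h) hy
    · exact h
  obtain ⟨w, _, hw1, hw2⟩ := hpre (interior Q) (closure Q)ᶜ isOpen_interior
    isClosed_closure.isOpen_compl hcov ⟨x, hxs, hxi⟩ ⟨y, hys, hyi⟩
  exact hw2 (subset_closure (interior_subset hw1))

/-- closed walk on the boundary: the length from a parameter on -/
theorem walk {a b r : ℝ} (hr : 0 < r) (z : ℂ) (hz : z ∈ KK a b r) : ∀ (T : List ℝ) (t : ℝ),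
    0 ≤ t → (∀ s ∈ t :: T, s ≤ 4) → (t :: T).Pairwise (· ≤ ·) →
    len ((t :: T).map (gb a b r) ++ [z]) ≤ r * (4 - t) + 3 / 2 * r := by
  intro T
  induction T with
  | nil =>
    intro t _ h4 _
    simp only [List.map_cons, List.map_nil, List.cons_append, List.nil_append, len_cons_cons,
      len_singleton, add_zero]
    have h1 := dist_KK hr (gb_mem_KK (a := a) (b := b) hr t) hz
    have h2 : t ≤ 4 := h4 t (by simp)
    have h3 : 0 ≤ r * (4 - t) := mul_nonneg hr.le (by linarith)
    linarith
  | cons s T ih =>
    intro t h0 h4 hs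
    rw [List.pairwise_cons] at hs
    have hts : t ≤ s := hs.1 s (by simp)
    have hs4 : s ≤ 4 := h4 s (by simp)
    have h1 := ih s (h0.trans hts) (fun u hu => h4 u (List.mem_cons_of_mem _ hu)) hs.2
    have h2 := gb_dist (a := a) (b := b) hr h0 hts hs4
    simp only [List.map_cons, List.cons_append, len_cons_cons] at h1 ⊢
    have h3 : r * (4 - t) = r * (4 - s) + r * (s - t) := by ring
    linarith

/-- the matching -/
theorem matching {a b r : ℝ} (hr : 0 < r) : ∀ (n : ℕ) (T : List ℝ) (s : ℝ), T.length = 2 * n →
    0 ≤ s → s ≤ 4 → (∀ t ∈ T, s ≤ t ∧ t ≤ 4) → T.Pairwise (· ≤ ·) →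
    ∃ M : List Path, ends M = T.map (gb a b r) ∧ tl M ≤ r * (4 - s) := by
  intro n
  induction n with
  | zero =>
    intro T s hT _ hs4 _ _
    have : T = [] := by
      rw [← List.length_eq_zero_iff]
      omega
    subst this
    exact ⟨[], by simp, by
      rw [tl_nil]
      exact mul_nonneg hr.le (by linarith)⟩
  | succ n ih =>
    intro T s hT hs0 hs4 hmem hpw
    match T, hT, hmem, hpw with
    | [], hT, _, _ => simp at hT
    | [_], hT, _, _ =>
      simp only [List.length_cons, List.length_nil] at hT
      omega
    | t1 :: t2 :: T, hT, hmem, hpw =>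
      rw [List.pairwise_cons, List.pairwise_cons] at hpw
      have h1 := hmem t1 (by simp)
      have h2 := hmem t2 (by simp)
      have h12 : t1 ≤ t2 := hpw.1 t2 (by simp)
      obtain ⟨M, hM1, hM2⟩ := ih T t2 (by
        simp only [List.length_cons] at hT
        omega) (hs0.trans h2.1) h2.2 (fun t ht => ⟨hpw.2.1 t ht, (hmem t (by simp [ht])).2⟩)
        hpw.2.2
      refine ⟨(gb a b r t1, [], gb a b r t2) :: M, ?_, ?_⟩
      · simp [hM1]
      · rw [tl_cons, pl]
        simp only [List.nil_append, len_cons_cons, len_singleton, add_zero]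
        have h3 := gb_dist (a := a) (b := b) hr (hs0.trans h1.1) h12 h2.2
        have h4 : r * (t1 - s) ≥ 0 := mul_nonneg hr.le (by linarith)
        have h5 : r * (4 - s) = r * (t1 - s) + r * (t2 - t1) + r * (4 - t2) := by ring
        linarith

/-- sorted parameters of a list of boundary points -/
theorem sorted_params {a b r : ℝ} (E : List ℂ) (hE : ∀ x ∈ E, x ∈ BP a b r) :
    ∃ T : List ℝ, (∀ t ∈ T, 0 ≤ t ∧ t ≤ 4) ∧ T.Pairwise (· ≤ ·) ∧
      (T.map (gb a b r)).Perm E ∧ T.length = E.length := by
  classical
  choose! τ hτ1 hτ2 using hE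
  refine ⟨(E.map τ).insertionSort (· ≤ ·), ?_, List.pairwise_insertionSort _ _, ?_, ?_⟩
  · intro t ht
    rw [(List.perm_insertionSort (· ≤ ·) (E.map τ)).mem_iff, List.mem_map] at ht
    obtain ⟨x, hx, rfl⟩ := ht
    exact hτ1 x hx
  · refine ((List.perm_insertionSort (· ≤ ·) (E.map τ)).map _).trans ?_
    rw [List.map_map]
    have : E.map (gb a b r ∘ τ) = E.map id := List.map_congr_left fun x hx => hτ2 x hx
    rw [this, List.map_id]
  · rw [(List.perm_insertionSort (· ≤ ·) (E.map τ)).length_eq, List.length_map]

theorem tsp_le {F : Set ℂ} {l : List ℂ} (h : ∀ x ∈ F, x ∈ l) : tsp F ≤ cyc l := by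
  apply csInf_le
  · refine ⟨0, ?_⟩
    rintro _ ⟨l, _, rfl⟩
    exact cyc_nonneg l
  · exact ⟨l, h, rfl⟩

theorem main : S_CUT := by
  intro a b r hr A H z hA hH hAne hAQ hHQ hz
  set Q : Set ℂ := {w : ℂ | a ≤ w.re ∧ w.re < a + r ∧ b ≤ w.im ∧ w.im < b + r} with hQ
  have hQK : ∀ w ∈ Q, w ∈ KK a b r := fun w hw => ⟨hw.1, hw.2.1.le, hw.2.2.1, hw.2.2.2.le⟩
  have hcr : ∀ x y : ℂ, (x ∈ Q ↔ y ∉ Q) →
      ∃ w ∈ BP a b r, dist x w + dist w y = dist x y := by
    intro x y hxy
    by_cases hx : x ∈ Q
    · obtain ⟨w, hw, hd⟩ := crossing Q hx (hxy.mp hx)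
      exact ⟨w, frontier_sub hr hw, hd⟩
    · have hy : y ∈ Q := by
        by_contra hy
        exact hx (hxy.mpr hy)
      obtain ⟨w, hw, hd⟩ := crossing Q hy hx
      refine ⟨w, frontier_sub hr hw, ?_⟩
      rw [dist_comm x w, dist_comm w y, dist_comm x y, ← hd]
      ring
  -- it is enough to consider one tour
  suffices hmain : ∀ l : List ℂ, (∀ x ∈ A ∪ H, x ∈ l) →
      tsp A + tsp (insert z H) - 27 * r ≤ cyc l by
    have hne : {s : ℝ | ∃ l : List ℂ, (∀ x ∈ A ∪ H, x ∈ l) ∧ s = cyc l}.Nonempty := by
      refine ⟨_, (hA.union hH).toFinset.toList, ?_, rfl⟩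
      intro x hx
      rw [Finset.mem_toList, Set.Finite.mem_toFinset]
      exact hx
    have h1 : tsp A + tsp (insert z H) - 27 * r ≤ tsp (A ∪ H) := by
      apply le_csInf hne
      rintro _ ⟨l, hl, rfl⟩
      exact hmain l hl
    linarith
  intro l hl
  obtain ⟨a0, ha0⟩ := hAne
  obtain ⟨l1, l2, rfl⟩ := List.append_of_mem (hl a0 (Or.inl ha0))
  set w0 : ℂ := gb a b r 0 with hw0
  have hw0B : w0 ∈ BP a b r := ⟨0, ⟨le_rfl, by norm_num⟩, rfl⟩
  have hd0 : dist w0 a0 ≤ 3 / 2 * r := dist_KK hr (gb_mem_KK hr 0) (hQK a0 (hAQ a0 ha0))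
  obtain ⟨P, R, hP, hR, hPc, hRc, hlen, hpar⟩ := paths Q (BP a b r) hcr w0 hw0B (l2 ++ l1) w0 hw0B
    [] a0 (by simp)
  simp only [List.nil_append] at hPc hRc hlen
  have hmem : ∀ x ∈ A ∪ H, x ∈ a0 :: (l2 ++ l1) := by
    intro x hx
    have := hl x hx
    simp only [List.mem_append, List.mem_cons] at this ⊢
    tauto
  -- length of the cut tour
  have hlen2 : tl P + tl R ≤ cyc (l1 ++ a0 :: l2) + 3 * r := by
    rw [cyc_rotate, cyc_cons]
    have h1 : len (a0 :: (l2 ++ l1 ++ [w0])) ≤ len (a0 :: (l2 ++ l1 ++ [a0])) + dist a0 w0 := by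
      -- insert `a0` before `w0`
      have haux : ∀ (s : List ℂ) (u x y : ℂ), len (u :: (s ++ [y])) ≤
          len (u :: (s ++ [x])) + dist x y := by
        intro s
        induction s with
        | nil =>
          intro u x y
          simp only [List.nil_append, len_cons_cons, len_singleton, add_zero]
          exact dist_triangle _ _ _
        | cons v s ih =>
          intro u x y
          have := ih v x y
          simp only [List.cons_append, len_cons_cons] at this ⊢
          linarith
      exact haux _ _ _ _
    rw [len_cons_cons] at hlen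
    rw [dist_comm a0 w0] at h1
    linarith
  -- the closed walk on the boundary
  obtain ⟨T, hT1, hT2, hT3, -⟩ := sorted_params (a := a) (b := b) (r := r)
    (w0 :: (ends P ++ ends R)) (by
      intro x hx
      simp only [List.mem_cons, List.mem_append] at hx
      rcases hx with rfl | hx | hx
      · exact hw0B
      · exact hP x hx
      · exact hR x hx)
  set W : List ℂ := T.map (gb a b r) with hW
  have hWmem : ∀ x, x ∈ W ↔ x ∈ w0 :: (ends P ++ ends R) := fun x => hT3.mem_iff
  have hWcyc : cyc W ≤ 11 / 2 * r := by
    rw [hW]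
    rcases T with _ | ⟨t, T⟩
    · simp only [List.map_nil, cyc]
      positivity
    · have h0 := hT1 t (by simp)
      have h1 := walk (a := a) (b := b) hr (gb a b r t) (gb_mem_KK hr t) T t h0.1
        (fun s hs => (hT1 s hs).2) hT2
      rw [List.map_cons, cyc_cons]
      rw [List.map_cons, List.cons_append] at h1
      refine h1.trans ?_
      have : 0 ≤ r * t := mul_nonneg hr.le h0.1
      linarith
  -- the matching
  obtain ⟨T', hT1', hT2', hT3', hT4'⟩ := sorted_params (a := a) (b := b) (r := r) (ends P) hP
  obtain ⟨M, hM1, hM2⟩ := matching (a := a) (b := b) hr P.length T' 0 (by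
    rw [hT4', ends_length]) le_rfl (by norm_num) hT1' hT2'
  have hMc : ∀ x, (ends M).count x = (ends P).count x := by
    intro x
    rw [hM1]
    exact hT3'.count_eq x
  have hMmem : ∀ x ∈ ends M, x ∈ W := by
    intro x hx
    rw [hM1, hT3'.mem_iff] at hx
    rw [hWmem]
    simp [hx]
  -- the tour inside
  obtain ⟨lin, -, hlin2, hlin3⟩ := join _ (P ++ M) W rfl (by
    intro x hx
    rw [ends_append, List.mem_append] at hx
    rcases hx with hx | hx
    · rw [hWmem]
      simp [hx]
    · exact hMmem x hx) (by
    intro x
    rw [ends_append, List.count_append, hMc]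
    exact ⟨_, rfl⟩)
  -- the tour outside
  obtain ⟨lout, -, hlout2, hlout3⟩ := join _ ((w0, [z], w0) :: (R ++ M)) W rfl (by
    intro x hx
    simp only [ends_cons, ends_append, List.mem_cons, List.mem_append] at hx
    rw [hWmem]
    rcases hx with rfl | rfl | hx | hx
    · simp
    · simp
    · simp [hx]
    · rw [← hWmem]
      exact hMmem x hx) (by
    intro x
    have h := hpar x
    simp only [ends_cons, ends_append, ends_nil, List.count_cons, List.count_append, List.count_nil,
      hMc] at h ⊢
    generalize (if (w0 == x) = true then 1 else 0) = u at h ⊢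
    rw [Nat.even_iff] at h ⊢
    omega)
  have hin : tsp A ≤ cyc lin := by
    apply tsp_le
    intro x hx
    obtain ⟨p, hp, hxp⟩ := hPc x (hmem x (Or.inl hx)) (hAQ x hx)
    exact hlin2 p (by simp [hp]) x hxp
  have hout : tsp (insert z H) ≤ cyc lout := by
    apply tsp_le
    intro x hx
    rcases hx with rfl | hx
    · exact hlout2 _ List.mem_cons_self x (by simp)
    · obtain ⟨p, hp, hxp⟩ := hRc x (hmem x (Or.inr hx)) (hHQ x hx)
      exact hlout2 p (by simp [hp]) x hxp
  have hz1 : pl (w0, [z], w0) ≤ 3 * r := by
    have h1 : dist w0 z ≤ 3 / 2 * r := dist_KK hr (gb_mem_KK hr 0) (hQK z hz)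
    simp only [pl, List.cons_append, List.nil_append, len_cons_cons, len_singleton, add_zero]
    rw [dist_comm z w0]
    linarith
  rw [tl_append] at hlin3
  rw [tl_cons, tl_append] at hlout3
  linarith

end Pool.Agent.N940.TSP.CutB
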