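import Pool.Agent.N940.TSP.Multi

/-!
# The model: Bernoulli random subsets of a fine grid in a box, with anchors, and the statements
about it which are proved in separate files

The box has side `R = N * K`; it is divided into `N ^ 2` squares of side `K` and into grid cells of
side `1 / M`.
-/

set_option autoImplicit false

open Filter Topology

namespace Pool.Agent.N940.TSP

open Finset

/-- the index set of the grid cells of the box of side `N * K` -/
abbrev Ix (N K M : ℕ) : Type := Fin (N * K * M) × Fin (N * K * M)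

/-- the lower left corner of a grid cell -/
noncomputable def sp (N K M : ℕ) (k : Ix N K M) : ℂ :=
  ⟨((k.1 : ℕ) : ℝ) / M, ((k.2 : ℕ) : ℝ) / M⟩

/-- the label of the square of side `s` which contains a given grid cell -/
def lb (N K M s : ℕ) (k : Ix N K M) : ℕ × ℕ := ((k.1 : ℕ) / (M * s), (k.2 : ℕ) / (M * s))

/-- the grid cells in the square of side `s` with label `c` -/
def bl (N K M s : ℕ) (c : ℕ × ℕ) : Finset (Ix N K M) := univ.filter fun k => lb N K M s k = c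

/-- the half-open square of side `s` with label `c` -/
def sq (s : ℕ) (c : ℕ × ℕ) : Set ℂ :=
  {z | (s : ℝ) * (c.1 : ℝ) ≤ z.re ∧ z.re < (s : ℝ) * (c.1 : ℝ) + s ∧
    (s : ℝ) * (c.2 : ℝ) ≤ z.im ∧ z.im < (s : ℝ) * (c.2 : ℝ) + s}

/-- the points of the configuration, and the lower left corners (anchors) of those squares of
side `K` which contain no point of it -/
def plus (N K M : ℕ) (A : Finset (Ix N K M)) : Set ℂ :=
  {z | ∃ k ∈ A, z = sp N K M k} ∪
  {z | ∃ v : ℕ × ℕ, v.1 < N ∧ v.2 < N ∧ (∀ k ∈ A, lb N K M K k ≠ v) ∧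
    z = ⟨(K : ℝ) * (v.1 : ℝ), (K : ℝ) * (v.2 : ℝ)⟩}

/-- the length of the shortest closed tour through the configuration and the anchors -/
noncomputable def fT (N K M : ℕ) (A : Finset (Ix N K M)) : ℝ := tsp (plus N K M A)

/-! ### statements about the model -/

/-- squared differences, summed over the points of the configuration -/
def S_D1 : Prop := ∀ N K M : ℕ, 0 < N → 0 < K → 0 < M → ∀ A : Finset (Ix N K M),
  ∑ k ∈ A, (fT N K M A - fT N K M (A.erase k)) ^ 2 ≤ 56 * ((N : ℝ) * K) ^ 2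

/-- localization at a square whose side is a multiple of `K` -/
def S_LOC : Prop := ∀ N K M s : ℕ, 0 < N → 0 < K → 0 < M → 0 < s → K ∣ s → ∀ c : ℕ × ℕ,
  (∃ h : Finset (Ix N K M) → ℝ, ∀ A Z : Finset (Ix N K M),
    |fT N K M (mix (bl N K M s c) A Z) - tsp (plus N K M A ∩ sq s c) - h Z| ≤ 27 * s) ∧
  ∀ A : Finset (Ix N K M), tsp (plus N K M A ∩ sq s c) ≤
    3 * s * ((A ∩ bl N K M s c).card + ((s : ℝ) / K) ^ 2)

/-- lower bound for the variance, uniform over all corrections by a multiple of the number of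
points -/
def S_VLB : Prop := ∃ (c : ℝ) (M₀ : ℕ), 0 < c ∧ ∀ N K M : ℕ, 0 < N → 0 < K → M₀ ≤ M →
  ∀ q : ℝ, 1 ≤ q * (M : ℝ) ^ 2 → q * (M : ℝ) ^ 2 ≤ 4 → ∀ β : ℝ,
    c * ((N : ℝ) * K) ^ 2 ≤ Vr q (fun A : Finset (Ix N K M) => fT N K M A + β * (A.card : ℝ))

/-- from random subsets of fixed size, with anchors, to independent random grid points -/
def S_LINK : Prop := ∀ (N K M : ℕ → ℕ) (n₀ : ℕ),
  (∀ n, n₀ ≤ n → 1 ≤ N n ∧ 1 ≤ K n ∧ 1 ≤ M n ∧ (N n * K n) ^ 2 ≤ n ∧
    n ^ 3 ≤ N n * K n * M n) →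
  Tendsto (fun n => ((N n : ℝ)) ^ 2 * Real.exp (-((K n : ℝ) ^ 2))) atTop (𝓝 0) →
  ∀ c s : ℕ → ℝ,
  (∀ t : ℝ, Tendsto (fun n : ℕ => (((Fintype.card (Ix (N n) (K n) (M n))).choose n : ℂ))⁻¹ *
    ∑ A ∈ (Finset.univ : Finset (Ix (N n) (K n) (M n))).powersetCard n,
      Complex.exp (Complex.I * ((t * ((fT (N n) (K n) (M n) A / ((N n : ℝ) * (K n : ℝ)) - c n) /
        s n) : ℝ) : ℂ))) atTop (𝓝 (Complex.exp ((-(t ^ 2) / 2 : ℝ) : ℂ)))) →
  (∀ t : ℝ, Tendsto (fun n : ℕ => (((N n * K n * M n : ℕ) : ℂ) ^ (2 * n))⁻¹ *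
    ∑ k : Fin n → Fin (N n * K n * M n) × Fin (N n * K n * M n), Complex.exp (Complex.I *
      ((t * ((tsp (Set.range fun i => gp (N n * K n * M n) (k i)) - c n) / s n) : ℝ) : ℂ)))
    atTop (𝓝 (Complex.exp ((-(t ^ 2) / 2 : ℝ) : ℂ))))

/-! ### abstract statements -/

/-- the Efron-Stein inequality and the Mecke formula: the single-site energies are bounded by the
sum of the squared differences over the points of the configuration -/
def S_ES : Prop := ∀ (ι : Type) [Fintype ι] [DecidableEq ι] (q : ℝ), 0 ≤ q → q ≤ 1 →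
  ∀ (f : Finset ι → ℝ) (C : ℝ), (∀ A : Finset ι, ∑ x ∈ A, (f A - f (A.erase x)) ^ 2 ≤ C) →
    ∑ x : ι, (en q f univ - en q f {x}ᶜ) ≤ C

/-- third moments of the number of points -/
def S_MOM : Prop := ∀ (ι : Type) [Fintype ι] [DecidableEq ι] (q : ℝ), 0 ≤ q → q ≤ 1 →
  ∀ (U : Finset ι), Ex q (fun A : Finset ι => ((A ∩ U).card : ℝ)) = q * U.card ∧
    Ex q (fun A : Finset ι => ((A ∩ U).card : ℝ) ^ 2) ≤ (q * U.card + 1) ^ 2 ∧
    Ex q (fun A : Finset ι => ((A ∩ U).card : ℝ) ^ 3) ≤ (q * U.card + 2) ^ 3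

/-- normal approximation of a function with small interaction between blocks -/
def S_CLT : Prop := ∀ (ι : Type) [Fintype ι] [DecidableEq ι] (κ : Type) [DecidableEq κ] (q : ℝ),
  0 ≤ q → q ≤ 1 → ∀ (T : Finset κ) (cl : κ → Finset ι),
  (∀ c ∈ T, ∀ d ∈ T, c ≠ d → Disjoint (cl c) (cl d)) →
  ∀ (G : Finset ι → ℝ), Ex q G = 0 → ∀ δ : ℝ,
  Vr q G - ∑ c ∈ T, en q G (cl c) ≤ δ →
  ‖Ex q (fun A : Finset ι => Complex.exp (Complex.I * (G A : ℂ))) -
      Complex.exp ((-(Vr q G) / 2 : ℝ) : ℂ)‖ ≤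
    Real.sqrt δ + δ / 2 +
      ∑ c ∈ T, (Ex q (fun A => |Av q (cl c) G A| ^ 3) + (en q G (cl c)) ^ 2)

end Pool.Agent.N940.TSP
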