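import Pool.Agent.N940.TSP.Vlb1

/-!
# Lower bound for the variance of the tour functional
-/

set_option autoImplicit false
set_option linter.unusedSectionVars false
set_option linter.unusedVariables false

namespace Pool.Agent.N940.TSP.Vlb

open Finset Pool.Agent.N940.TSP

variable {N K M : ℕ}

/-- the points of `Z` outside the unit block `c`, and the anchors of the empty squares other than
the one which contains the block -/
def HH (N K M : ℕ) (c : ℕ × ℕ) (Z : Finset (Ix N K M)) : Set ℂ :=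
  {z | ∃ k ∈ Z, k ∉ bl N K M 1 c ∧ z = sp N K M k} ∪
  {z | ∃ v : ℕ × ℕ, v.1 < N ∧ v.2 < N ∧ v ≠ (c.1 / K, c.2 / K) ∧
    (∀ k ∈ Z, k ∉ bl N K M 1 c → lb N K M K k ≠ v) ∧
    z = ⟨(K : ℝ) * (v.1 : ℝ), (K : ℝ) * (v.2 : ℝ)⟩}

lemma mem_bl {c : ℕ × ℕ} {k : Ix N K M} :
    k ∈ bl N K M 1 c ↔ (k.1 : ℕ) / M = c.1 ∧ (k.2 : ℕ) / M = c.2 := by
  simp [bl, lb, Prod.ext_iff]

lemma lbK {c : ℕ × ℕ} {k : Ix N K M} (hk : k ∈ bl N K M 1 c) :
    lb N K M K k = (c.1 / K, c.2 / K) := by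
  rw [mem_bl] at hk
  unfold lb
  rw [← Nat.div_div_eq_div_mul, ← Nat.div_div_eq_div_mul, hk.1, hk.2]

lemma plus_mix (c : ℕ × ℕ) (G Z : Finset (Ix N K M)) (hG : (G ∩ bl N K M 1 c).Nonempty) :
    plus N K M (mix (bl N K M 1 c) G Z) =
      (sp N K M '' (↑(G ∩ bl N K M 1 c) : Set (Ix N K M))) ∪ HH N K M c Z := by
  obtain ⟨k0, hk0⟩ := hG
  rw [mem_inter] at hk0
  ext z
  unfold plus HH
  constructor
  · rintro (⟨k, hk, rfl⟩ | ⟨v, hv1, hv2, hv, rfl⟩)
    · rw [mem_mix] at hk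
      rcases hk with hk | hk
      · exact Or.inl ⟨k, by rw [Finset.mem_coe, mem_inter]; exact hk, rfl⟩
      · exact Or.inr (Or.inl ⟨k, hk.1, hk.2, rfl⟩)
    · refine Or.inr (Or.inr ⟨v, hv1, hv2, ?_, ?_, rfl⟩)
      · intro h
        exact hv k0 (mem_mix.2 (Or.inl hk0)) ((lbK hk0.2).trans h.symm)
      · intro k hk hk'
        exact hv k (mem_mix.2 (Or.inr ⟨hk, hk'⟩))
  · rintro (⟨k, hk, rfl⟩ | ⟨k, hk, hk', rfl⟩ | ⟨v, hv1, hv2, hne, hv, rfl⟩)
    · rw [Finset.mem_coe, mem_inter] at hk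
      exact Or.inl ⟨k, mem_mix.2 (Or.inl hk), rfl⟩
    · exact Or.inl ⟨k, mem_mix.2 (Or.inr ⟨hk, hk'⟩), rfl⟩
    · refine Or.inr ⟨v, hv1, hv2, ?_, rfl⟩
      intro k hk
      rw [mem_mix] at hk
      rcases hk with hk | hk
      · rw [lbK hk.2]
        exact fun h => hne h.symm
      · exact hv k hk.1 hk.2

lemma div_eq_iff' {a m c : ℕ} (hm : 0 < m) : a / m = c ↔ c * m ≤ a ∧ a < (c + 1) * m := by
  rw [← Nat.le_div_iff_mul_le hm, ← Nat.div_lt_iff_lt_mul hm]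
  omega

lemma sp_mem (hM : 0 < M) {c : ℕ × ℕ} {k : Ix N K M} :
    ((c.1 : ℝ) ≤ (sp N K M k).re ∧ (sp N K M k).re < c.1 + 1 ∧
      (c.2 : ℝ) ≤ (sp N K M k).im ∧ (sp N K M k).im < c.2 + 1) ↔ k ∈ bl N K M 1 c := by
  have hM' : (0 : ℝ) < M := by exact_mod_cast hM
  rw [mem_bl, div_eq_iff' hM, div_eq_iff' hM]
  unfold sp
  simp only
  rw [le_div_iff₀ hM', le_div_iff₀ hM', div_lt_iff₀ hM', div_lt_iff₀ hM']
  constructor
  · rintro ⟨h1, h2, h3, h4⟩
    exact ⟨⟨by exact_mod_cast h1, by exact_mod_cast h2⟩, by exact_mod_cast h3,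
      by exact_mod_cast h4⟩
  · rintro ⟨⟨h1, h2⟩, h3, h4⟩
    exact ⟨by exact_mod_cast h1, by exact_mod_cast h2, by exact_mod_cast h3,
      by exact_mod_cast h4⟩

lemma HH_finite (c : ℕ × ℕ) (Z : Finset (Ix N K M)) : (HH N K M c Z).Finite := by
  apply Set.Finite.union
  · refine (Set.finite_range (sp N K M)).subset ?_
    rintro z ⟨k, _, _, rfl⟩
    exact ⟨k, rfl⟩
  · refine (((Set.finite_Iio N).prod (Set.finite_Iio N)).image
      (fun v : ℕ × ℕ => (⟨(K : ℝ) * (v.1 : ℝ), (K : ℝ) * (v.2 : ℝ)⟩ : ℂ))).subset ?_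
    rintro z ⟨v, h1, h2, _, _, rfl⟩
    exact ⟨v, ⟨h1, h2⟩, rfl⟩

lemma HH_not_mem (hK : 0 < K) (hM : 0 < M) (c : ℕ × ℕ) (Z : Finset (Ix N K M)) :
    ∀ w ∈ HH N K M c Z, ¬ ((c.1 : ℝ) ≤ w.re ∧ w.re < c.1 + 1 ∧ (c.2 : ℝ) ≤ w.im ∧
      w.im < c.2 + 1) := by
  rintro w (⟨k, hk, hk', rfl⟩ | ⟨v, hv1, hv2, hne, hv, rfl⟩)
  · rw [sp_mem hM]
    exact hk'
  · rintro ⟨h1, h2, h3, h4⟩
    simp only at h1 h2 h3 h4
    have h1' : c.1 ≤ K * v.1 := by exact_mod_cast h1
    have h2' : K * v.1 < c.1 + 1 := by exact_mod_cast h2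
    have h3' : c.2 ≤ K * v.2 := by exact_mod_cast h3
    have h4' : K * v.2 < c.2 + 1 := by exact_mod_cast h4
    apply hne
    have e1 : c.1 = K * v.1 := by omega
    have e2 : c.2 = K * v.2 := by omega
    rw [e1, e2, Nat.mul_div_cancel_left _ hK, Nat.mul_div_cancel_left _ hK]

/-- replacing the part in a unit block -/
lemma geo (hcut : S_CUT) (hbasic : S_BASIC) (hK : 0 < K) (hM : 0 < M) (c : ℕ × ℕ)
    (G1 G2 Z : Finset (Ix N K M)) (h1 : (G1 ∩ bl N K M 1 c).Nonempty)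
    (h2 : (G2 ∩ bl N K M 1 c).Nonempty) :
    tsp (sp N K M '' (↑(G2 ∩ bl N K M 1 c) : Set (Ix N K M))) -
      tsp (sp N K M '' (↑(G1 ∩ bl N K M 1 c) : Set (Ix N K M))) - 30 ≤
      fT N K M (mix (bl N K M 1 c) G2 Z) - fT N K M (mix (bl N K M 1 c) G1 Z) := by
  unfold fT
  rw [plus_mix c G1 Z h1, plus_mix c G2 Z h2]
  set P1 := sp N K M '' (↑(G1 ∩ bl N K M 1 c) : Set (Ix N K M)) with hP1
  set P2 := sp N K M '' (↑(G2 ∩ bl N K M 1 c) : Set (Ix N K M)) with hP2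
  set H := HH N K M c Z with hH
  obtain ⟨-, ⟨-, -⟩, hmono, hins, hun, -, -⟩ := hbasic
  have f1 : P1.Finite := (Finset.finite_toSet _).image _
  have f2 : P2.Finite := (Finset.finite_toSet _).image _
  have fH : H.Finite := HH_finite c Z
  have q1 : ∀ w ∈ P1, (c.1 : ℝ) ≤ w.re ∧ w.re < c.1 + 1 ∧ (c.2 : ℝ) ≤ w.im ∧
      w.im < c.2 + 1 := by
    rintro w ⟨k, hk, rfl⟩
    rw [sp_mem hM]
    rw [Finset.mem_coe, mem_inter] at hk
    exact hk.2
  have q2 : ∀ w ∈ P2, (c.1 : ℝ) ≤ w.re ∧ w.re < c.1 + 1 ∧ (c.2 : ℝ) ≤ w.im ∧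
      w.im < c.2 + 1 := by
    rintro w ⟨k, hk, rfl⟩
    rw [sp_mem hM]
    rw [Finset.mem_coe, mem_inter] at hk
    exact hk.2
  have n2 : P2.Nonempty := by
    obtain ⟨k, hk⟩ := h2
    exact ⟨_, k, hk, rfl⟩
  obtain ⟨z, hz⟩ : ∃ z : ℂ, z = ⟨(c.1 : ℝ), (c.2 : ℝ)⟩ := ⟨_, rfl⟩
  have c1 := hcut c.1 c.2 1 one_pos P2 H z f2 fH n2 q2 (HH_not_mem hK hM c Z)
    (by rw [hz]; simp)
  obtain ⟨a, ha⟩ : P1.Nonempty := by
    obtain ⟨k, hk⟩ := h1
    exact ⟨_, k, hk, rfl⟩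
  have hd : dist a z ≤ 3 / 2 := by
    obtain ⟨b1, b2, b3, b4⟩ := q1 a ha
    rw [Complex.dist_eq, Complex.norm_def]
    have hr : (a - z).re = a.re - c.1 := by rw [hz]; simp
    have hi : (a - z).im = a.im - c.2 := by rw [hz]; simp
    rw [Complex.normSq_apply, hr, hi]
    apply Real.sqrt_le_iff.2
    constructor
    · norm_num
    · nlinarith
  have c2 : tsp (P1 ∪ H) ≤ tsp P1 + 2 * dist a z + tsp (insert z H) := by
    calc tsp (P1 ∪ H) ≤ tsp (insert z P1 ∪ insert z H) := by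
          apply hmono
          · exact Set.union_subset_union (Set.subset_insert _ _) (Set.subset_insert _ _)
          · exact (f1.insert z).union (fH.insert z)
      _ ≤ tsp (insert z P1) + tsp (insert z H) :=
          hun _ _ (f1.insert z) (fH.insert z) z (Set.mem_insert _ _) (Set.mem_insert _ _)
      _ ≤ tsp P1 + 2 * dist a z + tsp (insert z H) := by
          have := hins P1 f1 a ha z
          linarith
  linarith

lemma card_mix' (U A B : Finset (Ix N K M)) : (mix U A B).card = (A ∩ U).card + (B \ U).card := by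
  unfold mix
  rw [card_union_of_disjoint]
  rw [disjoint_left]
  intro x hx hx'
  simp only [mem_inter, mem_sdiff] at hx hx'
  exact hx'.2 hx.2

lemma Av_diff (hcut : S_CUT) (hbasic : S_BASIC) (hK : 0 < K) (hM : 0 < M) {q : ℝ} (h0 : 0 ≤ q)
    (hq1 : q ≤ 1) (β : ℝ) (c : ℕ × ℕ)
    (G1 G2 : Finset (Ix N K M)) (h1 : (G1 ∩ bl N K M 1 c).Nonempty)
    (h2 : (G2 ∩ bl N K M 1 c).Nonempty)
    (hc : (G1 ∩ bl N K M 1 c).card = (G2 ∩ bl N K M 1 c).card) :
    tsp (sp N K M '' (↑(G2 ∩ bl N K M 1 c) : Set (Ix N K M))) -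
      tsp (sp N K M '' (↑(G1 ∩ bl N K M 1 c) : Set (Ix N K M))) - 30 ≤
      Av q (bl N K M 1 c) (fun A : Finset (Ix N K M) => fT N K M A + β * (A.card : ℝ)) G2 -
      Av q (bl N K M 1 c) (fun A : Finset (Ix N K M) => fT N K M A + β * (A.card : ℝ)) G1 := by
  unfold Av
  rw [← Ex_sub, ← Ex_const (ι := Ix N K M) q
    (tsp (sp N K M '' (↑(G2 ∩ bl N K M 1 c) : Set (Ix N K M))) -
      tsp (sp N K M '' (↑(G1 ∩ bl N K M 1 c) : Set (Ix N K M))) - 30)]
  refine Ex_mono h0 hq1 fun Z => ?_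
  have := geo hcut hbasic hK hM c G1 G2 Z h1 h2
  beta_reduce
  rw [card_mix', card_mix', hc]
  linarith

lemma tsp_le_diam (hbasic : S_BASIC) (F : Finset ℂ) (D : ℝ) (hD0 : 0 ≤ D)
    (hD : ∀ x ∈ F, ∀ y ∈ F, dist x y ≤ D) : tsp (F : Set ℂ) ≤ 2 * D * F.card := by
  obtain ⟨-, ⟨he, hs⟩, hmono, hins, -, -, -⟩ := hbasic
  rcases F.eq_empty_or_nonempty with rfl | ⟨a, ha⟩
  · simp [he]
  have key : ∀ G : Finset ℂ, G ⊆ F → tsp (insert a (G : Set ℂ)) ≤ 2 * D * G.card := by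
    intro G
    induction G using Finset.induction_on with
    | empty =>
      intro _
      simp [hs]
    | insert c G hc ih =>
      intro hG
      have h1 := ih ((subset_insert c G).trans hG)
      have h2 := hins (insert a (G : Set ℂ)) ((Finset.finite_toSet G).insert a) a
        (Set.mem_insert _ _) c
      rw [Finset.coe_insert, Set.insert_comm, card_insert_of_notMem hc]
      have h3 := hD a ha c (hG (mem_insert_self c G))
      push_cast
      nlinarith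
  have h := key F subset_rfl
  rwa [Set.insert_eq_of_mem (Finset.mem_coe.2 ha)] at h

/-- the small squares in a unit block -/
def Wr (N K M : ℕ) (c : ℕ × ℕ) (w u : ℕ) {m : ℕ} (i : Fin m × Fin m) : Finset (Ix N K M) :=
  univ.filter fun k => (c.1 * M + i.1 * w ≤ k.1 ∧ (k.1 : ℕ) < c.1 * M + i.1 * w + u) ∧
    (c.2 * M + i.2 * w ≤ k.2 ∧ (k.2 : ℕ) < c.2 * M + i.2 * w + u)

lemma mul_lt_of {m w M a u : ℕ} (h : m * w ≤ M) (ha : a < m) (hu : u ≤ w) : a * w + u ≤ M := by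
  calc a * w + u ≤ a * w + w := by omega
    _ = (a + 1) * w := by ring
    _ ≤ m * w := Nat.mul_le_mul_right w ha
    _ ≤ M := h

lemma card_Wr {m w u : ℕ} (c : ℕ × ℕ) (hu : u ≤ w) (hm : m * w ≤ M) (h1 : c.1 < N * K)
    (h2 : c.2 < N * K) (i : Fin m × Fin m) : u * u ≤ (Wr N K M c w u i).card := by
  have hb : ∀ (d : ℕ) (a : Fin m) (x : Fin u), d < N * K → d * M + a * w + x < N * K * M := by
    intro d a x hd
    have h3 := mul_lt_of hm a.2 hu
    have h4 := x.2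
    calc d * M + a * w + x < d * M + M := by omega
      _ = (d + 1) * M := by ring
      _ ≤ N * K * M := Nat.mul_le_mul_right M hd
  let g : Fin u × Fin u → Ix N K M := fun p =>
    (⟨c.1 * M + i.1 * w + p.1, hb c.1 i.1 p.1 h1⟩, ⟨c.2 * M + i.2 * w + p.2, hb c.2 i.2 p.2 h2⟩)
  have hg : Function.Injective g := by
    intro p p' hp
    simp only [g, Prod.mk.injEq, Fin.mk.injEq] at hp
    ext
    · have := hp.1; omega
    · have := hp.2; omega
  calc u * u = (univ : Finset (Fin u × Fin u)).card := by simp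
    _ = (univ.image g).card := (card_image_of_injective _ hg).symm
    _ ≤ (Wr N K M c w u i).card := by
      apply card_le_card
      intro k hk
      obtain ⟨p, _, rfl⟩ := mem_image.1 hk
      unfold Wr
      rw [mem_filter]
      refine ⟨mem_univ _, ?_⟩
      have := p.1.2
      have := p.2.2
      simp only [g]
      omega

lemma Wr_subset {m w u : ℕ} (hM : 0 < M) (c : ℕ × ℕ) (hu : u ≤ w) (hm : m * w ≤ M)
    (i : Fin m × Fin m) : Wr N K M c w u i ⊆ bl N K M 1 c := by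
  intro k hk
  unfold Wr at hk
  rw [mem_filter] at hk
  obtain ⟨-, ⟨a1, a2⟩, a3, a4⟩ := hk
  have h1 := mul_lt_of hm i.1.2 hu
  have h2 := mul_lt_of hm i.2.2 hu
  rw [mem_bl, div_eq_iff' hM, div_eq_iff' hM, add_mul, add_mul]
  omega

lemma lt_sep {m w u : ℕ} (hu : u ≤ w) {a b : Fin m} (h : a < b) : (a : ℕ) * w + w ≤ b * w := by
  have h1 : (a : ℕ) + 1 ≤ b := h
  calc (a : ℕ) * w + w = (a + 1) * w := by ring
    _ ≤ b * w := Nat.mul_le_mul_right w h1

lemma Wr_disjoint {m w u : ℕ} (c : ℕ × ℕ) (hu : u ≤ w) (i j : Fin m × Fin m) (hij : i ≠ j) :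
    Disjoint (Wr N K M c w u i) (Wr N K M c w u j) := by
  rw [disjoint_left]
  intro k hk hk'
  unfold Wr at hk hk'
  rw [mem_filter] at hk hk'
  obtain ⟨-, ⟨a1, a2⟩, a3, a4⟩ := hk
  obtain ⟨-, ⟨b1, b2⟩, b3, b4⟩ := hk'
  apply hij
  ext
  · rcases lt_trichotomy i.1 j.1 with h | h | h
    · have := lt_sep hu h; omega
    · rw [h]
    · have := lt_sep hu h; omega
  · rcases lt_trichotomy i.2 j.2 with h | h | h
    · have := lt_sep hu h; omega
    · rw [h]
    · have := lt_sep hu h; omega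

lemma Wr_dist {m w u : ℕ} (hM : 0 < M) (c : ℕ × ℕ) (hu : u ≤ w) (i j : Fin m × Fin m)
    (hij : i ≠ j) (k l : Ix N K M) (hk : k ∈ Wr N K M c w u i) (hl : l ∈ Wr N K M c w u j) :
    ((w : ℝ) - u) / M ≤ dist (sp N K M k) (sp N K M l) := by
  have hM' : (0 : ℝ) < M := by exact_mod_cast hM
  unfold Wr at hk hl
  rw [mem_filter] at hk hl
  obtain ⟨-, ⟨a1, a2⟩, a3, a4⟩ := hk
  obtain ⟨-, ⟨b1, b2⟩, b3, b4⟩ := hl
  rw [Complex.dist_eq]
  have hsep : ∀ x y : ℕ, x + w ≤ y + u → ((w : ℝ) - u) / M ≤ |(x : ℝ) / M - (y : ℝ) / M| := by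
    intro x y h
    have h' : (x : ℝ) + w ≤ y + u := by exact_mod_cast h
    rw [← sub_div, abs_div, abs_of_pos hM']
    apply div_le_div_of_nonneg_right _ hM'.le
    rw [abs_sub_comm]
    exact le_trans (by linarith) (le_abs_self _)
  have hsep' : ∀ x y : ℕ, (x + w ≤ y + u ∨ y + w ≤ x + u) →
      ((w : ℝ) - u) / M ≤ |(x : ℝ) / M - (y : ℝ) / M| := by
    intro x y h
    rcases h with h | h
    · exact hsep x y h
    · rw [abs_sub_comm]; exact hsep y x h
  by_cases h1 : i.1 = j.1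
  · have h2 : i.2 ≠ j.2 := fun h => hij (Prod.ext h1 h)
    refine le_trans (hsep' k.2 l.2 ?_) (Complex.abs_im_le_norm (sp N K M k - sp N K M l))
    rcases lt_or_gt_of_ne h2 with h | h
    · left
      have := lt_sep hu h; omega
    · right
      have := lt_sep hu h; omega
  · refine le_trans (hsep' k.1 l.1 ?_) (Complex.abs_re_le_norm (sp N K M k - sp N K M l))
    rcases lt_or_gt_of_ne h1 with h | h
    · left
      have := lt_sep hu h; omega
    · right
      have := lt_sep hu h; omega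

lemma Wr_diam {m w u : ℕ} (hM : 0 < M) (c : ℕ × ℕ) (hu : u ≤ w) (i j : Fin m × Fin m)
    (k l : Ix N K M) (hk : k ∈ Wr N K M c w u i) (hl : l ∈ Wr N K M c w u j) :
    dist (sp N K M k) (sp N K M l) ≤ 2 * ((m * w : ℕ) / (M : ℝ)) := by
  have hM' : (0 : ℝ) < M := by exact_mod_cast hM
  unfold Wr at hk hl
  rw [mem_filter] at hk hl
  obtain ⟨-, ⟨a1, a2⟩, a3, a4⟩ := hk
  obtain ⟨-, ⟨b1, b2⟩, b3, b4⟩ := hl
  rw [Complex.dist_eq]
  have hsep : ∀ x y d : ℕ, x < d + m * w → d ≤ x → y < d + m * w → d ≤ y →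
      |(x : ℝ) / M - (y : ℝ) / M| ≤ (m * w : ℕ) / (M : ℝ) := by
    intro x y d h1 h2 h3 h4
    rw [← sub_div, abs_div, abs_of_pos hM']
    apply div_le_div_of_nonneg_right _ hM'.le
    have h1' : (x : ℝ) < d + (m * w : ℕ) := by exact_mod_cast h1
    have h2' : (d : ℝ) ≤ x := by exact_mod_cast h2
    have h3' : (y : ℝ) < d + (m * w : ℕ) := by exact_mod_cast h3
    have h4' : (d : ℝ) ≤ y := by exact_mod_cast h4
    rw [abs_le]
    constructor <;> linarith
  have e1 := mul_lt_of (le_refl (m * w)) i.1.2 hu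
  have e2 := mul_lt_of (le_refl (m * w)) i.2.2 hu
  have e3 := mul_lt_of (le_refl (m * w)) j.1.2 hu
  have e4 := mul_lt_of (le_refl (m * w)) j.2.2 hu
  refine (Complex.norm_le_abs_re_add_abs_im _).trans ?_
  have g1 : |(sp N K M k - sp N K M l).re| ≤ (m * w : ℕ) / (M : ℝ) :=
    hsep k.1 l.1 (c.1 * M) (by omega) (by omega) (by omega) (by omega)
  have g2 : |(sp N K M k - sp N K M l).im| ≤ (m * w : ℕ) / (M : ℝ) :=
    hsep k.2 l.2 (c.2 * M) (by omega) (by omega) (by omega) (by omega)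
  linarith

lemma sp_inj (hM : 0 < M) : Function.Injective (sp N K M) := by
  have hM' : (M : ℝ) ≠ 0 := by
    have : (0 : ℝ) < M := by exact_mod_cast hM
    exact this.ne'
  intro k l h
  unfold sp at h
  rw [Complex.mk.injEq, div_left_inj' hM', div_left_inj' hM'] at h
  ext
  · exact_mod_cast h.1
  · exact_mod_cast h.2

lemma card_bl_le (hM : 0 < M) (c : ℕ × ℕ) : (bl N K M 1 c).card ≤ M * M := by
  calc (bl N K M 1 c).card ≤ (range M ×ˢ range M).card := by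
        apply Finset.card_le_card_of_injOn (fun k : Ix N K M => ((k.1 : ℕ) % M, (k.2 : ℕ) % M))
        · intro k hk
          simp only [Finset.coe_product, Set.mem_prod, Finset.mem_coe, mem_range]
          exact ⟨Nat.mod_lt _ hM, Nat.mod_lt _ hM⟩
        · intro k hk l hl h
          rw [Finset.mem_coe, mem_bl] at hk hl
          simp only [Prod.mk.injEq] at h
          have e1 := Nat.div_add_mod (k.1 : ℕ) M
          have e2 := Nat.div_add_mod (l.1 : ℕ) M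
          have e3 := Nat.div_add_mod (k.2 : ℕ) M
          have e4 := Nat.div_add_mod (l.2 : ℕ) M
          rw [hk.1] at e1
          rw [hl.1] at e2
          rw [hk.2] at e3
          rw [hl.2] at e4
          ext
          · omega
          · omega
    _ = M * M := by simp

lemma bl_disjoint {c d : ℕ × ℕ} (h : c ≠ d) : Disjoint (bl N K M 1 c) (bl N K M 1 d) := by
  rw [disjoint_left]
  intro k hk hk'
  unfold bl at hk hk'
  rw [mem_filter] at hk hk'
  exact h (hk.2.symm.trans hk'.2)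

/-- the class of configurations with one point in every small square and no other point in the
block -/
def Cl (N K M : ℕ) (c : ℕ × ℕ) (w u m : ℕ) : Finset (Finset (Ix N K M)) :=
  univ.filter (fun A => ∃ s : Fin m × Fin m → Ix N K M, (∀ i, s i ∈ Wr N K M c w u i) ∧
    A ∩ bl N K M 1 c = univ.image s)

lemma Cl_prob {m w u : ℕ} (hM : 0 < M) (c : ℕ × ℕ) (hu : u ≤ w) (hm : m * w ≤ M)
    (h1 : c.1 < N * K) (h2 : c.2 < N * K) {q a : ℝ} (hq1 : 1 ≤ q * (M : ℝ) ^ 2)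
    (hq2 : q * (M : ℝ) ^ 2 ≤ 4) (hqh : q ≤ 1 / 2) (ha : 0 ≤ a) (hau : a * M ≤ u) :
    (a ^ 2) ^ (m * m) * Real.exp (-8) ≤ ∑ A ∈ Cl N K M c w u m, mu q A := by
  classical
  have hM' : (0 : ℝ) < M := by exact_mod_cast hM
  have hq0 : 0 ≤ q := by
    by_contra h
    push Not at h
    have : q * (M : ℝ) ^ 2 ≤ 0 := mul_nonpos_of_nonpos_of_nonneg h.le (by positivity)
    linarith
  have h := prob_class hq0 (by linarith) (bl N K M 1 c) (Wr N K M c w u (m := m))
    (Wr_subset hM c hu hm) (Wr_disjoint c hu)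
  refine le_trans ?_ (h.trans (le_of_eq ?_))
  · have e1 : Fintype.card (Fin m × Fin m) = m * m := by simp
    rw [e1]
    have e2 : (a ^ 2) ^ (m * m) ≤
        (∏ i : Fin m × Fin m, ((Wr N K M c w u i).card : ℝ)) * q ^ (m * m) := by
      have e3 : q ^ (m * m) = ∏ i : Fin m × Fin m, q := by
        rw [prod_const, card_univ, e1]
      have e4 : (a ^ 2) ^ (m * m) = ∏ i : Fin m × Fin m, a ^ 2 := by
        rw [prod_const, card_univ, e1]
      rw [e3, e4, ← prod_mul_distrib]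
      refine prod_le_prod (fun i _ => by positivity) fun i _ => ?_
      have e5 : ((u * u : ℕ) : ℝ) ≤ ((Wr N K M c w u i).card : ℝ) := by
        exact_mod_cast card_Wr c hu hm h1 h2 i
      push_cast at e5
      have e6 : a * M * (a * M) ≤ u * u :=
        mul_le_mul hau hau (by positivity) (by positivity)
      calc a ^ 2 ≤ a ^ 2 * (q * (M : ℝ) ^ 2) := le_mul_of_one_le_right (by positivity) hq1
        _ = a * M * (a * M) * q := by ring
        _ ≤ (Wr N K M c w u i).card * q := mul_le_mul_of_nonneg_right (e6.trans e5) hq0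
    have e7 : Real.exp (-8) ≤ (1 - q) ^ (bl N K M 1 c).card := by
      apply one_sub_pow hq0 hqh
      have e8 : ((bl N K M 1 c).card : ℝ) ≤ (M * M : ℕ) := by exact_mod_cast card_bl_le hM c
      push_cast at e8
      calc q * ((bl N K M 1 c).card : ℝ) ≤ q * (M * M) := mul_le_mul_of_nonneg_left e8 hq0
        _ = q * (M : ℝ) ^ 2 := by ring
        _ ≤ 4 := hq2
    exact mul_le_mul e2 e7 (Real.exp_pos _).le (le_trans (by positivity) e2)
  · unfold Cl
    rfl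

lemma Cl_card {m w u : ℕ} (c : ℕ × ℕ) (hu : u ≤ w) (G : Finset (Ix N K M))
    (hG : G ∈ Cl N K M c w u m) : (G ∩ bl N K M 1 c).card = m * m := by
  classical
  unfold Cl at hG
  rw [mem_filter] at hG
  obtain ⟨-, s, hs, hG⟩ := hG
  rw [hG, card_image_of_injective, card_univ]
  · simp
  · intro i j hij
    by_contra hne
    have h3 := hs j
    rw [← hij] at h3
    exact disjoint_left.1 (Wr_disjoint c hu i j hne) (hs i) h3

lemma Cl_spread (hbasic : S_BASIC) {m w u : ℕ} (hm : 2 ≤ m) (hM : 0 < M) (c : ℕ × ℕ)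
    (hu : u ≤ w) (G : Finset (Ix N K M)) (hG : G ∈ Cl N K M c w u m) :
    ((w : ℝ) - u) / M * ((m : ℝ) * m) ≤
      tsp (sp N K M '' (↑(G ∩ bl N K M 1 c) : Set (Ix N K M))) := by
  classical
  have hcard := Cl_card c hu G hG
  unfold Cl at hG
  rw [mem_filter] at hG
  obtain ⟨-, s, hs, hG⟩ := hG
  have hcard2 : ((G ∩ bl N K M 1 c).image (sp N K M)).card = m * m := by
    rw [card_image_of_injective _ (sp_inj hM), hcard]
  obtain ⟨-, -, -, -, -, hlow, -⟩ := hbasic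
  have hM' : (0 : ℝ) < M := by exact_mod_cast hM
  have hu' : (u : ℝ) ≤ w := by exact_mod_cast hu
  have h := hlow ((G ∩ bl N K M 1 c).image (sp N K M)) (((w : ℝ) - u) / M)
    (div_nonneg (by linarith) hM'.le) (by rw [hcard2]; nlinarith) ?_
  · rw [hcard2, Finset.coe_image] at h
    push_cast at h ⊢
    exact h
  · intro x hx y hy hxy
    obtain ⟨k, hk, rfl⟩ := mem_image.1 hx
    obtain ⟨l, hl, rfl⟩ := mem_image.1 hy
    rw [hG] at hk hl
    obtain ⟨i, _, rfl⟩ := mem_image.1 hk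
    obtain ⟨j, _, rfl⟩ := mem_image.1 hl
    have hij : i ≠ j := by
      rintro rfl
      exact hxy rfl
    exact Wr_dist hM c hu i j hij _ _ (hs i) (hs j)

lemma Cl_clump (hbasic : S_BASIC) {m w u : ℕ} (hM : 0 < M) (c : ℕ × ℕ)
    (hu : u ≤ w) (G : Finset (Ix N K M)) (hG : G ∈ Cl N K M c w u m) :
    tsp (sp N K M '' (↑(G ∩ bl N K M 1 c) : Set (Ix N K M))) ≤
      2 * (2 * ((m * w : ℕ) / (M : ℝ))) * ((m : ℝ) * m) := by
  classical
  have hcard := Cl_card c hu G hG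
  unfold Cl at hG
  rw [mem_filter] at hG
  obtain ⟨-, s, hs, hG⟩ := hG
  have hcard2 : ((G ∩ bl N K M 1 c).image (sp N K M)).card = m * m := by
    rw [card_image_of_injective _ (sp_inj hM), hcard]
  have hM' : (0 : ℝ) < M := by exact_mod_cast hM
  have h := tsp_le_diam hbasic ((G ∩ bl N K M 1 c).image (sp N K M))
    (2 * ((m * w : ℕ) / (M : ℝ))) (by positivity) ?_
  · rw [hcard2, Finset.coe_image] at h
    push_cast at h ⊢
    exact h
  · intro x hx y hy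
    obtain ⟨k, hk, rfl⟩ := mem_image.1 hx
    obtain ⟨l, hl, rfl⟩ := mem_image.1 hy
    rw [hG] at hk hl
    obtain ⟨i, _, rfl⟩ := mem_image.1 hk
    obtain ⟨j, _, rfl⟩ := mem_image.1 hl
    exact Wr_diam hM c hu i j _ _ (hs i) (hs j)

theorem main (hcut : S_CUT) (hbasic : S_BASIC) : S_VLB := by
  classical
  obtain ⟨m, hm⟩ : ∃ m : ℕ, m = 160 := ⟨_, rfl⟩
  obtain ⟨a, ha⟩ : ∃ a : ℝ, a = 1 / (2 * (m : ℝ) ^ 3) := ⟨_, rfl⟩
  have hmR : (m : ℝ) = 160 := by rw [hm]; norm_num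
  have hm0 : (0 : ℝ) < m := by rw [hmR]; norm_num
  have ha0 : 0 < a := by rw [ha]; positivity
  refine ⟨(a ^ 2) ^ (m * m) * Real.exp (-8) / 4, 4 * m ^ 3, by positivity, ?_⟩
  intro N K M hN hK hMM q hq1 hq2 β
  have hMM' : 4 * (m : ℝ) ^ 3 ≤ M := by exact_mod_cast hMM
  have hM0' : (0 : ℝ) < M := lt_of_lt_of_le (by positivity) hMM'
  have hM0 : 0 < M := by exact_mod_cast hM0'
  have hq0 : 0 ≤ q := by
    by_contra h
    push Not at h
    have : q * (M : ℝ) ^ 2 ≤ 0 := mul_nonpos_of_nonpos_of_nonneg h.le (by positivity)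
    linarith
  have hM8 : 8 ≤ (M : ℝ) ^ 2 := by
    have : (8 : ℝ) ≤ M := by
      refine le_trans ?_ hMM'
      rw [hmR]; norm_num
    nlinarith
  have hqh : q ≤ 1 / 2 := by
    by_contra h
    push Not at h
    nlinarith
  -- the two scales
  obtain ⟨w1, hw1⟩ : ∃ w1 : ℕ, w1 = M / (m ^ 3) := ⟨_, rfl⟩
  obtain ⟨w2, hw2⟩ : ∃ w2 : ℕ, w2 = M / m := ⟨_, rfl⟩
  obtain ⟨u2, hu2⟩ : ∃ u2 : ℕ, u2 = w2 / 2 := ⟨_, rfl⟩
  have e1 : m ^ 3 * w1 ≤ M := by rw [hw1]; exact Nat.mul_div_le M (m ^ 3)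
  have e1' : M < m ^ 3 * (w1 + 1) := by
    rw [hw1]
    exact Nat.lt_mul_div_succ M (by rw [hm]; norm_num)
  have e2 : m * w2 ≤ M := by rw [hw2]; exact Nat.mul_div_le M m
  have e2' : M < m * (w2 + 1) := by
    rw [hw2]
    exact Nat.lt_mul_div_succ M (by rw [hm]; norm_num)
  have e3 : 2 * u2 ≤ w2 := by omega
  have e3' : w2 ≤ 2 * u2 + 1 := by omega
  have r1 : (m : ℝ) ^ 3 * w1 ≤ M := by exact_mod_cast e1
  have r1' : (M : ℝ) < (m : ℝ) ^ 3 * (w1 + 1) := by exact_mod_cast e1'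
  have r2 : (m : ℝ) * w2 ≤ M := by exact_mod_cast e2
  have r2' : (M : ℝ) < (m : ℝ) * (w2 + 1) := by exact_mod_cast e2'
  have r3 : 2 * (u2 : ℝ) ≤ w2 := by exact_mod_cast e3
  have r3' : (w2 : ℝ) ≤ 2 * u2 + 1 := by exact_mod_cast e3'
  have hmw1 : m * w1 ≤ M := by
    refine le_trans ?_ e1
    refine Nat.mul_le_mul_right w1 ?_
    rw [hm]; norm_num
  have ha1 : a * M ≤ w1 := by
    rw [ha, one_div, inv_mul_le_iff₀ (by positivity)]
    nlinarith
  have ha2 : a * M ≤ u2 := by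
    rw [ha, one_div, inv_mul_le_iff₀ (by positivity)]
    rw [hmR] at r2' hMM' ⊢
    nlinarith
  have hblock : ∀ c ∈ range (N * K) ×ˢ range (N * K),
      (a ^ 2) ^ (m * m) * Real.exp (-8) / 4 ≤ Vr q (Av q (bl N K M 1 c)
        (fun A : Finset (Ix N K M) => fT N K M A + β * (A.card : ℝ))) := by
    intro c hc
    rw [mem_product, mem_range, mem_range] at hc
    refine var_two hq0 (by linarith) _ (Cl N K M c w1 w1 m) (Cl N K M c w2 u2 m) _
      (Cl_prob hM0 c le_rfl hmw1 hc.1 hc.2 hq1 hq2 hqh ha0.le ha1)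
      (Cl_prob hM0 c (by omega) e2 hc.1 hc.2 hq1 hq2 hqh ha0.le ha2) ?_
    intro B1 hB1 B2 hB2
    have c1 := Cl_card c le_rfl B1 hB1
    have c2 := Cl_card c (by omega) B2 hB2
    have hpos : 0 < m * m := by rw [hm]; norm_num
    have n1 : (B1 ∩ bl N K M 1 c).Nonempty := card_pos.1 (by rw [c1]; exact hpos)
    have n2 : (B2 ∩ bl N K M 1 c).Nonempty := card_pos.1 (by rw [c2]; exact hpos)
    have h := Av_diff hcut hbasic hK hM0 hq0 (by linarith) β c B1 B2 n1 n2 (c1.trans c2.symm)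
    have t1 := Cl_clump hbasic hM0 c le_rfl B1 hB1
    have t2 := Cl_spread hbasic (by rw [hm]; norm_num) hM0 c (by omega) B2 hB2
    have t1' : 2 * (2 * ((m * w1 : ℕ) / (M : ℝ))) * ((m : ℝ) * m) ≤ 4 := by
      have : 2 * (2 * ((m * w1 : ℕ) / (M : ℝ))) * ((m : ℝ) * m) =
          4 * ((m : ℝ) ^ 3 * w1) / M := by
        push_cast
        field_simp
        ring
      rw [this, div_le_iff₀ hM0']
      linarith
    have t2' : 35 ≤ ((w2 : ℝ) - u2) / M * ((m : ℝ) * m) := by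
      rw [div_mul_eq_mul_div, le_div_iff₀ hM0']
      rw [hmR] at r2' hMM' ⊢
      nlinarith
    linarith
  calc (a ^ 2) ^ (m * m) * Real.exp (-8) / 4 * ((N : ℝ) * K) ^ 2
      = ∑ c ∈ range (N * K) ×ˢ range (N * K), (a ^ 2) ^ (m * m) * Real.exp (-8) / 4 := by
        rw [sum_const, card_product, card_range, nsmul_eq_mul]
        push_cast
        ring
    _ ≤ ∑ c ∈ range (N * K) ×ˢ range (N * K), Vr q (Av q (bl N K M 1 c)
        (fun A : Finset (Ix N K M) => fT N K M A + β * (A.card : ℝ))) := sum_le_sum hblock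
    _ ≤ _ := var_blocks hq0 (by linarith) _ _ _ (fun c _ d _ hcd => bl_disjoint hcd)

end Pool.Agent.N940.TSP.Vlb
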