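import Pool.Agent.N940.TSP.ThmA
import Pool.Agent.N940.TSP.Mod

/-!
# Assembly of the central limit theorem, part 1: abstract lemmas
-/

set_option autoImplicit false
set_option linter.unusedSectionVars false
set_option linter.unusedVariables false

namespace Pool.Agent.N940.TSP

open Finset

section abs

variable {ι : Type} [Fintype ι] [DecidableEq ι]

lemma Vr_eq (q : ℝ) (f : Finset ι → ℝ) : Vr q f = en q f univ - en q f ∅ := by
  have h := en_sub (q := q) f (empty_subset univ)
  rw [← h]
  unfold Vr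
  congr 1
  funext A
  rw [Av_univ, Av_empty]

lemma sites_eq {q : ℝ} {f w : Finset ι → ℝ} (hw : ∀ U, en q f U = ∑ S ∈ U.powerset, w S) :
    ∑ x : ι, (en q f univ - en q f {x}ᶜ) = ∑ S : Finset ι, w S * (S.card : ℝ) := by
  have hen := en_eq_sum hw
  have e2 : ∀ x : ι, en q f univ - en q f {x}ᶜ =
      ∑ S : Finset ι, w S * (if x ∈ S then 1 else 0) := by
    intro x
    rw [hen, hen, ← sum_sub_distrib]
    refine sum_congr rfl fun S _ => ?_
    rw [← mul_sub]
    congr 1
    by_cases hx : x ∈ S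
    · have : ¬ S ⊆ {x}ᶜ := fun h => by
        have := h hx
        simp at this
      rw [if_pos (subset_univ S), if_neg this, if_pos hx, sub_zero]
    · have : S ⊆ {x}ᶜ := fun y hy => by
        rw [mem_compl, mem_singleton]
        rintro rfl
        exact hx hy
      rw [if_pos (subset_univ S), if_pos this, if_neg hx, sub_self]
  simp only [e2]
  rw [sum_comm]
  refine sum_congr rfl fun S _ => ?_
  rw [← mul_sum]
  congr 1
  simp

lemma Vr_le_of_sites {q : ℝ} (h0 : 0 ≤ q) (h1 : q ≤ 1) (f : Finset ι → ℝ) (C : ℝ)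
    (h : ∑ x : ι, (en q f univ - en q f {x}ᶜ) ≤ C) : Vr q f ≤ C := by
  obtain ⟨w, hw0, hw⟩ := hoef h0 h1 f
  have hen := en_eq_sum hw
  refine le_trans ?_ h
  rw [sites_eq hw, Vr_eq, hen, hen, ← sum_sub_distrib]
  refine sum_le_sum fun S _ => ?_
  rw [← mul_sub]
  refine mul_le_mul_of_nonneg_left ?_ (hw0 S)
  rw [if_pos (subset_univ S)]
  rcases S.eq_empty_or_nonempty with hS | hS
  · subst hS
    simp
  · have h3 : ¬ S ⊆ ∅ := fun h => by
      obtain ⟨x, hx⟩ := hS
      have := h hx
      simp at this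
    rw [if_neg h3, sub_zero]
    exact_mod_cast hS.card_pos

lemma Ex_card' (q : ℝ) (hm : S_MOM) (h0 : 0 ≤ q) (h1 : q ≤ 1) :
    Ex q (fun A : Finset ι => (A.card : ℝ)) = q * Fintype.card ι := by
  have := (hm ι q h0 h1 univ).1
  simpa using this

lemma Av_card (hm : S_MOM) {q : ℝ} (h0 : 0 ≤ q) (h1 : q ≤ 1) (U A : Finset ι) :
    Av q U (fun A : Finset ι => (A.card : ℝ)) A = (A ∩ U).card + q * (Uᶜ.card : ℝ) := by
  unfold Av
  have e : ∀ B : Finset ι, ((mix U A B).card : ℝ) = (A ∩ U).card + (B ∩ Uᶜ).card := by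
    intro B
    have : (mix U A B).card = (A ∩ U).card + (B ∩ Uᶜ).card := by
      unfold mix
      rw [card_union_of_disjoint, sdiff_eq_inter_compl]
      rw [disjoint_left]
      intro x hx hx'
      simp only [mem_inter, mem_sdiff] at hx hx'
      exact hx'.2 hx.2
    rw [this]
    push_cast
    ring
  simp only [e]
  rw [Ex_add, Ex_const, (hm ι q h0 h1 Uᶜ).1]

variable {κ : Type} [DecidableEq κ]

lemma card_sum_cells (lab : ℕ → ι → κ) (j : ℕ) (A : Finset ι) :
    (A.card : ℝ) = ∑ c ∈ (univ : Finset ι).image (lab j), ((A ∩ cell lab j c).card : ℝ) := by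
  have h : A.card = ∑ c ∈ (univ : Finset ι).image (lab j),
      (A.filter (fun x => lab j x = c)).card :=
    card_eq_sum_card_fiberwise fun x _ => mem_image_of_mem _ (mem_univ x)
  rw [h]
  push_cast
  refine sum_congr rfl fun c _ => ?_
  congr 2
  ext x
  simp [mem_cell]

/-- the number of points is additive -/
lemma card_additive (hm : S_MOM) {q : ℝ} (h0 : 0 ≤ q) (h1 : q ≤ 1) (lab : ℕ → ι → κ) (j : ℕ)
    (b : ℝ) (A : Finset ι) :
    ∑ c ∈ (univ : Finset ι).image (lab j),
      Av q (cell lab j c) (fun A : Finset ι => b * ((A.card : ℝ) - q * Fintype.card ι)) A =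
      b * ((A.card : ℝ) - q * Fintype.card ι) := by
  have e : ∀ c, Av q (cell lab j c)
      (fun A : Finset ι => b * ((A.card : ℝ) - q * Fintype.card ι)) A =
      b * ((A ∩ cell lab j c).card - q * (univ ∩ cell lab j c).card) := by
    intro c
    have h2 : Av q (cell lab j c)
      (fun A : Finset ι => b * ((A.card : ℝ) - q * Fintype.card ι)) A =
      b * (Av q (cell lab j c) (fun A : Finset ι => (A.card : ℝ)) A - q * Fintype.card ι) := by
      unfold Av
      rw [Ex_mul_left, Ex_sub, Ex_const]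
    rw [h2, Av_card hm h0 h1]
    have h3 : ((cell lab j c)ᶜ.card : ℝ) = Fintype.card ι - (cell lab j c).card := by
      rw [card_compl, Nat.cast_sub (card_le_univ _)]
    rw [h3, univ_inter]
    ring
  simp only [e]
  rw [← mul_sum, sum_sub_distrib, ← mul_sum, ← card_sum_cells, ← card_sum_cells]
  simp

/-- the interaction part does not see an additive correction -/
lemma pyth_add {q : ℝ} (h0 : 0 ≤ q) (h1 : q ≤ 1) (lab : ℕ → ι → κ) (j : ℕ) (α : ℝ)
    (X Y : Finset ι → ℝ) (hX : Ex q X = 0) (hY : Ex q Y = 0)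
    (hadd : ∀ A, ∑ c ∈ (univ : Finset ι).image (lab j), Av q (cell lab j c) Y A = Y A) :
    Vr q (fun A => α * X A + Y A) - ∑ c ∈ (univ : Finset ι).image (lab j),
      en q (fun A => α * X A + Y A) (cell lab j c) =
    α ^ 2 * (en q X univ - ∑ c ∈ (univ : Finset ι).image (lab j), en q X (cell lab j c)) := by
  have hG : Ex q (fun A => α * X A + Y A) = 0 := by
    rw [Ex_add, Ex_mul_left, hX, hY]; ring
  have p1 := pyth (q := q) (fun A => α * X A + Y A) hG ((univ : Finset ι).image (lab j))
    (cell lab j) (fun c _ d _ hcd => cell_disjoint hcd) univ (fun c _ => subset_univ _)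
  have p2 := pyth (q := q) X hX ((univ : Finset ι).image (lab j))
    (cell lab j) (fun c _ d _ hcd => cell_disjoint hcd) univ (fun c _ => subset_univ _)
  have e0 : en q (fun A => α * X A + Y A) ∅ = 0 := by
    unfold en
    simp only [Av_empty, hG]
    rw [Ex_const]
    ring
  rw [Vr_eq, e0, sub_zero, ← p1, ← p2, ← Ex_mul_left]
  congr 1
  funext A
  have e1 : ∀ U, Av q U (fun A => α * X A + Y A) A = α * Av q U X A + Av q U Y A := by
    intro U
    unfold Av
    rw [Ex_add, Ex_mul_left]
  simp only [e1, Av_univ]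
  rw [sum_add_distrib, hadd, ← mul_sum]
  ring

lemma en_center {q : ℝ} (f : Finset ι → ℝ) (a : ℝ) (U : Finset ι) :
    en q (fun A => a * (f A - Ex q f)) U = a ^ 2 * (en q f U - en q f ∅) := by
  have h1 : ∀ A, Av q U (fun A => a * (f A - Ex q f)) A = a * (Av q U f A - Ex q f) := by
    intro A
    unfold Av
    rw [Ex_mul_left, Ex_sub, Ex_const]
  unfold en
  simp only [h1, Av_empty]
  have h2 : (fun A => (a * (Av q U f A - Ex q f)) ^ 2) = fun A =>
      a ^ 2 * ((Av q U f A) ^ 2 - (2 * Ex q f * Av q U f A - Ex q f ^ 2)) := by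
    funext A; ring
  rw [h2, Ex_mul_left, Ex_sub, Ex_sub, Ex_mul_left, Ex_const]
  have h3 : Ex q (fun A => Av q U f A) = Ex q f := Ex_Av q U f
  rw [h3]
  ring

end abs

end Pool.Agent.N940.TSP
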