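import Pool.Agent.N940.TSP.Asm1

/-!
# Assembly of the central limit theorem, part 2: the estimate for one box
-/

set_option autoImplicit false
set_option linter.unusedSectionVars false
set_option linter.unusedVariables false

namespace Pool.Agent.N940.TSP

open Finset

section geom

variable (N K M : ℕ)

/-- the labels of the dyadic blocks -/
def dl (t : ℕ) (k : Ix N K M) : ℕ × ℕ := lb N K M (K * 2 ^ t) k

lemma dl_succ (t : ℕ) (k : Ix N K M) :
    dl N K M (t + 1) k = ((dl N K M t k).1 / 2, (dl N K M t k).2 / 2) := by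
  unfold dl lb
  simp only [Nat.div_div_eq_div_mul]
  have : M * (K * 2 ^ (t + 1)) = M * (K * 2 ^ t) * 2 := by ring
  rw [this]

lemma dl_nested (k : ℕ) : Nested (dl N K M) k := by
  intro t _ x y hxy
  rw [dl_succ, dl_succ, hxy]

lemma dl_ch (t : ℕ) (c : ℕ × ℕ) : ((ch (dl N K M) t c).card : ℝ) ≤ 4 := by
  have h : ch (dl N K M) t c ⊆ ({2 * c.1, 2 * c.1 + 1} : Finset ℕ) ×ˢ
      ({2 * c.2, 2 * c.2 + 1} : Finset ℕ) := by
    intro d hd
    unfold ch at hd
    obtain ⟨x, hx, rfl⟩ := mem_image.1 hd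
    rw [mem_cell, dl_succ] at hx
    have h1 : (dl N K M t x).1 / 2 = c.1 := congrArg Prod.fst hx
    have h2 : (dl N K M t x).2 / 2 = c.2 := congrArg Prod.snd hx
    simp only [mem_product, mem_insert, mem_singleton]
    omega
  have h2 := card_le_card h
  rw [card_product] at h2
  have h3 : ({2 * c.1, 2 * c.1 + 1} : Finset ℕ).card ≤ 2 := card_le_two
  have h4 : ({2 * c.2, 2 * c.2 + 1} : Finset ℕ).card ≤ 2 := card_le_two
  have h5 : (ch (dl N K M) t c).card ≤ 4 := h2.trans (by nlinarith)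
  exact_mod_cast h5

lemma dl_count (hK : 0 < K) (hM : 0 < M) (t : ℕ) (ht : 2 ^ t ∣ N) :
    (((univ : Finset (Ix N K M)).image (dl N K M t)).card : ℝ) * (4 ^ t * (K : ℝ) ^ 2) ≤
      ((N : ℝ) * K) ^ 2 := by
  obtain ⟨p, hp⟩ := ht
  have h : (univ : Finset (Ix N K M)).image (dl N K M t) ⊆ range p ×ˢ range p := by
    intro d hd
    obtain ⟨x, _, rfl⟩ := mem_image.1 hd
    unfold dl lb
    simp only [mem_product, mem_range]
    have e : N * K * M = p * (M * (K * 2 ^ t)) := by rw [hp]; ring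
    have hpos : 0 < M * (K * 2 ^ t) := by positivity
    constructor
    · rw [Nat.div_lt_iff_lt_mul hpos, ← e]
      exact x.1.2
    · rw [Nat.div_lt_iff_lt_mul hpos, ← e]
      exact x.2.2
  have h2 := card_le_card h
  rw [card_product, card_range] at h2
  have h3 : (((univ : Finset (Ix N K M)).image (dl N K M t)).card : ℝ) ≤ (p : ℝ) * p := by
    exact_mod_cast h2
  have h4 : (N : ℝ) = 2 ^ t * p := by rw [hp]; push_cast; ring
  have h5 : (0 : ℝ) ≤ 4 ^ t * (K : ℝ) ^ 2 := by positivity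
  calc _ ≤ ((p : ℝ) * p) * (4 ^ t * (K : ℝ) ^ 2) := mul_le_mul_of_nonneg_right h3 h5
    _ = ((N : ℝ) * K) ^ 2 := by
        rw [h4]
        have : (4 : ℝ) ^ t = 2 ^ t * 2 ^ t := by rw [← mul_pow]; norm_num
        rw [this]; ring

lemma cell_eq_bl (t : ℕ) (c : ℕ × ℕ) : cell (dl N K M) t c = bl N K M (K * 2 ^ t) c := rfl

/-- a block has at most `(M s)^2` cells -/
lemma bl_card (s : ℕ) (hs : 0 < s) (hM : 0 < M) (c : ℕ × ℕ) :
    ((bl N K M s c).card : ℝ) ≤ ((M : ℝ) * s) ^ 2 := by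
  have hpos : 0 < M * s := by positivity
  have h : (bl N K M s c).card ≤ (M * s) * (M * s) := by
    rw [← card_range (M * s), ← card_product]
    refine card_le_card_of_injOn (fun k => ((k.1 : ℕ) % (M * s), (k.2 : ℕ) % (M * s))) ?_ ?_
    · intro k _
      simp only [coe_product, coe_range, Set.mem_prod, Set.mem_Iio]
      exact ⟨Nat.mod_lt _ hpos, Nat.mod_lt _ hpos⟩
    · intro k hk l hl hkl
      have hk' := (mem_filter.1 (mem_coe.1 hk)).2
      have hl' := (mem_filter.1 (mem_coe.1 hl)).2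
      unfold lb at hk' hl'
      simp only [Prod.mk.injEq] at hkl
      have h1 : (k.1 : ℕ) / (M * s) = (l.1 : ℕ) / (M * s) := by
        exact (congrArg Prod.fst hk').trans (congrArg Prod.fst hl').symm
      have h2 : (k.2 : ℕ) / (M * s) = (l.2 : ℕ) / (M * s) := by
        exact (congrArg Prod.snd hk').trans (congrArg Prod.snd hl').symm
      have h3 : (k.1 : ℕ) = l.1 := by
        rw [← Nat.div_add_mod (k.1 : ℕ) (M * s), ← Nat.div_add_mod (l.1 : ℕ) (M * s), h1, hkl.1]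
      have h4 : (k.2 : ℕ) = l.2 := by
        rw [← Nat.div_add_mod (k.2 : ℕ) (M * s), ← Nat.div_add_mod (l.2 : ℕ) (M * s), h2, hkl.2]
      exact Prod.ext (Fin.ext h3) (Fin.ext h4)
  have h2 : ((bl N K M s c).card : ℝ) ≤ ((M * s : ℕ) : ℝ) * ((M * s : ℕ) : ℝ) := by
    exact_mod_cast h
  push_cast at h2
  linarith

end geom

section one

variable {N K M : ℕ}

/-- the mixed difference -/
lemma mixed (hLOC : S_LOC) (hN : 0 < N) (hK : 0 < K) (hM : 0 < M) (t : ℕ) (c : ℕ × ℕ)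
    (A A' Z Z' : Finset (Ix N K M)) :
    |fT N K M (mix (cell (dl N K M) t c) A Z) - fT N K M (mix (cell (dl N K M) t c) A' Z) -
      fT N K M (mix (cell (dl N K M) t c) A Z') + fT N K M (mix (cell (dl N K M) t c) A' Z')| ≤
      108 * Real.sqrt (4 ^ t * (K : ℝ) ^ 2) := by
  obtain ⟨h, hh⟩ := (hLOC N K M (K * 2 ^ t) hN hK hM (by positivity) (dvd_mul_right _ _) c).1
  have e : Real.sqrt (4 ^ t * (K : ℝ) ^ 2) = (K : ℝ) * 2 ^ t := by
    rw [show (4 : ℝ) ^ t * (K : ℝ) ^ 2 = ((K : ℝ) * 2 ^ t) ^ 2 by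
      rw [mul_pow, ← pow_mul, mul_comm t 2, pow_mul]; norm_num; ring]
    exact Real.sqrt_sq (by positivity)
  rw [e, cell_eq_bl]
  have h1 := abs_le.1 (hh A Z)
  have h2 := abs_le.1 (hh A' Z)
  have h3 := abs_le.1 (hh A Z')
  have h4 := abs_le.1 (hh A' Z')
  push_cast at h1 h2 h3 h4
  rw [abs_le]
  constructor <;> linarith [h1.1, h1.2, h2.1, h2.2, h3.1, h3.2, h4.1, h4.2]

/-- the bound of a conditional expectation -/
lemma Av_bound (hLOC : S_LOC) (hm : S_MOM) (hN : 0 < N) (hK : 0 < K) (hM : 0 < M) (s : ℕ)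
    (hs : 0 < s) (hKs : K ∣ s) {q : ℝ} (h0 : 0 ≤ q) (h1 : q ≤ 1) (hq : q * (M : ℝ) ^ 2 ≤ 4)
    (c : ℕ × ℕ) (A : Finset (Ix N K M)) :
    |Av q (bl N K M s c) (fT N K M) A - Ex q (fT N K M)| ≤
      3 * s * (((A ∩ bl N K M s c).card : ℝ) + 24 * (s : ℝ) ^ 2) := by
  obtain ⟨⟨h, hh⟩, hg⟩ := hLOC N K M s hN hK hM hs hKs c
  set B := bl N K M s c with hB
  set g : Finset (Ix N K M) → ℝ := fun A => tsp (plus N K M A ∩ sq s c) with hgd
  have hs1 : (1 : ℝ) ≤ s := by exact_mod_cast hs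
  have hK1 : (1 : ℝ) ≤ K := by exact_mod_cast hK
  have hsK : (s : ℝ) / K ≤ s := div_le_self (by positivity) hK1
  have hsK0 : 0 ≤ (s : ℝ) / K := by positivity
  have hsK2 : ((s : ℝ) / K) ^ 2 ≤ (s : ℝ) ^ 2 := pow_le_pow_left₀ hsK0 hsK 2
  -- the functional h is recovered from the choice A = ∅
  have hg0 : ∀ A, 0 ≤ g A := by
    intro A
    exact Real.sInf_nonneg (by
      rintro r ⟨l, _, rfl⟩
      unfold cyc
      cases l with
      | nil => exact le_rfl
      | cons x l =>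
        have : ∀ l : List ℂ, 0 ≤ len l := by
          intro l
          induction l with
          | nil => exact le_rfl
          | cons x l ih =>
            cases l with
            | nil => exact le_rfl
            | cons y l =>
              unfold len
              exact add_nonneg dist_nonneg ih
        exact this _)
  have hcard := bl_card N K M s hs hM c
  have hqB : q * (B.card : ℝ) ≤ 4 * (s : ℝ) ^ 2 := by
    calc q * (B.card : ℝ) ≤ q * ((M : ℝ) * s) ^ 2 := mul_le_mul_of_nonneg_left hcard h0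
      _ = (q * (M : ℝ) ^ 2) * (s : ℝ) ^ 2 := by ring
      _ ≤ 4 * (s : ℝ) ^ 2 := mul_le_mul_of_nonneg_right hq (by positivity)
  have hpair : ∀ A A' Z, |fT N K M (mix B A Z) - fT N K M (mix B A' Z)| ≤
      3 * s * ((((A ∩ B).card : ℝ) + ((A' ∩ B).card : ℝ)) + 20 * (s : ℝ) ^ 2) := by
    intro A A' Z
    have e1 := abs_le.1 (hh A Z)
    have e2 := abs_le.1 (hh A' Z)
    have e3 := hg A
    have e4 := hg A'
    have e5 := hg0 A
    have e6 := hg0 A'
    simp only [hgd] at e5 e6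
    have e7 : (0 : ℝ) ≤ s := by positivity
    have e8 : (s : ℝ) ≤ s * (s : ℝ) ^ 2 := by nlinarith
    have e9 : (s : ℝ) * ((s : ℝ) / K) ^ 2 ≤ s * (s : ℝ) ^ 2 :=
      mul_le_mul_of_nonneg_left hsK2 e7
    have e10 : (0 : ℝ) ≤ s * ((A ∩ B).card : ℝ) := by positivity
    have e11 : (0 : ℝ) ≤ s * ((A' ∩ B).card : ℝ) := by positivity
    have e12 : (0 : ℝ) ≤ s * (s : ℝ) ^ 2 := by positivity
    have e13 : (0 : ℝ) ≤ s * ((s : ℝ) / K) ^ 2 := by positivity
    rw [abs_le]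
    constructor
    · nlinarith [e1.1, e1.2, e2.1, e2.2]
    · nlinarith [e1.1, e1.2, e2.1, e2.2]
  have e1 : Av q B (fT N K M) A - Ex q (fT N K M) =
      Ex q (fun Z => Ex q (fun A' => fT N K M (mix B A Z) - fT N K M (mix B A' Z))) := by
    have e2 : Ex q (fT N K M) = Ex q (fun Z => Ex q (fun A' => fT N K M (mix B A' Z))) := by
      rw [Ex_comm]
      exact (Ex_mix q B (fT N K M)).symm
    rw [e2]
    unfold Av
    rw [← Ex_sub]
    congr 1
    funext Z
    rw [Ex_sub, Ex_const]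
  rw [e1]
  refine (Ex_abs_le h0 h1 _).trans ?_
  rw [← Ex_const (ι := Ix N K M) q (3 * (s : ℝ) * (((A ∩ B).card : ℝ) + 24 * (s : ℝ) ^ 2))]
  refine Ex_mono h0 h1 fun Z => (Ex_abs_le h0 h1 _).trans ?_
  have e3 : Ex q (fun A' => |fT N K M (mix B A Z) - fT N K M (mix B A' Z)|) ≤
      Ex q (fun A' : Finset (Ix N K M) =>
        3 * s * ((((A ∩ B).card : ℝ) + ((A' ∩ B).card : ℝ)) + 20 * (s : ℝ) ^ 2)) :=
    Ex_mono h0 h1 fun A' => hpair A A' Z
  refine e3.trans ?_
  rw [Ex_mul_left, Ex_add, Ex_add, Ex_const, Ex_const, (hm _ q h0 h1 B).1]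
  have e7 : (0 : ℝ) ≤ 3 * s := by positivity
  refine mul_le_mul_of_nonneg_left ?_ e7
  linarith

end one

end Pool.Agent.N940.TSP
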