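import Pool.Agent.N940.TSP.Asm2

/-!
# Assembly of the central limit theorem, part 3: characteristic functions in one box
-/

set_option autoImplicit false
set_option linter.unusedSectionVars false
set_option linter.unusedVariables false

namespace Pool.Agent.N940.TSP

open Finset

section abs

variable {ι : Type} [Fintype ι] [DecidableEq ι]

lemma Vr_shift (q : ℝ) (g : Finset ι → ℝ) (c : ℝ) : Vr q (fun A => g A + c) = Vr q g := by
  unfold Vr
  rw [Ex_add, Ex_const]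
  congr 1
  funext A
  have : Ex q (fun A => g A) = Ex q g := rfl
  rw [this]
  ring

lemma cube_le {x y : ℝ} (hx : 0 ≤ x) (hy : 0 ≤ y) : (x + y) ^ 3 ≤ 4 * (x ^ 3 + y ^ 3) := by
  nlinarith [mul_nonneg (add_nonneg hx hy) (sq_nonneg (x - y))]

lemma sq_le' (x y : ℝ) : (x + y) ^ 2 ≤ 2 * (x ^ 2 + y ^ 2) := by
  nlinarith [sq_nonneg (x - y)]

/-- moments of the number of points plus a constant -/
lemma mom_bound (hm : S_MOM) {q : ℝ} (h0 : 0 ≤ q) (h1 : q ≤ 1) (B : Finset ι) (z : ℝ)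
    (hz : 1 ≤ z) (hB : q * (B.card : ℝ) ≤ 4 * z) :
    Ex q (fun A : Finset ι => (((A ∩ B).card : ℝ) + 24 * z) ^ 3) ≤ 56160 * z ^ 3 ∧
    Ex q (fun A : Finset ι => (((A ∩ B).card : ℝ) + 24 * z) ^ 2) ≤ 1202 * z ^ 2 := by
  obtain ⟨_, m2, m3⟩ := hm ι q h0 h1 B
  have hqB : 0 ≤ q * (B.card : ℝ) := by positivity
  have b3 : (q * (B.card : ℝ) + 2) ^ 3 ≤ (6 * z) ^ 3 :=
    pow_le_pow_left₀ (by positivity) (by linarith) 3
  have b2 : (q * (B.card : ℝ) + 1) ^ 2 ≤ (5 * z) ^ 2 :=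
    pow_le_pow_left₀ (by positivity) (by linarith) 2
  constructor
  · have e1 : Ex q (fun A : Finset ι => (((A ∩ B).card : ℝ) + 24 * z) ^ 3) ≤
        Ex q (fun A : Finset ι => 4 * (((A ∩ B).card : ℝ) ^ 3 + (24 * z) ^ 3)) :=
      Ex_mono h0 h1 fun A => cube_le (by positivity) (by positivity)
    rw [Ex_mul_left, Ex_add, Ex_const] at e1
    nlinarith
  · have e1 : Ex q (fun A : Finset ι => (((A ∩ B).card : ℝ) + 24 * z) ^ 2) ≤
        Ex q (fun A : Finset ι => 2 * (((A ∩ B).card : ℝ) ^ 2 + (24 * z) ^ 2)) :=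
      Ex_mono h0 h1 fun A => sq_le' _ _
    rw [Ex_mul_left, Ex_add, Ex_const] at e1
    nlinarith

end abs

set_option maxHeartbeats 2000000 in
lemma char_bound (hLOC : S_LOC) (hm : S_MOM) (hCLT : S_CLT) {N K M n : ℕ} (hN : 0 < N)
    (hK : 0 < K) (hM : 0 < M) {q : ℝ} (h0 : 0 ≤ q) (h1 : q ≤ 1) (hq : q * (M : ℝ) ^ 2 ≤ 4)
    (hn : ((N : ℝ) * K) ^ 2 ≤ n) (hqn : q * (Fintype.card (Ix N K M) : ℝ) = n)
    (j : ℕ) (hj : 2 ^ j ∣ N) (ε κ : ℝ) (hε : 0 ≤ ε) (hκ : 0 ≤ κ)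
    (hA : en q (fT N K M) univ - en q (fT N K M) ∅ -
      ∑ c ∈ (univ : Finset (Ix N K M)).image (dl N K M j),
        (en q (fT N K M) (cell (dl N K M) j c) - en q (fT N K M) ∅) ≤ ε * ((N : ℝ) * K) ^ 2)
    (hκ1 : ((K : ℝ) * 2 ^ j) ^ 7 ≤ κ * ((N : ℝ) * K))
    (hκ2 : ((K : ℝ) * 2 ^ j) ^ 10 ≤ κ * ((N : ℝ) * K) ^ 2) (α β : ℝ) :
    ‖Ex q (fun A : Finset (Ix N K M) => Complex.exp (Complex.I *
        ((α * (fT N K M A / ((N : ℝ) * K) - Ex q (fun A => fT N K M A / ((N : ℝ) * K))) +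
          β * (((A.card : ℝ) - n) / Real.sqrt n) : ℝ) : ℂ))) -
      Complex.exp ((-(Vr q fun A : Finset (Ix N K M) =>
        α * (fT N K M A / ((N : ℝ) * K)) + β * ((A.card : ℝ) / Real.sqrt n)) / 2 : ℝ) : ℂ)‖
      ≤ (Real.sqrt ε + ε / 2 + 2 * 10 ^ 8 * κ) * (1 + |α| + |β|) ^ 4 := by
  set f := fT N K M with hf
  set R : ℝ := (N : ℝ) * K with hR
  have hN1 : (1 : ℝ) ≤ N := by exact_mod_cast hN
  have hK1 : (1 : ℝ) ≤ K := by exact_mod_cast hK
  have hR1 : 1 ≤ R := by rw [hR]; nlinarith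
  have hR0 : 0 < R := by linarith
  have hnR : R ≤ Real.sqrt n := Real.le_sqrt_of_sq_le hn
  have hsn : 0 < Real.sqrt n := hR0.trans_le hnR
  set lab := dl N K M with hlab
  set T := (univ : Finset (Ix N K M)).image (lab j) with hT
  set X : Finset (Ix N K M) → ℝ := fun A => R⁻¹ * (f A - Ex q f) with hX
  set b := β / Real.sqrt n with hb
  set Y : Finset (Ix N K M) → ℝ := fun A =>
    b * ((A.card : ℝ) - q * Fintype.card (Ix N K M)) with hY
  have hX0 : Ex q X = 0 := by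
    rw [hX, Ex_mul_left, Ex_sub, Ex_const]
    have : Ex q (fun A => f A) = Ex q f := rfl
    rw [this, sub_self, mul_zero]
  have hY0 : Ex q Y = 0 := by
    rw [hY, Ex_mul_left, Ex_sub, Ex_const, Ex_card' q hm h0 h1, sub_self, mul_zero]
  have hadd : ∀ A, ∑ c ∈ T, Av q (cell lab j c) Y A = Y A :=
    fun A => card_additive hm h0 h1 lab j b A
  set G : Finset (Ix N K M) → ℝ := fun A => α * X A + Y A with hG
  have hG0 : Ex q G = 0 := by
    rw [hG, Ex_add, Ex_mul_left]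
    have e1 : Ex q (fun A => X A) = 0 := hX0
    have e2 : Ex q (fun A => Y A) = 0 := hY0
    rw [e1, e2]; ring
  have hEF : Ex q (fun A => f A / R) = R⁻¹ * Ex q f := by
    rw [← Ex_mul_left]
    congr 1
    funext A
    rw [div_eq_inv_mul]
  -- identification
  have hG1 : ∀ A : Finset (Ix N K M), α * (f A / R - Ex q (fun A => f A / R)) +
          β * (((A.card : ℝ) - n) / Real.sqrt n) = G A := by
    intro A
    simp only [hG, hX, hY, hb, hEF, hqn]
    rw [div_eq_inv_mul]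
    ring
  have hG2 : Vr q (fun A : Finset (Ix N K M) =>
        α * (f A / R) + β * ((A.card : ℝ) / Real.sqrt n)) = Vr q G := by
    rw [← Vr_shift q G (α * (R⁻¹ * Ex q f) + b * n)]
    congr 1
    funext A
    simp only [hG, hX, hY, hb, hqn]
    rw [div_eq_inv_mul]
    ring
  simp only [hG1]
  rw [hG2]
  -- the interaction part
  have hδ : Vr q G - ∑ c ∈ T, en q G (cell lab j c) ≤ α ^ 2 * ε := by
    rw [hG, pyth_add h0 h1 lab j α X Y hX0 hY0 hadd]
    refine mul_le_mul_of_nonneg_left ?_ (sq_nonneg α)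
    simp only [hX, en_center]
    rw [← mul_sum, ← mul_sub]
    have hRR : (R⁻¹) ^ 2 * (ε * R ^ 2) = ε := by field_simp
    calc (R⁻¹) ^ 2 * (en q f univ - en q f ∅ - ∑ c ∈ T, (en q f (cell lab j c) - en q f ∅))
        ≤ (R⁻¹) ^ 2 * (ε * R ^ 2) := mul_le_mul_of_nonneg_left hA (sq_nonneg _)
      _ = ε := hRR
  have hmain := hCLT (Ix N K M) (ℕ × ℕ) q h0 h1 T (cell lab j)
    (fun c _ d _ hcd => cell_disjoint hcd) G hG0 (α ^ 2 * ε) hδ
  refine hmain.trans ?_
  -- Lyapunov terms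
  set s : ℕ := K * 2 ^ j with hs
  have hs0 : 0 < s := by positivity
  have hs1 : (1 : ℝ) ≤ s := by exact_mod_cast hs0
  have hsR : (s : ℝ) = (K : ℝ) * 2 ^ j := by rw [hs]; push_cast; ring
  set l := |α| + |β| with hl
  have hl0 : 0 ≤ l := by positivity
  set v := l * (3 * s / R) with hv
  have hv0 : 0 ≤ v := by positivity
  have hz1 : (1 : ℝ) ≤ (s : ℝ) ^ 2 := one_le_pow₀ hs1
  have hqB : ∀ c, q * ((bl N K M s c).card : ℝ) ≤ 4 * (s : ℝ) ^ 2 := by
    intro c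
    calc q * ((bl N K M s c).card : ℝ) ≤ q * ((M : ℝ) * s) ^ 2 :=
          mul_le_mul_of_nonneg_left (bl_card N K M s hs0 hM c) h0
      _ = (q * (M : ℝ) ^ 2) * (s : ℝ) ^ 2 := by ring
      _ ≤ 4 * (s : ℝ) ^ 2 := mul_le_mul_of_nonneg_right hq (by positivity)
  have hcell : ∀ c, cell lab j c = bl N K M s c := fun c => rfl
  have hu : ∀ c A, |Av q (cell lab j c) G A| ≤
      v * (((A ∩ bl N K M s c).card : ℝ) + 24 * (s : ℝ) ^ 2) := by
    intro c A
    have e1 : Av q (cell lab j c) G A = α * (R⁻¹ * (Av q (cell lab j c) f A - Ex q f)) +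
        b * (((A ∩ cell lab j c).card : ℝ) - q * ((cell lab j c).card : ℝ)) := by
      have e2 : Av q (cell lab j c) G A = α * (R⁻¹ * (Av q (cell lab j c) f A - Ex q f)) +
          b * (Av q (cell lab j c) (fun A : Finset (Ix N K M) => (A.card : ℝ)) A -
            q * Fintype.card (Ix N K M)) := by
        unfold Av
        simp only [hG, hX, hY]
        rw [Ex_add, Ex_mul_left, Ex_mul_left, Ex_mul_left, Ex_sub, Ex_sub, Ex_const, Ex_const]
      rw [e2, Av_card hm h0 h1]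
      have h3 : ((cell lab j c)ᶜ.card : ℝ) = Fintype.card (Ix N K M) - (cell lab j c).card := by
        rw [card_compl, Nat.cast_sub (card_le_univ _)]
      rw [h3]
      ring
    rw [e1, hcell]
    have f1 := Av_bound hLOC hm hN hK hM s hs0 (dvd_mul_right _ _) h0 h1 hq c A
    have f2 : |((A ∩ bl N K M s c).card : ℝ) - q * ((bl N K M s c).card : ℝ)| ≤
        3 * s * (((A ∩ bl N K M s c).card : ℝ) + 24 * (s : ℝ) ^ 2) := by
      have g1 := hqB c
      have g2 : 0 ≤ q * ((bl N K M s c).card : ℝ) := by positivity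
      have g3 : (0 : ℝ) ≤ ((A ∩ bl N K M s c).card : ℝ) := by positivity
      have g4 : ((A ∩ bl N K M s c).card : ℝ) + 24 * (s : ℝ) ^ 2 ≤
          3 * s * (((A ∩ bl N K M s c).card : ℝ) + 24 * (s : ℝ) ^ 2) := by
        refine le_mul_of_one_le_left (by positivity) (by linarith)
      have g5 : (0 : ℝ) ≤ (s : ℝ) ^ 2 := by positivity
      rw [abs_le]
      constructor
      · linarith
      · linarith
    have f3 : |b| ≤ |β| * R⁻¹ := by
      rw [hb, abs_div, abs_of_pos hsn, div_eq_mul_inv]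
      refine mul_le_mul_of_nonneg_left ?_ (abs_nonneg β)
      exact inv_anti₀ hR0 hnR
    set ξ := 3 * (s : ℝ) * (((A ∩ bl N K M s c).card : ℝ) + 24 * (s : ℝ) ^ 2) with hξ
    have hξ0 : 0 ≤ ξ := by positivity
    calc _ ≤ |α * (R⁻¹ * (Av q (bl N K M s c) f A - Ex q f))| +
          |b * (((A ∩ bl N K M s c).card : ℝ) - q * ((bl N K M s c).card : ℝ))| := abs_add_le _ _
      _ ≤ |α| * (R⁻¹ * ξ) + (|β| * R⁻¹) * ξ := by
          rw [abs_mul, abs_mul, abs_mul, abs_of_pos (inv_pos.2 hR0)]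
          refine add_le_add ?_ ?_
          · exact mul_le_mul_of_nonneg_left (mul_le_mul_of_nonneg_left f1 (inv_pos.2 hR0).le)
              (abs_nonneg _)
          · exact mul_le_mul f3 f2 (abs_nonneg _) (by positivity)
      _ = v * (((A ∩ bl N K M s c).card : ℝ) + 24 * (s : ℝ) ^ 2) := by
          rw [hv, hl, hξ]
          field_simp
  have hterm : ∀ c ∈ T, Ex q (fun A => |Av q (cell lab j c) G A| ^ 3) +
      (en q G (cell lab j c)) ^ 2 ≤ v ^ 3 * (56160 * (s : ℝ) ^ 6) +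
        (v ^ 2 * (1202 * (s : ℝ) ^ 4)) ^ 2 := by
    intro c _
    obtain ⟨m3, m2⟩ := mom_bound hm h0 h1 (bl N K M s c) ((s : ℝ) ^ 2) hz1 (hqB c)
    refine add_le_add ?_ ?_
    · have e1 : Ex q (fun A => |Av q (cell lab j c) G A| ^ 3) ≤
          Ex q (fun A => v ^ 3 * (((A ∩ bl N K M s c).card : ℝ) + 24 * (s : ℝ) ^ 2) ^ 3) := by
        refine Ex_mono h0 h1 fun A => ?_
        rw [← mul_pow]
        exact pow_le_pow_left₀ (abs_nonneg _) (hu c A) 3
      rw [Ex_mul_left] at e1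
      refine e1.trans (mul_le_mul_of_nonneg_left (m3.trans (le_of_eq ?_)) (by positivity))
      ring
    · have e1 : en q G (cell lab j c) ≤
          Ex q (fun A => v ^ 2 * (((A ∩ bl N K M s c).card : ℝ) + 24 * (s : ℝ) ^ 2) ^ 2) := by
        refine Ex_mono h0 h1 fun A => ?_
        rw [← mul_pow, ← sq_abs]
        exact pow_le_pow_left₀ (abs_nonneg _) (hu c A) 2
      rw [Ex_mul_left] at e1
      refine pow_le_pow_left₀ (en_nonneg h0 h1 _ _) (e1.trans ?_) 2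
      refine mul_le_mul_of_nonneg_left (m2.trans (le_of_eq ?_)) (by positivity)
      ring
  have hcnt : (T.card : ℝ) * (s : ℝ) ^ 2 ≤ R ^ 2 := by
    have := dl_count N K M hK hM j hj
    refine le_trans (le_of_eq ?_) this
    rw [hsR, mul_pow, ← pow_mul, mul_comm j 2, pow_mul]
    norm_num
    ring
  have hsum : ∑ c ∈ T, (Ex q (fun A => |Av q (cell lab j c) G A| ^ 3) +
      (en q G (cell lab j c)) ^ 2) ≤ 2 * 10 ^ 8 * κ * (1 + l) ^ 4 := by
    have hl3 : l ^ 3 ≤ (1 + l) ^ 4 := by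
      have : (1 + l) ^ 4 = 1 + 4 * l + 6 * l ^ 2 + 4 * l ^ 3 + l ^ 4 := by ring
      rw [this]
      nlinarith [pow_nonneg hl0 3, pow_nonneg hl0 2, pow_nonneg hl0 4]
    have hl4 : l ^ 4 ≤ (1 + l) ^ 4 := pow_le_pow_left₀ hl0 (by linarith) 4
    calc _ ≤ ∑ c ∈ T, (v ^ 3 * (56160 * (s : ℝ) ^ 6) + (v ^ 2 * (1202 * (s : ℝ) ^ 4)) ^ 2) :=
          sum_le_sum hterm
      _ = (T.card : ℝ) * (v ^ 3 * (56160 * (s : ℝ) ^ 6) +
          (v ^ 2 * (1202 * (s : ℝ) ^ 4)) ^ 2) := by rw [sum_const, nsmul_eq_mul]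
      _ = ((T.card : ℝ) * (s : ℝ) ^ 2) * (l ^ 3 * 1516320 * ((s : ℝ) ^ 7 / R ^ 3) +
          l ^ 4 * 117029124 * ((s : ℝ) ^ 10 / R ^ 4)) := by
          rw [hv]
          field_simp
          ring
      _ ≤ R ^ 2 * (l ^ 3 * 1516320 * ((s : ℝ) ^ 7 / R ^ 3) +
          l ^ 4 * 117029124 * ((s : ℝ) ^ 10 / R ^ 4)) :=
          mul_le_mul_of_nonneg_right hcnt (by positivity)
      _ = l ^ 3 * 1516320 * ((s : ℝ) ^ 7 / R) + l ^ 4 * 117029124 * ((s : ℝ) ^ 10 / R ^ 2) := by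
          field_simp
      _ ≤ (1 + l) ^ 4 * 1516320 * κ + (1 + l) ^ 4 * 117029124 * κ := by
          have k1 : (s : ℝ) ^ 7 / R ≤ κ := by
            rw [div_le_iff₀ hR0, hsR]
            exact hκ1
          have k2 : (s : ℝ) ^ 10 / R ^ 2 ≤ κ := by
            rw [div_le_iff₀ (by positivity), hsR]
            exact hκ2
          refine add_le_add ?_ ?_
          · refine mul_le_mul (mul_le_mul_of_nonneg_right hl3 (by norm_num)) k1
              (by positivity) (by positivity)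
          · refine mul_le_mul (mul_le_mul_of_nonneg_right hl4 (by norm_num)) k2
              (by positivity) (by positivity)
      _ ≤ 2 * 10 ^ 8 * κ * (1 + l) ^ 4 := by
          have : 0 ≤ κ * (1 + l) ^ 4 := by positivity
          nlinarith
  have hsq : Real.sqrt (α ^ 2 * ε) ≤ Real.sqrt ε * (1 + l) ^ 4 := by
    rw [Real.sqrt_mul (sq_nonneg α), Real.sqrt_sq_eq_abs, mul_comm]
    refine mul_le_mul_of_nonneg_left ?_ (Real.sqrt_nonneg ε)
    have a1 : |α| ≤ 1 + l := by rw [hl]; linarith [abs_nonneg β]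
    have a2 : 1 ≤ 1 + l := by linarith
    calc |α| ≤ 1 + l := a1
      _ = (1 + l) ^ 1 := (pow_one _).symm
      _ ≤ (1 + l) ^ 4 := pow_le_pow_right₀ a2 (by norm_num)
  have hsq2 : α ^ 2 * ε / 2 ≤ ε / 2 * (1 + l) ^ 4 := by
    have a1 : |α| ≤ 1 + l := by rw [hl]; linarith [abs_nonneg β]
    have a2 : 1 ≤ 1 + l := by linarith
    have a3 : α ^ 2 ≤ (1 + l) ^ 4 := by
      calc α ^ 2 = |α| ^ 2 := (sq_abs α).symm
        _ ≤ (1 + l) ^ 2 := pow_le_pow_left₀ (abs_nonneg _) a1 2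
        _ ≤ (1 + l) ^ 4 := pow_le_pow_right₀ a2 (by norm_num)
    nlinarith
  have hl' : 1 + |α| + |β| = 1 + l := by rw [hl]; ring
  rw [hl']
  linarith

end Pool.Agent.N940.TSP
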