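import Pool.Agent.N940.TSP.Asm3

/-!
# Assembly of the central limit theorem, part 4: the choice of the parameters, conclusion
-/

set_option autoImplicit false
set_option linter.unusedSectionVars false
set_option linter.unusedVariables false

open Filter Topology

namespace Pool.Agent.N940.TSP

open Finset

/-- the scale of the box -/
def Jn (n : ℕ) : ℕ := Nat.log 4 n
/-- side of the anchored squares -/
def Kn (n : ℕ) : ℕ := 2 ^ (Jn n / 10)
/-- number of anchored squares per side -/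
def Nn (n : ℕ) : ℕ := 2 ^ (Jn n - Jn n / 10)
/-- fineness of the grid -/
def Mn (n : ℕ) : ℕ := n ^ 3

lemma Kn_pos (n : ℕ) : 0 < Kn n := by unfold Kn; positivity
lemma Nn_pos (n : ℕ) : 0 < Nn n := by unfold Nn; positivity
lemma Mn_pos {n : ℕ} (hn : 1 ≤ n) : 0 < Mn n := by unfold Mn; positivity

lemma NK_eq (n : ℕ) : Nn n * Kn n = 2 ^ Jn n := by
  unfold Nn Kn
  rw [← pow_add]
  congr 1
  omega

lemma NK_le {n : ℕ} (hn : 1 ≤ n) : (Nn n * Kn n) ^ 2 ≤ n := by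
  rw [NK_eq, ← pow_mul, mul_comm, pow_mul]
  exact Nat.pow_log_le_self 4 (by omega)

lemma lt_NK {n : ℕ} (hn : 1 ≤ n) : n < 4 * (Nn n * Kn n) ^ 2 := by
  rw [NK_eq, ← pow_mul, mul_comm (Jn n), pow_mul]
  have := Nat.lt_pow_succ_log_self (b := 4) (by norm_num) n
  unfold Jn
  calc n < 4 ^ (Nat.log 4 n).succ := this
    _ = 4 * (2 ^ 2) ^ Nat.log 4 n := by rw [Nat.succ_eq_add_one, pow_succ]; norm_num; ring

lemma K10_le (n : ℕ) : Kn n ^ 10 ≤ Nn n * Kn n := by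
  rw [NK_eq]
  unfold Kn
  rw [← pow_mul]
  exact Nat.pow_le_pow_right (by norm_num) (by omega)

lemma NK_le_K (n : ℕ) : Nn n * Kn n ≤ 512 * Kn n ^ 10 := by
  rw [NK_eq]
  unfold Kn
  rw [← pow_mul, show 512 = 2 ^ 9 by norm_num, ← pow_add]
  exact Nat.pow_le_pow_right (by norm_num) (by omega)

lemma Kn_tendsto : Tendsto Kn atTop atTop := by
  unfold Kn
  refine (tendsto_pow_atTop_atTop_of_one_lt (by norm_num : 1 < 2)).comp ?_
  rw [tendsto_atTop]
  intro b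
  filter_upwards [eventually_ge_atTop (4 ^ (10 * b))] with n hn
  have : 10 * b ≤ Jn n := Nat.le_log_of_pow_le (by norm_num) hn
  omega

lemma Kn_tendsto' : Tendsto (fun n => (Kn n : ℝ)) atTop atTop :=
  tendsto_natCast_atTop_atTop.comp Kn_tendsto

lemma empty_tendsto :
    Tendsto (fun n => ((Nn n : ℝ)) ^ 2 * Real.exp (-((Kn n : ℝ) ^ 2))) atTop (𝓝 0) := by
  have h1 : Tendsto (fun x : ℝ => 512 ^ 2 * (x ^ 18 * Real.exp (-(1 * x)))) atTop (𝓝 0) := by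
    have := (Real.tendsto_pow_mul_exp_neg_atTop_nhds_zero 18).const_mul (512 ^ 2 : ℝ)
    simpa using this
  have h2 := h1.comp Kn_tendsto'
  refine squeeze_zero (fun n => by positivity) (fun n => ?_) h2
  have hK : (1 : ℝ) ≤ Kn n := by exact_mod_cast Kn_pos n
  have hK0 : (0 : ℝ) < Kn n := by linarith
  have h3 : (Nn n : ℝ) ≤ 512 * (Kn n : ℝ) ^ 9 := by
    have h4 : (Nn n : ℝ) * Kn n ≤ 512 * (Kn n : ℝ) ^ 10 := by exact_mod_cast NK_le_K n
    have h5 : 512 * (Kn n : ℝ) ^ 10 = (512 * (Kn n : ℝ) ^ 9) * Kn n := by ring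
    rw [h5] at h4
    exact le_of_mul_le_mul_right h4 hK0
  have h6 : (Nn n : ℝ) ^ 2 ≤ 512 ^ 2 * (Kn n : ℝ) ^ 18 := by
    calc (Nn n : ℝ) ^ 2 ≤ (512 * (Kn n : ℝ) ^ 9) ^ 2 := pow_le_pow_left₀ (by positivity) h3 2
      _ = 512 ^ 2 * (Kn n : ℝ) ^ 18 := by ring
  have h7 : Real.exp (-((Kn n : ℝ) ^ 2)) ≤ Real.exp (-(1 * (Kn n : ℝ))) := by
    apply Real.exp_le_exp.2
    nlinarith
  calc (Nn n : ℝ) ^ 2 * Real.exp (-((Kn n : ℝ) ^ 2)) ≤
        (512 ^ 2 * (Kn n : ℝ) ^ 18) * Real.exp (-(1 * (Kn n : ℝ))) :=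
        mul_le_mul h6 h7 (Real.exp_pos _).le (by positivity)
    _ = _ := by simp only [Function.comp]; ring

lemma exists_eta {α : Type*} [Nonempty α] (D : ℕ → α → ℝ) (w : α → ℝ) (hw : ∀ p, 1 ≤ w p)
    (n₀ : ℕ) (hD0 : ∀ n p, n₀ ≤ n → 0 ≤ D n p) (hD2 : ∀ n p, n₀ ≤ n → D n p ≤ 2)
    (h : ∀ ε > 0, ∃ n₁ : ℕ, ∀ n ≥ n₁, ∀ p, D n p ≤ ε * w p) :
    ∃ η : ℕ → ℝ, Tendsto η atTop (𝓝 0) ∧ ∀ n p, n₀ ≤ n → D n p ≤ η n * w p := by
  refine ⟨fun n => ⨆ p, D n p / w p, ?_, ?_⟩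
  · rw [Metric.tendsto_atTop]
    intro ε hε
    obtain ⟨n₁, hn₁⟩ := h (ε / 2) (by positivity)
    refine ⟨max n₀ n₁, fun n hn => ?_⟩
    have hn0 : n₀ ≤ n := (le_max_left _ _).trans hn
    have hn1 : n₁ ≤ n := (le_max_right _ _).trans hn
    have hle : (⨆ p, D n p / w p) ≤ ε / 2 := by
      refine ciSup_le fun p => ?_
      have hwp : 0 < w p := lt_of_lt_of_le one_pos (hw p)
      rw [div_le_iff₀ hwp]
      exact hn₁ n hn1 p
    have hge : 0 ≤ ⨆ p, D n p / w p := by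
      refine Real.iSup_nonneg fun p => ?_
      have hwp : 0 < w p := lt_of_lt_of_le one_pos (hw p)
      exact div_nonneg (hD0 n p hn0) hwp.le
    rw [Real.dist_eq, sub_zero, abs_of_nonneg hge]
    linarith
  · intro n p hn
    have hbdd : BddAbove (Set.range fun p => D n p / w p) := by
      refine ⟨2, ?_⟩
      rintro _ ⟨p, rfl⟩
      have hwp : 0 < w p := lt_of_lt_of_le one_pos (hw p)
      show D n p / w p ≤ 2
      rw [div_le_iff₀ hwp]
      have := hD2 n p hn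
      have := hw p
      linarith
    have hwp : 0 < w p := lt_of_lt_of_le one_pos (hw p)
    have := le_ciSup hbdd p
    rw [← div_le_iff₀ hwp]
    exact this

end Pool.Agent.N940.TSP
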