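import Pool.Agent.N940.TSP.Asm5
import Pool.Agent.N940.TSP.Dep3

/-!
# The central limit theorem with general parameters and explicit variance
-/

set_option autoImplicit false
set_option linter.unusedSectionVars false
set_option linter.unusedVariables false

open Filter Topology

namespace Pool.Agent.N940.TSP

open Finset

/-- admissible sequences of parameters -/
structure Adm (N K M : ℕ → ℕ) (n₀ : ℕ) : Prop where
  two : 2 ≤ n₀
  pos : ∀ n, n₀ ≤ n → 0 < N n ∧ 0 < K n ∧ 0 < M n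
  le : ∀ n, n₀ ≤ n → (N n * K n) ^ 2 ≤ n
  lt : ∀ n, n₀ ≤ n → n ≤ 4 * (N n * K n) ^ 2
  Mle : ∀ n, n₀ ≤ n → n ^ 3 ≤ M n
  k10 : ∀ n, n₀ ≤ n → K n ^ 10 ≤ N n * K n
  Kt : Tendsto K atTop atTop
  dvd : ∀ j : ℕ, ∀ᶠ n in atTop, 2 ^ j ∣ N n
  emp : Tendsto (fun n => ((N n : ℝ)) ^ 2 * Real.exp (-((K n : ℝ) ^ 2))) atTop (𝓝 0)

section gen

variable {N K M : ℕ → ℕ} {n₀ : ℕ}

/-- the intensity -/
noncomputable def qg (N K M : ℕ → ℕ) (n : ℕ) : ℝ :=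
  (n : ℝ) / Fintype.card (Ix (N n) (K n) (M n))

lemma qg_facts (h : Adm N K M n₀) {n : ℕ} (hn : n₀ ≤ n) : 0 ≤ qg N K M n ∧ qg N K M n ≤ 1 ∧
    1 ≤ qg N K M n * (M n : ℝ) ^ 2 ∧
    qg N K M n * (M n : ℝ) ^ 2 ≤ 4 ∧
    qg N K M n * (Fintype.card (Ix (N n) (K n) (M n)) : ℝ) = n ∧
    2 * n ≤ Fintype.card (Ix (N n) (K n) (M n)) ∧
    qg N K M n * (M n : ℝ) ^ 2 = n / ((N n : ℝ) * K n) ^ 2 := by
  have hn2 : 2 ≤ n := h.two.trans hn
  have hn1 : 1 ≤ n := by omega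
  obtain ⟨hN, hK, hM⟩ := h.pos n hn
  have hMR : (0 : ℝ) < M n := by exact_mod_cast hM
  have hNR : (0 : ℝ) < N n := by exact_mod_cast hN
  have hKR : (0 : ℝ) < K n := by exact_mod_cast hK
  have hcard := card_Ix (N n) (K n) (M n)
  have hpos : (0 : ℝ) < Fintype.card (Ix (N n) (K n) (M n)) := by rw [hcard]; positivity
  have hle : 2 * n ≤ Fintype.card (Ix (N n) (K n) (M n)) := by
    have h1 : Fintype.card (Ix (N n) (K n) (M n)) =
        (N n * K n * M n) * (N n * K n * M n) := by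
      unfold Ix
      rw [Fintype.card_prod, Fintype.card_fin]
    rw [h1]
    have h2 : 1 ≤ N n * K n := Nat.mul_pos hN hK
    have h3 : n ^ 3 ≤ N n * K n * M n := (h.Mle n hn).trans (Nat.le_mul_of_pos_left _ h2)
    have h4 : n ^ 3 * n ^ 3 ≤ (N n * K n * M n) * (N n * K n * M n) := Nat.mul_le_mul h3 h3
    have h5 : 2 * n ≤ n ^ 3 * n ^ 3 := by
      have h6 : 1 ≤ n ^ 4 := Nat.one_le_pow _ _ hn1
      calc 2 * n ≤ n * n := Nat.mul_le_mul_right _ hn2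
        _ ≤ (n * n) * n ^ 4 := Nat.le_mul_of_pos_right _ h6
        _ = n ^ 3 * n ^ 3 := by ring
    omega
  have hq4 : qg N K M n * (M n : ℝ) ^ 2 = n / ((N n : ℝ) * K n) ^ 2 := by
    unfold qg
    rw [hcard]
    field_simp
  have hlow : ((N n : ℝ) * K n) ^ 2 ≤ n := by exact_mod_cast h.le n hn
  have hupp : (n : ℝ) ≤ 4 * ((N n : ℝ) * K n) ^ 2 := by exact_mod_cast h.lt n hn
  have hRR : (0 : ℝ) < ((N n : ℝ) * K n) ^ 2 := by positivity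
  refine ⟨?_, ?_, ?_, ?_, ?_, hle, hq4⟩
  · unfold qg; positivity
  · unfold qg
    rw [div_le_one hpos]
    have : (2 : ℝ) * n ≤ Fintype.card (Ix (N n) (K n) (M n)) := by exact_mod_cast hle
    have h0 : (0 : ℝ) ≤ n := Nat.cast_nonneg n
    linarith
  · rw [hq4, le_div_iff₀ hRR]; linarith
  · rw [hq4, div_le_iff₀ hRR]; exact hupp
  · unfold qg
    field_simp

/-- the normalized functional -/
noncomputable def Fg (N K M : ℕ → ℕ) (n : ℕ) (A : Finset (Ix (N n) (K n) (M n))) : ℝ :=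
  fT (N n) (K n) (M n) A / ((N n : ℝ) * (K n : ℝ))

/-- the error in the normal approximation -/
noncomputable def Dg (N K M : ℕ → ℕ) (n : ℕ) (p : ℝ × ℝ) : ℝ :=
  ‖Ex (qg N K M n) (fun A : Finset (Ix (N n) (K n) (M n)) => Complex.exp (Complex.I *
      ((p.1 * (Fg N K M n A - Ex (qg N K M n) (Fg N K M n)) +
        p.2 * (((A.card : ℝ) - n) / Real.sqrt n) : ℝ) : ℂ))) -
    Complex.exp ((-(Vr (qg N K M n) fun A : Finset (Ix (N n) (K n) (M n)) =>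
      p.1 * Fg N K M n A + p.2 * ((A.card : ℝ) / Real.sqrt n)) / 2 : ℝ) : ℂ)‖

lemma Dg_le_two (h : Adm N K M n₀) {n : ℕ} (hn : n₀ ≤ n) (p : ℝ × ℝ) : Dg N K M n p ≤ 2 := by
  obtain ⟨h0, h1, _⟩ := qg_facts h hn
  unfold Dg
  refine (norm_sub_le _ _).trans ?_
  have e1 : ‖Ex (qg N K M n) (fun A : Finset (Ix (N n) (K n) (M n)) => Complex.exp (Complex.I *
      ((p.1 * (Fg N K M n A - Ex (qg N K M n) (Fg N K M n)) +
        p.2 * (((A.card : ℝ) - n) / Real.sqrt n) : ℝ) : ℂ)))‖ ≤ 1 := by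
    refine norm_Ex_le h0 h1 _ fun A => ?_
    rw [mul_comm, Complex.norm_exp_ofReal_mul_I]
  have e2 : ‖Complex.exp ((-(Vr (qg N K M n) fun A : Finset (Ix (N n) (K n) (M n)) =>
      p.1 * Fg N K M n A + p.2 * ((A.card : ℝ) / Real.sqrt n)) / 2 : ℝ) : ℂ)‖ ≤ 1 := by
    rw [Complex.norm_exp, Complex.ofReal_re, Real.exp_le_one_iff]
    have : 0 ≤ Vr (qg N K M n) fun A : Finset (Ix (N n) (K n) (M n)) =>
      p.1 * Fg N K M n A + p.2 * ((A.card : ℝ) / Real.sqrt n) :=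
      Ex_nonneg h0 h1 fun _ => sq_nonneg _
    linarith
  linarith

lemma sitesg (hES : S_ES) (hD1 : S_D1) (h : Adm N K M n₀) {n : ℕ} (hn : n₀ ≤ n) :
    ∑ x : Ix (N n) (K n) (M n), (en (qg N K M n) (fT (N n) (K n) (M n)) univ -
      en (qg N K M n) (fT (N n) (K n) (M n)) {x}ᶜ) ≤ 56 * ((N n : ℝ) * K n) ^ 2 := by
  obtain ⟨h0, h1, _⟩ := qg_facts h hn
  obtain ⟨hN, hK, hM⟩ := h.pos n hn
  exact hES _ _ h0 h1 _ _ fun A => hD1 _ _ _ hN hK hM A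

lemma Dg_small (hES : S_ES) (hm : S_MOM) (hCLT : S_CLT) (hD1 : S_D1) (hLOC : S_LOC)
    (h : Adm N K M n₀) (ε : ℝ) (hε : 0 < ε) :
    ∃ n₁ : ℕ, ∀ n ≥ n₁, ∀ p : ℝ × ℝ, Dg N K M n p ≤ ε * (1 + |p.1| + |p.2|) ^ 4 := by
  obtain ⟨ε', hε'⟩ : ∃ ε', ε' = min (ε / 2) ((ε / 4) ^ 2) := ⟨_, rfl⟩
  have hε'0 : 0 < ε' := by rw [hε']; positivity
  have hε'1 : ε' ≤ ε / 2 := by rw [hε']; exact min_le_left _ _
  have hε'2 : Real.sqrt ε' ≤ ε / 4 := by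
    rw [Real.sqrt_le_left (by positivity), hε']
    exact min_le_right _ _
  obtain ⟨j₀, hj₀⟩ := thmA 56 108 ε' (by norm_num) (by norm_num) hε'0
  have hKt : Tendsto (fun n => (K n : ℝ)) atTop atTop := tendsto_natCast_atTop_atTop.comp h.Kt
  have hev1 : ∀ᶠ n : ℕ in atTop, 4 * 10 ^ 8 * 2 ^ (10 * j₀) / ε ≤ (K n : ℝ) :=
    hKt.eventually_ge_atTop _
  have hev2 : ∀ᶠ n : ℕ in atTop, 2 ^ j₀ ∣ N n := h.dvd j₀
  obtain ⟨n₁, hn₁⟩ := (hev1.and (hev2.and (eventually_ge_atTop n₀))).exists_forall_of_atTop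
  refine ⟨n₁, fun n hn p => ?_⟩
  obtain ⟨g1, g2, g3⟩ := hn₁ n hn
  obtain ⟨h0, h1, hq1, hq4, hqn, _⟩ := qg_facts h g3
  obtain ⟨hN, hK, hM⟩ := h.pos n g3
  have hdvd : ∀ t ≤ j₀, 2 ^ t ∣ N n := fun t ht => (pow_dvd_pow 2 ht).trans g2
  have hKR : (0 : ℝ) < K n := by exact_mod_cast hK
  have hK1 : (1 : ℝ) ≤ K n := by exact_mod_cast hK
  have hNR : (0 : ℝ) < N n := by exact_mod_cast hN
  have hA := hj₀ (Ix (N n) (K n) (M n)) (ℕ × ℕ) (dl (N n) (K n) (M n))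
    (dl_nested _ _ _ _) (fun t _ c => dl_ch _ _ _ t c) ((K n : ℝ) ^ 2)
    (((N n : ℝ) * K n) ^ 2) (by positivity) (by positivity)
    (fun t ht => dl_count _ _ _ hK hM t (hdvd t ht)) (qg N K M n) h0 h1
    (fT (N n) (K n) (M n)) (sitesg hES hD1 h g3)
    (fun t _ c A A' Z Z' => mixed hLOC hN hK hM t c A A' Z Z')
  have h10 : (K n : ℝ) ^ 10 ≤ (N n : ℝ) * K n := by exact_mod_cast h.k10 n g3
  have hpow : ∀ a : ℕ, a ≤ 10 → (2 : ℝ) ^ (j₀ * a) ≤ 2 ^ (10 * j₀) := by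
    intro a ha
    refine pow_le_pow_right₀ (by norm_num) ?_
    rw [mul_comm]
    exact Nat.mul_le_mul_right _ ha
  set κ : ℝ := 2 ^ (10 * j₀) / K n with hκ
  have hκ0 : 0 ≤ κ := by positivity
  have hκ1 : ((K n : ℝ) * 2 ^ j₀) ^ 7 ≤ κ * ((N n : ℝ) * K n) := by
    rw [hκ, div_mul_eq_mul_div, le_div_iff₀ hKR, mul_pow, ← pow_mul]
    calc (K n : ℝ) ^ 7 * 2 ^ (j₀ * 7) * K n = 2 ^ (j₀ * 7) * (K n : ℝ) ^ 8 := by ring
      _ ≤ 2 ^ (10 * j₀) * (K n : ℝ) ^ 10 :=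
          mul_le_mul (hpow 7 (by norm_num)) (pow_le_pow_right₀ hK1 (by norm_num))
            (by positivity) (by positivity)
      _ ≤ 2 ^ (10 * j₀) * ((N n : ℝ) * K n) := mul_le_mul_of_nonneg_left h10 (by positivity)
  have hκ2 : ((K n : ℝ) * 2 ^ j₀) ^ 10 ≤ κ * ((N n : ℝ) * K n) ^ 2 := by
    rw [hκ, div_mul_eq_mul_div, le_div_iff₀ hKR, mul_pow, ← pow_mul]
    calc (K n : ℝ) ^ 10 * 2 ^ (j₀ * 10) * K n = 2 ^ (j₀ * 10) * (K n : ℝ) ^ 11 := by ring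
      _ ≤ 2 ^ (10 * j₀) * (K n : ℝ) ^ 20 :=
          mul_le_mul (hpow 10 (by norm_num)) (pow_le_pow_right₀ hK1 (by norm_num))
            (by positivity) (by positivity)
      _ = 2 ^ (10 * j₀) * ((K n : ℝ) ^ 10) ^ 2 := by ring
      _ ≤ 2 ^ (10 * j₀) * ((N n : ℝ) * K n) ^ 2 :=
          mul_le_mul_of_nonneg_left (pow_le_pow_left₀ (by positivity) h10 2) (by positivity)
  have hnR : ((N n : ℝ) * K n) ^ 2 ≤ (n : ℝ) := by exact_mod_cast h.le n g3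
  have hmain := char_bound hLOC hm hCLT hN hK hM h0 h1 hq4 hnR hqn j₀ (hdvd j₀ le_rfl) ε' κ
    hε'0.le hκ0 hA hκ1 hκ2 p.1 p.2
  refine le_trans (le_of_eq ?_) (hmain.trans ?_)
  · rfl
  · refine mul_le_mul_of_nonneg_right ?_ (by positivity)
    have h8 : 2 * 10 ^ 8 * κ ≤ ε / 2 := by
      have h9 : 4 * 10 ^ 8 * 2 ^ (10 * j₀) ≤ (K n : ℝ) * ε := by
        rwa [div_le_iff₀ hε] at g1
      rw [hκ, mul_div_assoc', div_le_iff₀ hKR]
      linarith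
    linarith

lemma D1g (hD1 : S_D1) (h : Adm N K M n₀) {n : ℕ} (hn : n₀ ≤ n)
    (A : Finset (Ix (N n) (K n) (M n))) :
    ∑ x ∈ A, (Fg N K M n A - Fg N K M n (A.erase x)) ^ 2 ≤ 56 := by
  obtain ⟨hN, hK, hM⟩ := h.pos n hn
  have hh := hD1 (N n) (K n) (M n) hN hK hM A
  have hR : (0 : ℝ) < (N n : ℝ) * K n := by positivity
  have e : ∀ x, (Fg N K M n A - Fg N K M n (A.erase x)) ^ 2 =
      (fT (N n) (K n) (M n) A - fT (N n) (K n) (M n) (A.erase x)) ^ 2 /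
        ((N n : ℝ) * K n) ^ 2 := by
    intro x
    unfold Fg
    rw [← sub_div, div_pow]
  simp only [e]
  rw [← sum_div, div_le_iff₀ (by positivity)]
  exact hh

/-- the central limit theorem for independent grid points, with explicit variance -/
theorem cltG (hES : S_ES) (hm : S_MOM) (hCLT : S_CLT) (hD1 : S_D1) (hLOC : S_LOC)
    (hVLB : S_VLB) (hLINK : S_LINK) (h : Adm N K M n₀) :
    ∃ (s₀ : ℝ) (s : ℕ → ℝ) (n₁ : ℕ), 0 < s₀ ∧ (∀ n, s₀ ≤ s n) ∧ n₀ ≤ n₁ ∧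
      (∀ n, n₁ ≤ n → s n ^ 2 = Vr (qg N K M n) (Fg N K M n) -
        (Dep.Cv (qg N K M n) (Fg N K M n) (Dep.xs n)) ^ 2 / (1 - qg N K M n)) ∧
      ∀ t : ℝ, Tendsto (fun n : ℕ => (((N n * K n * M n : ℕ) : ℂ) ^ (2 * n))⁻¹ *
        ∑ k : Fin n → Fin (N n * K n * M n) × Fin (N n * K n * M n), Complex.exp (Complex.I *
          ((t * ((tsp (Set.range fun i => gp (N n * K n * M n) (k i)) -
            Ex (qg N K M n) (Fg N K M n)) / s n) : ℝ) : ℂ)))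
        atTop (𝓝 (Complex.exp ((-(t ^ 2) / 2 : ℝ) : ℂ))) := by
  obtain ⟨c, M₀, hc, hV⟩ := hVLB
  obtain ⟨η, hη, hDη⟩ := exists_eta (Dg N K M) (fun p : ℝ × ℝ => (1 + |p.1| + |p.2|) ^ 4)
    (fun p => one_le_pow₀ (by linarith [abs_nonneg p.1, abs_nonneg p.2])) n₀
    (fun n p _ => norm_nonneg _) (fun n p hn => Dg_le_two h hn p)
    (fun ε hε => Dg_small hES hm hCLT hD1 hLOC h ε hε)
  set n₁ := max n₀ M₀ with hn₁
  have hn01 : n₀ ≤ n₁ := le_max_left _ _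
  have hVle : ∀ n, n₁ ≤ n → Vr (qg N K M n) (Fg N K M n) ≤ 56 := by
    intro n hn
    obtain ⟨h0, h1, _⟩ := qg_facts h (hn01.trans hn)
    exact Vr_le_of_sites h0 h1 _ _ (hES _ _ h0 h1 _ _ (D1g hD1 h (hn01.trans hn)))
  have hlow : ∀ n, n₁ ≤ n → ∀ β : ℝ, c ≤ Vr (qg N K M n)
      fun A : Finset (Ix (N n) (K n) (M n)) =>
      Fg N K M n A + β * ((A.card : ℝ) / Real.sqrt n) := by
    intro n hn β
    have hn' := hn01.trans hn
    obtain ⟨h0, h1, hq1, hq4, _⟩ := qg_facts h hn'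
    obtain ⟨hN, hK, hM⟩ := h.pos n hn'
    have hM0 : M₀ ≤ M n := by
      have h1 : M₀ ≤ n := (le_max_right _ _).trans hn
      have h2 : n ≤ n ^ 3 := Nat.le_self_pow (by norm_num) n
      exact h1.trans (h2.trans (h.Mle n hn'))
    have hn2 : (0 : ℝ) < n := by
      have := h.two.trans hn'
      have : 0 < n := by omega
      exact_mod_cast this
    have hsn : 0 < Real.sqrt n := Real.sqrt_pos.2 hn2
    have hR : (0 : ℝ) < (N n : ℝ) * K n := by positivity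
    set R := (N n : ℝ) * K n with hRd
    have hh := hV (N n) (K n) (M n) hN hK hM0 (qg N K M n) hq1 hq4 (β * (R / Real.sqrt n))
    have e : (fun A : Finset (Ix (N n) (K n) (M n)) =>
        Fg N K M n A + β * ((A.card : ℝ) / Real.sqrt n)) =
        fun A => R⁻¹ * (fT (N n) (K n) (M n) A + β * (R / Real.sqrt n) * (A.card : ℝ)) := by
      funext A
      unfold Fg
      rw [← hRd]
      field_simp
    rw [e, Vr_scale]
    calc c = (R⁻¹) ^ 2 * (c * R ^ 2) := by field_simp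
      _ ≤ _ := mul_le_mul_of_nonneg_left hh (by positivity)
  obtain ⟨s₀, s, hs₀, hs, hs2, hlim⟩ := Dep.main2 (fun n => Ix (N n) (K n) (M n))
    (Fg N K M) (qg N K M) 56 c η n₁ (by norm_num) hc hη
    (fun n hn => by
      have hn' := hn01.trans hn
      have hn2 : 2 ≤ n := h.two.trans hn'
      obtain ⟨_, _, _, _, _, h2n, _⟩ := qg_facts h hn'
      exact ⟨by omega, h2n, rfl⟩)
    (fun n hn A => D1g hD1 h (hn01.trans hn) A) hVle
    (fun n hn α β => hDη n (α, β) (hn01.trans hn))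
    hlow
  refine ⟨s₀, s, n₁, hs₀, hs, hn01, hs2, ?_⟩
  refine hLINK N K M n₀ ?_ h.emp (fun n => Ex (qg N K M n) (Fg N K M n)) s hlim
  intro n hn
  obtain ⟨hN, hK, hM⟩ := h.pos n hn
  have h2 : 1 ≤ N n * K n := Nat.mul_pos hN hK
  exact ⟨hN, hK, hM, h.le n hn, (h.Mle n hn).trans (Nat.le_mul_of_pos_left _ h2)⟩

end gen

end Pool.Agent.N940.TSP
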