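import Pool.Agent.N940.TSP.V4
import Pool.Agent.N940.TSP.Asm3

/-!
# Limiting variance, part 5: comparison of a large box with a small box
-/

set_option autoImplicit false
set_option linter.unusedSectionVars false
set_option linter.unusedVariables false

namespace Pool.Agent.N940.TSP

open Finset

/-- centred number of points in a block -/
lemma Av_cardc {ι : Type} [Fintype ι] [DecidableEq ι] (hm : S_MOM) {q : ℝ} (h0 : 0 ≤ q)
    (h1 : q ≤ 1) (b : ℝ) (U A : Finset ι) :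
    Av q U (fun A : Finset ι => b * ((A.card : ℝ) - q * Fintype.card ι)) A =
      b * (((A ∩ U).card : ℝ) - q * (U.card : ℝ)) := by
  have h2 : Av q U (fun A : Finset ι => b * ((A.card : ℝ) - q * Fintype.card ι)) A =
      b * (Av q U (fun A : Finset ι => (A.card : ℝ)) A - q * Fintype.card ι) := by
    unfold Av
    rw [Ex_mul_left, Ex_sub, Ex_const]
  rw [h2, Av_card hm h0 h1]
  have h3 : (Uᶜ.card : ℝ) = Fintype.card ι - U.card := by
    rw [card_compl, Nat.cast_sub (card_le_univ _)]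
  rw [h3]
  ring

set_option maxHeartbeats 4000000 in
theorem thmV (hLOC0 : S_LOC0) (hD10 : S_D10) (hES : S_ES) (hCH : S_CH) (hCH2 : S_CH2)
    (hEMB : S_EMB) (hm : S_MOM) (ε B : ℝ) (hε : 0 < ε) (hB : 0 ≤ B) :
    ∃ r : ℕ, 0 < r ∧ (∃ i, r = 2 ^ i) ∧ ∀ N K M : ℕ, 0 < N → 0 < K → 0 < M → r ∣ N * K →
      ∀ q : ℝ, 0 ≤ q → q ≤ 1 → 1 ≤ q * (M : ℝ) ^ 2 → q * (M : ℝ) ^ 2 ≤ 4 →
      ∀ β : ℝ, |β| ≤ B →
      |Vr q (fun A : Finset (Ix N K M) => f0 N K M A + β * (A.card : ℝ)) / ((N : ℝ) * K) ^ 2 -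
        Vr q (fun A : Finset (Ix r 1 M) => f0 r 1 M A + β * (A.card : ℝ)) / (r : ℝ) ^ 2| ≤ ε := by
  obtain ⟨Vs, hVs⟩ : ∃ Vs, Vs = 96 + 8 * B ^ 2 := ⟨_, rfl⟩
  have hVs0 : 0 < Vs := by rw [hVs]; positivity
  obtain ⟨θ, hθ⟩ : ∃ θ, θ = ε / (4 * Vs) := ⟨_, rfl⟩
  have hθ0 : 0 < θ := by rw [hθ]; positivity
  obtain ⟨ε₂, hε₂⟩ : ∃ ε₂, ε₂ = min (ε / 4) (ε / (20 * (1 + 1 / θ))) := ⟨_, rfl⟩
  have hε₂0 : 0 < ε₂ := by rw [hε₂]; positivity
  have hε₂1 : ε₂ ≤ ε / 4 := by rw [hε₂]; exact min_le_left _ _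
  have hε₂2 : (1 + 1 / θ) * (5 * ε₂) ≤ ε / 4 := by
    have h1 : ε₂ ≤ ε / (20 * (1 + 1 / θ)) := by rw [hε₂]; exact min_le_right _ _
    have h2 : 0 < 1 + 1 / θ := by positivity
    calc (1 + 1 / θ) * (5 * ε₂) ≤ (1 + 1 / θ) * (5 * (ε / (20 * (1 + 1 / θ)))) := by
          refine mul_le_mul_of_nonneg_left ?_ h2.le
          linarith
      _ = ε / 4 := by field_simp; norm_num
  obtain ⟨s, hs0, ⟨i₀, hsi⟩, hs⟩ := naF0 hLOC0 hD10 hES hCH hCH2 ε₂ hε₂0
  obtain ⟨ρ₀, k, hρ₀, hk, hlemB⟩ := lemB ε₂ 176 hε₂0 (by norm_num)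
  obtain ⟨m, hm4⟩ := pow_unbounded_of_one_lt ρ₀ (by norm_num : (1 : ℝ) < 4)
  set p : ℕ := 2 ^ (m * k) with hp
  have hp0 : 0 < p := by positivity
  refine ⟨p * s, by positivity, ⟨m * k + i₀, by rw [hp, hsi, pow_add]⟩, ?_⟩
  intro N K M hN hK hM hdvd q hq0 hq1 hq hq4 β hβ
  set r := p * s with hr
  have hr0 : 0 < r := by positivity
  obtain ⟨Q, hQ⟩ := hdvd
  have hNK : 0 < N * K := Nat.mul_pos hN hK
  have hQ0 : 0 < Q := by
    rcases Nat.eq_zero_or_pos Q with h | h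
    · rw [h, mul_zero] at hQ; omega
    · exact h
  have hQ' : N * K = p * s * Q := hQ
  have hNKR : (N : ℝ) * K = r * Q := by exact_mod_cast hQ
  have hrR : (0 : ℝ) < r := by exact_mod_cast hr0
  have hQR : (0 : ℝ) < Q := by exact_mod_cast hQ0
  have hsR : (0 : ℝ) < s := by exact_mod_cast hs0
  have hpR : (0 : ℝ) < p := by exact_mod_cast hp0
  have hsdvd : s ∣ N * K := ⟨p * Q, by rw [hQ']; ring⟩
  -- labels
  set T := (univ : Finset (Ix N K M)).image (lb N K M r) with hT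
  have hTmem : ∀ c ∈ T, c.1 < Q ∧ c.2 < Q := by
    intro c hc
    rw [hT, lab_full hM hr0 hQ, mem_product, mem_range, mem_range] at hc
    exact hc
  have hTcard : (T.card : ℝ) = (Q : ℝ) ^ 2 := card_lab hM hr0 hQ
  have hrng : ∀ c ∈ T, r * (c.1 + 1) ≤ N * K ∧ r * (c.2 + 1) ≤ N * K := by
    intro c hc
    obtain ⟨h1, h2⟩ := hTmem c hc
    rw [hQ]
    exact ⟨Nat.mul_le_mul_left _ h1, Nat.mul_le_mul_left _ h2⟩
  -- functions
  set f : Finset (Ix N K M) → ℝ := fun A => f0 N K M A - Ex q (f0 N K M) with hf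
  have hf0 : Ex q f = 0 := by
    rw [hf, Ex_sub, Ex_const]
    exact sub_self _
  set y : ℕ × ℕ → Finset (Ix N K M) → ℝ :=
    fun c A => gl N K M r c A - Ex q (gl N K M r c) with hy
  have hy0 : ∀ c, Ex q (y c) = 0 := by
    intro c
    rw [hy]
    simp only
    rw [Ex_sub, Ex_const]
    exact sub_self _
  have hydep : ∀ c, Dep (bl N K M r c) (y c) := by
    intro c A A' hAA
    have := gl_dep hM hr0 c A A' hAA
    simp only [hy, this]
  have hCd : ∀ c ∈ T, ∀ d ∈ T, c ≠ d → Disjoint (bl N K M r c) (bl N K M r d) := by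
    intro c _ d _ hcd
    rw [disjoint_left]
    intro x hx hx'
    rw [Loc.mem_bl] at hx hx'
    exact hcd (hx.symm.trans hx')
  have hDd : ∀ c ∈ T, ∀ d ∈ (bl N K M r c).image (lb N K M s),
      ∀ e ∈ (bl N K M r c).image (lb N K M s), d ≠ e →
      Disjoint (bl N K M s d) (bl N K M s e) := by
    intro c _ d _ e _ hde
    rw [disjoint_left]
    intro x hx hx'
    rw [Loc.mem_bl] at hx hx'
    exact hde (hx.symm.trans hx')
  have hDC : ∀ c ∈ T, ∀ e ∈ (bl N K M r c).image (lb N K M s), bl N K M s e ⊆ bl N K M r c := by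
    intro c _ e he x hx
    obtain ⟨z, hz, hze⟩ := mem_image.1 he
    rw [Loc.mem_bl] at hx hz ⊢
    rw [hr, lb_mul] at hz ⊢
    rw [hx, ← hze]
    exact hz
  -- (a)
  have ha : en q f univ - ∑ c ∈ T, ∑ e ∈ (bl N K M r c).image (lb N K M s),
      en q f (bl N K M s e) ≤ ε₂ * ((N : ℝ) * K) ^ 2 := by
    have h1 := hs N K M hN hK hM hsdvd q hq0 hq1 hq
    have h2 : ∀ U, en q f U = en q (f0 N K M) U - en q (f0 N K M) ∅ :=
      fun U => en_center1 (f0 N K M) U
    have h3 : ∑ c ∈ T, ∑ e ∈ (bl N K M r c).image (lb N K M s), en q f (bl N K M s e) =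
        ∑ e ∈ (univ : Finset (Ix N K M)).image (lb N K M s), en q f (bl N K M s e) :=
      sum_lab s p (fun e => en q f (bl N K M s e))
    rw [h3]
    simp only [h2]
    exact h1
  -- (b)
  have hsp : r / s = p := by rw [hr]; exact Nat.mul_div_cancel _ hs0
  have hrs : r * 1 = s * p := by rw [hr]; ring
  have hbox : en q (f0 r 1 M) univ - en q (f0 r 1 M) ∅ -
      ∑ d ∈ range p ×ˢ range p, (en q (f0 r 1 M) (bl r 1 M s d) - en q (f0 r 1 M) ∅) ≤
      ε₂ * (r : ℝ) ^ 2 := by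
    have h1 := hs r 1 M hr0 one_pos hM ⟨p, hrs⟩ q hq0 hq1 hq
    rw [lab_full hM hs0 hrs] at h1
    simpa using h1
  have hglr : ∀ c ∈ T, ∀ A, gl N K M r c A = f0 r 1 M (rst N K M r c A) := by
    intro c hc A
    obtain ⟨_, _, e3, _⟩ := hEMB N K M r hN hK hM hr0 c (hrng c hc).1 (hrng c hc).2
    exact (e3 A).1.symm
  have hyr : ∀ c ∈ T, y c = fun A => (fun B => f0 r 1 M B - Ex q (f0 r 1 M)) (rst N K M r c A) := by
    intro c hc
    obtain ⟨e1, _, e3, _⟩ := hEMB N K M r hN hK hM hr0 c (hrng c hc).1 (hrng c hc).2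
    have h1 : gl N K M r c = fun A => f0 r 1 M (rst N K M r c A) := funext (hglr c hc)
    have h2 : Ex q (gl N K M r c) = Ex q (f0 r 1 M) := by
      rw [h1]
      exact e1 q (f0 r 1 M)
    funext A
    simp only [hy, h2, hglr c hc A]
  have hrstbl : ∀ c ∈ T, ∀ d : ℕ × ℕ,
      rst N K M r c (bl N K M s (p * c.1 + d.1, p * c.2 + d.2)) = bl r 1 M s d := by
    intro c hc d
    obtain ⟨_, _, _, e4⟩ := hEMB N K M r hN hK hM hr0 c (hrng c hc).1 (hrng c hc).2
    have := e4 s hs0 ⟨p, by rw [hr]; ring⟩ d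
    rwa [hsp] at this
  have hrstfull : ∀ c ∈ T, rst N K M r c (bl N K M r c) = univ := by
    intro c hc
    obtain ⟨_, _, _, e4⟩ := hEMB N K M r hN hK hM hr0 c (hrng c hc).1 (hrng c hc).2
    have := e4 r hr0 (dvd_refl r) (0, 0)
    rw [Nat.div_self hr0] at this
    simp only [one_mul, add_zero] at this
    rw [this]
    have h2 := bl_full (N := r) (K := 1) (M := M) hM (by omega)
    simpa using h2
  have hb : ∀ c ∈ T, en q (y c) (bl N K M r c) - ∑ e ∈ (bl N K M r c).image (lb N K M s),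
      en q (y c) (bl N K M s e) ≤ ε₂ * (r : ℝ) ^ 2 := by
    intro c hc
    obtain ⟨hc1, hc2⟩ := hTmem c hc
    rw [hyr c hc]
    have h1 : ∀ U, en q (fun A => (fun B => f0 r 1 M B - Ex q (f0 r 1 M)) (rst N K M r c A)) U =
        en q (f0 r 1 M) (rst N K M r c U) - en q (f0 r 1 M) ∅ := by
      intro U
      rw [← en_center1 (f0 r 1 M)]
      exact en_rst hEMB hN hK hM hr0 (hrng c hc).1 (hrng c hc).2 q
        (fun B => f0 r 1 M B - Ex q (f0 r 1 M)) U
    simp only [h1]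
    rw [hrstfull c hc]
    have h2 := sum_lab_sub (N := N) (K := K) hM hs0 hp0 hQ' hc1 hc2
      (fun e => en q (f0 r 1 M) (rst N K M r c (bl N K M s e)) - en q (f0 r 1 M) ∅)
    rw [← hr] at h2
    rw [h2]
    have h3 : ∑ d ∈ range p ×ˢ range p,
        (en q (f0 r 1 M) (rst N K M r c (bl N K M s (p * c.1 + d.1, p * c.2 + d.2))) -
          en q (f0 r 1 M) ∅) = ∑ d ∈ range p ×ˢ range p,
        (en q (f0 r 1 M) (bl r 1 M s d) - en q (f0 r 1 M) ∅) :=
      sum_congr rfl fun d _ => by rw [hrstbl c hc d]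
    rw [h3]
    exact hbox
  -- (c)
  have hc' : ∀ c ∈ T, ∑ e ∈ (bl N K M r c).image (lb N K M s),
      en q (fun A => Av q (bl N K M r c) f A - y c A) (bl N K M s e) ≤ ε₂ * (r : ℝ) ^ 2 := by
    intro c hc
    obtain ⟨hc1, hc2⟩ := hTmem c hc
    have hul : (fun A => Av q (bl N K M r c) f A - y c A) = ul q N K M r c := by
      funext A
      unfold ul
      simp only [hf, hy]
      congr 1
      unfold Av
      rw [Ex_sub, Ex_const]
    rw [hul]
    set lab' : ℕ → Ix N K M → ℕ × ℕ := fun t => lb N K M (s * 2 ^ (m * t)) with hlab'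
    have hst : ∀ t, 0 < s * 2 ^ (m * t) := fun t => by positivity
    have hsucc : ∀ t, s * 2 ^ (m * (t + 1)) = 2 ^ m * (s * 2 ^ (m * t)) := by
      intro t
      rw [Nat.mul_succ, pow_add]
      ring
    have hnest : Nested lab' k := by
      intro t _ a b hab
      simp only [hlab'] at hab ⊢
      rw [hsucc, lb_mul N K M (s * 2 ^ (m * t)) (2 ^ m) a,
        lb_mul N K M (s * 2 ^ (m * t)) (2 ^ m) b, hab]
    have hch : ∀ t < k, ∀ d, ((ch lab' t d).card : ℝ) ≤ 4 ^ m := by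
      intro t _ d
      have h : ch lab' t d ⊆ (range (2 ^ m) ×ˢ range (2 ^ m)).image
          (fun e => (2 ^ m * d.1 + e.1, 2 ^ m * d.2 + e.2)) := by
        intro e he
        unfold ch at he
        obtain ⟨x, hx, rfl⟩ := mem_image.1 he
        have hx2 : lb N K M (s * 2 ^ (m * (t + 1))) x = d := mem_cell.1 hx
        rw [hsucc, lb_mul N K M (s * 2 ^ (m * t)) (2 ^ m) x] at hx2
        have h1 : (lb N K M (s * 2 ^ (m * t)) x).1 / 2 ^ m = d.1 := congrArg Prod.fst hx2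
        have h2 : (lb N K M (s * 2 ^ (m * t)) x).2 / 2 ^ m = d.2 := congrArg Prod.snd hx2
        refine mem_image.2 ⟨((lb N K M (s * 2 ^ (m * t)) x).1 % 2 ^ m,
          (lb N K M (s * 2 ^ (m * t)) x).2 % 2 ^ m), ?_, ?_⟩
        · simp only [mem_product, mem_range]
          exact ⟨Nat.mod_lt _ (by positivity), Nat.mod_lt _ (by positivity)⟩
        · dsimp only
          rw [← h1, ← h2, Nat.div_add_mod, Nat.div_add_mod]
      have h2 : (ch lab' t d).card ≤ 2 ^ m * 2 ^ m := by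
        refine (card_le_card h).trans (card_image_le.trans ?_)
        rw [card_product, card_range]
      have h3 : ((ch lab' t d).card : ℝ) ≤ (2 : ℝ) ^ m * 2 ^ m := by exact_mod_cast h2
      rw [← mul_pow] at h3
      norm_num at h3
      exact h3
    have hside : ∀ t : ℕ, Real.sqrt ((4 ^ m) ^ t * (s : ℝ) ^ 2) = ((s * 2 ^ (m * t) : ℕ) : ℝ) := by
      intro t
      have : ((4 : ℝ) ^ m) ^ t * (s : ℝ) ^ 2 = (((s * 2 ^ (m * t) : ℕ) : ℝ)) ^ 2 := by
        push_cast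
        rw [mul_pow, ← pow_mul, ← pow_mul, mul_comm (m * t) 2, pow_mul 2 2 (m * t)]
        norm_num
        ring
      rw [this]
      exact Real.sqrt_sq (by positivity)
    have hrk : r = s * 2 ^ (m * k) := by rw [hr, hp]; ring
    have hlabk : lab' k = lb N K M r := by
      simp only [hlab']
      rw [hrk]
    have hlab0 : lab' 0 = lb N K M s := by
      simp only [hlab', mul_zero, pow_zero, mul_one]
    have h5 := hlemB (4 ^ m) hm4.le (Ix N K M) (ℕ × ℕ) lab' hnest hch ((s : ℝ) ^ 2)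
      (by positivity) c q hq0 hq1 (ul q N K M r c) ?_ ?_
    · have e1 : sub lab' k c 0 = (bl N K M r c).image (lb N K M s) := by
        unfold sub cell
        rw [hlabk, hlab0]
        rfl
      have e2 : ∀ e, cell lab' 0 e = bl N K M s e := by
        intro e
        unfold cell
        rw [hlab0]
        rfl
      rw [e1] at h5
      simp only [e2] at h5
      refine h5.trans (le_of_eq ?_)
      congr 1
      rw [hrk]
      push_cast
      rw [mul_pow, ← pow_mul, ← pow_mul, mul_comm (m * k) 2, pow_mul 2 2 (m * k)]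
      norm_num
      ring
    · have e1 : ul q N K M r c = fun A => (Av q (bl N K M r c) (f0 N K M) A -
          Ex q (f0 N K M)) - (gl N K M r c A - Ex q (gl N K M r c)) := rfl
      rw [e1, Ex_sub, Ex_sub, Ex_sub, Ex_const, Ex_const]
      have e2 : Ex q (fun A => Av q (bl N K M r c) (f0 N K M) A) = Ex q (f0 N K M) := Ex_Av _ _ _
      have e3 : Ex q (fun A => gl N K M r c A) = Ex q (gl N K M r c) := rfl
      rw [e2, e3]
      ring
    · intro t ht e he A
      rw [hside t]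
      have hcell : cell lab' t e = bl N K M (s * 2 ^ (m * t)) e := rfl
      rw [hcell]
      obtain ⟨j, hj⟩ := Nat.exists_eq_add_of_le ht
      have hrt : r = 2 ^ (m * j) * (s * 2 ^ (m * t)) := by
        rw [hrk, hj, Nat.mul_add, pow_add]
        ring
      unfold sub at he
      obtain ⟨x, hx, hxe⟩ := mem_image.1 he
      have hx2 : lb N K M r x = c := by
        have := mem_cell.1 hx
        rw [hlabk] at this
        exact this
      have hxe' : lb N K M (s * 2 ^ (m * t)) x = e := hxe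
      have hec : e.1 / 2 ^ (m * j) = c.1 ∧ e.2 / 2 ^ (m * j) = c.2 := by
        rw [hrt, lb_mul, hxe'] at hx2
        exact ⟨congrArg Prod.fst hx2, congrArg Prod.snd hx2⟩
      exact ul_bound hLOC0 hCH hN hK hM (hst t) (by positivity) hrt ⟨Q, hQ⟩ e c hec.1 hec.2
        (hrng c hc).1 (hrng c hc).2 hq0 hq1 hq A
  have hV := absV hq0 hq1 T (bl N K M r) hCd (fun c => (bl N K M r c).image (lb N K M s))
    (bl N K M s) hDd hDC f hf0 y (fun c _ => hydep c) (fun c _ => hy0 c) _ _ _ ha hb hc'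
  have hV2 : ∑ c ∈ T, Ex q (fun A => (Av q (bl N K M r c) f A - y c A) ^ 2) ≤
      5 * ε₂ * ((r : ℝ) * Q) ^ 2 := by
    refine hV.trans (le_of_eq ?_)
    rw [hTcard, hNKR]
    ring
  -- the comparison
  set Y : ℕ × ℕ → Finset (Ix N K M) → ℝ := fun c A =>
    β * (((A ∩ bl N K M r c).card : ℝ) - q * ((bl N K M r c).card : ℝ)) with hY
  have hcmp := cmpV hq0 hq1 T (fun c A => y c A + Y c A)
    (fun c A => Av q (bl N K M r c) f A - y c A) θ hθ0
  -- local variances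
  set V := Vr q (fun A : Finset (Ix r 1 M) => f0 r 1 M A + β * (A.card : ℝ)) with hVd
  have hloc : ∀ c ∈ T, Ex q (fun A => (y c A + Y c A) ^ 2) = V := by
    intro c hc
    obtain ⟨e1, _, e3, _⟩ := hEMB N K M r hN hK hM hr0 c (hrng c hc).1 (hrng c hc).2
    set φ : Finset (Ix r 1 M) → ℝ := fun A => f0 r 1 M A + β * (A.card : ℝ) with hφ
    have hφE : Ex q φ = Ex q (f0 r 1 M) + β * (q * Fintype.card (Ix r 1 M)) := by
      rw [hφ, Ex_add, Ex_mul_left, Ex_card' q hm hq0 hq1]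
    have hcardbl : ((bl N K M r c).card : ℝ) = Fintype.card (Ix r 1 M) := by
      have h2 := (e3 (bl N K M r c)).2
      rw [inter_self, hrstfull c hc, card_univ] at h2
      rw [← h2]
    have h3 : ∀ A, y c A + Y c A = φ (rst N K M r c A) - Ex q φ := by
      intro A
      have h4 := congrFun (hyr c hc) A
      rw [h4, hφE]
      simp only [hY, hφ, (e3 A).2, hcardbl]
      ring
    simp only [h3]
    rw [hVd]
    unfold Vr
    exact e1 q (fun B => (φ B - Ex q φ) ^ 2)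
  have hsumloc : ∑ c ∈ T, Ex q (fun A => (y c A + Y c A) ^ 2) = (Q : ℝ) ^ 2 * V := by
    rw [sum_congr rfl hloc, sum_const, nsmul_eq_mul, hTcard]
  -- the global variance
  set Nb : Finset (Ix N K M) → ℝ := fun A =>
    β * ((A.card : ℝ) - q * Fintype.card (Ix N K M)) with hNb
  have hNb0 : Ex q Nb = 0 := by
    rw [hNb, Ex_mul_left, Ex_sub, Ex_const, Ex_card' q hm hq0 hq1, sub_self, mul_zero]
  have hadd : ∀ A, ∑ c ∈ T, Av q (bl N K M r c) Nb A = Nb A := fun A =>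
    card_additive (κ := ℕ × ℕ) hm hq0 hq1 (fun _ => lb N K M r) 0 β A
  have hAvF : ∀ c A, Av q (bl N K M r c) (fun A => 1 * f A + Nb A) A =
      (y c A + Y c A) + (Av q (bl N K M r c) f A - y c A) := by
    intro c A
    have e1 : Av q (bl N K M r c) (fun A => 1 * f A + Nb A) A =
        Av q (bl N K M r c) f A + Av q (bl N K M r c) Nb A := by
      unfold Av
      rw [Ex_add]
      simp only [one_mul]
    rw [e1, Av_cardc hm hq0 hq1]
    simp only [hY]
    ring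
  have hglob : Vr q (fun A : Finset (Ix N K M) => f0 N K M A + β * (A.card : ℝ)) =
      Vr q (fun A => 1 * f A + Nb A) := by
    rw [← Vr_shift q (fun A => 1 * f A + Nb A)
      (Ex q (f0 N K M) + β * (q * Fintype.card (Ix N K M)))]
    congr 1
    funext A
    simp only [hf, hNb]
    ring
  have hpy := pyth_add (κ := ℕ × ℕ) hq0 hq1 (fun _ => lb N K M r) 0 1 f Nb hf0 hNb0 hadd
  have hcellr : ∀ c, cell (fun _ : ℕ => lb N K M r) 0 c = bl N K M r c := fun c => rfl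
  simp only [hcellr, one_pow, one_mul] at hpy
  have hsumF : ∑ c ∈ T, en q (fun A => f A + Nb A) (bl N K M r c) =
      ∑ c ∈ T, Ex q (fun A => ((y c A + Y c A) + (Av q (bl N K M r c) f A - y c A)) ^ 2) := by
    refine sum_congr rfl fun c _ => ?_
    unfold en
    congr 1
    funext A
    rw [← hAvF c A]
    simp only [one_mul]
  have hna1 : 0 ≤ en q f univ - ∑ c ∈ T, en q f (bl N K M r c) := by
    rw [← pyth f hf0 T (bl N K M r) hCd univ (fun c _ => subset_univ _)]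
    exact Ex_nonneg hq0 hq1 fun _ => sq_nonneg _
  have hna2 : en q f univ - ∑ c ∈ T, en q f (bl N K M r c) ≤ ε₂ * ((r : ℝ) * Q) ^ 2 := by
    have h1 : ∀ c ∈ T, ∑ e ∈ (bl N K M r c).image (lb N K M s), en q f (bl N K M s e) ≤
        en q f (bl N K M r c) := by
      intro c hc
      have h2 := pyth (q := q) f hf0 ((bl N K M r c).image (lb N K M s)) (bl N K M s)
        (hDd c hc) (bl N K M r c) (hDC c hc)
      have h3 : 0 ≤ Ex q (fun A => (Av q (bl N K M r c) f A -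
          ∑ e ∈ (bl N K M r c).image (lb N K M s), Av q (bl N K M s e) f A) ^ 2) :=
        Ex_nonneg hq0 hq1 fun _ => sq_nonneg _
      linarith
    have h4 := sum_le_sum h1
    rw [hNKR] at ha
    linarith
  rw [hglob]
  simp only [one_mul]
  have hS : |Vr q (fun A => f A + Nb A) - (Q : ℝ) ^ 2 * V| ≤
      ε₂ * ((r : ℝ) * Q) ^ 2 + (θ * ((Q : ℝ) ^ 2 * V) + (1 + 1 / θ) *
        (5 * ε₂ * ((r : ℝ) * Q) ^ 2)) := by
    have h1 : Vr q (fun A => f A + Nb A) - (Q : ℝ) ^ 2 * V =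
        (en q f univ - ∑ c ∈ T, en q f (bl N K M r c)) +
        (∑ c ∈ T, Ex q (fun A => ((y c A + Y c A) + (Av q (bl N K M r c) f A - y c A)) ^ 2) -
          ∑ c ∈ T, Ex q (fun A => (y c A + Y c A) ^ 2)) := by
      rw [hsumloc, ← hsumF]
      linarith
    rw [h1]
    refine (abs_add_le _ _).trans (add_le_add ?_ ?_)
    · rw [abs_of_nonneg hna1]
      exact hna2
    · refine hcmp.trans ?_
      rw [hsumloc]
      have h2 : 0 ≤ 1 + 1 / θ := by positivity
      have h3 := mul_le_mul_of_nonneg_left hV2 h2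
      linarith
  -- bound for the local variance
  have hVle : V ≤ Vs * (r : ℝ) ^ 2 := by
    have h1 : Vr q (f0 r 1 M) ≤ 48 * ((r : ℝ) * (1 : ℕ)) ^ 2 :=
      Vr_le_of_sites hq0 hq1 _ _ (hES _ _ hq0 hq1 _ _ fun A => hD10 r 1 M hr0 one_pos hM A)
    have h2 := Vr_card_le (ι := Ix r 1 M) hq0 hq1
    have h3 : V ≤ 2 * Vr q (f0 r 1 M) +
        2 * (β ^ 2 * Vr q (fun A : Finset (Ix r 1 M) => (A.card : ℝ))) := by
      rw [hVd]
      unfold Vr
      rw [← Ex_mul_left, ← Ex_mul_left, ← Ex_mul_left, ← Ex_add]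
      refine Ex_mono hq0 hq1 fun A => ?_
      have e1 : Ex q (fun A : Finset (Ix r 1 M) => f0 r 1 M A + β * (A.card : ℝ)) =
          Ex q (f0 r 1 M) + β * Ex q (fun A : Finset (Ix r 1 M) => (A.card : ℝ)) := by
        rw [Ex_add, Ex_mul_left]
      rw [e1]
      nlinarith [sq_nonneg ((f0 r 1 M A - Ex q (f0 r 1 M)) - β * ((A.card : ℝ) -
        Ex q (fun A : Finset (Ix r 1 M) => (A.card : ℝ))))]
    have h4 : q * (Fintype.card (Ix r 1 M) : ℝ) ≤ 4 * (r : ℝ) ^ 2 := by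
      have : (Fintype.card (Ix r 1 M) : ℝ) = ((r : ℝ) * M) ^ 2 := by
        unfold Ix
        rw [Fintype.card_prod, Fintype.card_fin]
        push_cast
        ring
      rw [this]
      calc q * ((r : ℝ) * M) ^ 2 = (q * (M : ℝ) ^ 2) * (r : ℝ) ^ 2 := by ring
        _ ≤ 4 * (r : ℝ) ^ 2 := mul_le_mul_of_nonneg_right hq4 (by positivity)
    have h5 : β ^ 2 ≤ B ^ 2 := by
      rw [← sq_abs]
      exact pow_le_pow_left₀ (abs_nonneg β) hβ 2
    have h6 : β ^ 2 * Vr q (fun A : Finset (Ix r 1 M) => (A.card : ℝ)) ≤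
        B ^ 2 * (4 * (r : ℝ) ^ 2) := by
      refine mul_le_mul h5 (h2.trans h4) ?_ (sq_nonneg B)
      exact Ex_nonneg hq0 hq1 fun _ => sq_nonneg _
    push_cast at h1
    rw [hVs]
    nlinarith
  have hV0 : 0 ≤ V := Ex_nonneg hq0 hq1 fun _ => sq_nonneg _
  have hden : (0 : ℝ) < ((r : ℝ) * Q) ^ 2 := by positivity
  have hfin : Vr q (fun A => f A + Nb A) / ((N : ℝ) * K) ^ 2 - V / (r : ℝ) ^ 2 =
      (Vr q (fun A => f A + Nb A) - (Q : ℝ) ^ 2 * V) / ((r : ℝ) * Q) ^ 2 := by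
    rw [hNKR]
    field_simp
  rw [hfin, abs_div, abs_of_pos hden, div_le_iff₀ hden]
  refine hS.trans ?_
  have h7 : θ * ((Q : ℝ) ^ 2 * V) ≤ ε / 4 * ((r : ℝ) * Q) ^ 2 := by
    calc θ * ((Q : ℝ) ^ 2 * V) ≤ θ * ((Q : ℝ) ^ 2 * (Vs * (r : ℝ) ^ 2)) := by
          refine mul_le_mul_of_nonneg_left (mul_le_mul_of_nonneg_left hVle (by positivity)) hθ0.le
      _ = (θ * Vs) * ((r : ℝ) * Q) ^ 2 := by ring
      _ = ε / 4 * ((r : ℝ) * Q) ^ 2 := by
          congr 1
          rw [hθ]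
          field_simp
  have h8 : (1 + 1 / θ) * (5 * ε₂ * ((r : ℝ) * Q) ^ 2) ≤ ε / 4 * ((r : ℝ) * Q) ^ 2 := by
    calc (1 + 1 / θ) * (5 * ε₂ * ((r : ℝ) * Q) ^ 2) =
          ((1 + 1 / θ) * (5 * ε₂)) * ((r : ℝ) * Q) ^ 2 := by ring
      _ ≤ _ := mul_le_mul_of_nonneg_right hε₂2 hden.le
  have h9 : ε₂ * ((r : ℝ) * Q) ^ 2 ≤ ε / 4 * ((r : ℝ) * Q) ^ 2 :=
    mul_le_mul_of_nonneg_right hε₂1 hden.le
  nlinarith

end Pool.Agent.N940.TSP
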