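import Pool.Agent.N940.TSP.Asm6
import Pool.Agent.N940.TSP.V5

/-!
# Limiting variance: parameters
-/

set_option autoImplicit false
set_option linter.unusedSectionVars false
set_option linter.unusedVariables false

open Filter Topology

namespace Pool.Agent.N940.TSP

open Finset

/-- side of the anchored squares -/
def Kv (n : ℕ) : ℕ := 2 ^ (Nat.log 4 n / 20)
/-- number of anchored squares per side -/
def Nv (n : ℕ) : ℕ := Kv n * (Nat.sqrt n / (Kv n) ^ 2)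

lemma Kv_pos (n : ℕ) : 0 < Kv n := by unfold Kv; positivity

lemma NKv (n : ℕ) : Nv n * Kv n = (Nat.sqrt n / (Kv n) ^ 2) * (Kv n) ^ 2 := by
  unfold Nv; ring

lemma two_pow_le_sqrt {n : ℕ} (hn : 1 ≤ n) : 2 ^ Nat.log 4 n ≤ Nat.sqrt n := by
  rw [Nat.le_sqrt']
  rw [← pow_mul, mul_comm, pow_mul]
  exact Nat.pow_log_le_self 4 (by omega)

lemma sqrt_lt (n : ℕ) : Nat.sqrt n < 2 ^ (Nat.log 4 n + 1) := by
  rw [Nat.sqrt_lt', ← pow_mul, mul_comm, pow_mul]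
  exact Nat.lt_pow_succ_log_self (by norm_num) n

lemma Kv_sq_le {n : ℕ} : (Kv n) ^ 2 ≤ 2 ^ (Nat.log 4 n / 10) := by
  unfold Kv
  rw [← pow_mul]
  exact Nat.pow_le_pow_right (by norm_num) (by omega)

/-- the box is almost as large as possible -/
lemma NKv_bounds {n : ℕ} (hn : 16 ≤ n) : Nv n * Kv n ≤ Nat.sqrt n ∧
    Nat.sqrt n < Nv n * Kv n + (Kv n) ^ 2 ∧ 2 ^ (Nat.log 4 n - 1) ≤ Nv n * Kv n := by
  have hK := Kv_pos n
  have hK2 : 0 < (Kv n) ^ 2 := by positivity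
  rw [NKv]
  have h1 := Nat.div_mul_le_self (Nat.sqrt n) ((Kv n) ^ 2)
  have h2 := Nat.lt_div_mul_add (a := Nat.sqrt n) hK2
  have hlog : 2 ≤ Nat.log 4 n := Nat.le_log_of_pow_le (by norm_num) (by norm_num; omega)
  have h3 := two_pow_le_sqrt (n := n) (by omega)
  have h4 : (Kv n) ^ 2 ≤ 2 ^ (Nat.log 4 n - 1) :=
    Kv_sq_le.trans (Nat.pow_le_pow_right (by norm_num) (by omega))
  have h5 : 2 ^ Nat.log 4 n = 2 * 2 ^ (Nat.log 4 n - 1) := by
    rw [← pow_succ']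
    congr 1
    omega
  refine ⟨h1, h2, ?_⟩
  omega

lemma Kv_tendsto : Tendsto Kv atTop atTop := by
  unfold Kv
  refine (tendsto_pow_atTop_atTop_of_one_lt (by norm_num : 1 < 2)).comp ?_
  rw [tendsto_atTop]
  intro b
  filter_upwards [eventually_ge_atTop (4 ^ (20 * b))] with n hn
  have : 20 * b ≤ Nat.log 4 n := Nat.le_log_of_pow_le (by norm_num) hn
  omega

lemma Kv_tendsto' : Tendsto (fun n => (Kv n : ℝ)) atTop atTop :=
  tendsto_natCast_atTop_atTop.comp Kv_tendsto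

lemma NKv_le_K (n : ℕ) : Nv n * Kv n ≤ 2 ^ 20 * Kv n ^ 20 := by
  have h1 : Nv n * Kv n ≤ Nat.sqrt n := by
    rw [NKv]
    exact Nat.div_mul_le_self _ _
  have h2 := sqrt_lt n
  have h3 : 2 ^ (Nat.log 4 n + 1) ≤ 2 ^ 20 * Kv n ^ 20 := by
    unfold Kv
    rw [← pow_mul, ← pow_add]
    exact Nat.pow_le_pow_right (by norm_num) (by omega)
  omega

lemma K10v {n : ℕ} (hn : 16 ≤ n) : Kv n ^ 10 ≤ Nv n * Kv n := by
  obtain ⟨_, _, h⟩ := NKv_bounds hn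
  have hlog : 2 ≤ Nat.log 4 n := Nat.le_log_of_pow_le (by norm_num) (by norm_num; omega)
  refine le_trans ?_ h
  unfold Kv
  rw [← pow_mul]
  exact Nat.pow_le_pow_right (by norm_num) (by omega)

lemma polyexp (a : ℝ) (d : ℕ) :
    Tendsto (fun n => a * (Kv n : ℝ) ^ d * Real.exp (-((Kv n : ℝ) ^ 2))) atTop (𝓝 0) := by
  have h1 : Tendsto (fun x : ℝ => |a| * (x ^ d * Real.exp (-x))) atTop (𝓝 0) := by
    have := (Real.tendsto_pow_mul_exp_neg_atTop_nhds_zero d).const_mul (|a|)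
    simpa using this
  have h2 := h1.comp Kv_tendsto'
  refine squeeze_zero_norm (fun n => ?_) h2
  have hK : (1 : ℝ) ≤ Kv n := by exact_mod_cast Kv_pos n
  rw [Real.norm_eq_abs, abs_mul, abs_mul, abs_of_pos (Real.exp_pos _),
    abs_of_nonneg (by positivity : (0 : ℝ) ≤ (Kv n : ℝ) ^ d)]
  simp only [Function.comp]
  have h7 : Real.exp (-((Kv n : ℝ) ^ 2)) ≤ Real.exp (-(Kv n : ℝ)) := by
    apply Real.exp_le_exp.2
    nlinarith
  have h8 : 0 ≤ |a| * (Kv n : ℝ) ^ d := by positivity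
  calc |a| * (Kv n : ℝ) ^ d * Real.exp (-((Kv n : ℝ) ^ 2)) ≤
        |a| * (Kv n : ℝ) ^ d * Real.exp (-(Kv n : ℝ)) := mul_le_mul_of_nonneg_left h7 h8
    _ = _ := by ring

lemma adm : Adm Nv Kv Mn 16 where
  two := by norm_num
  pos := by
    intro n hn
    obtain ⟨_, _, h⟩ := NKv_bounds hn
    have h1 : 0 < Nv n * Kv n := lt_of_lt_of_le (by positivity) h
    exact ⟨Nat.pos_of_mul_pos_right h1, Kv_pos n, Mn_pos (by omega)⟩
  le := by
    intro n hn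
    obtain ⟨h, _, _⟩ := NKv_bounds hn
    calc (Nv n * Kv n) ^ 2 ≤ (Nat.sqrt n) ^ 2 := Nat.pow_le_pow_left h 2
      _ ≤ n := Nat.sqrt_le' n
  lt := by
    intro n hn
    obtain ⟨_, h, h'⟩ := NKv_bounds hn
    have hlog : 2 ≤ Nat.log 4 n := Nat.le_log_of_pow_le (by norm_num) (by norm_num; omega)
    have h4 : (Kv n) ^ 2 ≤ Nv n * Kv n :=
      (Kv_sq_le.trans (Nat.pow_le_pow_right (by norm_num) (by omega))).trans h'
    have h5 : Nat.sqrt n + 1 ≤ 2 * (Nv n * Kv n) := by omega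
    have h6 : n < (Nat.sqrt n + 1) ^ 2 := Nat.lt_succ_sqrt' n
    have h7 : (Nat.sqrt n + 1) ^ 2 ≤ (2 * (Nv n * Kv n)) ^ 2 := Nat.pow_le_pow_left h5 2
    have h8 : (2 * (Nv n * Kv n)) ^ 2 = 4 * (Nv n * Kv n) ^ 2 := by ring
    omega
  Mle := fun n _ => le_rfl
  k10 := fun n hn => K10v hn
  Kt := Kv_tendsto
  dvd := by
    intro j
    filter_upwards [eventually_ge_atTop (4 ^ (20 * j))] with n hn
    have h1 : 20 * j ≤ Nat.log 4 n := Nat.le_log_of_pow_le (by norm_num) hn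
    unfold Nv
    refine Dvd.dvd.mul_right ?_ _
    unfold Kv
    exact pow_dvd_pow 2 (by omega)
  emp := by
    refine squeeze_zero (fun n => by positivity) (fun n => ?_) (polyexp ((2 ^ 20) ^ 2) 40)
    have h1 : (Nv n : ℝ) ≤ 2 ^ 20 * (Kv n : ℝ) ^ 20 := by
      have h2 : Nv n ≤ Nv n * Kv n := Nat.le_mul_of_pos_right _ (Kv_pos n)
      exact_mod_cast h2.trans (NKv_le_K n)
    have h2 : (Nv n : ℝ) ^ 2 ≤ (2 ^ 20 * (Kv n : ℝ) ^ 20) ^ 2 :=
      pow_le_pow_left₀ (by positivity) h1 2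
    calc (Nv n : ℝ) ^ 2 * Real.exp (-((Kv n : ℝ) ^ 2)) ≤
          (2 ^ 20 * (Kv n : ℝ) ^ 20) ^ 2 * Real.exp (-((Kv n : ℝ) ^ 2)) :=
          mul_le_mul_of_nonneg_right h2 (Real.exp_pos _).le
      _ = _ := by ring

/-- the density tends to one -/
lemma density : Tendsto (fun n => qg Nv Kv Mn n * (Mn n : ℝ) ^ 2) atTop (𝓝 1) := by
  have hK := Kv_tendsto'
  have hinv : Tendsto (fun n => ((Kv n : ℝ))⁻¹) atTop (𝓝 0) := tendsto_inv_atTop_zero.comp hK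
  have hup : Tendsto (fun n => (1 + ((Kv n : ℝ))⁻¹) ^ 2) atTop (𝓝 1) := by
    have := ((tendsto_const_nhds (x := (1 : ℝ))).add hinv).pow 2
    simpa using this
  refine tendsto_of_tendsto_of_tendsto_of_le_of_le' tendsto_const_nhds hup ?_ ?_
  · filter_upwards [eventually_ge_atTop 16] with n hn
    exact (qg_facts adm hn).2.2.1
  · filter_upwards [eventually_ge_atTop 16] with n hn
    rw [(qg_facts adm hn).2.2.2.2.2.2]
    obtain ⟨hN, hK, hM⟩ := adm.pos n hn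
    obtain ⟨h1, h2, h3⟩ := NKv_bounds hn
    have hR : (0 : ℝ) < (Nv n : ℝ) * Kv n := by positivity
    have hK0 : (0 : ℝ) < Kv n := by exact_mod_cast hK
    have hK1 : (1 : ℝ) ≤ Kv n := by exact_mod_cast hK
    rw [div_le_iff₀ (by positivity), ← mul_pow]
    have h6 : n < (Nat.sqrt n + 1) ^ 2 := Nat.lt_succ_sqrt' n
    have h7 : (Nat.sqrt n + 1) ^ 2 ≤ (Nv n * Kv n + (Kv n) ^ 2) ^ 2 := Nat.pow_le_pow_left h2 2
    have h8 : (n : ℝ) ≤ ((Nv n : ℝ) * Kv n + (Kv n : ℝ) ^ 2) ^ 2 := by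
      exact_mod_cast h6.le.trans h7
    refine h8.trans (pow_le_pow_left₀ (by positivity) ?_ 2)
    have h9 : (Kv n : ℝ) ^ 10 ≤ (Nv n : ℝ) * Kv n := by exact_mod_cast K10v hn
    have h10 : (Kv n : ℝ) ^ 3 ≤ (Nv n : ℝ) * Kv n :=
      (pow_le_pow_right₀ hK1 (by norm_num)).trans h9
    have h11 : (Kv n : ℝ) ^ 2 ≤ ((Kv n : ℝ))⁻¹ * ((Nv n : ℝ) * Kv n) := by
      rw [inv_mul_eq_div, le_div_iff₀ hK0]
      calc (Kv n : ℝ) ^ 2 * Kv n = (Kv n : ℝ) ^ 3 := by ring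
        _ ≤ _ := h10
    linarith

end Pool.Agent.N940.TSP
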