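import Pool.Agent.N940.TSP.Asm7

/-!
# Limiting variance: conclusion
-/

set_option autoImplicit false
set_option linter.unusedSectionVars false
set_option linter.unusedVariables false

open Filter Topology

namespace Pool.Agent.N940.TSP

open Finset

section abs

variable {ι : Type} [Fintype ι] [DecidableEq ι]

/-- perturbation of a variance -/
lemma Vr_pert {q : ℝ} (h0 : 0 ≤ q) (h1 : q ≤ 1) (x d : Finset ι → ℝ) (θ : ℝ) (hθ : 0 < θ) :
    |Vr q (fun A => x A + d A) - Vr q x| ≤ θ * Vr q x + (1 + 1 / θ) * Ex q (fun A => d A ^ 2) := by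
  have h2 := cmpV (κ := Unit) h0 h1 {()} (fun _ A => x A - Ex q x) (fun _ A => d A - Ex q d) θ hθ
  simp only [sum_singleton] at h2
  have e1 : Ex q (fun A => ((x A - Ex q x) + (d A - Ex q d)) ^ 2) =
      Vr q (fun A => x A + d A) := by
    unfold Vr
    rw [Ex_add]
    congr 1
    funext A
    have e2 : Ex q (fun A => x A) = Ex q x := rfl
    have e3 : Ex q (fun A => d A) = Ex q d := rfl
    rw [e2, e3]
    ring
  have e4 : Ex q (fun A => (x A - Ex q x) ^ 2) = Vr q x := rfl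
  rw [e1, e4] at h2
  refine h2.trans ?_
  have e5 : Ex q (fun A => (d A - Ex q d) ^ 2) ≤ Ex q (fun A => d A ^ 2) := by
    have e6 : (fun A => (d A - Ex q d) ^ 2) = fun A => d A ^ 2 - (2 * Ex q d * d A -
        Ex q d * Ex q d) := by funext A; ring
    rw [e6, Ex_sub, Ex_sub, Ex_mul_left, Ex_const]
    have e7 : Ex q (fun A => d A) = Ex q d := rfl
    rw [e7]
    nlinarith [sq_nonneg (Ex q d)]
  have h3 : 0 ≤ 1 + 1 / θ := by positivity
  have := mul_le_mul_of_nonneg_left e5 h3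
  linarith

end abs

/-- the quadratic polynomial in `β` determined by the values at `0`, `1`, `-1` -/
noncomputable def quad (w : ℕ → ℝ → ℝ) (r : ℕ) (β : ℝ) : ℝ :=
  w r 0 + 2 * β * ((w r 1 - w r (-1)) / 4) + β ^ 2 * ((w r 1 + w r (-1) - 2 * w r 0) / 2)

/-- convergence in a fixed box with varying `β` -/
lemma fix_conv {w : ℕ → ℝ → ℝ} (hw : ∀ r : ℕ, 0 < r → ∀ β : ℝ, ∀ (M : ℕ → ℕ) (q : ℕ → ℝ),
    Tendsto M atTop atTop → (∀ n, 0 ≤ q n ∧ q n ≤ 1) →
    Tendsto (fun n => q n * (M n : ℝ) ^ 2) atTop (𝓝 1) →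
    Tendsto (fun n => Vr (q n) (fun A : Finset (Ix r 1 (M n)) =>
      f0 r 1 (M n) A + β * (A.card : ℝ))) atTop (𝓝 (w r β)))
    {r : ℕ} (hr : 0 < r) (M : ℕ → ℕ) (q b : ℕ → ℝ) (β : ℝ) (hM : Tendsto M atTop atTop)
    (hq : ∀ n, 0 ≤ q n ∧ q n ≤ 1) (hqM : Tendsto (fun n => q n * (M n : ℝ) ^ 2) atTop (𝓝 1))
    (hb : Tendsto b atTop (𝓝 β)) :
    Tendsto (fun n => Vr (q n) (fun A : Finset (Ix r 1 (M n)) =>
      f0 r 1 (M n) A + b n * (A.card : ℝ))) atTop (𝓝 (quad w r β)) := by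
  have h0 := hw r hr 0 M q hM hq hqM
  have h1 := hw r hr 1 M q hM hq hqM
  have h2 := hw r hr (-1) M q hM hq hqM
  have key : ∀ n, Vr (q n) (fun A : Finset (Ix r 1 (M n)) =>
      f0 r 1 (M n) A + b n * (A.card : ℝ)) =
      Vr (q n) (fun A : Finset (Ix r 1 (M n)) => f0 r 1 (M n) A + 0 * (A.card : ℝ)) +
      2 * b n * ((Vr (q n) (fun A : Finset (Ix r 1 (M n)) =>
          f0 r 1 (M n) A + 1 * (A.card : ℝ)) -
        Vr (q n) (fun A : Finset (Ix r 1 (M n)) => f0 r 1 (M n) A + (-1) * (A.card : ℝ))) / 4) +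
      (b n) ^ 2 * ((Vr (q n) (fun A : Finset (Ix r 1 (M n)) =>
          f0 r 1 (M n) A + 1 * (A.card : ℝ)) +
        Vr (q n) (fun A : Finset (Ix r 1 (M n)) => f0 r 1 (M n) A + (-1) * (A.card : ℝ)) -
        2 * Vr (q n) (fun A : Finset (Ix r 1 (M n)) =>
          f0 r 1 (M n) A + 0 * (A.card : ℝ))) / 2) := by
    intro n
    have g : ∀ β : ℝ, Vr (q n) (fun A : Finset (Ix r 1 (M n)) =>
        f0 r 1 (M n) A + β * (A.card : ℝ)) = Vr (q n) (f0 r 1 (M n)) +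
        2 * β * Dep.Cv (q n) (f0 r 1 (M n)) (fun A => (A.card : ℝ)) +
        β ^ 2 * Vr (q n) (fun A : Finset (Ix r 1 (M n)) => (A.card : ℝ)) := by
      intro β
      have := Dep.Vr_comb (q n) 1 β (f0 r 1 (M n)) (fun A => (A.card : ℝ))
      simp only [one_mul, one_pow, mul_one] at this
      exact this
    rw [g, g 0, g 1, g (-1)]
    ring
  simp only [key]
  unfold quad
  exact (h0.add ((tendsto_const_nhds.mul hb).mul ((h1.sub h2).div_const 4))).add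
    ((hb.pow 2).mul (((h1.add h2).sub (tendsto_const_nhds.mul h0)).div_const 2))

/-- the ratio of the side of the box to the square root of the number of points -/
lemma ratio_tendsto :
    Tendsto (fun n : ℕ => ((Nv n : ℝ) * Kv n) / Real.sqrt n) atTop (𝓝 1) := by
  have h := density
  have h2 : Tendsto (fun n => (Real.sqrt (qg Nv Kv Mn n * (Mn n : ℝ) ^ 2))⁻¹) atTop (𝓝 1) := by
    have := (h.sqrt).inv₀ (by norm_num)
    simpa using this
  refine h2.congr' ?_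
  filter_upwards [eventually_ge_atTop 16] with n hn
  rw [(qg_facts adm hn).2.2.2.2.2.2]
  obtain ⟨hN, hK, hM⟩ := adm.pos n hn
  have hR : (0 : ℝ) < (Nv n : ℝ) * Kv n := by positivity
  rw [Real.sqrt_div (Nat.cast_nonneg n), Real.sqrt_sq hR.le, inv_div]

/-- convergence of the variances of the functional with a linear correction -/
lemma W_conv (hES : S_ES) (hm : S_MOM) (hLOC0 : S_LOC0) (hD10 : S_D10) (hCH : S_CH)
    (hCH2 : S_CH2) (hEMB : S_EMB) (hANC : S_ANC) (hFIX : S_FIX) (β : ℝ) (hβ : |β| ≤ 1) :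
    ∃ L : ℝ, Tendsto (fun n => Vr (qg Nv Kv Mn n)
      (fun A : Finset (Ix (Nv n) (Kv n) (Mn n)) => Fg Nv Kv Mn n A + β * Dep.xs n A))
      atTop (𝓝 L) := by
  obtain ⟨w, hw⟩ := hFIX
  set W : ℕ → ℝ := fun n => Vr (qg Nv Kv Mn n)
      (fun A : Finset (Ix (Nv n) (Kv n) (Mn n)) => Fg Nv Kv Mn n A + β * Dep.xs n A) with hW
  set b : ℕ → ℝ := fun n => β * (((Nv n : ℝ) * Kv n) / Real.sqrt n) with hb
  have hbt : Tendsto b atTop (𝓝 β) := by
    have := (tendsto_const_nhds (x := β)).mul ratio_tendsto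
    simpa using this
  -- the functional in the box
  have hWeq : ∀ n, 16 ≤ n → W n = Vr (qg Nv Kv Mn n)
      (fun A : Finset (Ix (Nv n) (Kv n) (Mn n)) =>
        (f0 (Nv n) (Kv n) (Mn n) A + b n * (A.card : ℝ)) +
        (fT (Nv n) (Kv n) (Mn n) A - f0 (Nv n) (Kv n) (Mn n) A)) /
        ((Nv n : ℝ) * Kv n) ^ 2 := by
    intro n hn
    obtain ⟨hN, hK, hM⟩ := adm.pos n hn
    have hR : (0 : ℝ) < (Nv n : ℝ) * Kv n := by positivity
    have hn0 : (0 : ℝ) < n := by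
      have : 0 < n := by omega
      exact_mod_cast this
    have hsn : 0 < Real.sqrt n := Real.sqrt_pos.2 hn0
    have e : (fun A : Finset (Ix (Nv n) (Kv n) (Mn n)) => Fg Nv Kv Mn n A + β * Dep.xs n A) =
        fun A => ((Nv n : ℝ) * Kv n)⁻¹ * ((f0 (Nv n) (Kv n) (Mn n) A + b n * (A.card : ℝ)) +
        (fT (Nv n) (Kv n) (Mn n) A - f0 (Nv n) (Kv n) (Mn n) A)) := by
      funext A
      unfold Fg Dep.xs
      simp only [hb]
      field_simp
      ring
    simp only [hW]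
    rw [e, Vr_scale, inv_pow]
    field_simp
  -- eventual closeness
  have hclose : ∀ ε > 0, ∃ L : ℝ, ∀ᶠ n in atTop, |W n - L| ≤ ε := by
    intro ε hε
    obtain ⟨r, hr0, ⟨i, hri⟩, hr⟩ := thmV hLOC0 hD10 hES hCH hCH2 hEMB hm (ε / 4) 1
      (by positivity) zero_le_one
    set q' : ℕ → ℝ := fun n => if 16 ≤ n then qg Nv Kv Mn n else 0 with hq'
    have hq'1 : ∀ n, 0 ≤ q' n ∧ q' n ≤ 1 := by
      intro n
      simp only [hq']
      split_ifs with h
      · exact ⟨(qg_facts adm h).1, (qg_facts adm h).2.1⟩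
      · exact ⟨le_rfl, zero_le_one⟩
    have hq't : Tendsto (fun n => q' n * (Mn n : ℝ) ^ 2) atTop (𝓝 1) := by
      refine density.congr' ?_
      filter_upwards [eventually_ge_atTop 16] with n hn
      simp only [hq', if_pos hn]
    have hMt : Tendsto Mn atTop atTop := by
      refine tendsto_atTop_mono (fun n => ?_) tendsto_id
      unfold Mn
      exact Nat.le_self_pow (by norm_num) n
    have hfix := fix_conv hw hr0 Mn q' b β hMt hq'1 hq't hbt
    set L := quad w r β / (r : ℝ) ^ 2 with hL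
    have hrR : (0 : ℝ) < r := by exact_mod_cast hr0
    have hfix2 : Tendsto (fun n => Vr (q' n) (fun A : Finset (Ix r 1 (Mn n)) =>
        f0 r 1 (Mn n) A + b n * (A.card : ℝ)) / (r : ℝ) ^ 2) atTop (𝓝 L) :=
      hfix.div_const _
    have hev1 : ∀ᶠ n in atTop, |Vr (q' n) (fun A : Finset (Ix r 1 (Mn n)) =>
        f0 r 1 (Mn n) A + b n * (A.card : ℝ)) / (r : ℝ) ^ 2 - L| < ε / 4 := by
      have := (Metric.tendsto_atTop.1 hfix2) (ε / 4) (by positivity)
      obtain ⟨n₁, hn₁⟩ := this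
      filter_upwards [eventually_ge_atTop n₁] with n hn
      have := hn₁ n hn
      rwa [Real.dist_eq] at this
    -- the perturbation by the anchors
    obtain ⟨θ, hθ⟩ : ∃ θ, θ = ε / (4 * 104) := ⟨_, rfl⟩
    have hθ0 : 0 < θ := by rw [hθ]; positivity
    have hpoly := polyexp ((1 + 1 / θ) * (468 * (2 ^ 20) ^ 6)) 120
    have hev2 : ∀ᶠ n in atTop, (1 + 1 / θ) * (468 * (2 ^ 20) ^ 6) * (Kv n : ℝ) ^ 120 *
        Real.exp (-((Kv n : ℝ) ^ 2)) < ε / 4 := by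
      exact hpoly.eventually_lt_const (by positivity)
    have hdvd : ∀ᶠ n in atTop, r ∣ Nv n := by
      have := adm.dvd i
      rw [← hri] at this
      exact this
    refine ⟨L, ?_⟩
    filter_upwards [hev1, hev2, hdvd, eventually_ge_atTop 16] with n h1 h2 h3 hn
    obtain ⟨hN, hK, hM⟩ := adm.pos n hn
    obtain ⟨hq0, hq1, hqa, hqb, hqn, _, hqr⟩ := qg_facts adm hn
    set R : ℝ := (Nv n : ℝ) * Kv n with hR
    have hR0 : 0 < R := by positivity
    have hbn : |b n| ≤ 1 := by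
      have hsn : R ≤ Real.sqrt n := by
        refine Real.le_sqrt_of_sq_le ?_
        have := adm.le n hn
        rw [hR]
        exact_mod_cast this
      simp only [hb]
      rw [abs_mul]
      have hs0 : 0 < Real.sqrt n := hR0.trans_le hsn
      have : |((Nv n : ℝ) * Kv n) / Real.sqrt n| ≤ 1 := by
        rw [abs_of_nonneg (by positivity), div_le_one hs0]
        exact hsn
      calc |β| * |((Nv n : ℝ) * Kv n) / Real.sqrt n| ≤ 1 * 1 :=
            mul_le_mul hβ this (abs_nonneg _) zero_le_one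
        _ = 1 := one_mul 1
    have hVr := hr (Nv n) (Kv n) (Mn n) hN hK hM (h3.mul_right _) (qg Nv Kv Mn n) hq0 hq1 hqa
      hqb (b n) hbn
    have hqq : q' n = qg Nv Kv Mn n := by simp only [hq', if_pos hn]
    rw [hqq] at h1
    -- size of the variance
    set V0 := Vr (qg Nv Kv Mn n) (fun A : Finset (Ix (Nv n) (Kv n) (Mn n)) =>
      f0 (Nv n) (Kv n) (Mn n) A + b n * (A.card : ℝ)) with hV0
    have hV0le : V0 ≤ 104 * R ^ 2 := by
      have g1 : Vr (qg Nv Kv Mn n) (f0 (Nv n) (Kv n) (Mn n)) ≤ 48 * R ^ 2 :=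
        Vr_le_of_sites hq0 hq1 _ _ (hES _ _ hq0 hq1 _ _ fun A => hD10 _ _ _ hN hK hM A)
      have g2 := Vr_card_le (ι := Ix (Nv n) (Kv n) (Mn n)) hq0 hq1
      have g3 : V0 ≤ 2 * Vr (qg Nv Kv Mn n) (f0 (Nv n) (Kv n) (Mn n)) +
          2 * ((b n) ^ 2 * Vr (qg Nv Kv Mn n)
            (fun A : Finset (Ix (Nv n) (Kv n) (Mn n)) => (A.card : ℝ))) := by
        rw [hV0]
        unfold Vr
        rw [← Ex_mul_left, ← Ex_mul_left, ← Ex_mul_left, ← Ex_add]
        refine Ex_mono hq0 hq1 fun A => ?_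
        have e1 : Ex (qg Nv Kv Mn n) (fun A : Finset (Ix (Nv n) (Kv n) (Mn n)) =>
            f0 (Nv n) (Kv n) (Mn n) A + b n * (A.card : ℝ)) =
            Ex (qg Nv Kv Mn n) (f0 (Nv n) (Kv n) (Mn n)) + b n * Ex (qg Nv Kv Mn n)
              (fun A : Finset (Ix (Nv n) (Kv n) (Mn n)) => (A.card : ℝ)) := by
          rw [Ex_add, Ex_mul_left]
        rw [e1]
        nlinarith [sq_nonneg ((f0 (Nv n) (Kv n) (Mn n) A -
          Ex (qg Nv Kv Mn n) (f0 (Nv n) (Kv n) (Mn n))) - b n * ((A.card : ℝ) -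
          Ex (qg Nv Kv Mn n) (fun A : Finset (Ix (Nv n) (Kv n) (Mn n)) => (A.card : ℝ))))]
      rw [hqn] at g2
      have g4 : (n : ℝ) ≤ 4 * R ^ 2 := by
        rw [hR]
        exact_mod_cast adm.lt n hn
      have g5 : (b n) ^ 2 ≤ 1 := by
        rw [← sq_abs]
        nlinarith [abs_nonneg (b n)]
      have g6 : (b n) ^ 2 * Vr (qg Nv Kv Mn n)
            (fun A : Finset (Ix (Nv n) (Kv n) (Mn n)) => (A.card : ℝ)) ≤ 1 * (4 * R ^ 2) := by
        refine mul_le_mul g5 (g2.trans g4) ?_ zero_le_one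
        exact Ex_nonneg hq0 hq1 fun _ => sq_nonneg _
      linarith
    have hpert := Vr_pert hq0 hq1 (fun A : Finset (Ix (Nv n) (Kv n) (Mn n)) =>
      f0 (Nv n) (Kv n) (Mn n) A + b n * (A.card : ℝ))
      (fun A => fT (Nv n) (Kv n) (Mn n) A - f0 (Nv n) (Kv n) (Mn n) A) θ hθ0
    have hanc := hANC (Nv n) (Kv n) (Mn n) hN hK hM (qg Nv Kv Mn n) hq0 hq1 hqa hqb
    rw [← hR] at hanc
    have hWn := hWeq n hn
    rw [← hR] at hWn
    have hRK : R ≤ 2 ^ 20 * (Kv n : ℝ) ^ 20 := by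
      rw [hR]
      exact_mod_cast NKv_le_K n
    have hsmall : (1 + 1 / θ) * (468 * R ^ 8 * Real.exp (-((Kv n : ℝ) ^ 2))) ≤
        ε / 4 * R ^ 2 := by
      have g1 : R ^ 6 ≤ (2 ^ 20 * (Kv n : ℝ) ^ 20) ^ 6 := pow_le_pow_left₀ hR0.le hRK 6
      have g2 : 0 ≤ (1 + 1 / θ) * 468 * Real.exp (-((Kv n : ℝ) ^ 2)) := by positivity
      have g3 : (1 + 1 / θ) * (468 * R ^ 6 * Real.exp (-((Kv n : ℝ) ^ 2))) ≤ ε / 4 := by
        calc (1 + 1 / θ) * (468 * R ^ 6 * Real.exp (-((Kv n : ℝ) ^ 2))) =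
              ((1 + 1 / θ) * 468 * Real.exp (-((Kv n : ℝ) ^ 2))) * R ^ 6 := by ring
          _ ≤ ((1 + 1 / θ) * 468 * Real.exp (-((Kv n : ℝ) ^ 2))) *
              (2 ^ 20 * (Kv n : ℝ) ^ 20) ^ 6 := mul_le_mul_of_nonneg_left g1 g2
          _ = (1 + 1 / θ) * (468 * (2 ^ 20) ^ 6) * (Kv n : ℝ) ^ 120 *
              Real.exp (-((Kv n : ℝ) ^ 2)) := by ring
          _ ≤ ε / 4 := h2.le
      calc (1 + 1 / θ) * (468 * R ^ 8 * Real.exp (-((Kv n : ℝ) ^ 2))) =
            ((1 + 1 / θ) * (468 * R ^ 6 * Real.exp (-((Kv n : ℝ) ^ 2)))) * R ^ 2 := by ring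
        _ ≤ ε / 4 * R ^ 2 := mul_le_mul_of_nonneg_right g3 (by positivity)
    have hR2 : 0 < R ^ 2 := by positivity
    have hstep : |W n - V0 / R ^ 2| ≤ ε / 2 := by
      rw [hWn, ← sub_div, abs_div, abs_of_pos hR2, div_le_iff₀ hR2]
      refine hpert.trans ?_
      have g1 : θ * V0 ≤ ε / 4 * R ^ 2 := by
        calc θ * V0 ≤ θ * (104 * R ^ 2) := mul_le_mul_of_nonneg_left hV0le hθ0.le
          _ = ε / 4 * R ^ 2 := by rw [hθ]; ring
      have g2 : 0 ≤ 1 + 1 / θ := by positivity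
      have g3 := mul_le_mul_of_nonneg_left hanc g2
      linarith
    have h4 : W n - L = (W n - V0 / R ^ 2) + (V0 / R ^ 2 -
        Vr (qg Nv Kv Mn n) (fun A : Finset (Ix r 1 (Mn n)) =>
        f0 r 1 (Mn n) A + b n * (A.card : ℝ)) / (r : ℝ) ^ 2) +
        (Vr (qg Nv Kv Mn n) (fun A : Finset (Ix r 1 (Mn n)) =>
        f0 r 1 (Mn n) A + b n * (A.card : ℝ)) / (r : ℝ) ^ 2 - L) := by ring
    rw [h4]
    refine (abs_add_le _ _).trans ?_
    have h5 := (abs_add_le (W n - V0 / R ^ 2) (V0 / R ^ 2 -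
        Vr (qg Nv Kv Mn n) (fun A : Finset (Ix r 1 (Mn n)) =>
        f0 r 1 (Mn n) A + b n * (A.card : ℝ)) / (r : ℝ) ^ 2))
    linarith
  -- Cauchy
  have hcauchy : CauchySeq W := by
    rw [Metric.cauchySeq_iff]
    intro ε hε
    obtain ⟨L, hL⟩ := hclose (ε / 3) (by positivity)
    obtain ⟨n₁, hn₁⟩ := hL.exists_forall_of_atTop
    refine ⟨n₁, fun a ha c hc => ?_⟩
    have h1 := abs_le.1 (hn₁ a ha)
    have h2 := abs_le.1 (hn₁ c hc)
    rw [Real.dist_eq, abs_lt]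
    constructor <;> linarith [h1.1, h1.2, h2.1, h2.2]
  exact cauchySeq_tendsto_of_complete hcauchy

/-- **The limiting variance.** -/
theorem asmV (hES : S_ES) (hm : S_MOM) (hCLT : S_CLT) (hD1 : S_D1) (hLOC : S_LOC)
    (hVLB : S_VLB) (hLINK : S_LINK) (hLOC0 : S_LOC0) (hD10 : S_D10) (hCH : S_CH)
    (hCH2 : S_CH2) (hEMB : S_EMB) (hANC : S_ANC) (hFIX : S_FIX) (hM4 : S_M4) (hVL : S_VL)
    (hFINV : S_FINV) : ∃ c : ℝ, Tendsto frozenVar atTop (𝓝 c) := by
  obtain ⟨s₀, s, n₁, hs₀, hs, hn₁, hs2, hlim⟩ :=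
    cltG hES hm hCLT hD1 hLOC hVLB hLINK adm
  obtain ⟨C, hC⟩ := hM4
  have hmge : ∀ n, 16 ≤ n → n ^ 3 ≤ Nv n * Kv n * Mn n ∧ 1 ≤ Nv n * Kv n * Mn n := by
    intro n hn
    obtain ⟨hN, hK, hM⟩ := adm.pos n hn
    have h2 : 1 ≤ Nv n * Kv n := Nat.mul_pos hN hK
    exact ⟨(adm.Mle n hn).trans (Nat.le_mul_of_pos_left _ h2), Nat.mul_pos h2 hM⟩
  have hvar := hVL (fun n => Nv n * Kv n * Mn n) (fun n => Ex (qg Nv Kv Mn n) (Fg Nv Kv Mn n))
    s s₀ C 16 hs₀ (fun n hn => (hmge n hn).2) hs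
    (fun n hn => hC n (Nv n * Kv n * Mn n) (by omega) (hmge n hn).2) hlim
  -- convergence of s^2
  obtain ⟨L0, hL0⟩ := W_conv hES hm hLOC0 hD10 hCH hCH2 hEMB hANC hFIX 0 (by simp)
  obtain ⟨L1, hL1⟩ := W_conv hES hm hLOC0 hD10 hCH hCH2 hEMB hANC hFIX 1 (by simp)
  have hqt : Tendsto (fun n => qg Nv Kv Mn n) atTop (𝓝 0) := by
    have h1 : Tendsto (fun n : ℕ => 4 / (n : ℝ)) atTop (𝓝 0) :=
      tendsto_const_div_atTop_nhds_zero_nat 4
    refine squeeze_zero' ?_ ?_ h1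
    · filter_upwards [eventually_ge_atTop 16] with n hn
      exact (qg_facts adm hn).1
    · filter_upwards [eventually_ge_atTop 16] with n hn
      obtain ⟨hq0, hq1, hqa, hqb, _⟩ := qg_facts adm hn
      have hn0 : (0 : ℝ) < n := by
        have : 0 < n := by omega
        exact_mod_cast this
      have hn1 : (1 : ℝ) ≤ n := by
        have : 1 ≤ n := by omega
        exact_mod_cast this
      rw [le_div_iff₀ hn0]
      refine le_trans ?_ hqb
      refine mul_le_mul_of_nonneg_left ?_ hq0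
      unfold Mn
      push_cast
      rw [← pow_mul]
      calc (n : ℝ) = (n : ℝ) ^ 1 := (pow_one _).symm
        _ ≤ (n : ℝ) ^ (3 * 2) := pow_le_pow_right₀ hn1 (by norm_num)
  have hs2t : Tendsto (fun n => s n ^ 2) atTop
      (𝓝 (L0 - ((L1 - L0 - 1) / 2) ^ 2 / 1)) := by
    have h1 : Tendsto (fun n => Vr (qg Nv Kv Mn n)
        (fun A : Finset (Ix (Nv n) (Kv n) (Mn n)) => Fg Nv Kv Mn n A + 0 * Dep.xs n A) -
        ((Vr (qg Nv Kv Mn n)
        (fun A : Finset (Ix (Nv n) (Kv n) (Mn n)) => Fg Nv Kv Mn n A + 1 * Dep.xs n A) -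
        Vr (qg Nv Kv Mn n)
        (fun A : Finset (Ix (Nv n) (Kv n) (Mn n)) => Fg Nv Kv Mn n A + 0 * Dep.xs n A) -
        (1 - qg Nv Kv Mn n)) / 2) ^ 2 / (1 - qg Nv Kv Mn n)) atTop
        (𝓝 (L0 - ((L1 - L0 - (1 - 0)) / 2) ^ 2 / (1 - 0))) := by
      refine hL0.sub (Tendsto.div ?_ (tendsto_const_nhds.sub hqt) (by norm_num))
      exact (((hL1.sub hL0).sub (tendsto_const_nhds.sub hqt)).div_const 2).pow 2
    simp only [sub_zero] at h1
    refine h1.congr' ?_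
    filter_upwards [eventually_ge_atTop n₁, eventually_ge_atTop 16] with n hn hn16
    rw [hs2 n hn]
    obtain ⟨hq0, hq1, hqa, hqb, hqn, h2n, _⟩ := qg_facts adm hn16
    have hg : 0 < Fintype.card (Ix (Nv n) (Kv n) (Mn n)) := by omega
    have e1 := Dep.Vr_comb (qg Nv Kv Mn n) 1 1 (Fg Nv Kv Mn n) (Dep.xs n)
    have e0 := Dep.Vr_comb (qg Nv Kv Mn n) 1 0 (Fg Nv Kv Mn n) (Dep.xs n)
    have eX : Vr (qg Nv Kv Mn n) (Dep.xs (ι := Ix (Nv n) (Kv n) (Mn n)) n) =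
        1 - qg Nv Kv Mn n := Dep.Vr_xs n (by omega) _ hg rfl
    rw [eX] at e1 e0
    simp only [one_mul, one_pow, mul_one, mul_zero, zero_mul, add_zero, ne_eq,
      OfNat.ofNat_ne_zero, not_false_eq_true, zero_pow] at e1 e0
    simp only [one_mul, zero_mul, add_zero]
    rw [e1]
    have e3 : Vr (qg Nv Kv Mn n) (fun A => Fg Nv Kv Mn n A) =
        Vr (qg Nv Kv Mn n) (Fg Nv Kv Mn n) := rfl
    rw [e3]
    congr 2
    ring
  have hgrid : Tendsto (fun n => avg n (Nv n * Kv n * Mn n) (fun k =>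
      (Gr n (Nv n * Kv n * Mn n) k - avg n (Nv n * Kv n * Mn n)
        (Gr n (Nv n * Kv n * Mn n))) ^ 2)) atTop
      (𝓝 (1 * (L0 - ((L1 - L0 - 1) / 2) ^ 2 / 1))) := by
    refine (hvar.mul hs2t).congr fun n => ?_
    have : s n ≠ 0 := (hs₀.trans_le (hs n)).ne'
    field_simp
  have hF := hFINV (fun n => Nv n * Kv n * Mn n) 16 hmge
  refine ⟨0 + 1 * (L0 - ((L1 - L0 - 1) / 2) ^ 2 / 1), ?_⟩
  refine (hF.add hgrid).congr fun n => ?_
  ring

end Pool.Agent.N940.TSP
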