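import Pool.Agent.N940.TSP.Stm

/-!
# Elementary properties of the tour length, and the packing inequality

`basic : S_BASIC` and `pack : S_PACK` (statements in `Stm.lean`).
-/

set_option autoImplicit false

open MeasureTheory

namespace Pool.Agent.N940.TSP.Basic

/-! ### lengths of open and closed polygonal paths -/

theorem len_nonneg : ∀ l : List ℂ, 0 ≤ len l
  | [] => le_rfl
  | [_] => le_rfl
  | _ :: y :: l => add_nonneg dist_nonneg (len_nonneg (y :: l))

theorem len_cons_cons (x y : ℂ) (l : List ℂ) : len (x :: y :: l) = dist x y + len (y :: l) := rfl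

theorem len_singleton (x : ℂ) : len [x] = 0 := rfl

theorem cyc_cons (x : ℂ) (l : List ℂ) : cyc (x :: l) = len (x :: (l ++ [x])) := rfl

theorem cyc_nonneg : ∀ l : List ℂ, 0 ≤ cyc l
  | [] => le_rfl
  | _ :: _ => len_nonneg _

/-- splitting a path at one of its vertices -/
theorem len_append (z : ℂ) : ∀ l m : List ℂ,
    len (l ++ z :: m) = len (l ++ [z]) + len (z :: m)
  | [], m => by simp [len_singleton]
  | [x], m => by simp [len_cons_cons, len_singleton]
  | x :: y :: l, m => by
      have h := len_append z (y :: l) m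
      simp only [List.cons_append, len_cons_cons] at h ⊢
      rw [h]; ring

/-- the first vertex may be moved -/
theorem len_cons_le (x a : ℂ) : ∀ l : List ℂ, len (x :: l) ≤ dist x a + len (a :: l)
  | [] => by simp [len_singleton]
  | y :: l => by
      rw [len_cons_cons, len_cons_cons]
      have := dist_triangle x a y
      linarith

theorem len_le_len_cons (x : ℂ) : ∀ l : List ℂ, len l ≤ len (x :: l)
  | [] => by simp [len]
  | y :: l => by
      rw [len_cons_cons]
      have := dist_nonneg (x := x) (y := y)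
      linarith

theorem len_cons_sublist {l m : List ℂ} (h : l.Sublist m) :
    ∀ x : ℂ, len (x :: l) ≤ len (x :: m) := by
  induction h with
  | slnil => intro x; exact le_rfl
  | cons a _ ih =>
      intro x
      rw [len_cons_cons]
      exact (len_cons_le x a _).trans (by have := ih a; linarith)
  | cons_cons a _ ih =>
      intro x
      rw [len_cons_cons, len_cons_cons]
      have := ih a
      linarith

theorem len_sublist {l m : List ℂ} (h : l.Sublist m) : len l ≤ len m := by
  cases h with
  | slnil => exact le_rfl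
  | cons a h => exact (len_le_len_cons a _).trans (len_cons_sublist h a)
  | cons_cons a h => exact len_cons_sublist h a

/-- the last vertex may be moved -/
theorem len_snoc_le (l : List ℂ) (a x : ℂ) : len (l ++ [x]) ≤ len (l ++ [a]) + dist a x := by
  have h1 : len (l ++ [x]) ≤ len (l ++ a :: [x]) :=
    len_sublist (List.Sublist.append_left (List.sublist_cons_self a [x]) l)
  rw [len_append a l [x], len_cons_cons, len_singleton] at h1
  linarith

theorem cyc_le_cyc_cons (a : ℂ) : ∀ l : List ℂ, cyc l ≤ cyc (a :: l)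
  | [] => cyc_nonneg _
  | x :: l => by
      rw [cyc_cons, cyc_cons, List.cons_append, len_cons_cons]
      have := len_snoc_le (x :: l) a x
      simp only [List.cons_append] at this
      linarith

theorem cyc_sublist {l m : List ℂ} (h : l.Sublist m) : cyc l ≤ cyc m := by
  cases h with
  | slnil => exact le_rfl
  | cons a h =>
      refine (cyc_le_cyc_cons a _).trans ?_
      exact len_cons_sublist (List.Sublist.append_right h [a]) a
  | cons_cons a h => exact len_cons_sublist (List.Sublist.append_right h [a]) a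

/-- a closed tour may be rotated -/
theorem cyc_append_comm : ∀ l m : List ℂ, cyc (l ++ m) = cyc (m ++ l)
  | [], m => by simp
  | x :: l, [] => by simp
  | x :: l, y :: m => by
      have h1 : cyc (x :: l ++ y :: m) = len ((x :: l) ++ y :: (m ++ [x])) := by
        simp [cyc_cons]
      have h2 : cyc (y :: m ++ x :: l) = len ((y :: m) ++ x :: (l ++ [y])) := by
        simp [cyc_cons]
      rw [h1, h2, len_append y (x :: l) (m ++ [x]), len_append x (y :: m) (l ++ [y])]
      simp only [List.cons_append]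
      ring

/-- a closed tour through `z` may be started at `z` -/
theorem exists_rotate {z : ℂ} {l : List ℂ} (h : z ∈ l) :
    ∃ m : List ℂ, cyc (z :: m) = cyc l ∧ ∀ x, x ∈ z :: m ↔ x ∈ l := by
  obtain ⟨s, t, rfl⟩ := List.append_of_mem h
  refine ⟨t ++ s, ?_, ?_⟩
  · rw [cyc_append_comm s (z :: t)]; rfl
  · intro x
    simp only [List.mem_cons, List.mem_append]
    tauto

theorem cyc_insert (a c : ℂ) (l : List ℂ) : cyc (a :: c :: l) ≤ cyc (a :: l) + 2 * dist a c := by
  rw [cyc_cons, cyc_cons, List.cons_append, len_cons_cons]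
  have := len_cons_le c a (l ++ [a])
  rw [dist_comm c a] at this
  linarith

theorem cyc_join (z : ℂ) (l m : List ℂ) :
    cyc (z :: (l ++ z :: m)) = cyc (z :: l) + cyc (z :: m) := by
  have h1 : cyc (z :: (l ++ z :: m)) = len ((z :: l) ++ z :: (m ++ [z])) := by
    simp [cyc_cons]
  rw [h1, len_append z (z :: l) (m ++ [z])]
  simp [cyc_cons]

theorem len_pairwise {δ : ℝ} (hδ : 0 ≤ δ) : ∀ l : List ℂ,
    l.Pairwise (fun x y => δ ≤ dist x y) → δ * l.length ≤ len l + δ
  | [], _ => by simpa [len] using hδ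
  | [x], _ => by simp [len_singleton]
  | x :: y :: l, h => by
      have h1 := len_pairwise hδ (y :: l) (List.Pairwise.of_cons h)
      have h2 : δ ≤ dist x y := (List.pairwise_cons.1 h).1 y (by simp)
      rw [len_cons_cons]
      simp only [List.length_cons, Nat.cast_add, Nat.cast_one] at h1 ⊢
      linarith

/-- a closed tour through at least two points with distances at least `δ` -/
theorem cyc_pairwise {δ : ℝ} (hδ : 0 ≤ δ) {l : List ℂ}
    (h : l.Pairwise (fun x y => δ ≤ dist x y)) (hl : 2 ≤ l.length) :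
    δ * l.length ≤ cyc l := by
  obtain ⟨x, m, rfl⟩ : ∃ x m, l = x :: m := by
    cases l with
    | nil => simp at hl
    | cons x m => exact ⟨x, m, rfl⟩
  have hm : m ≠ [] := by
    rintro rfl
    simp at hl
  obtain ⟨m', y, rfl⟩ : ∃ m' y, m = m' ++ [y] :=
    ⟨m.dropLast, m.getLast hm, (List.dropLast_append_getLast hm).symm⟩
  have h1 := len_pairwise hδ _ h
  have h2 : δ ≤ dist y x := by
    rw [dist_comm]
    exact (List.pairwise_cons.1 h).1 y (by simp)
  have h3 : cyc (x :: (m' ++ [y])) = len (x :: (m' ++ [y])) + dist y x := by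
    have h4 : cyc (x :: (m' ++ [y])) = len ((x :: m') ++ y :: [x]) := by
      simp [cyc_cons]
    rw [h4, len_append y (x :: m') [x], len_cons_cons, len_singleton]
    simp
  rw [h3]
  linarith

/-! ### the infimum over all tours -/

theorem bddBelow_tours (F : Set ℂ) :
    BddBelow {r : ℝ | ∃ l : List ℂ, (∀ x ∈ F, x ∈ l) ∧ r = cyc l} :=
  ⟨0, by rintro r ⟨l, -, rfl⟩; exact cyc_nonneg l⟩

theorem tours_nonempty {F : Set ℂ} (hF : F.Finite) :
    {r : ℝ | ∃ l : List ℂ, (∀ x ∈ F, x ∈ l) ∧ r = cyc l}.Nonempty :=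
  ⟨_, hF.toFinset.toList, by simp, rfl⟩

theorem tsp_nonneg (F : Set ℂ) : 0 ≤ tsp F :=
  Real.sInf_nonneg (by rintro r ⟨l, -, rfl⟩; exact cyc_nonneg l)

theorem tsp_le {F : Set ℂ} {l : List ℂ} (h : ∀ x ∈ F, x ∈ l) : tsp F ≤ cyc l :=
  csInf_le (bddBelow_tours F) ⟨l, h, rfl⟩

theorem le_tsp {F : Set ℂ} (hF : F.Finite) {c : ℝ}
    (h : ∀ l : List ℂ, (∀ x ∈ F, x ∈ l) → c ≤ cyc l) : c ≤ tsp F :=
  le_csInf (tours_nonempty hF) (by rintro r ⟨l, hl, rfl⟩; exact h l hl)

theorem tsp_empty : tsp ∅ = 0 :=
  le_antisymm (tsp_le (l := []) (by simp)) (tsp_nonneg _)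

theorem tsp_singleton (z : ℂ) : tsp {z} = 0 :=
  le_antisymm ((tsp_le (l := [z]) (by simp)).trans (by simp [cyc, len])) (tsp_nonneg _)

theorem tsp_mono {F G : Set ℂ} (h : F ⊆ G) (hG : G.Finite) : tsp F ≤ tsp G :=
  le_tsp hG fun _ hl => tsp_le fun x hx => hl x (h hx)

theorem tsp_insert {F : Set ℂ} (hF : F.Finite) {a : ℂ} (ha : a ∈ F) (c : ℂ) :
    tsp (insert c F) ≤ tsp F + 2 * dist a c := by
  have h : tsp (insert c F) - 2 * dist a c ≤ tsp F := by
    refine le_tsp hF fun l hl => ?_
    obtain ⟨m, hm, hm'⟩ := exists_rotate (hl a ha)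
    have h1 : tsp (insert c F) ≤ cyc (a :: c :: m) := by
      refine tsp_le fun x hx => ?_
      rcases Set.mem_insert_iff.1 hx with rfl | hx
      · simp
      · have := (hm' x).2 (hl x hx)
        simp only [List.mem_cons] at this ⊢
        tauto
    have h2 := cyc_insert a c m
    rw [hm] at h2
    linarith
  linarith

theorem tsp_union {F G : Set ℂ} (hF : F.Finite) (hG : G.Finite) {z : ℂ} (hzF : z ∈ F)
    (hzG : z ∈ G) : tsp (F ∪ G) ≤ tsp F + tsp G := by
  have h : tsp (F ∪ G) - tsp G ≤ tsp F := by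
    refine le_tsp hF fun l hl => ?_
    have h' : tsp (F ∪ G) - cyc l ≤ tsp G := by
      refine le_tsp hG fun m hm => ?_
      obtain ⟨l', hl1, hl2⟩ := exists_rotate (hl z hzF)
      obtain ⟨m', hm1, hm2⟩ := exists_rotate (hm z hzG)
      have h1 : tsp (F ∪ G) ≤ cyc (z :: (l' ++ z :: m')) := by
        refine tsp_le fun x hx => ?_
        rcases hx with hx | hx
        · have := (hl2 x).2 (hl x hx)
          simp only [List.mem_cons, List.mem_append] at this ⊢
          tauto
        · have := (hm2 x).2 (hm x hx)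
          simp only [List.mem_cons, List.mem_append] at this ⊢
          tauto
      rw [cyc_join, hl1, hm1] at h1
      linarith
    linarith
  linarith

theorem tsp_lower (F : Finset ℂ) (δ : ℝ) (hδ : 0 ≤ δ) (hF : 2 ≤ F.card)
    (h : ∀ x ∈ F, ∀ y ∈ F, x ≠ y → δ ≤ dist x y) : δ * F.card ≤ tsp F := by
  classical
  refine le_tsp F.finite_toSet fun l hl => ?_
  set m : List ℂ := l.dedup.filter (fun x => decide (x ∈ F)) with hm
  have hmn : m.Nodup := (List.nodup_dedup l).filter _
  have hmem : ∀ x, x ∈ m ↔ x ∈ F := by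
    intro x
    simp only [hm, List.mem_filter, List.mem_dedup, decide_eq_true_eq]
    exact ⟨fun h => h.2, fun h => ⟨hl x (by simpa using h), h⟩⟩
  have hlen : m.length = F.card := by
    rw [← List.toFinset_card_of_nodup hmn]
    congr 1
    ext x
    simp [hmem]
  have hsub : m.Sublist l := (List.filter_sublist).trans (List.dedup_sublist l)
  have hpw : m.Pairwise (fun x y => δ ≤ dist x y) := by
    refine List.Pairwise.imp_of_mem ?_ (List.nodup_iff_pairwise_ne.1 hmn)
    intro x y hx hy hxy
    exact h x ((hmem x).1 hx) y ((hmem y).1 hy) hxy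
  have h1 := cyc_pairwise hδ hpw (by rw [hlen]; exact hF)
  rw [hlen] at h1
  exact h1.trans (cyc_sublist hsub)

theorem tsp_range_le (n : ℕ) (x y : Fin n → ℂ) (ε : ℝ) (h : ∀ i, dist (x i) (y i) ≤ ε) :
    tsp (Set.range y) ≤ tsp (Set.range x) + 2 * n * ε := by
  classical
  have key : ∀ s : Finset (Fin n),
      tsp (Set.range x ∪ y '' (s : Set (Fin n))) ≤ tsp (Set.range x) + 2 * s.card * ε := by
    intro s
    induction s using Finset.induction_on with
    | empty => simp
    | insert i s hi ih =>
        have h1 : Set.range x ∪ y '' ((insert i s : Finset (Fin n)) : Set (Fin n)) =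
            insert (y i) (Set.range x ∪ y '' (s : Set (Fin n))) := by
          rw [Finset.coe_insert, Set.image_insert_eq, Set.union_insert]
        have hfin : (Set.range x ∪ y '' (s : Set (Fin n))).Finite :=
          (Set.finite_range x).union ((Finset.finite_toSet s).image y)
        have h2 := tsp_insert hfin (a := x i) (Or.inl ⟨i, rfl⟩) (y i)
        rw [h1, Finset.card_insert_of_notMem hi]
        push_cast
        have := h i
        nlinarith
  have h1 := key Finset.univ
  simp only [Finset.coe_univ, Set.image_univ, Finset.card_univ, Fintype.card_fin] at h1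
  refine (tsp_mono (Set.subset_union_right) ?_).trans h1
  exact (Set.finite_range x).union (Set.finite_range y)

theorem basic : S_BASIC := by
  refine ⟨tsp_nonneg, ⟨tsp_empty, tsp_singleton⟩, fun F G h hG => tsp_mono h hG,
    fun F hF a ha c => tsp_insert hF ha c, fun F G hF hG z hzF hzG => tsp_union hF hG hzF hzG,
    tsp_lower, ?_⟩
  intro n x y ε h
  have h1 := tsp_range_le n x y ε h
  have h2 := tsp_range_le n y x ε (fun i => by rw [dist_comm]; exact h i)
  rw [abs_le]
  constructor <;> linarith

/-! ### the packing inequality -/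

theorem pack : S_PACK := by
  intro R hR A δ hA hδ
  have hdisj : (A : Set ℂ).PairwiseDisjoint (fun z => Metric.ball z (δ z / 2)) := by
    intro z hz w hw hzw
    refine Metric.ball_disjoint_ball ?_
    have h1 := (hδ z hz).2.2 w hw hzw.symm
    have h2 := (hδ w hw).2.2 z hz hzw
    rw [dist_comm] at h2
    linarith
  have hsub : (⋃ z ∈ A, Metric.ball z (δ z / 2)) ⊆
      Metric.ball (⟨R / 2, R / 2⟩ : ℂ) (1.72 * R) := by
    intro x hx
    simp only [Set.mem_iUnion] at hx
    obtain ⟨z, hz, hx⟩ := hx
    rw [Metric.mem_ball] at hx ⊢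
    obtain ⟨h1, h2, h3, h4⟩ := hA z hz
    have h5 : dist z (⟨R / 2, R / 2⟩ : ℂ) ≤ 0.71 * R := by
      rw [Complex.dist_eq_re_im]
      refine Real.sqrt_le_iff.2 ⟨by positivity, ?_⟩
      simp only
      nlinarith [mul_nonneg h1 (sub_nonneg.2 h2), mul_nonneg h3 (sub_nonneg.2 h4)]
    have h6 := dist_triangle x z (⟨R / 2, R / 2⟩ : ℂ)
    have h7 := (hδ z hz).2.1
    linarith
  have hvol : ∑ z ∈ A, volume (Metric.ball z (δ z / 2)) ≤
      volume (Metric.ball (⟨R / 2, R / 2⟩ : ℂ) (1.72 * R)) := by
    rw [← measure_biUnion_finset hdisj (fun z _ => measurableSet_ball)]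
    exact measure_mono hsub
  simp only [Complex.volume_ball] at hvol
  have hr : ∀ z ∈ A, 0 ≤ δ z / 2 := fun z hz => by
    have := (hδ z hz).1
    linarith
  have hvol2 : ∑ z ∈ A, (δ z / 2) ^ 2 * Real.pi ≤ (1.72 * R) ^ 2 * Real.pi := by
    have h1 : ∑ z ∈ A, ENNReal.ofReal (δ z / 2) ^ 2 * (NNReal.pi : ENNReal) =
        ENNReal.ofReal (∑ z ∈ A, (δ z / 2) ^ 2 * Real.pi) := by
      rw [ENNReal.ofReal_sum_of_nonneg]
      · refine Finset.sum_congr rfl fun z hz => ?_
        rw [ENNReal.ofReal_mul (by positivity), ENNReal.ofReal_pow (hr z hz)]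
        congr 1
        rw [← NNReal.coe_real_pi, ENNReal.ofReal_coe_nnreal]
      · intro z _
        positivity
    have h2 : ENNReal.ofReal (1.72 * R) ^ 2 * (NNReal.pi : ENNReal) =
        ENNReal.ofReal ((1.72 * R) ^ 2 * Real.pi) := by
      rw [ENNReal.ofReal_mul (p := (1.72 * R) ^ 2) (by positivity),
        ENNReal.ofReal_pow (p := 1.72 * R) (by positivity)]
      congr 1
      rw [← NNReal.coe_real_pi, ENNReal.ofReal_coe_nnreal]
    rw [h1, h2] at hvol
    exact (ENNReal.ofReal_le_ofReal_iff (by positivity)).1 hvol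
  rw [← Finset.sum_mul] at hvol2
  have h3 := le_of_mul_le_mul_right hvol2 Real.pi_pos
  have h4 : ∑ z ∈ A, (δ z / 2) ^ 2 = (∑ z ∈ A, δ z ^ 2) / 4 := by
    rw [Finset.sum_div]
    refine Finset.sum_congr rfl fun z _ => ?_
    ring
  rw [h4] at h3
  nlinarith [sq_nonneg R]

end Pool.Agent.N940.TSP.Basic
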