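import Pool.Agent.N940.TSP.Mod2
import Pool.Agent.N940.TSP.Abs

/-!
# The distance to the next point outside of a square
-/

set_option autoImplicit false
set_option linter.unusedSectionVars false
set_option linter.unusedVariables false

open Filter Topology

namespace Pool.Agent.N940.TSP.Chain

open Finset

/-! ### probability -/

section prob

variable {ι : Type} [Fintype ι] [DecidableEq ι]

/-- the probability that no element of `U` is chosen -/
lemma Ex_empty (q : ℝ) (U : Finset ι) :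
    Ex q (fun A : Finset ι => if A ∩ U = ∅ then (1 : ℝ) else 0) = (1 - q) ^ U.card := by
  induction U using Finset.induction_on with
  | empty =>
    simp only [inter_empty, if_true, card_empty, pow_zero]
    exact Ex_const q (1 : ℝ)
  | insert x U hx ih =>
    rw [Abs.Ex_site q x, card_insert_of_notMem hx, pow_succ', ← ih, ← Ex_mul_left]
    congr 1
    funext A
    have h1 : ¬ (insert x A ∩ insert x U = ∅) := by
      intro h
      have : x ∈ insert x A ∩ insert x U := by simp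
      rw [h] at this
      simp at this
    have h2 : A.erase x ∩ insert x U = A ∩ U := by
      ext y
      simp only [mem_inter, mem_insert, mem_erase]
      constructor
      · rintro ⟨⟨h, h'⟩, h'' | h''⟩
        · exact absurd h'' h
        · exact ⟨h', h''⟩
      · rintro ⟨h, h'⟩
        exact ⟨⟨fun e => hx (e ▸ h'), h⟩, Or.inr h'⟩
    rw [if_neg h1, h2]
    ring

lemma Ex_empty_le {q : ℝ} (h0 : 0 ≤ q) (h1 : q ≤ 1) (U : Finset ι) {t : ℝ}
    (ht : t ≤ q * U.card) :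
    Ex q (fun A : Finset ι => if A ∩ U = ∅ then (1 : ℝ) else 0) ≤ Real.exp (-t) := by
  rw [Ex_empty]
  have h2 : 1 - q ≤ Real.exp (-q) := by
    have := Real.add_one_le_exp (-q)
    linarith
  calc (1 - q) ^ U.card ≤ Real.exp (-q) ^ U.card := pow_le_pow_left₀ (by linarith) h2 _
    _ = Real.exp (-(q * U.card)) := by
        rw [← Real.exp_nat_mul]
        congr 1
        ring
    _ ≤ Real.exp (-t) := Real.exp_le_exp.2 (by linarith)

/-- the general lemma -/
lemma chain {q : ℝ} (h0 : 0 ≤ q) (h1 : q ≤ 1) (V : ℕ → Finset ι) (D : ℕ) (a : ℝ)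
    (hd : ∀ i < D, ∀ j < D, i ≠ j → Disjoint (V i) (V j))
    (ha : ∀ i < D, a ≤ q * (V i).card) (Φ : Finset ι → ℝ) (w : ℕ → ℝ) (W : ℝ)
    (hw : ∀ i, 0 ≤ w i) (hW : 0 ≤ W)
    (hΦ : ∀ A, ∀ i < D, (A ∩ V i).Nonempty → Φ A ≤ w i)
    (hΦ' : ∀ A, Φ A ≤ W) :
    Ex q Φ ≤ ∑ i ∈ range D, w i * Real.exp (-(i * a)) + W * Real.exp (-(D * a)) := by
  obtain ⟨H, hH⟩ : ∃ H : ℕ → Finset ι, H = fun j => (range j).biUnion V := ⟨_, rfl⟩
  have hcard : ∀ j ≤ D, (j : ℝ) * a ≤ q * (H j).card := by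
    intro j hj
    rw [hH]
    show (j : ℝ) * a ≤ q * (((range j).biUnion V).card : ℝ)
    rw [card_biUnion]
    · push_cast
      rw [mul_sum]
      have : ∑ i ∈ range j, a ≤ ∑ i ∈ range j, q * ((V i).card : ℝ) :=
        sum_le_sum fun i hi => ha i (lt_of_lt_of_le (mem_range.1 hi) hj)
      rw [sum_const, card_range, nsmul_eq_mul] at this
      exact this
    · intro x hx y hy hxy
      rw [coe_range, Set.mem_Iio] at hx hy
      exact hd x (lt_of_lt_of_le hx hj) y (lt_of_lt_of_le hy hj) hxy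
  have hpt : ∀ A : Finset ι, Φ A ≤ ∑ i ∈ range D, w i * (if A ∩ H i = ∅ then (1 : ℝ) else 0) +
      W * (if A ∩ H D = ∅ then (1 : ℝ) else 0) := by
    intro A
    have hnn : ∀ i ∈ range D, 0 ≤ w i * (if A ∩ H i = ∅ then (1 : ℝ) else 0) := by
      intro i _
      refine mul_nonneg (hw i) ?_
      split_ifs
      · exact zero_le_one
      · exact le_refl _
    by_cases hE : A ∩ H D = ∅
    · rw [if_pos hE, mul_one]
      have := sum_nonneg hnn
      have := hΦ' A
      linarith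
    · rw [if_neg hE, mul_zero, add_zero]
      -- the first nonempty one
      have hex : ∃ i, i < D ∧ (A ∩ V i).Nonempty := by
        obtain ⟨x, hx⟩ := nonempty_iff_ne_empty.2 hE
        rw [mem_inter, hH] at hx
        obtain ⟨i, hi, hxi⟩ := mem_biUnion.1 hx.2
        exact ⟨i, mem_range.1 hi, x, mem_inter.2 ⟨hx.1, hxi⟩⟩
      have hfs := Nat.find_spec hex
      have hfm := fun m (hm : m < Nat.find hex) => Nat.find_min hex hm
      obtain ⟨i, hi⟩ : ∃ i, i = Nat.find hex := ⟨_, rfl⟩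
      rw [← hi] at hfs hfm
      have hHi : A ∩ H i = ∅ := by
        rw [← not_nonempty_iff_eq_empty]
        rintro ⟨x, hx⟩
        rw [mem_inter, hH] at hx
        obtain ⟨j, hj, hxj⟩ := mem_biUnion.1 hx.2
        exact hfm j (mem_range.1 hj) ⟨(mem_range.1 hj).trans hfs.1, x, mem_inter.2 ⟨hx.1, hxj⟩⟩
      have h3 := single_le_sum hnn (mem_range.2 hfs.1)
      rw [if_pos hHi, mul_one] at h3
      exact (hΦ A i hfs.1 hfs.2).trans h3
  refine (Ex_mono h0 h1 hpt).trans ?_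
  rw [Ex_add, Ex_sum, Ex_mul_left]
  refine add_le_add (sum_le_sum fun i hi => ?_) ?_
  · rw [Ex_mul_left]
    exact mul_le_mul_of_nonneg_left (Ex_empty_le h0 h1 _ (hcard i (mem_range.1 hi).le)) (hw i)
  · exact mul_le_mul_of_nonneg_left (Ex_empty_le h0 h1 _ (hcard D le_rfl)) hW

end prob

/-! ### geometry -/

lemma div_bounds {M s a k : ℕ} (hM : 0 < M) (hs : 0 < s) (h : k / (M * s) = a) :
    (s : ℝ) * a ≤ (k : ℝ) / M ∧ (k : ℝ) / M < s * a + s := by
  have hMs : 0 < M * s := Nat.mul_pos hM hs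
  have h1 := Nat.div_add_mod k (M * s)
  have h2 := Nat.mod_lt k hMs
  rw [h] at h1
  have hM' : (0 : ℝ) < M := by exact_mod_cast hM
  have h3 : ((M : ℝ) * s) * a + ((k % (M * s) : ℕ) : ℝ) = k := by exact_mod_cast h1
  have h4 : ((k % (M * s) : ℕ) : ℝ) < (M : ℝ) * s := by exact_mod_cast h2
  have h5 : (0 : ℝ) ≤ ((k % (M * s) : ℕ) : ℝ) := Nat.cast_nonneg _
  constructor
  · rw [le_div_iff₀ hM']
    nlinarith
  · rw [div_lt_iff₀ hM']
    nlinarith

lemma dist_le (x y u v : ℝ) : dist (⟨x, y⟩ : ℂ) ⟨u, v⟩ ≤ |x - u| + |y - v| := by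
  rw [dist_eq_norm]
  have := Complex.norm_le_abs_re_add_abs_im ((⟨x, y⟩ : ℂ) - ⟨u, v⟩)
  simpa using this

lemma lb_div (N K M s p : ℕ) (k : Ix N K M) :
    lb N K M (p * s) k = ((lb N K M s k).1 / p, (lb N K M s k).2 / p) := by
  unfold lb
  simp only [Nat.div_div_eq_div_mul]
  rw [show M * (p * s) = M * s * p by ring]

lemma mem_bl {N K M s : ℕ} {c : ℕ × ℕ} {k : Ix N K M} :
    k ∈ bl N K M s c ↔ lb N K M s k = c := by
  unfold bl
  simp

lemma card_bl {N K M s : ℕ} (hM : 0 < M) (hs : 0 < s) {c : ℕ × ℕ}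
    (h1 : s * (c.1 + 1) ≤ N * K) (h2 : s * (c.2 + 1) ≤ N * K) :
    (M * s) ^ 2 ≤ (bl N K M s c).card := by
  have hMs : 0 < M * s := Nat.mul_pos hM hs
  have g : ∀ a : ℕ, s * (a + 1) ≤ N * K → ∀ i : Fin (M * s), a * (M * s) + i < N * K * M := by
    intro a ha i
    have h3 : a * (M * s) + i < (a + 1) * (M * s) := by
      have := i.2
      nlinarith
    have h4 : (a + 1) * (M * s) ≤ N * K * M := by
      calc (a + 1) * (M * s) = (s * (a + 1)) * M := by ring
        _ ≤ N * K * M := Nat.mul_le_mul_right _ ha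
    omega
  have : ((univ : Finset (Fin (M * s) × Fin (M * s))).image
      fun x => ((⟨c.1 * (M * s) + x.1, g c.1 h1 x.1⟩, ⟨c.2 * (M * s) + x.2, g c.2 h2 x.2⟩) :
        Ix N K M)).card = (M * s) ^ 2 := by
    rw [card_image_of_injective]
    · rw [card_univ, Fintype.card_prod, Fintype.card_fin, pow_two]
    · rintro ⟨a, b⟩ ⟨a', b'⟩ h
      simp only [Prod.mk.injEq, Fin.mk.injEq] at h
      ext
      · simp only; omega
      · simp only; omega
  rw [← this]
  apply card_le_card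
  intro y hy
  obtain ⟨x, -, rfl⟩ := mem_image.1 hy
  rw [mem_bl]
  unfold lb
  have e : ∀ (a : ℕ) (i : Fin (M * s)), (a * (M * s) + i) / (M * s) = a := by
    intro a i
    rw [Nat.mul_comm a, Nat.mul_add_div hMs, Nat.div_eq_of_lt i.2, add_zero]
  simp only [e]

lemma Dst_le {N K M s : ℕ} {c : ℕ × ℕ} {Z : Finset (Ix N K M)} {k : Ix N K M}
    (hk : k ∈ Z) (hk' : lb N K M s k ≠ c) : Dst N K M s c Z ≤ dist (sp N K M k) (cor s c) := by
  have hm : k ∈ Z \ bl N K M s c := by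
    rw [Finset.mem_sdiff, mem_bl]
    exact ⟨hk, hk'⟩
  unfold Dst
  rw [dif_pos ⟨k, hm⟩]
  exact inf'_le _ hm

lemma Dst_nonneg {N K M s : ℕ} {c : ℕ × ℕ} {Z : Finset (Ix N K M)} : 0 ≤ Dst N K M s c Z := by
  unfold Dst
  split_ifs with h
  · exact le_inf' _ _ fun _ _ => dist_nonneg
  · exact le_refl _

lemma Dst_cases (N K M s : ℕ) (c : ℕ × ℕ) (Z : Finset (Ix N K M)) :
    ((∀ k ∈ Z, lb N K M s k = c) ∧ Dst N K M s c Z = 0) ∨
      ∃ k ∈ Z, lb N K M s k ≠ c ∧ Dst N K M s c Z = dist (sp N K M k) (cor s c) := by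
  by_cases h : (Z \ bl N K M s c).Nonempty
  · right
    obtain ⟨k, hk, hk'⟩ := exists_mem_eq_inf' h (fun k => dist (sp N K M k) (cor s c))
    rw [Finset.mem_sdiff, mem_bl] at hk
    refine ⟨k, hk.1, hk.2, ?_⟩
    unfold Dst
    rw [dif_pos h]
    exact hk'
  · left
    constructor
    · intro k hk
      by_contra hne
      exact h ⟨k, by rw [Finset.mem_sdiff, mem_bl]; exact ⟨hk, hne⟩⟩
    · unfold Dst
      rw [dif_neg h]

/-- two points of the same square -/
lemma dist_sq {M r : ℕ} (hM : 0 < M) (hr : 0 < r) {k₁ k₂ : ℕ} {c : ℕ × ℕ} {u v : ℝ}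
    (h1 : k₁ / (M * r) = c.1) (h2 : k₂ / (M * r) = c.2)
    (hu : (r : ℝ) * c.1 ≤ u ∧ u ≤ r * c.1 + r) (hv : (r : ℝ) * c.2 ≤ v ∧ v ≤ r * c.2 + r) :
    dist (⟨(k₁ : ℝ) / M, (k₂ : ℝ) / M⟩ : ℂ) ⟨u, v⟩ ≤ 2 * r := by
  refine (dist_le _ _ _ _).trans ?_
  have a1 := div_bounds hM hr h1
  have a2 := div_bounds hM hr h2
  have b1 : |(k₁ : ℝ) / M - u| ≤ r := by
    rw [abs_le]; constructor <;> linarith [a1.1, a1.2, hu.1, hu.2]
  have b2 : |(k₂ : ℝ) / M - v| ≤ r := by
    rw [abs_le]; constructor <;> linarith [a2.1, a2.2, hv.1, hv.2]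
  linarith

/-- the corner of a subsquare lies in the square -/
lemma cor_mem {s p a a' : ℕ} (hp : 0 < p) (h : a / p = a') :
    ((p * s : ℕ) : ℝ) * a' ≤ (s : ℝ) * a ∧ (s : ℝ) * a ≤ ((p * s : ℕ) : ℝ) * a' + ((p * s : ℕ) : ℝ) := by
  have h1 := Nat.div_add_mod a p
  have h2 := Nat.mod_lt a hp
  rw [h] at h1
  have h3 : (p * s) * a' ≤ s * a := by
    calc (p * s) * a' = s * (p * a') := by ring
      _ ≤ s * a := Nat.mul_le_mul_left _ (by omega)
  have h4 : s * a ≤ (p * s) * a' + p * s := by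
    calc s * a ≤ s * (p * a' + p) := Nat.mul_le_mul_left _ (by omega)
      _ = (p * s) * a' + p * s := by ring
  constructor
  · exact_mod_cast h3
  · exact_mod_cast h4

/-- the general bound -/
lemma Dst_far {N K M s p : ℕ} (hM : 0 < M) (hs : 0 < s) (hp : 0 < p) {c c' : ℕ × ℕ}
    (hc1 : c.1 / p = c'.1) (hc2 : c.2 / p = c'.2) (C ζ : Finset (Ix N K M)) :
    Dst N K M s c (mix (bl N K M (p * s) c') C ζ) ≤ 2 * p * s + Dst N K M (p * s) c' ζ := by
  have hps : 0 < p * s := Nat.mul_pos hp hs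
  have hD := Dst_nonneg (N := N) (K := K) (M := M) (s := p * s) (c := c') (Z := ζ)
  have hcor1 := cor_mem (s := s) hp hc1
  have hcor2 := cor_mem (s := s) hp hc2
  have hcast : ((p * s : ℕ) : ℝ) = (p : ℝ) * s := by push_cast; ring
  rcases Dst_cases N K M s c (mix (bl N K M (p * s) c') C ζ) with ⟨-, h⟩ | ⟨k, hk, hk', h⟩
  · rw [h]; positivity
  · by_cases hkD : lb N K M (p * s) k = c'
    · rw [h]
      have h1 : (k.1 : ℕ) / (M * (p * s)) = c'.1 := congrArg Prod.fst hkD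
      have h2 : (k.2 : ℕ) / (M * (p * s)) = c'.2 := congrArg Prod.snd hkD
      have := dist_sq hM hps h1 h2 hcor1 hcor2
      unfold sp cor
      rw [hcast] at this
      linarith
    · -- the configuration has points outside of the large square
      have hkζ : k ∈ ζ := by
        rcases mem_mix.1 hk with h3 | h3
        · exact absurd (mem_bl.1 h3.2) hkD
        · exact h3.1
      rcases Dst_cases N K M (p * s) c' ζ with ⟨h4, -⟩ | ⟨w, hw, hw', h4⟩
      · exact absurd (h4 k hkζ) hkD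
      · have hwm : w ∈ mix (bl N K M (p * s) c') C ζ := by
          rw [mem_mix]
          exact Or.inr ⟨hw, fun h5 => hw' (mem_bl.1 h5)⟩
        have hwc : lb N K M s w ≠ c := by
          intro h5
          apply hw'
          rw [lb_div, h5, hc1, hc2]
        refine (Dst_le hwm hwc).trans ?_
        rw [h4]
        have h6 : dist (cor (p * s) c') (cor s c) ≤ 2 * p * s := by
          unfold cor
          refine (dist_le _ _ _ _).trans ?_
          have b1 : |((p * s : ℕ) : ℝ) * c'.1 - s * c.1| ≤ p * s := by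
            rw [← hcast, abs_le]; constructor <;> linarith [hcor1.1, hcor1.2]
          have b2 : |((p * s : ℕ) : ℝ) * c'.2 - s * c.2| ≤ p * s := by
            rw [← hcast, abs_le]; constructor <;> linarith [hcor2.1, hcor2.2]
          linarith
        have := dist_triangle (sp N K M w) (cor (p * s) c') (cor s c)
        linarith

/-- the row -/
lemma row {p a a' : ℕ} (hp : 0 < p) (h : a / p = a') : ∃ (D : ℕ) (L : ℕ → ℕ), p ≤ 2 * D + 1 ∧
    ∀ i < D, L i / p = a' ∧ (L i = a + (i + 1) ∨ L i + (i + 1) = a) := by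
  have h1 := Nat.div_add_mod a p
  have h2 := Nat.mod_lt a hp
  rw [h] at h1
  obtain ⟨x, hx⟩ : ∃ x, x = a % p := ⟨_, rfl⟩
  rw [← hx] at h1 h2
  have hdiv : ∀ y < p, (p * a' + y) / p = a' := by
    intro y hy
    rw [Nat.mul_add_div hp, Nat.div_eq_of_lt hy, add_zero]
  by_cases hc : p - 1 - x ≤ x
  · refine ⟨x, fun i => a - (i + 1), by omega, fun i hi => ⟨?_, Or.inr ?_⟩⟩
    swap
    · show a - (i + 1) + (i + 1) = a
      omega
    have : a - (i + 1) = p * a' + (x - (i + 1)) := by omega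
    show (a - (i + 1)) / p = a'
    rw [this]
    exact hdiv _ (by omega)
  · refine ⟨p - 1 - x, fun i => a + (i + 1), by omega, fun i hi => ⟨?_, Or.inl rfl⟩⟩
    have : a + (i + 1) = p * a' + (x + (i + 1)) := by omega
    show (a + (i + 1)) / p = a'
    rw [this]
    exact hdiv _ (by omega)

/-- a point in a square of the row -/
lemma Dst_near {N K M s : ℕ} (hM : 0 < M) (hs : 0 < s) {c : ℕ × ℕ} {i l : ℕ}
    (hl : l = c.1 + (i + 1) ∨ l + (i + 1) = c.1) {Z : Finset (Ix N K M)} {k : Ix N K M}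
    (hk : k ∈ Z) (hk' : lb N K M s k = (l, c.2)) : Dst N K M s c Z ≤ (i + 3) * s := by
  have hne : lb N K M s k ≠ c := by
    rw [hk']
    intro h
    have := congrArg Prod.fst h
    simp only at this
    omega
  refine (Dst_le hk hne).trans ?_
  have h1 : (k.1 : ℕ) / (M * s) = l := congrArg Prod.fst hk'
  have h2 : (k.2 : ℕ) / (M * s) = c.2 := congrArg Prod.snd hk'
  unfold sp cor
  refine (dist_le _ _ _ _).trans ?_
  have a1 := div_bounds hM hs h1
  have a2 := div_bounds hM hs h2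
  have hs' : (0 : ℝ) < s := by exact_mod_cast hs
  have b1 : |((k.1 : ℕ) : ℝ) / M - s * c.1| ≤ (i + 2) * s := by
    rcases hl with hl | hl
    · have e : (l : ℝ) = c.1 + (i + 1) := by exact_mod_cast hl
      rw [e] at a1
      rw [abs_le]
      have hi : (0 : ℝ) ≤ i := Nat.cast_nonneg i
      constructor
      · nlinarith [a1.1]
      · nlinarith [a1.2]
    · have e : (l : ℝ) = c.1 - (i + 1) := by
        have : (l : ℝ) + (i + 1) = c.1 := by exact_mod_cast hl
        linarith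
      rw [e] at a1
      rw [abs_le]
      have hi : (0 : ℝ) ≤ i := Nat.cast_nonneg i
      constructor
      · nlinarith [a1.1]
      · nlinarith [a1.2]
  have b2 : |((k.2 : ℕ) : ℝ) / M - s * c.2| ≤ s := by
    rw [abs_le]; constructor <;> linarith [a2.1, a2.2]
  nlinarith

/-! ### numerical bounds -/

lemma exp_m1 : Real.exp (-1) ≤ 37 / 100 := by
  have h := Real.exp_one_gt_d9
  rw [Real.exp_neg, inv_le_comm₀ (Real.exp_pos _) (by norm_num)]
  norm_num at h ⊢
  linarith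

lemma exp_mn (n : ℕ) : Real.exp (-(n : ℝ)) ≤ (37 / 100 : ℝ) ^ n := by
  have : Real.exp (-(n : ℝ)) = Real.exp (-1) ^ n := by
    rw [← Real.exp_nat_mul]; congr 1; ring
  rw [this]
  exact pow_le_pow_left₀ (Real.exp_pos _).le exp_m1 _

lemma sum1 (n : ℕ) : ∑ i ∈ range n, ((i : ℝ) + 3) * (37 / 100 : ℝ) ^ i ≤
    57 / 10 - (159 / 100 * n + 57 / 10) * (37 / 100 : ℝ) ^ n := by
  induction n with
  | zero => simp
  | succ n ih =>
    rw [sum_range_succ, pow_succ]
    have hp : (0 : ℝ) < (37 / 100 : ℝ) ^ n := by positivity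
    have hn : (0 : ℝ) ≤ n := Nat.cast_nonneg n
    push_cast
    nlinarith [mul_nonneg hn hp.le]

lemma sum2 (n : ℕ) : ∑ j ∈ range n, ((j : ℝ) + 5) ^ 2 * (37 / 100 : ℝ) ^ (j + 1) ≤
    19 - (6 / 10 * n ^ 2 + 66 / 10 * n + 19) * (37 / 100 : ℝ) ^ n := by
  induction n with
  | zero => simp
  | succ n ih =>
    have e : (37 / 100 : ℝ) ^ (n + 1) = (37 / 100 : ℝ) ^ n * (37 / 100) := pow_succ _ _
    rw [sum_range_succ, e]
    have hp : (0 : ℝ) < (37 / 100 : ℝ) ^ n := by positivity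
    have hn : (0 : ℝ) ≤ n := Nat.cast_nonneg n
    push_cast
    nlinarith [mul_nonneg hn hp.le, mul_nonneg (mul_nonneg hn hn) hp.le]

lemma pow1 (n : ℕ) : (2 * (n : ℝ) + 3) ^ 2 * (37 / 100 : ℝ) ^ n ≤ 925 / 100 := by
  rcases Nat.eq_zero_or_pos n with h | h
  · subst h; norm_num
  · induction n, h using Nat.le_induction with
    | base => norm_num
    | succ n hn ih =>
      have hn' : (1 : ℝ) ≤ n := by exact_mod_cast hn
      have hp : (0 : ℝ) < (37 / 100 : ℝ) ^ n := by positivity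
      refine le_trans ?_ ih
      rw [pow_succ]
      have : (2 * ((n + 1 : ℕ) : ℝ) + 3) ^ 2 * (37 / 100) ≤ (2 * (n : ℝ) + 3) ^ 2 := by
        push_cast
        nlinarith
      calc (2 * ((n + 1 : ℕ) : ℝ) + 3) ^ 2 * ((37 / 100 : ℝ) ^ n * (37 / 100))
          = ((2 * ((n + 1 : ℕ) : ℝ) + 3) ^ 2 * (37 / 100)) * (37 / 100 : ℝ) ^ n := by ring
        _ ≤ (2 * (n : ℝ) + 3) ^ 2 * (37 / 100 : ℝ) ^ n :=
            mul_le_mul_of_nonneg_right this hp.le

/-! ### the theorems -/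

/-- the squares of the row -/
lemma row_squares {N K M s p : ℕ} (hM : 0 < M) (hs : 0 < s) (hp : 0 < p) {c c' : ℕ × ℕ}
    (hc1 : c.1 / p = c'.1) (hc2 : c.2 / p = c'.2) (hr1 : p * s * (c'.1 + 1) ≤ N * K)
    (hr2 : p * s * (c'.2 + 1) ≤ N * K) {q : ℝ} (hq : 1 ≤ q * (M : ℝ) ^ 2) :
    ∃ (D : ℕ) (L : ℕ → ℕ), p ≤ 2 * D + 1 ∧
      (∀ i < D, L i / p = c'.1 ∧ (L i = c.1 + (i + 1) ∨ L i + (i + 1) = c.1)) ∧
      (∀ i < D, ∀ j < D, i ≠ j →
        Disjoint (bl N K M s (L i, c.2)) (bl N K M s (L j, c.2))) ∧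
      ∀ i < D, (s : ℝ) ^ 2 ≤ q * (bl N K M s (L i, c.2)).card := by
  obtain ⟨D, L, h1, h2⟩ := row hp hc1
  refine ⟨D, L, h1, h2, ?_, ?_⟩
  · intro i hi j hj hij
    rw [disjoint_left]
    intro k hk hk'
    rw [mem_bl] at hk hk'
    have := congrArg Prod.fst (hk.symm.trans hk')
    simp only at this
    have a := (h2 i hi).2
    have b := (h2 j hj).2
    omega
  · intro i hi
    have hlt : ∀ {a a' : ℕ}, a / p = a' → p * s * (a' + 1) ≤ N * K → s * (a + 1) ≤ N * K := by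
      intro a a' ha hr
      have h3 := Nat.div_add_mod a p
      have h4 := Nat.mod_lt a hp
      rw [ha] at h3
      calc s * (a + 1) ≤ s * (p * (a' + 1)) := Nat.mul_le_mul_left _ (by
            have : p * (a' + 1) = p * a' + p := by ring
            omega)
        _ = p * s * (a' + 1) := by ring
        _ ≤ N * K := hr
    have h5 := card_bl (N := N) (K := K) hM hs (c := (L i, c.2)) (hlt (h2 i hi).1 hr1)
      (hlt hc2 hr2)
    have h6 : ((M : ℝ) * s) ^ 2 ≤ ((bl N K M s (L i, c.2)).card : ℝ) := by exact_mod_cast h5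
    have hM' : (0 : ℝ) < (M : ℝ) ^ 2 := by positivity
    have hq0 : 0 < q := by
      by_contra hcon
      push Not at hcon
      nlinarith
    calc (s : ℝ) ^ 2 = 1 * (s : ℝ) ^ 2 := by ring
      _ ≤ (q * (M : ℝ) ^ 2) * (s : ℝ) ^ 2 := mul_le_mul_of_nonneg_right hq (sq_nonneg _)
      _ = q * ((M : ℝ) * s) ^ 2 := by ring
      _ ≤ _ := mul_le_mul_of_nonneg_left h6 hq0.le

theorem ch : S_CH := by
  intro N K M s p hN hK hM hs hp c c' hc1 hc2 hr1 hr2 q h0 h1 hq ζ
  obtain ⟨D, L, hD, hL, hdis, hcard⟩ := row_squares hM hs hp hc1 hc2 hr1 hr2 hq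
  have hs1 : (1 : ℝ) ≤ s := by exact_mod_cast hs
  have hDst := Dst_nonneg (N := N) (K := K) (M := M) (s := p * s) (c := c') (Z := ζ)
  have hW : 0 ≤ 2 * p * s + Dst N K M (p * s) c' ζ := by positivity
  have key := chain h0 h1 (fun i => bl N K M s (L i, c.2)) D ((s : ℝ) ^ 2) hdis hcard
    (fun C : Finset (Ix N K M) => Dst N K M s c (mix (bl N K M (p * s) c') C ζ))
    (fun i => ((i : ℝ) + 3) * s) (2 * p * s + Dst N K M (p * s) c' ζ)
    (fun i => by positivity) hW
    (by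
      rintro C i hi ⟨k, hk⟩
      rw [mem_inter, mem_bl] at hk
      refine Dst_near hM hs (hL i hi).2 (k := k) ?_ hk.2
      rw [mem_mix]
      refine Or.inl ⟨hk.1, ?_⟩
      rw [mem_bl, lb_div, hk.2, (hL i hi).1, hc2])
    (fun C => Dst_far hM hs hp hc1 hc2 C ζ)
  refine key.trans (add_le_add ?_ ?_)
  · have h2 : ∀ i ∈ range D, ((i : ℝ) + 3) * s * Real.exp (-(i * (s : ℝ) ^ 2)) ≤
        s * (((i : ℝ) + 3) * (37 / 100 : ℝ) ^ i) := by
      intro i _
      have e1 : Real.exp (-(i * (s : ℝ) ^ 2)) ≤ (37 / 100 : ℝ) ^ i := by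
        refine le_trans (Real.exp_le_exp.2 ?_) (exp_mn i)
        have hi : (0 : ℝ) ≤ i := Nat.cast_nonneg i
        nlinarith [mul_nonneg hi (by nlinarith : (0 : ℝ) ≤ (s : ℝ) ^ 2 - 1)]
      calc ((i : ℝ) + 3) * s * Real.exp (-(i * (s : ℝ) ^ 2))
          ≤ ((i : ℝ) + 3) * s * (37 / 100 : ℝ) ^ i :=
            mul_le_mul_of_nonneg_left e1 (by positivity)
        _ = _ := by ring
    refine (sum_le_sum h2).trans ?_
    rw [← mul_sum]
    have h3 := sum1 D
    have h4 : (0 : ℝ) ≤ (159 / 100 * D + 57 / 10) * (37 / 100 : ℝ) ^ D := by positivity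
    nlinarith
  · refine mul_le_mul_of_nonneg_left (Real.exp_le_exp.2 ?_) hW
    have hD' : (p : ℝ) ≤ 2 * D + 1 := by exact_mod_cast hD
    have hDD : (0 : ℝ) ≤ D := Nat.cast_nonneg D
    nlinarith [mul_nonneg hDD (by nlinarith : (0 : ℝ) ≤ (s : ℝ) ^ 2 - 1)]

theorem ch2 : S_CH2 := by
  intro N K M s hN hK hM hs hsd c hr1 hr2 q h0 h1 hq
  obtain ⟨p, hp'⟩ := hsd
  have hs1 : (1 : ℝ) ≤ s := by exact_mod_cast hs
  have hp : 0 < p := by
    rcases Nat.eq_zero_or_pos p with h | h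
    · rw [h, mul_zero] at hp'
      have := Nat.mul_pos hN hK
      omega
    · exact h
  have hlt : ∀ {a : ℕ}, s * (a + 1) ≤ N * K → a / p = 0 := by
    intro a ha
    rw [hp'] at ha
    exact Nat.div_eq_of_lt (Nat.le_of_mul_le_mul_left ha hs)
  have hc1 := hlt hr1
  have hc2 := hlt hr2
  obtain ⟨D, L, hD, hL, hdis, hcard⟩ := row_squares (N := N) (K := K) (c' := (0, 0)) hM hs hp hc1
    hc2 (by simp only; rw [hp']; apply le_of_eq; ring) (by simp only; rw [hp']; apply le_of_eq; ring) hq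
  -- the general bound
  have hfar : ∀ Z : Finset (Ix N K M), Dst N K M s c Z ≤ 2 * p * s := by
    intro Z
    have h2 := Dst_far (N := N) (K := K) (c' := (0, 0)) hM hs hp hc1 hc2 Z ∅
    have hall : ∀ k : Ix N K M, lb N K M (p * s) k = (0, 0) := by
      intro k
      unfold lb
      have : ∀ j : Fin (N * K * M), (j : ℕ) / (M * (p * s)) = 0 := by
        intro j
        apply Nat.div_eq_of_lt
        calc (j : ℕ) < N * K * M := j.2
          _ = s * p * M := by rw [hp']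
          _ = M * (p * s) := by ring
      rw [this, this]
    have h3 : mix (bl N K M (p * s) (0, 0)) Z ∅ = Z := by
      ext k
      rw [mem_mix, mem_bl]
      simp [hall k]
    have h4 : Dst N K M (p * s) (0, 0) ∅ = 0 := by
      unfold Dst
      rw [dif_neg]
      simp
    rw [h3, h4, add_zero] at h2
    exact h2
  by_cases hp1 : p = 1
  · -- the square is the box
    have hz : ∀ Z : Finset (Ix N K M), Dst N K M s c Z = 0 := by
      intro Z
      rcases Dst_cases N K M s c Z with ⟨-, h⟩ | ⟨k, hk, hk', h⟩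
      · exact h
      · exfalso
        apply hk'
        have hc1' : c.1 = 0 := by rw [hp1, Nat.div_one] at hc1; exact hc1
        have hc2' : c.2 = 0 := by rw [hp1, Nat.div_one] at hc2; exact hc2
        unfold lb
        have : ∀ j : Fin (N * K * M), (j : ℕ) / (M * s) = 0 := by
          intro j
          apply Nat.div_eq_of_lt
          calc (j : ℕ) < N * K * M := j.2
            _ = s * M := by rw [hp', hp1, mul_one]
            _ = M * s := by ring
        rw [this, this]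
        exact Prod.ext hc1'.symm hc2'.symm
    have : (fun Z : Finset (Ix N K M) => if Dst N K M s c Z ≤ 4 * s then (0 : ℝ) else
        (Dst N K M s c Z) ^ 2) = fun _ => 0 := by
      funext Z
      rw [if_pos]
      rw [hz Z]
      positivity
    rw [this, Ex_const]
    positivity
  have hD1 : 1 ≤ D := by omega
  obtain ⟨E, rfl⟩ : ∃ E, D = E + 1 := ⟨D - 1, by omega⟩
  have key := chain h0 h1 (fun i => bl N K M s (L i, c.2)) (E + 1) ((s : ℝ) ^ 2) hdis hcard
    (fun Z : Finset (Ix N K M) => if Dst N K M s c Z ≤ 4 * s then (0 : ℝ) else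
        (Dst N K M s c Z) ^ 2)
    (fun i => if i ≤ 1 then 0 else (((i : ℝ) + 3) * s) ^ 2) ((2 * p * s) ^ 2)
    (fun i => by
      beta_reduce
      split_ifs
      · exact le_refl _
      · positivity) (by positivity)
    (by
      rintro Z i hi ⟨k, hk⟩
      rw [mem_inter, mem_bl] at hk
      have h2 := Dst_near hM hs (hL i hi).2 hk.1 hk.2
      have h3 := Dst_nonneg (N := N) (K := K) (M := M) (s := s) (c := c) (Z := Z)
      beta_reduce
      by_cases h4 : Dst N K M s c Z ≤ 4 * s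
      · rw [if_pos h4]
        split_ifs
        · exact le_refl _
        · positivity
      · rw [if_neg h4]
        rw [if_neg]
        · exact pow_le_pow_left₀ h3 h2 2
        · intro h5
          apply h4
          refine h2.trans ?_
          have : (i : ℝ) ≤ 1 := by exact_mod_cast h5
          nlinarith)
    (fun Z => by
      have h3 := Dst_nonneg (N := N) (K := K) (M := M) (s := s) (c := c) (Z := Z)
      beta_reduce
      split_ifs
      · positivity
      · exact pow_le_pow_left₀ h3 (hfar Z) 2)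
  refine key.trans ?_
  have hexp : ∀ i : ℕ, Real.exp (-(((i + 1 : ℕ) : ℝ) * (s : ℝ) ^ 2)) ≤
      Real.exp (-((s : ℝ) ^ 2)) * (37 / 100 : ℝ) ^ i := by
    intro i
    have e1 : Real.exp (-(((i + 1 : ℕ) : ℝ) * (s : ℝ) ^ 2)) =
        Real.exp (-((s : ℝ) ^ 2)) * Real.exp (-(i * (s : ℝ) ^ 2)) := by
      rw [← Real.exp_add]; congr 1; push_cast; ring
    rw [e1]
    refine mul_le_mul_of_nonneg_left (le_trans (Real.exp_le_exp.2 ?_) (exp_mn i))
      (Real.exp_pos _).le
    have hi : (0 : ℝ) ≤ i := Nat.cast_nonneg i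
    nlinarith [mul_nonneg hi (by nlinarith : (0 : ℝ) ≤ (s : ℝ) ^ 2 - 1)]
  have hX : 0 < Real.exp (-((s : ℝ) ^ 2)) := Real.exp_pos _
  -- first sum
  have hsum : ∑ i ∈ range (E + 1), (if i ≤ 1 then 0 else (((i : ℝ) + 3) * s) ^ 2) *
      Real.exp (-(i * (s : ℝ) ^ 2)) ≤ 19 * ((s : ℝ) ^ 2 * Real.exp (-((s : ℝ) ^ 2))) := by
    have hgen : ∀ n : ℕ, ∑ i ∈ range (n + 2), (if i ≤ 1 then 0 else (((i : ℝ) + 3) * s) ^ 2) *
        Real.exp (-(i * (s : ℝ) ^ 2)) ≤
        (s : ℝ) ^ 2 * Real.exp (-((s : ℝ) ^ 2)) *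
          ∑ j ∈ range n, ((j : ℝ) + 5) ^ 2 * (37 / 100 : ℝ) ^ (j + 1) := by
      intro n
      rw [sum_range_succ', sum_range_succ']
      have z1 : (if (0 + 1 : ℕ) ≤ 1 then (0 : ℝ) else ((((0 + 1 : ℕ) : ℝ) + 3) * s) ^ 2) = 0 := by
        simp
      have z0 : (if (0 : ℕ) ≤ 1 then (0 : ℝ) else ((((0 : ℕ) : ℝ) + 3) * s) ^ 2) = 0 := by simp
      rw [z0, z1, zero_mul, zero_mul, add_zero, add_zero, mul_sum]
      refine sum_le_sum fun j _ => ?_
      rw [if_neg (by omega)]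
      have h5 := hexp (j + 1)
      calc ((((j + 1 + 1 : ℕ) : ℝ) + 3) * s) ^ 2 * Real.exp (-(((j + 1 + 1 : ℕ) : ℝ) * (s : ℝ) ^ 2))
          ≤ ((((j + 1 + 1 : ℕ) : ℝ) + 3) * s) ^ 2 *
            (Real.exp (-((s : ℝ) ^ 2)) * (37 / 100 : ℝ) ^ (j + 1)) :=
            mul_le_mul_of_nonneg_left h5 (sq_nonneg _)
        _ = _ := by push_cast; ring
    rcases Nat.eq_zero_or_pos E with hE | hE
    · subst hE
      have : (0 : ℝ) ≤ 19 * ((s : ℝ) ^ 2 * Real.exp (-((s : ℝ) ^ 2))) := by positivity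
      simpa using this
    · obtain ⟨n, rfl⟩ : ∃ n, E = n + 1 := ⟨E - 1, by omega⟩
      refine (hgen n).trans ?_
      have h6 := sum2 n
      have h7 : (0 : ℝ) ≤ (6 / 10 * n ^ 2 + 66 / 10 * n + 19) * (37 / 100 : ℝ) ^ n := by positivity
      have h8 : ∑ j ∈ range n, ((j : ℝ) + 5) ^ 2 * (37 / 100 : ℝ) ^ (j + 1) ≤ 19 := by linarith
      have h9 : 0 ≤ (s : ℝ) ^ 2 * Real.exp (-((s : ℝ) ^ 2)) := by positivity
      nlinarith
  have hlast : (2 * (p : ℝ) * s) ^ 2 * Real.exp (-(((E + 1 : ℕ) : ℝ) * (s : ℝ) ^ 2)) ≤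
      37 * ((s : ℝ) ^ 2 * Real.exp (-((s : ℝ) ^ 2))) := by
    have hD' : (p : ℝ) ≤ 2 * E + 3 := by
      have : p ≤ 2 * E + 3 := by omega
      exact_mod_cast this
    have hp0 : (0 : ℝ) ≤ p := Nat.cast_nonneg p
    have h5 := hexp E
    have h6 := pow1 E
    calc (2 * (p : ℝ) * s) ^ 2 * Real.exp (-(((E + 1 : ℕ) : ℝ) * (s : ℝ) ^ 2))
        ≤ (2 * (p : ℝ) * s) ^ 2 * (Real.exp (-((s : ℝ) ^ 2)) * (37 / 100 : ℝ) ^ E) :=
          mul_le_mul_of_nonneg_left h5 (sq_nonneg _)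
      _ = 4 * (p ^ 2 * (37 / 100 : ℝ) ^ E) * ((s : ℝ) ^ 2 * Real.exp (-((s : ℝ) ^ 2))) := by ring
      _ ≤ 4 * ((2 * (E : ℝ) + 3) ^ 2 * (37 / 100 : ℝ) ^ E) *
          ((s : ℝ) ^ 2 * Real.exp (-((s : ℝ) ^ 2))) := by
          have : (p : ℝ) ^ 2 ≤ (2 * (E : ℝ) + 3) ^ 2 := pow_le_pow_left₀ hp0 hD' 2
          gcongr
      _ ≤ 37 * ((s : ℝ) ^ 2 * Real.exp (-((s : ℝ) ^ 2))) := by
          have h9 : 0 ≤ (s : ℝ) ^ 2 * Real.exp (-((s : ℝ) ^ 2)) := by positivity
          nlinarith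
  have h10 : 0 ≤ (s : ℝ) ^ 2 * Real.exp (-((s : ℝ) ^ 2)) := by positivity
  linarith

end Pool.Agent.N940.TSP.Chain
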