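import Pool.Agent.N940.TSP.Mod

/-!
# Squared differences of the tour functional
-/

set_option autoImplicit false

namespace Pool.Agent.N940.TSP.D1

open Finset

variable {N K M : ℕ}

lemma sp_inj (hM : 0 < M) : Function.Injective (sp N K M) := by
  intro k k' h
  have hM' : (M : ℝ) ≠ 0 := by positivity
  have h1 := congrArg Complex.re h
  have h2 := congrArg Complex.im h
  simp only [sp] at h1 h2
  rw [div_left_inj' hM'] at h1 h2
  have h3 : (k.1 : ℕ) = k'.1 := by exact_mod_cast h1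
  have h4 : (k.2 : ℕ) = k'.2 := by exact_mod_cast h2
  exact Prod.ext (Fin.ext h3) (Fin.ext h4)

lemma plus_finite (A : Finset (Ix N K M)) : (plus N K M A).Finite := by
  refine Set.Finite.union ?_ ?_
  · refine (A.finite_toSet.image (sp N K M)).subset ?_
    rintro z ⟨k, hk, rfl⟩
    exact ⟨k, hk, rfl⟩
  · refine (((range N ×ˢ range N : Finset (ℕ × ℕ)).finite_toSet).image
      (fun v : ℕ × ℕ => (⟨(K : ℝ) * (v.1 : ℝ), (K : ℝ) * (v.2 : ℝ)⟩ : ℂ))).subset ?_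
    rintro z ⟨v, h1, h2, -, rfl⟩
    exact ⟨v, by simp [h1, h2], rfl⟩

lemma lb_lt (hN : 0 < N) (hK : 0 < K) (hM : 0 < M) (k : Ix N K M) :
    (lb N K M K k).1 < N ∧ (lb N K M K k).2 < N := by
  have h1 := k.1.2
  have h2 := k.2.2
  have e : N * K * M = N * (M * K) := by ring
  unfold lb
  refine ⟨?_, ?_⟩
  · show (k.1 : ℕ) / (M * K) < N
    rw [Nat.div_lt_iff_lt_mul (by positivity), ← e]
    exact h1
  · show (k.2 : ℕ) / (M * K) < N
    rw [Nat.div_lt_iff_lt_mul (by positivity), ← e]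
    exact h2

/-- one coordinate -/
lemma coord (hK : 0 < K) (hM : 0 < M) (j : ℕ) :
    0 ≤ (j : ℝ) / M - (K : ℝ) * ((j / (M * K) : ℕ) : ℝ) ∧
      (j : ℝ) / M - (K : ℝ) * ((j / (M * K) : ℕ) : ℝ) ≤ K := by
  have hM' : (0 : ℝ) < M := by exact_mod_cast hM
  have h1 : (j / (M * K)) * (M * K) ≤ j := Nat.div_mul_le_self _ _
  have h2 : j < (j / (M * K) + 1) * (M * K) := by
    rw [add_mul, one_mul]
    exact Nat.lt_div_mul_add (by positivity)
  have h1' : (((j / (M * K) : ℕ) : ℝ)) * (M * K) ≤ j := by exact_mod_cast h1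
  have h2' : (j : ℝ) < (((j / (M * K) : ℕ) : ℝ) + 1) * (M * K) := by exact_mod_cast h2
  constructor
  · rw [sub_nonneg, le_div_iff₀ hM']
    nlinarith
  · rw [sub_le_iff_le_add, div_le_iff₀ hM']
    nlinarith

lemma dist_anchor (hK : 0 < K) (hM : 0 < M) (k : Ix N K M) :
    dist (sp N K M k) ⟨(K : ℝ) * ((lb N K M K k).1 : ℝ), (K : ℝ) * ((lb N K M K k).2 : ℝ)⟩ ^ 2
      ≤ 2 * (K : ℝ) ^ 2 := by
  rw [Complex.dist_eq_re_im, Real.sq_sqrt (by positivity)]
  obtain ⟨a1, a2⟩ := coord hK hM (k.1 : ℕ)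
  obtain ⟨b1, b2⟩ := coord hK hM (k.2 : ℕ)
  have h1 : ((k.1 : ℕ) / (M : ℝ) - (K : ℝ) * (((k.1 : ℕ) / (M * K) : ℕ) : ℝ)) ^ 2 ≤ (K : ℝ) ^ 2 :=
    pow_le_pow_left₀ a1 a2 2
  have h2 : ((k.2 : ℕ) / (M : ℝ) - (K : ℝ) * (((k.2 : ℕ) / (M * K) : ℕ) : ℝ)) ^ 2 ≤ (K : ℝ) ^ 2 :=
    pow_le_pow_left₀ b1 b2 2
  show ((k.1 : ℕ) / (M : ℝ) - (K : ℝ) * (((k.1 : ℕ) / (M * K) : ℕ) : ℝ)) ^ 2 +
    ((k.2 : ℕ) / (M : ℝ) - (K : ℝ) * (((k.2 : ℕ) / (M * K) : ℕ) : ℝ)) ^ 2 ≤ _
  linarith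

lemma sp_range (hM : 0 < M) (k : Ix N K M) :
    0 ≤ (sp N K M k).re ∧ (sp N K M k).re ≤ (N : ℝ) * K ∧
      0 ≤ (sp N K M k).im ∧ (sp N K M k).im ≤ (N : ℝ) * K := by
  have hM' : (0 : ℝ) < M := by exact_mod_cast hM
  have h1 : (((k.1 : ℕ)) : ℝ) ≤ (N : ℝ) * K * M := by exact_mod_cast k.1.2.le
  have h2 : (((k.2 : ℕ)) : ℝ) ≤ (N : ℝ) * K * M := by exact_mod_cast k.2.2.le
  refine ⟨?_, ?_, ?_, ?_⟩
  · show 0 ≤ ((k.1 : ℕ) : ℝ) / M
    positivity
  · show ((k.1 : ℕ) : ℝ) / M ≤ _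
    rw [div_le_iff₀ hM']; exact h1
  · show 0 ≤ ((k.2 : ℕ) : ℝ) / M
    positivity
  · show ((k.2 : ℕ) : ℝ) / M ≤ _
    rw [div_le_iff₀ hM']; exact h2

lemma plus_sub_insert (A : Finset (Ix N K M)) (k : Ix N K M) :
    plus N K M A ⊆ insert (sp N K M k) (plus N K M (A.erase k)) := by
  rintro z (⟨k', hk', rfl⟩ | ⟨v, h1, h2, h3, rfl⟩)
  · by_cases h : k' = k
    · subst h; exact Set.mem_insert _ _
    · exact Set.mem_insert_of_mem _ (Or.inl ⟨k', mem_erase.2 ⟨h, hk'⟩, rfl⟩)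
  · exact Set.mem_insert_of_mem _ (Or.inr ⟨v, h1, h2, fun k' hk' => h3 k' (mem_of_mem_erase hk'),
      rfl⟩)

lemma erase_sub_plus {A : Finset (Ix N K M)} {k k' : Ix N K M} (hk' : k' ∈ A) (hne : k' ≠ k)
    (hl : lb N K M K k' = lb N K M K k) : plus N K M (A.erase k) ⊆ plus N K M A := by
  rintro z (⟨k'', hk'', rfl⟩ | ⟨v, h1, h2, h3, rfl⟩)
  · exact Or.inl ⟨k'', mem_of_mem_erase hk'', rfl⟩
  · refine Or.inr ⟨v, h1, h2, fun k'' hk'' => ?_, rfl⟩
    by_cases h : k'' = k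
    · subst h
      rw [← hl]
      exact h3 k' (mem_erase.2 ⟨hne, hk'⟩)
    · exact h3 k'' (mem_erase.2 ⟨h, hk''⟩)

lemma erase_sub_insert (A : Finset (Ix N K M)) (k : Ix N K M) :
    plus N K M (A.erase k) ⊆
      insert (⟨(K : ℝ) * ((lb N K M K k).1 : ℝ), (K : ℝ) * ((lb N K M K k).2 : ℝ)⟩ : ℂ)
        (plus N K M A) := by
  rintro z (⟨k'', hk'', rfl⟩ | ⟨v, h1, h2, h3, rfl⟩)
  · exact Set.mem_insert_of_mem _ (Or.inl ⟨k'', mem_of_mem_erase hk'', rfl⟩)
  · by_cases hv : v = lb N K M K k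
    · subst hv; exact Set.mem_insert _ _
    · refine Set.mem_insert_of_mem _ (Or.inr ⟨v, h1, h2, fun k'' hk'' => ?_, rfl⟩)
      by_cases h : k'' = k
      · subst h
        exact fun h => hv h.symm
      · exact h3 k'' (mem_erase.2 ⟨h, hk''⟩)

/-- the only point of `A` in its square -/
def lone (A : Finset (Ix N K M)) (k : Ix N K M) : Prop :=
  ∀ k' ∈ A, lb N K M K k' = lb N K M K k → k' = k

open Classical in
theorem main (hbasic : S_BASIC) (hpack : S_PACK) : S_D1 := by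
  obtain ⟨-, -, hmono, hins, -, -, -⟩ := hbasic
  intro N K M hN hK hM A
  set f := fT N K M with hf
  have hup : ∀ k ∈ A, ∀ a ∈ plus N K M (A.erase k), f A ≤ f (A.erase k) + 2 * dist a (sp N K M k) :=
    fun k hk a ha => (hmono _ _ (plus_sub_insert A k) ((plus_finite _).insert _)).trans
      (hins _ (plus_finite _) a ha _)
  -- lone points
  have h1 : ∀ k ∈ A.filter (lone A), (f A - f (A.erase k)) ^ 2 ≤ 8 * (K : ℝ) ^ 2 := by
    intro k hk
    obtain ⟨hkA, hlone⟩ := mem_filter.1 hk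
    obtain ⟨hl1, hl2⟩ := lb_lt hN hK hM k
    have hd := dist_anchor hK hM k
    set zV : ℂ := ⟨(K : ℝ) * ((lb N K M K k).1 : ℝ), (K : ℝ) * ((lb N K M K k).2 : ℝ)⟩ with hzV
    have ha : zV ∈ plus N K M (A.erase k) := by
      refine Or.inr ⟨lb N K M K k, hl1, hl2, fun k' hk' h => ?_, rfl⟩
      exact (mem_erase.1 hk').1 (hlone k' (mem_of_mem_erase hk') h)
    have h2 := hup k hkA zV ha
    have h3 : f (A.erase k) ≤ f A + 2 * dist (sp N K M k) zV :=
      (hmono _ _ (erase_sub_insert A k) ((plus_finite _).insert _)).trans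
        (hins _ (plus_finite _) _ (Or.inl ⟨k, hkA, rfl⟩) _)
    rw [dist_comm zV] at h2
    have h4 : |f A - f (A.erase k)| ≤ 2 * dist (sp N K M k) zV := by
      rw [abs_le]; constructor <;> linarith
    have h5 : (f A - f (A.erase k)) ^ 2 ≤ (2 * dist (sp N K M k) zV) ^ 2 := by
      rw [← sq_abs]
      exact pow_le_pow_left₀ (abs_nonneg _) h4 2
    nlinarith
  have hcard : (A.filter (lone A)).card ≤ N ^ 2 := by
    have : (A.filter (lone A)).card ≤ (range N ×ˢ range N : Finset (ℕ × ℕ)).card := by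
      refine card_le_card_of_injOn (lb N K M K) ?_ ?_
      · intro k hk
        obtain ⟨hl1, hl2⟩ := lb_lt hN hK hM k
        simp [hl1, hl2]
      · intro k hk k' hk' h
        exact (mem_filter.1 hk').2 k (mem_filter.1 hk).1 h
    rw [card_product, card_range] at this
    nlinarith
  -- the other points
  set g : Ix N K M → ℝ := fun k => (f A - f (A.erase k)) / 2 with hg
  set B := A.filter fun k => ¬ lone A k with hB
  have hinj := sp_inj (N := N) (K := K) hM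
  have hother : ∀ k ∈ B, ∃ k' ∈ A, k' ≠ k ∧ lb N K M K k' = lb N K M K k := by
    intro k hk
    have h := (mem_filter.1 hk).2
    unfold lone at h
    push Not at h
    obtain ⟨k', h1, h2, h3⟩ := h
    exact ⟨k', h1, h3, h2⟩
  have hg0 : ∀ k ∈ B, 0 ≤ g k := by
    intro k hk
    obtain ⟨k', h1, h2, h3⟩ := hother k hk
    have := hmono _ _ (erase_sub_plus h1 h2 h3) (plus_finite _)
    show 0 ≤ (f A - f (A.erase k)) / 2
    have h4 : f (A.erase k) ≤ f A := this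
    linarith
  have hgd : ∀ k ∈ B, ∀ k' ∈ A, k' ≠ k → g k ≤ dist (sp N K M k) (sp N K M k') := by
    intro k hk k' hk' hne
    have := hup k (mem_filter.1 hk).1 (sp N K M k') (Or.inl ⟨k', mem_erase.2 ⟨hne, hk'⟩, rfl⟩)
    show (f A - f (A.erase k)) / 2 ≤ _
    rw [dist_comm]
    linarith
  have hR : (0 : ℝ) < (N : ℝ) * K := by positivity
  have hp := hpack ((N : ℝ) * K) hR (B.image (sp N K M)) (Function.extend (sp N K M) g 0)
    (by
      intro z hz
      obtain ⟨k, -, rfl⟩ := mem_image.1 hz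
      exact sp_range hM k)
    (by
      intro z hz
      obtain ⟨k, hk, rfl⟩ := mem_image.1 hz
      rw [hinj.extend_apply]
      refine ⟨hg0 k hk, ?_, ?_⟩
      · obtain ⟨k', h1, h2, h3⟩ := hother k hk
        refine (hgd k hk k' h1 h2).trans ?_
        obtain ⟨a1, a2, a3, a4⟩ := sp_range hM k
        obtain ⟨b1, b2, b3, b4⟩ := sp_range hM k'
        rw [Complex.dist_eq_re_im]
        refine Real.sqrt_le_iff.2 ⟨by positivity, ?_⟩
        have c1 : ((sp N K M k).re - (sp N K M k').re) ^ 2 ≤ ((N : ℝ) * K) ^ 2 :=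
          sq_le_sq' (by linarith) (by linarith)
        have c2 : ((sp N K M k).im - (sp N K M k').im) ^ 2 ≤ ((N : ℝ) * K) ^ 2 :=
          sq_le_sq' (by linarith) (by linarith)
        nlinarith
      · intro w hw hne
        obtain ⟨k', hk', rfl⟩ := mem_image.1 hw
        exact hgd k hk k' (mem_filter.1 hk').1 fun h => hne (by rw [h]))
  rw [sum_image fun a _ b _ h => hinj h] at hp
  simp only [hinj.extend_apply] at hp
  rw [← sum_filter_add_sum_filter_not A (lone A)]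
  have h6 : ∑ k ∈ A.filter (lone A), (f A - f (A.erase k)) ^ 2 ≤ (N : ℝ) ^ 2 * (8 * (K : ℝ) ^ 2) := by
    refine (sum_le_card_nsmul _ _ _ h1).trans ?_
    rw [nsmul_eq_mul]
    refine mul_le_mul_of_nonneg_right ?_ (by positivity)
    exact_mod_cast hcard
  have h7 : ∑ k ∈ B, (f A - f (A.erase k)) ^ 2 = 4 * ∑ k ∈ B, g k ^ 2 := by
    rw [mul_sum]
    refine sum_congr rfl fun k _ => ?_
    rw [hg]; ring
  rw [← hB, h7]
  nlinarith

end Pool.Agent.N940.TSP.D1
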