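import Pool.Agent.N940.TSP.Dep2

/-!
# De-Poissonization, part 3: conclusion
-/

set_option autoImplicit false
set_option linter.unusedSectionVars false
set_option linter.unusedVariables false
set_option linter.unusedSimpArgs false

open Filter Topology Finset MeasureTheory ProbabilityTheory

namespace Pool.Agent.N940.TSP.Dep

section fin

variable {ι : Type} [Fintype ι] [DecidableEq ι]

/-- normalized size -/
noncomputable def xs (n : ℕ) (A : Finset ι) : ℝ := (A.card : ℝ) / Real.sqrt n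

lemma Ex_xs (n : ℕ) (q : ℝ) (hg : 0 < Fintype.card ι) (hq : q = (n : ℝ) / Fintype.card ι) :
    Ex q (fun A : Finset ι => (A.card : ℝ) / Real.sqrt n) = n / Real.sqrt n := by
  rw [Ex_card (ι := ι) q (fun m => (m : ℝ) / Real.sqrt n)]
  have h := sum_Pm_mul (Fintype.card ι) q
  have hg' : (Fintype.card ι : ℝ) ≠ 0 := by exact_mod_cast hg.ne'
  have h2 : (Fintype.card ι : ℝ) * q = n := by rw [hq]; field_simp
  rw [h2] at h
  rw [← h, Finset.sum_div]
  refine Finset.sum_congr rfl fun m _ => ?_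
  rw [mul_div_assoc]

lemma Vr_xs (n : ℕ) (hn : 1 ≤ n) (q : ℝ) (hg : 0 < Fintype.card ι)
    (hq : q = (n : ℝ) / Fintype.card ι) :
    Vr q (fun A : Finset ι => (A.card : ℝ) / Real.sqrt n) = 1 - q := by
  have hn0 : (0 : ℝ) < n := by exact_mod_cast hn
  have hsn : 0 < Real.sqrt n := Real.sqrt_pos.mpr hn0
  unfold Vr
  rw [Ex_xs n q hg hq, Ex_card (ι := ι) q (fun m => ((m : ℝ) / Real.sqrt n - n / Real.sqrt n) ^ 2)]
  have h := sum_Pm_sq (Fintype.card ι) q
  have hg' : (Fintype.card ι : ℝ) ≠ 0 := by exact_mod_cast hg.ne'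
  have h2 : (Fintype.card ι : ℝ) * q = n := by rw [hq]; field_simp
  rw [h2] at h
  have h3 : 1 - q = (n * (1 - q)) / n := by field_simp
  rw [h3, ← h, Finset.sum_div]
  refine Finset.sum_congr rfl fun m _ => ?_
  rw [← sub_div, div_pow, Real.sq_sqrt hn0.le, mul_div_assoc]

/-- **The estimate for one `n`.** -/
lemma core (F : Finset ι → ℝ) (q C c η : ℝ) (n : ℕ) (hc : 0 < c) (hn : 1 ≤ n)
    (h2n : 2 * n ≤ Fintype.card ι) (hq : q = (n : ℝ) / Fintype.card ι)
    (hC : ∀ A : Finset ι, ∑ x ∈ A, (F A - F (A.erase x)) ^ 2 ≤ C)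
    (hV : Vr q F ≤ C)
    (hchar : ∀ α β : ℝ,
      ‖Ex q (fun A : Finset ι => Complex.exp (Complex.I *
          ((α * (F A - Ex q F) + β * (((A.card : ℝ) - n) / Real.sqrt n) : ℝ) : ℂ))) -
        Complex.exp ((-(Vr q fun A : Finset ι =>
          α * F A + β * ((A.card : ℝ) / Real.sqrt n)) / 2 : ℝ) : ℂ)‖
        ≤ η * (1 + |α| + |β|) ^ 4)
    (hlow : ∀ β : ℝ, c ≤ Vr q fun A : Finset ι => F A + β * ((A.card : ℝ) / Real.sqrt n)) :
    ∃ s : ℝ, Real.sqrt c ≤ s ∧ ∀ t a₀ B δ : ℝ, |t| / Real.sqrt c ≤ a₀ → 0 < δ → δ ≤ 1 →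
      1 + a₀ + a₀ * Real.sqrt (2 * C) ≤ B →
      η * R4 B δ ≤ δ * (Real.sqrt (1 + 1 / δ ^ 2))⁻¹ / 2 →
      η * R4 B (2 * δ) ≤ (Real.sqrt (1 + 1 / δ ^ 2))⁻¹ →
      ‖((((Fintype.card ι).choose n : ℂ))⁻¹ *
        ∑ A ∈ (Finset.univ : Finset ι).powersetCard n, Complex.exp (Complex.I *
          ((t * ((F A - Ex q F) / s) : ℝ) : ℂ))) -
        Complex.exp ((-(t ^ 2) / 2 : ℝ) : ℂ)‖ ≤
        (12 * (a₀ * (2 * Real.sqrt C + Real.sqrt (2 * C))) + 4) * δ := by
  have hn0 : (0 : ℝ) < n := by exact_mod_cast hn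
  have hsn : 0 < Real.sqrt n := Real.sqrt_pos.mpr hn0
  have hg : 0 < Fintype.card ι := by omega
  have hg' : (0 : ℝ) < Fintype.card ι := by exact_mod_cast hg
  have hq0 : 0 ≤ q := by rw [hq]; positivity
  have hq2 : q ≤ 1 / 2 := by
    rw [hq, div_le_iff₀ hg']
    have : (2 : ℝ) * n ≤ Fintype.card ι := by exact_mod_cast h2n
    linarith
  have hq1 : q ≤ 1 := by linarith
  have hη : 0 ≤ η := by
    have h := (norm_nonneg _).trans (hchar 0 0)
    simpa using h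
  -- variance algebra
  set X : Finset ι → ℝ := fun A => (A.card : ℝ) / Real.sqrt n with hX
  set v := Vr q F with hv
  set θ := Vr q X with hθ
  set k := Cv q F X with hk
  have hθe : θ = 1 - q := Vr_xs n hn q hg hq
  have hθ1 : θ ≤ 1 := by rw [hθe]; linarith
  have hθ2 : 1 / 2 ≤ θ := by rw [hθe]; linarith
  have hθ0 : 0 < θ := by linarith
  have hv0 : 0 ≤ v := Vr_nonneg hq0 hq1 F
  have hC0 : 0 ≤ C := hv0.trans hV
  have hcs : k ^ 2 ≤ v * θ := Cv_sq_le hq0 hq1 F X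
  set k' := k / θ with hk'
  have hk'le : |k'| ≤ Real.sqrt (2 * C) := by
    refine Real.abs_le_sqrt ?_
    rw [hk', div_pow, div_le_iff₀ (by positivity)]
    have h1 : v * θ ≤ C * θ := mul_le_mul_of_nonneg_right hV hθ0.le
    have h2 : C * θ ≤ 2 * C * θ ^ 2 := by nlinarith [mul_nonneg hC0 hθ0.le]
    linarith
  set s2 := v - k ^ 2 / θ with hs2
  have hs2c : c ≤ s2 := by
    have h1 := hlow (-k')
    have h2 : (fun A : Finset ι => F A + -k' * ((A.card : ℝ) / Real.sqrt n)) =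
        fun A => 1 * F A + (-k') * X A := by funext A; simp [hX]
    rw [h2, Vr_comb] at h1
    have h3 : 1 ^ 2 * Vr q F + 2 * 1 * -k' * Cv q F X + (-k') ^ 2 * Vr q X = s2 := by
      rw [← hv, ← hk, ← hθ, hs2, hk']
      field_simp
      ring
    linarith
  have hs20 : 0 < s2 := lt_of_lt_of_le hc hs2c
  refine ⟨Real.sqrt s2, Real.sqrt_le_sqrt hs2c, ?_⟩
  intro t a₀ B δ hta hδ hδ1 hB hr1 hr2
  set s := Real.sqrt s2 with hs
  have hs0 : 0 < s := Real.sqrt_pos.mpr hs20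
  have hss : s ^ 2 = s2 := Real.sq_sqrt hs20.le
  have hsc : Real.sqrt c ≤ s := Real.sqrt_le_sqrt hs2c
  have hc' : 0 < Real.sqrt c := Real.sqrt_pos.mpr hc
  set a := t / s with ha
  have haa : |a| ≤ a₀ := by
    rw [ha, abs_div, abs_of_pos hs0]
    refine le_trans ?_ hta
    exact div_le_div_of_nonneg_left (abs_nonneg t) hc' hsc
  have ha₀ : 0 ≤ a₀ := (abs_nonneg a).trans haa
  set x : Finset ι → ℝ := fun A => ((A.card : ℝ) - n) / Real.sqrt n with hx
  set f : Finset ι → ℝ := fun A => F A - Ex q F with hf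
  set Φ : Finset ι → ℂ := fun A => Complex.exp (Complex.I * ((a * (f A - k' * x A) : ℝ) : ℂ))
    with hΦ
  set J := (Real.sqrt (1 + θ / δ ^ 2))⁻¹ with hJ
  set J2 := (Real.sqrt (1 + θ / (2 * δ) ^ 2))⁻¹ with hJ2
  have hδ2 : 0 < δ ^ 2 := by positivity
  have hJ0 : 0 < J := by
    rw [hJ]; exact inv_pos.mpr (Real.sqrt_pos.mpr (by positivity))
  have hj0 : (Real.sqrt (1 + 1 / δ ^ 2))⁻¹ ≤ J := by
    rw [hJ]
    refine inv_anti₀ (Real.sqrt_pos.mpr (by positivity)) (Real.sqrt_le_sqrt ?_)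
    have : θ / δ ^ 2 ≤ 1 / δ ^ 2 := div_le_div_of_nonneg_right hθ1 hδ2.le
    linarith
  have hJJ : J2 ≤ 2 * J := by
    rw [hJ, hJ2]
    have h1 : Real.sqrt (1 + θ / δ ^ 2) ≤ 2 * Real.sqrt (1 + θ / (2 * δ) ^ 2) := by
      have h2 : (2 : ℝ) * Real.sqrt (1 + θ / (2 * δ) ^ 2) =
          Real.sqrt (4 * (1 + θ / (2 * δ) ^ 2)) := by
        rw [Real.sqrt_mul (by norm_num)]
        congr 1
        rw [show (4 : ℝ) = 2 ^ 2 by norm_num, Real.sqrt_sq (by norm_num)]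
      rw [h2]
      refine Real.sqrt_le_sqrt ?_
      have : 4 * (1 + θ / (2 * δ) ^ 2) = 4 + θ / δ ^ 2 := by
        field_simp
        ring
      rw [this]; linarith
    have h3 : 0 < Real.sqrt (1 + θ / δ ^ 2) := Real.sqrt_pos.mpr (by positivity)
    have h4 : 0 < Real.sqrt (1 + θ / (2 * δ) ^ 2) := Real.sqrt_pos.mpr (by positivity)
    rw [inv_eq_one_div, inv_eq_one_div, mul_one_div, div_le_div_iff₀ h4 h3]
    linarith
  -- the quadratic form
  have hform : ∀ α β : ℝ, (Vr q fun A : Finset ι => α * F A + β * ((A.card : ℝ) / Real.sqrt n)) =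
      α ^ 2 * s2 + (β + α * k') ^ 2 * θ := by
    intro α β
    have h1 := Vr_comb q α β F X
    rw [← hv, ← hk, ← hθ] at h1
    refine h1.trans ?_
    rw [hs2, hk']
    field_simp
    ring
  have hchar' : ∀ α β : ℝ, ‖Ex q (fun A : Finset ι => Complex.exp (Complex.I *
          ((α * f A + β * x A : ℝ) : ℂ))) -
        Complex.exp ((-(α ^ 2 * s2 + (β + α * k') ^ 2 * θ) / 2 : ℝ) : ℂ)‖
        ≤ η * (1 + |α| + |β|) ^ 4 := by
    intro α β
    have h := hchar α β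
    rw [hform] at h
    exact h
  -- layer regularity
  have hreg : ∀ m : ℕ, m ≤ Fintype.card ι → ‖U m Φ - U n Φ‖ ≤
      |a| * (2 * Real.sqrt C + Real.sqrt (2 * C)) * |((m : ℝ) - n) / Real.sqrt n| := by
    intro m hm
    refine U_reg n hn (by omega) Φ F C |a| (Real.sqrt (2 * C)) (abs_nonneg _)
      (Real.sqrt_nonneg _) hC ?_ m hm
    intro A z hz
    rw [hΦ]
    refine (exp_lip _ _).trans ?_
    rw [← mul_sub, abs_mul]
    refine mul_le_mul_of_nonneg_left ?_ (abs_nonneg _)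
    have hcard : ((A.erase z).card : ℝ) = (A.card : ℝ) - 1 := by
      rw [Finset.card_erase_of_mem hz, Nat.cast_sub (Finset.card_pos.mpr ⟨z, hz⟩)]
      simp
    have e1 : f A - k' * x A - (f (A.erase z) - k' * x (A.erase z)) =
        (F A - F (A.erase z)) - k' / Real.sqrt n := by
      simp only [hf, hx, hcard]
      field_simp
      ring
    rw [e1]
    refine (abs_sub _ _).trans ?_
    have h3 : |k' / Real.sqrt n| ≤ Real.sqrt (2 * C) / Real.sqrt n := by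
      rw [abs_div, abs_of_pos hsn]
      exact div_le_div_of_nonneg_right hk'le hsn.le
    linarith
  have hK : 0 ≤ 2 * Real.sqrt C + Real.sqrt (2 * C) := by positivity
  have hlc := layer_close q δ (2 * Real.sqrt C + Real.sqrt (2 * C)) |a| n hn hq0 hq1 hδ hK
    (abs_nonneg a) Φ hreg
  have hak : |a * k'| ≤ a₀ * Real.sqrt (2 * C) := by
    rw [abs_mul]
    exact mul_le_mul haa hk'le (abs_nonneg _) ha₀
  have hBa : 1 + |a| + |a * k'| ≤ B := by linarith
  have hB0 : 1 + |(0 : ℝ)| + |0 * k'| ≤ B := by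
    have : 0 ≤ a₀ * Real.sqrt (2 * C) := by positivity
    simp only [abs_zero, zero_mul]
    linarith
  have hsm := smooth_close q δ η a k' s2 θ B hδ hη hθ0.le f x hBa (hchar' a)
  have hsm0 := smooth_close q δ η 0 k' s2 θ B hδ hη hθ0.le f x hB0 (hchar' 0)
  have hsm2 := smooth_close q (2 * δ) η 0 k' s2 θ B (by positivity) hη hθ0.le f x hB0 (hchar' 0)
  -- the two expectations of the weights
  have hreal : ∀ δ' : ℝ, Ex q (fun A : Finset ι => ((psi δ' (x A) : ℝ) : ℂ) *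
        Complex.exp (Complex.I * ((0 * (f A - k' * x A) : ℝ) : ℂ))) =
      ((Ex q (fun A : Finset ι => psi δ' (x A)) : ℝ) : ℂ) := by
    intro δ'
    unfold Ex
    rw [Complex.ofReal_sum]
    refine Finset.sum_congr rfl fun A _ => ?_
    simp
  rw [hreal] at hsm0 hsm2
  have h01 : Complex.exp ((-((0 : ℝ) ^ 2 * s2) / 2 : ℝ) : ℂ) = 1 := by simp
  rw [h01, one_mul, ← Complex.ofReal_sub, Complex.norm_real, Real.norm_eq_abs] at hsm0 hsm2
  have hE2 : Ex q (fun A : Finset ι => psi (2 * δ) (x A)) ≤ J2 + η * R4 B (2 * δ) := by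
    have := (abs_le.mp hsm2).2
    linarith
  have hexp1 : ‖Complex.exp ((-(a ^ 2 * s2) / 2 : ℝ) : ℂ)‖ ≤ 1 := by
    rw [← Complex.ofReal_exp, Complex.norm_real, Real.norm_of_nonneg (Real.exp_pos _).le]
    refine Real.exp_le_one_iff.mpr ?_
    have : 0 ≤ a ^ 2 * s2 := by positivity
    linarith
  have hj00 : 0 < (Real.sqrt (1 + 1 / δ ^ 2))⁻¹ :=
    inv_pos.mpr (Real.sqrt_pos.mpr (by positivity))
  have hrJ : η * R4 B δ ≤ J / 2 := by
    have h1 : δ * (Real.sqrt (1 + 1 / δ ^ 2))⁻¹ / 2 ≤ J / 2 := by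
      have : δ * (Real.sqrt (1 + 1 / δ ^ 2))⁻¹ ≤ 1 * J :=
        mul_le_mul hδ1 hj0 hj00.le (by norm_num)
      linarith
    linarith
  have hrJ2 : η * R4 B δ ≤ δ * J := by
    have h1 : δ * (Real.sqrt (1 + 1 / δ ^ 2))⁻¹ ≤ δ * J := mul_le_mul_of_nonneg_left hj0 hδ.le
    have h2 : 0 < δ * (Real.sqrt (1 + 1 / δ ^ 2))⁻¹ := by positivity
    linarith
  have haK : 0 ≤ |a| * (2 * Real.sqrt C + Real.sqrt (2 * C)) := by positivity
  have hfin := concl _ (U n Φ) _ _ _ J J2 (η * R4 B δ) (η * R4 B (2 * δ)) |a|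
    (2 * Real.sqrt C + Real.sqrt (2 * C)) δ haK hδ hJ0 hlc hsm hsm0 hE2 hJJ hexp1 hrJ hrJ2
    (hr2.trans hj0)
  -- identification
  have hU : U n Φ = ((((Fintype.card ι).choose n : ℂ))⁻¹ *
        ∑ A ∈ (Finset.univ : Finset ι).powersetCard n, Complex.exp (Complex.I *
          ((t * ((F A - Ex q F) / s) : ℝ) : ℂ))) := by
    unfold U
    congr 1
    refine Finset.sum_congr rfl fun A hA => ?_
    rw [Finset.mem_powersetCard] at hA
    simp only [hΦ, hx, hf, hA.2, sub_self, zero_div, mul_zero, sub_zero]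
    congr 3
    rw [ha]
    ring
  have hexp2 : (-(a ^ 2 * s2) / 2 : ℝ) = (-(t ^ 2) / 2 : ℝ) := by
    rw [ha, ← hss, div_pow]
    field_simp
  rw [hU, hexp2] at hfin
  refine hfin.trans ?_
  refine mul_le_mul_of_nonneg_right ?_ hδ.le
  have := mul_le_mul_of_nonneg_right haa hK
  linarith

end fin

theorem main : Pool.Agent.N940.TSP.S_DEP := by
  intro ι _ _ F q C c η n₀ hC hc hη h1 h2 h3 h4 h5
  have hcore : ∀ n, n₀ ≤ n → ∃ s : ℝ, Real.sqrt c ≤ s ∧
      ∀ t a₀ B δ : ℝ, |t| / Real.sqrt c ≤ a₀ → 0 < δ → δ ≤ 1 →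
      1 + a₀ + a₀ * Real.sqrt (2 * C) ≤ B →
      η n * R4 B δ ≤ δ * (Real.sqrt (1 + 1 / δ ^ 2))⁻¹ / 2 →
      η n * R4 B (2 * δ) ≤ (Real.sqrt (1 + 1 / δ ^ 2))⁻¹ →
      ‖((((Fintype.card (ι n)).choose n : ℂ))⁻¹ *
        ∑ A ∈ (Finset.univ : Finset (ι n)).powersetCard n, Complex.exp (Complex.I *
          ((t * ((F n A - Ex (q n) (F n)) / s) : ℝ) : ℂ))) -
        Complex.exp ((-(t ^ 2) / 2 : ℝ) : ℂ)‖ ≤
        (12 * (a₀ * (2 * Real.sqrt C + Real.sqrt (2 * C))) + 4) * δ := fun n hn =>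
    core (F n) (q n) C c (η n) n hc (h1 n hn).1 (h1 n hn).2.1 (h1 n hn).2.2 (h2 n hn) (h3 n hn)
      (h4 n hn) (h5 n hn)
  choose! s hs using hcore
  refine ⟨Real.sqrt c, fun n => if n₀ ≤ n then s n else Real.sqrt c, Real.sqrt_pos.mpr hc, ?_, ?_⟩
  · intro n
    by_cases hn : n₀ ≤ n
    · simp only [hn, if_true]
      exact (hs n hn).1
    · simp only [hn, if_false]
      exact le_refl _
  · intro t
    rw [Metric.tendsto_atTop]
    intro ε hε
    set a₀ := |t| / Real.sqrt c with ha₀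
    have ha₀0 : 0 ≤ a₀ := by positivity
    set B := 1 + a₀ + a₀ * Real.sqrt (2 * C) with hB
    set K := 12 * (a₀ * (2 * Real.sqrt C + Real.sqrt (2 * C))) + 4 with hK
    have hK0 : 0 < K := by positivity
    set δ := min 1 (ε / (2 * K)) with hδd
    have hδ0 : 0 < δ := lt_min one_pos (by positivity)
    have hδ1 : δ ≤ 1 := min_le_left _ _
    have hKδ : K * δ < ε := by
      have : δ ≤ ε / (2 * K) := min_le_right _ _
      calc K * δ ≤ K * (ε / (2 * K)) := mul_le_mul_of_nonneg_left this hK0.le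
        _ = ε / 2 := by field_simp
        _ < ε := by linarith
    have hj00 : 0 < (Real.sqrt (1 + 1 / δ ^ 2))⁻¹ :=
      inv_pos.mpr (Real.sqrt_pos.mpr (by positivity))
    have e1 : ∀ᶠ n in atTop, η n * R4 B δ < δ * (Real.sqrt (1 + 1 / δ ^ 2))⁻¹ / 2 := by
      have h : Tendsto (fun n => η n * R4 B δ) atTop (𝓝 (0 * R4 B δ)) := hη.mul_const _
      rw [zero_mul] at h
      exact h.eventually_lt_const (by positivity)
    have e2 : ∀ᶠ n in atTop, η n * R4 B (2 * δ) < (Real.sqrt (1 + 1 / δ ^ 2))⁻¹ := by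
      have h : Tendsto (fun n => η n * R4 B (2 * δ)) atTop (𝓝 (0 * R4 B (2 * δ))) :=
        hη.mul_const _
      rw [zero_mul] at h
      exact h.eventually_lt_const hj00
    obtain ⟨N, hN⟩ := (e1.and (e2.and (eventually_ge_atTop n₀))).exists_forall_of_atTop
    refine ⟨N, fun n hn => ?_⟩
    obtain ⟨g1, g2, g3⟩ := hN n hn
    rw [dist_eq_norm]
    simp only [g3, if_true]
    exact lt_of_le_of_lt ((hs n g3).2 t a₀ B δ le_rfl hδ0 hδ1 le_rfl g1.le g2.le) hKδ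

end Pool.Agent.N940.TSP.Dep
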