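import Pool.Agent.N940.TSP.Mod

/-!
# Localization of the tour length at a square

`main : S_CUT → S_BASIC → S_LOC` (statements in `Stm.lean` and `Mod.lean`).
-/

set_option autoImplicit false

namespace Pool.Agent.N940.TSP.Loc

open Finset

/-! ### arithmetic -/

lemma div_eq_iff' {a b c : ℕ} (hb : 0 < b) : a / b = c ↔ b * c ≤ a ∧ a < b * c + b := by
  rw [Nat.div_eq_iff hb]
  constructor
  · rintro ⟨h1, h2⟩
    constructor
    · linarith
    · have : c * b + b - 1 < c * b + b := by omega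
      nlinarith
  · rintro ⟨h1, h2⟩
    constructor
    · linarith
    · have : a < c * b + b := by linarith
      omega

lemma one {a M s c : ℕ} (hM : 0 < M) (hs : 0 < s) :
    ((s : ℝ) * (c : ℝ) ≤ (a : ℝ) / M ∧ (a : ℝ) / M < (s : ℝ) * (c : ℝ) + s) ↔
      a / (M * s) = c := by
  have hM' : (0 : ℝ) < M := by exact_mod_cast hM
  rw [le_div_iff₀ hM', div_lt_iff₀ hM', div_eq_iff' (Nat.mul_pos hM hs)]
  constructor
  · rintro ⟨h1, h2⟩
    constructor
    · have : ((M * s * c : ℕ) : ℝ) ≤ (a : ℝ) := by push_cast; linarith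
      exact_mod_cast this
    · have : (a : ℝ) < ((M * s * c + M * s : ℕ) : ℝ) := by push_cast; linarith
      exact_mod_cast this
  · rintro ⟨h1, h2⟩
    have h1' : ((M * s * c : ℕ) : ℝ) ≤ (a : ℝ) := by exact_mod_cast h1
    have h2' : (a : ℝ) < ((M * s * c + M * s : ℕ) : ℝ) := by exact_mod_cast h2
    push_cast at h1' h2'
    constructor <;> linarith

lemma two {K p a c : ℕ} (hK : 0 < K) (hp : 0 < p) :
    (((K * p : ℕ) : ℝ) * (c : ℝ) ≤ (K : ℝ) * (a : ℝ) ∧
      (K : ℝ) * (a : ℝ) < ((K * p : ℕ) : ℝ) * (c : ℝ) + ((K * p : ℕ) : ℝ)) ↔ a / p = c := by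
  have hK' : (0 : ℝ) < K := by exact_mod_cast hK
  rw [div_eq_iff' hp]
  push_cast
  constructor
  · rintro ⟨h1, h2⟩
    constructor
    · have : ((p * c : ℕ) : ℝ) ≤ (a : ℝ) := by
        push_cast
        refine le_of_mul_le_mul_left ?_ hK'
        linarith
      exact_mod_cast this
    · have : (a : ℝ) < ((p * c + p : ℕ) : ℝ) := by
        push_cast
        refine lt_of_mul_lt_mul_left ?_ hK'.le
        linarith
      exact_mod_cast this
  · rintro ⟨h1, h2⟩
    have h1' : ((p * c : ℕ) : ℝ) ≤ (a : ℝ) := by exact_mod_cast h1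
    have h2' : (a : ℝ) < ((p * c + p : ℕ) : ℝ) := by exact_mod_cast h2
    push_cast at h1' h2'
    constructor
    · have := mul_le_mul_of_nonneg_left h1' hK'.le
      linarith
    · have := mul_lt_mul_of_pos_left h2' hK'
      linarith

/-- the lower left corner of a square of side `K` -/
noncomputable def an (K : ℕ) (v : ℕ × ℕ) : ℂ := ⟨(K : ℝ) * (v.1 : ℝ), (K : ℝ) * (v.2 : ℝ)⟩

lemma sp_mem {N K M s : ℕ} (hM : 0 < M) (hs : 0 < s) (c : ℕ × ℕ) (k : Ix N K M) :
    sp N K M k ∈ sq s c ↔ lb N K M s k = c := by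
  have h1 := one (a := (k.1 : ℕ)) (c := c.1) hM hs
  have h2 := one (a := (k.2 : ℕ)) (c := c.2) hM hs
  unfold sq sp lb
  simp only [Set.mem_ofPred_eq]
  rw [Prod.ext_iff]
  simp only
  rw [← h1, ← h2]
  tauto

lemma an_mem {K p : ℕ} (hK : 0 < K) (hp : 0 < p) (c v : ℕ × ℕ) :
    an K v ∈ sq (K * p) c ↔ (v.1 / p = c.1 ∧ v.2 / p = c.2) := by
  have h1 := two (a := v.1) (c := c.1) hK hp
  have h2 := two (a := v.2) (c := c.2) hK hp
  unfold sq an
  simp only [Set.mem_ofPred_eq]
  rw [← h1, ← h2]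
  tauto

lemma mem_bl {N K M s : ℕ} (c : ℕ × ℕ) (k : Ix N K M) :
    k ∈ bl N K M s c ↔ lb N K M s k = c := by
  unfold bl
  simp

lemma lb_lb {N K M : ℕ} (p : ℕ) (k : Ix N K M) :
    lb N K M (K * p) k = ((lb N K M K k).1 / p, (lb N K M K k).2 / p) := by
  unfold lb
  simp only [Nat.div_div_eq_div_mul, mul_assoc]

/-- a cell of a square of side `K` belongs to `Q` iff the anchor of the square does -/
lemma bl_iff {N K M p : ℕ} (hK : 0 < K) (hp : 0 < p) (c : ℕ × ℕ) (k : Ix N K M) :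
    k ∈ bl N K M (K * p) c ↔ an K (lb N K M K k) ∈ sq (K * p) c := by
  rw [mem_bl, an_mem hK hp, lb_lb, Prod.ext_iff]

lemma lb_lt {N K M : ℕ} (hK : 0 < K) (hM : 0 < M) (k : Ix N K M) :
    (lb N K M K k).1 < N ∧ (lb N K M K k).2 < N := by
  have h1 := k.1.2
  have h2 := k.2.2
  have e : N * K * M = N * (M * K) := by ring
  unfold lb
  exact ⟨(Nat.div_lt_iff_lt_mul (Nat.mul_pos hM hK)).2 (h1.trans_eq e),
    (Nat.div_lt_iff_lt_mul (Nat.mul_pos hM hK)).2 (h2.trans_eq e)⟩

/-! ### the set `plus` -/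

lemma mem_plus {N K M : ℕ} (A : Finset (Ix N K M)) (z : ℂ) :
    z ∈ plus N K M A ↔ (∃ k ∈ A, z = sp N K M k) ∨
      ∃ v : ℕ × ℕ, v.1 < N ∧ v.2 < N ∧ (∀ k ∈ A, lb N K M K k ≠ v) ∧ z = an K v := Iff.rfl

lemma plus_finite {N K M : ℕ} (A : Finset (Ix N K M)) : (plus N K M A).Finite := by
  have h1 : ((A.image (sp N K M) : Finset ℂ) : Set ℂ).Finite := Finset.finite_toSet _
  have h2 : (((range N ×ˢ range N).image (an K) : Finset ℂ) : Set ℂ).Finite :=
    Finset.finite_toSet _
  refine (h1.union h2).subset ?_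
  intro z hz
  rcases (mem_plus A z).1 hz with ⟨k, hk, rfl⟩ | ⟨v, hv1, hv2, -, rfl⟩
  · left
    simp only [coe_image, Set.mem_image, mem_coe]
    exact ⟨k, hk, rfl⟩
  · right
    simp only [coe_image, Set.mem_image, mem_coe, mem_product, mem_range]
    exact ⟨v, ⟨hv1, hv2⟩, rfl⟩

lemma plus_mix {N K M p : ℕ} (hK : 0 < K) (hM : 0 < M) (hp : 0 < p) (c : ℕ × ℕ)
    (A Z : Finset (Ix N K M)) :
    plus N K M (mix (bl N K M (K * p) c) A Z) =
      (plus N K M A ∩ sq (K * p) c) ∪ (plus N K M Z \ sq (K * p) c) := by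
  have hs : 0 < K * p := Nat.mul_pos hK hp
  ext z
  constructor
  · intro hz
    rcases (mem_plus _ z).1 hz with ⟨k, hk, rfl⟩ | ⟨v, hv1, hv2, hv, rfl⟩
    · rcases mem_mix.1 hk with ⟨hA, hB⟩ | ⟨hZ, hB⟩
      · left
        refine ⟨Or.inl ⟨k, hA, rfl⟩, ?_⟩
        rw [sp_mem hM hs, ← mem_bl]
        exact hB
      · right
        refine ⟨Or.inl ⟨k, hZ, rfl⟩, ?_⟩
        rw [sp_mem hM hs, ← mem_bl]
        exact hB
    · by_cases hQ : an K v ∈ sq (K * p) c
      · left
        refine ⟨Or.inr ⟨v, hv1, hv2, ?_, rfl⟩, hQ⟩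
        intro k hk hkv
        refine hv k ?_ hkv
        rw [mem_mix]
        left
        refine ⟨hk, ?_⟩
        rw [bl_iff hK hp, hkv]
        exact hQ
      · right
        refine ⟨Or.inr ⟨v, hv1, hv2, ?_, rfl⟩, hQ⟩
        intro k hk hkv
        refine hv k ?_ hkv
        rw [mem_mix]
        right
        refine ⟨hk, ?_⟩
        rw [bl_iff hK hp, hkv]
        exact hQ
  · rintro (⟨hz, hQ⟩ | ⟨hz, hQ⟩)
    · rcases (mem_plus _ z).1 hz with ⟨k, hk, rfl⟩ | ⟨v, hv1, hv2, hv, rfl⟩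
      · left
        refine ⟨k, ?_, rfl⟩
        rw [mem_mix]
        left
        refine ⟨hk, ?_⟩
        rwa [mem_bl, ← sp_mem hM hs]
      · right
        refine ⟨v, hv1, hv2, ?_, rfl⟩
        intro k hk hkv
        have hB : k ∈ bl N K M (K * p) c := by
          rw [bl_iff hK hp, hkv]
          exact hQ
        rcases mem_mix.1 hk with ⟨hA, -⟩ | ⟨-, hB'⟩
        · exact hv k hA hkv
        · exact hB' hB
    · rcases (mem_plus _ z).1 hz with ⟨k, hk, rfl⟩ | ⟨v, hv1, hv2, hv, rfl⟩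
      · left
        refine ⟨k, ?_, rfl⟩
        rw [mem_mix]
        right
        refine ⟨hk, ?_⟩
        rwa [mem_bl, ← sp_mem hM hs]
      · right
        refine ⟨v, hv1, hv2, ?_, rfl⟩
        intro k hk hkv
        have hB : k ∉ bl N K M (K * p) c := by
          rw [bl_iff hK hp, hkv]
          exact hQ
        rcases mem_mix.1 hk with ⟨-, hB'⟩ | ⟨hZ, -⟩
        · exact hB hB'
        · exact hv k hZ hkv

/-! ### geometry of the square -/

lemma dist_le {s : ℕ} {c : ℕ × ℕ} {a b : ℂ} (ha : a ∈ sq s c) (hb : b ∈ sq s c) :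
    2 * dist a b ≤ 3 * s := by
  obtain ⟨a1, a2, a3, a4⟩ := ha
  obtain ⟨b1, b2, b3, b4⟩ := hb
  have hs : (0 : ℝ) ≤ s := Nat.cast_nonneg _
  have h : dist a b ≤ 3 / 2 * s := by
    rw [Complex.dist_eq_re_im]
    rw [Real.sqrt_le_iff]
    refine ⟨by positivity, ?_⟩
    have h1 : (a.re - b.re) ^ 2 ≤ (s : ℝ) ^ 2 := by
      apply sq_le_sq'
      · linarith
      · linarith
    have h2 : (a.im - b.im) ^ 2 ≤ (s : ℝ) ^ 2 := by
      apply sq_le_sq'
      · linarith
      · linarith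
    nlinarith [sq_nonneg (s : ℝ)]
  linarith

lemma tsp_card (hbasic : S_BASIC) {s : ℕ} {c : ℕ × ℕ} (F : Finset ℂ) :
    (∀ z ∈ F, z ∈ sq s c) → tsp (F : Set ℂ) ≤ 3 * s * F.card := by
  obtain ⟨-, ⟨h0, h1⟩, -, hins, -⟩ := hbasic
  induction F using Finset.induction_on with
  | empty =>
    intro _
    simp [h0]
  | insert w F hw ih =>
    intro hF
    have ih' := ih fun z hz => hF z (mem_insert_of_mem hz)
    rw [card_insert_of_notMem hw, coe_insert]
    push_cast
    rcases F.eq_empty_or_nonempty with rfl | ⟨a, ha⟩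
    · simp only [coe_empty, insert_empty_eq, h1]
      positivity
    · have h2 := hins (F : Set ℂ) F.finite_toSet a (mem_coe.2 ha) w
      have h3 := dist_le (hF a (mem_insert_of_mem ha)) (hF w (mem_insert_self w F))
      linarith

theorem main (hcut : S_CUT) (hbasic : S_BASIC) : S_LOC := by
  have hbasic' := hbasic
  obtain ⟨hnn, ⟨h0, h1⟩, hmono, hins, hun, -⟩ := hbasic
  rintro N K M s hN hK hM hs ⟨p, rfl⟩ c
  have hp : 0 < p := by
    rcases Nat.eq_zero_or_pos p with rfl | h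
    · simp at hs
    · exact h
  have hs' : (0 : ℝ) < ((K * p : ℕ) : ℝ) := by exact_mod_cast hs
  constructor
  · by_cases hex : ∃ v : ℕ × ℕ, v.1 < N ∧ v.2 < N ∧ an K v ∈ sq (K * p) c
    · obtain ⟨v, hv1, hv2, hvQ⟩ := hex
      -- every configuration has a point in the square
      have hne : ∀ A : Finset (Ix N K M), (plus N K M A ∩ sq (K * p) c).Nonempty := by
        intro A
        by_cases hA : ∀ k ∈ A, lb N K M K k ≠ v
        · exact ⟨an K v, Or.inr ⟨v, hv1, hv2, hA, rfl⟩, hvQ⟩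
        · push Not at hA
          obtain ⟨k, hk, hkv⟩ := hA
          refine ⟨sp N K M k, Or.inl ⟨k, hk, rfl⟩, ?_⟩
          rw [sp_mem hM hs, ← mem_bl, bl_iff hK hp, hkv]
          exact hvQ
      set z : ℂ := ⟨((K * p : ℕ) : ℝ) * (c.1 : ℝ), ((K * p : ℕ) : ℝ) * (c.2 : ℝ)⟩ with hz
      have hzQ : z ∈ sq (K * p) c := by
        refine ⟨le_rfl, ?_, le_rfl, ?_⟩
        · simp only [hz]; linarith
        · simp only [hz]; linarith
      refine ⟨fun Z => tsp (insert z (plus N K M Z \ sq (K * p) c)), ?_⟩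
      intro A Z
      unfold fT
      rw [plus_mix hK hM hp c A Z]
      set P := plus N K M A ∩ sq (K * p) c with hP
      set H := plus N K M Z \ sq (K * p) c with hH
      have hPf : P.Finite := (plus_finite A).subset Set.inter_subset_left
      have hHf : H.Finite := (plus_finite Z).subset Set.sdiff_subset
      obtain ⟨a, ha⟩ := hne A
      have hlow := hcut (((K * p : ℕ) : ℝ) * (c.1 : ℝ)) (((K * p : ℕ) : ℝ) * (c.2 : ℝ))
        ((K * p : ℕ) : ℝ) hs' P H z hPf hHf ⟨a, ha⟩ (fun w hw => hw.2) (fun w hw => hw.2) hzQ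
      have hup1 : tsp (P ∪ H) ≤ tsp (insert z P ∪ insert z H) := by
        refine hmono _ _ ?_ ((hPf.insert z).union (hHf.insert z))
        exact Set.union_subset_union (Set.subset_insert _ _) (Set.subset_insert _ _)
      have hup2 := hun (insert z P) (insert z H) (hPf.insert z) (hHf.insert z) z
        (Set.mem_insert _ _) (Set.mem_insert _ _)
      have hup3 := hins P hPf a ha z
      have hd := dist_le ha.2 hzQ
      rw [abs_le]
      constructor
      · linarith
      · linarith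
    · -- the square contains no anchor, hence no point
      have hemp : ∀ A : Finset (Ix N K M), plus N K M A ∩ sq (K * p) c = ∅ := by
        intro A
        rw [Set.eq_empty_iff_forall_notMem]
        rintro w ⟨hw, hQ⟩
        rcases (mem_plus _ w).1 hw with ⟨k, hk, rfl⟩ | ⟨v, hv1, hv2, hv, rfl⟩
        · apply hex
          refine ⟨lb N K M K k, (lb_lt hK hM k).1, (lb_lt hK hM k).2, ?_⟩
          rwa [← bl_iff hK hp, mem_bl, ← sp_mem hM hs]
        · exact hex ⟨v, hv1, hv2, hQ⟩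
      refine ⟨fun Z => tsp (plus N K M Z \ sq (K * p) c), ?_⟩
      intro A Z
      unfold fT
      rw [plus_mix hK hM hp c A Z, hemp A, Set.empty_union, h0]
      simp only [sub_zero, sub_self, abs_zero]
      positivity
  · intro A
    have hKr : (0 : ℝ) < K := by exact_mod_cast hK
    have hpK : ((K * p : ℕ) : ℝ) / K = p := by
      push_cast
      field_simp
    rw [hpK]
    set F : Finset ℂ := (A ∩ bl N K M (K * p) c).image (sp N K M) ∪
      (Ico (p * c.1) (p * c.1 + p) ×ˢ Ico (p * c.2) (p * c.2 + p)).image (an K) with hF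
    have hFQ : ∀ w ∈ F, w ∈ sq (K * p) c := by
      intro w hw
      rw [hF, mem_union, mem_image, mem_image] at hw
      rcases hw with ⟨k, hk, rfl⟩ | ⟨v, hv, rfl⟩
      · rw [sp_mem hM hs, ← mem_bl]
        exact (mem_inter.1 hk).2
      · rw [an_mem hK hp, div_eq_iff' hp, div_eq_iff' hp]
        simp only [mem_product, mem_Ico] at hv
        exact hv
    have hsub : plus N K M A ∩ sq (K * p) c ⊆ (F : Set ℂ) := by
      rintro w ⟨hw, hQ⟩
      rw [mem_coe, hF, mem_union, mem_image, mem_image]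
      rcases (mem_plus _ w).1 hw with ⟨k, hk, rfl⟩ | ⟨v, hv1, hv2, hv, rfl⟩
      · left
        refine ⟨k, mem_inter.2 ⟨hk, ?_⟩, rfl⟩
        rwa [mem_bl, ← sp_mem hM hs]
      · right
        refine ⟨v, ?_, rfl⟩
        rw [an_mem hK hp, div_eq_iff' hp, div_eq_iff' hp] at hQ
        simp only [mem_product, mem_Ico]
        exact hQ
    have hcard : F.card ≤ (A ∩ bl N K M (K * p) c).card + p ^ 2 := by
      refine (card_union_le _ _).trans ?_
      refine add_le_add card_image_le (card_image_le.trans ?_)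
      rw [card_product, Nat.card_Ico, Nat.card_Ico, Nat.add_sub_cancel_left,
        Nat.add_sub_cancel_left, pow_two]
    have h2 := hmono _ _ hsub F.finite_toSet
    have h3 := tsp_card hbasic' F hFQ
    have h4 : (F.card : ℝ) ≤ ((A ∩ bl N K M (K * p) c).card : ℝ) + (p : ℝ) ^ 2 := by
      exact_mod_cast hcard
    have h5 := mul_le_mul_of_nonneg_left h4 (by positivity : (0 : ℝ) ≤ 3 * ((K * p : ℕ) : ℝ))
    linarith

end Pool.Agent.N940.TSP.Loc
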