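import Pool.Agent.N940.TSP.Stm

/-!
# The minimum over the permutations is `tsp`
-/

set_option autoImplicit false

namespace Pool.Agent.N940.TSP.PermEq

open Pool.Agent.N940.TSP

theorem len_nonneg : ∀ l : List ℂ, 0 ≤ len l
  | [] => le_refl _
  | [_] => le_refl _
  | x :: y :: l => by
      have h := len_nonneg (y :: l)
      have h2 : 0 ≤ dist x y := dist_nonneg
      simp only [len]
      linarith

theorem cyc_nonneg (l : List ℂ) : 0 ≤ cyc l := by
  cases l with
  | nil => exact le_refl _
  | cons x l => exact len_nonneg _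

theorem len_cons_le (a y : ℂ) (m : List ℂ) : len (a :: m) ≤ dist a y + len (y :: m) := by
  cases m with
  | nil =>
    simp only [len]
    have : 0 ≤ dist a y := dist_nonneg
    linarith
  | cons c m =>
    simp only [len]
    have := dist_triangle a y c
    linarith

theorem len_cons_append_le {l' l : List ℂ} (h : l'.Sublist l) :
    ∀ a b : ℂ, len (a :: (l' ++ [b])) ≤ len (a :: (l ++ [b])) := by
  induction h with
  | slnil => intro a b; exact le_refl _
  | @cons l₁ l₂ y _ ih =>
    intro a b
    refine (ih a b).trans ?_
    simp only [List.cons_append]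
    refine (len_cons_le a y (l₂ ++ [b])).trans (le_of_eq ?_)
    simp only [len]
  | @cons_cons l₁ l₂ y _ ih =>
    intro a b
    simp only [List.cons_append, len]
    have := ih y b
    linarith

theorem len_append_last (l : List ℂ) :
    ∀ a b c : ℂ, len (a :: (l ++ [b])) ≤ len (a :: (l ++ [c])) + dist c b := by
  induction l with
  | nil =>
    intro a b c
    simp only [List.nil_append, len]
    have := dist_triangle a c b
    linarith
  | cons y l ih =>
    intro a b c
    simp only [List.cons_append, len]
    have := ih y b c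
    linarith

theorem cyc_cons_le (x : ℂ) (l : List ℂ) : cyc l ≤ cyc (x :: l) := by
  cases l with
  | nil => exact cyc_nonneg _
  | cons y l =>
    have h := len_append_last l y y x
    simp only [cyc, List.cons_append, len]
    linarith

theorem cyc_sublist {l' l : List ℂ} (h : l'.Sublist l) : cyc l' ≤ cyc l := by
  induction h with
  | slnil => exact le_refl _
  | @cons l₁ l₂ y _ ih => exact ih.trans (cyc_cons_le y l₂)
  | @cons_cons l₁ l₂ y h _ => exact len_cons_append_le h y y

theorem len_ofFn_append : ∀ (k : ℕ) (g : Fin (k + 1) → ℂ) (b : ℂ),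
    len (List.ofFn g ++ [b]) =
      ∑ i : Fin k, dist (g i.castSucc) (g i.succ) + dist (g (Fin.last k)) b := by
  intro k
  induction k with
  | zero =>
    intro g b
    simp [len]
  | succ k ih =>
    intro g b
    have h := ih (fun i => g i.succ) b
    rw [List.ofFn_succ, List.ofFn_succ]
    rw [List.ofFn_succ] at h
    simp only [List.cons_append, len] at h ⊢
    rw [h, Fin.sum_univ_succ]
    simp only [Fin.castSucc_zero, Fin.succ_castSucc, Fin.succ_last]
    ring

theorem cyc_ofFn (n : ℕ) (f : Fin n → ℂ) :
    cyc (List.ofFn f) = ∑ i : Fin n, dist (f i) (f (finRotate n i)) := by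
  cases n with
  | zero => simp [cyc]
  | succ k =>
    have h := len_ofFn_append k f (f 0)
    rw [Fin.sum_univ_castSucc]
    have h2 : cyc (List.ofFn f) = len (List.ofFn f ++ [f 0]) := by
      rw [List.ofFn_succ]; rfl
    rw [h2, h]
    congr 1
    · refine Finset.sum_congr rfl fun i _ => ?_
      rw [finRotate_succ_apply, Fin.coeSucc_eq_succ]
    · rw [finRotate_last]

theorem bdd (F : Set ℂ) : BddBelow {r : ℝ | ∃ l : List ℂ, (∀ x ∈ F, x ∈ l) ∧ r = cyc l} :=
  ⟨0, by rintro r ⟨l, _, rfl⟩; exact cyc_nonneg l⟩

theorem exists_perm (n : ℕ) (x : Fin n → ℂ) (hx : Function.Injective x) (l : List ℂ)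
    (hl : l.Nodup) (hm : ∀ z, z ∈ l ↔ z ∈ Set.range x) :
    ∃ σ : Equiv.Perm (Fin n), l = List.ofFn fun i => x (σ i) := by
  classical
  have hlen : l.length = n := by
    have h1 : l.toFinset = Finset.univ.image x := by
      ext z
      rw [List.mem_toFinset, hm z]
      simp
    have h2 := congrArg Finset.card h1
    rw [List.toFinset_card_of_nodup hl, Finset.card_image_of_injective _ hx] at h2
    simpa using h2
  subst hlen
  have hg : ∀ i : Fin l.length, ∃ j, x j = l.get i := by
    intro i
    have := (hm (l.get i)).1 (List.get_mem l i)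
    exact this
  choose s hs using hg
  have hinj : Function.Injective s := by
    intro i j hij
    have : l.get i = l.get j := by rw [← hs i, ← hs j, hij]
    exact (List.nodup_iff_injective_get.1 hl) this
  refine ⟨Equiv.ofBijective s (Finite.injective_iff_bijective.1 hinj), ?_⟩
  have : (fun i => x ((Equiv.ofBijective s (Finite.injective_iff_bijective.1 hinj)) i)) =
      l.get := by
    funext i
    exact hs i
  rw [this, List.ofFn_get]

theorem main : S_PERM := by
  classical
  intro n x hx
  apply le_antisymm
  · have hne : {r : ℝ | ∃ l : List ℂ, (∀ z ∈ Set.range x, z ∈ l) ∧ r = cyc l}.Nonempty := by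
      refine ⟨cyc (List.ofFn x), List.ofFn x, ?_, rfl⟩
      rintro z ⟨i, rfl⟩
      exact (List.mem_ofFn' x (x i)).2 ⟨i, rfl⟩
    refine le_csInf hne ?_
    rintro r ⟨l, hl, rfl⟩
    have hnd : (l.dedup.filter fun z => decide (z ∈ Set.range x)).Nodup :=
      (List.nodup_dedup l).filter _
    have hsub : (l.dedup.filter fun z => decide (z ∈ Set.range x)).Sublist l :=
      List.filter_sublist.trans (List.dedup_sublist l)
    have hmem : ∀ z, z ∈ (l.dedup.filter fun z => decide (z ∈ Set.range x)) ↔
        z ∈ Set.range x := by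
      intro z
      rw [List.mem_filter, List.mem_dedup]
      constructor
      · rintro ⟨_, h⟩
        exact of_decide_eq_true h
      · intro h
        exact ⟨hl z h, decide_eq_true h⟩
    obtain ⟨σ, hσ⟩ := exists_perm n x hx _ hnd hmem
    refine le_trans ?_ (cyc_sublist hsub)
    rw [hσ, cyc_ofFn n fun i => x (σ i)]
    exact ciInf_le (Finite.bddBelow_range _) σ
  · refine le_ciInf fun σ => ?_
    refine csInf_le (bdd _) ⟨List.ofFn fun i => x (σ i), ?_, ?_⟩
    · rintro z ⟨i, rfl⟩
      exact (List.mem_ofFn' _ _).2 ⟨σ.symm i, by simp⟩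
    · exact (cyc_ofFn n fun i => x (σ i)).symm

end Pool.Agent.N940.TSP.PermEq
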