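import Pool.Agent.N940.TSP.Asm5
import Pool.Agent.N940.TSP.Abs
import Pool.Agent.N940.TSP.Basic
import Pool.Agent.N940.TSP.D1
import Pool.Agent.N940.TSP.Loc
import Pool.Agent.N940.TSP.Vlb
import Pool.Agent.N940.TSP.Link
import Pool.Agent.N940.TSP.Dep
import Pool.Agent.N940.TSP.Fin
import Pool.Agent.N940.TSP.PermEq

/-!
# The central limit theorem for the random planar travelling salesman tour
-/

set_option autoImplicit false

namespace Pool.Agent.N940.TSP

theorem clt_of_cut (hcut : S_CUT) : Frozen :=
  asm Abs.es Abs.mom Abs.clt (D1.main Basic.basic Basic.pack) (Loc.main hcut Basic.basic)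
    (Vlb.main hcut Basic.basic) Link.main Dep.main (FinStep.main PermEq.main Basic.basic)

end Pool.Agent.N940.TSP
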