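import Mathlib

/-!
# Closed tours in the plane

The plane is `ℂ` with its usual (Euclidean) distance.
-/

set_option autoImplicit false

namespace Pool.Agent.N940.TSP

/-- length of an open polygonal path -/
noncomputable def len : List ℂ → ℝ
  | [] => 0
  | [_] => 0
  | x :: y :: l => dist x y + len (y :: l)

/-- length of the closed tour visiting the points of the list in order -/
noncomputable def cyc : List ℂ → ℝ
  | [] => 0
  | x :: l => len (x :: (l ++ [x]))

/-- the infimum of the lengths of the closed tours which visit all points of `F` (and possibly
other points) -/
noncomputable def tsp (F : Set ℂ) : ℝ :=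
  sInf {r : ℝ | ∃ l : List ℂ, (∀ x ∈ F, x ∈ l) ∧ r = cyc l}

end Pool.Agent.N940.TSP
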