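import Pool.Agent.N940.TSP.Stm

/-!
# De-Poissonization, part 1: algebra of the Bernoulli subset and regularity of the layer averages
-/

set_option autoImplicit false
set_option linter.unusedSectionVars false
set_option linter.unusedVariables false
set_option linter.unusedSimpArgs false

open Filter Topology Finset

namespace Pool.Agent.N940.TSP.Dep

section alg

variable {ι : Type} [Fintype ι] [DecidableEq ι]

lemma mu_nonneg {q : ℝ} (h0 : 0 ≤ q) (h1 : q ≤ 1) (B : Finset ι) : 0 ≤ mu q B := by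
  unfold mu
  have : 0 ≤ 1 - q := by linarith
  positivity

lemma mu_eq (q : ℝ) (B : Finset ι) :
    mu q B = q ^ B.card * (1 - q) ^ (Fintype.card ι - B.card) := by
  unfold mu; rw [Finset.card_compl]

/-- weight of the layer `m` -/
noncomputable def Pm (g : ℕ) (q : ℝ) (m : ℕ) : ℝ := (g.choose m : ℝ) * q ^ m * (1 - q) ^ (g - m)

/-- average over the subsets with `m` elements -/
noncomputable def U (m : ℕ) (Φ : Finset ι → ℂ) : ℂ :=
  (((Fintype.card ι).choose m : ℂ))⁻¹ * ∑ A ∈ (univ : Finset ι).powersetCard m, Φ A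

lemma Pm_nonneg {q : ℝ} (h0 : 0 ≤ q) (h1 : q ≤ 1) (g m : ℕ) : 0 ≤ Pm g q m := by
  unfold Pm
  have : 0 ≤ 1 - q := by linarith
  positivity

lemma sum_by_card {M : Type*} [AddCommMonoid M] (f : Finset ι → M) :
    ∑ B : Finset ι, f B =
      ∑ m ∈ range (Fintype.card ι + 1), ∑ B ∈ (univ : Finset ι).powersetCard m, f B := by
  rw [← Finset.powerset_univ, Finset.sum_powerset]
  rfl

lemma sum_mu_layer {E : Type} [AddCommGroup E] [Module ℝ E] (q : ℝ) (w : ℕ → ℝ)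
    (Φ : Finset ι → E) :
    Ex q (fun B : Finset ι => w B.card • Φ B) =
      ∑ m ∈ range (Fintype.card ι + 1), (q ^ m * (1 - q) ^ (Fintype.card ι - m) * w m) •
        ∑ B ∈ (univ : Finset ι).powersetCard m, Φ B := by
  unfold Ex
  rw [sum_by_card]
  refine Finset.sum_congr rfl fun m _ => ?_
  rw [Finset.smul_sum]
  refine Finset.sum_congr rfl fun B hB => ?_
  rw [Finset.mem_powersetCard] at hB
  beta_reduce
  rw [mu_eq, smul_smul, hB.2]

lemma Ex_layer (q : ℝ) (w : ℕ → ℝ) (Φ : Finset ι → ℂ) :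
    Ex q (fun B : Finset ι => ((w B.card : ℝ) : ℂ) * Φ B) =
      ∑ m ∈ range (Fintype.card ι + 1),
        ((Pm (Fintype.card ι) q m * w m : ℝ) : ℂ) * U m Φ := by
  have h := sum_mu_layer q w Φ
  simp only [Complex.real_smul] at h
  rw [h]
  refine Finset.sum_congr rfl fun m hm => ?_
  have hm' : m ≤ Fintype.card ι := Nat.lt_succ_iff.mp (Finset.mem_range.mp hm)
  have hc : ((Fintype.card ι).choose m : ℂ) ≠ 0 := by
    exact_mod_cast (Nat.choose_pos hm').ne'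
  unfold U Pm
  push_cast
  field_simp

lemma Ex_card (q : ℝ) (w : ℕ → ℝ) :
    Ex q (fun B : Finset ι => w B.card) =
      ∑ m ∈ range (Fintype.card ι + 1), Pm (Fintype.card ι) q m * w m := by
  have h := sum_mu_layer (ι := ι) q w (fun _ => (1 : ℝ))
  simp only [smul_eq_mul, mul_one, Finset.sum_const, Finset.card_powersetCard,
    Finset.card_univ, nsmul_eq_mul] at h
  rw [h]
  refine Finset.sum_congr rfl fun m _ => ?_
  unfold Pm
  ring

lemma sum_Pm (g : ℕ) (q : ℝ) : ∑ m ∈ range (g + 1), Pm g q m = 1 := by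
  have h := congrArg (Polynomial.eval q) (bernsteinPolynomial.sum ℝ g)
  simp only [Polynomial.eval_finsetSum, bernsteinPolynomial, Polynomial.eval_mul,
    Polynomial.eval_pow, Polynomial.eval_natCast, Polynomial.eval_X, Polynomial.eval_sub,
    Polynomial.eval_one] at h
  exact h

lemma sum_Pm_mul (g : ℕ) (q : ℝ) : ∑ m ∈ range (g + 1), Pm g q m * m = g * q := by
  have h := congrArg (Polynomial.eval q) (bernsteinPolynomial.sum_smul ℝ g)
  simp only [Polynomial.eval_finsetSum, bernsteinPolynomial, Polynomial.eval_mul,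
    Polynomial.eval_pow, Polynomial.eval_natCast, Polynomial.eval_X, Polynomial.eval_sub,
    Polynomial.eval_one, nsmul_eq_mul] at h
  rw [← h]
  refine Finset.sum_congr rfl fun m _ => ?_
  unfold Pm
  ring

lemma sum_Pm_sq (g : ℕ) (q : ℝ) :
    ∑ m ∈ range (g + 1), Pm g q m * ((m : ℝ) - g * q) ^ 2 = g * q * (1 - q) := by
  have h := congrArg (Polynomial.eval q) (bernsteinPolynomial.variance ℝ g)
  simp only [Polynomial.eval_finsetSum, bernsteinPolynomial, Polynomial.eval_mul,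
    Polynomial.eval_pow, Polynomial.eval_natCast, Polynomial.eval_X, Polynomial.eval_sub,
    Polynomial.eval_one, nsmul_eq_mul] at h
  rw [← h]
  refine Finset.sum_congr rfl fun m _ => ?_
  unfold Pm
  ring

/-! ### linearity of `Ex` -/

lemma Ex_add {E : Type} [AddCommGroup E] [Module ℝ E] (q : ℝ) (f h : Finset ι → E) :
    Ex q (fun B => f B + h B) = Ex q f + Ex q h := by
  unfold Ex
  rw [← Finset.sum_add_distrib]
  exact Finset.sum_congr rfl fun B _ => smul_add _ _ _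

lemma Ex_mul_left (q a : ℝ) (f : Finset ι → ℝ) :
    Ex q (fun B => a * f B) = a * Ex q f := by
  unfold Ex
  rw [Finset.mul_sum]
  refine Finset.sum_congr rfl fun B _ => ?_
  simp only [smul_eq_mul]
  ring

lemma Ex_sub {E : Type} [AddCommGroup E] [Module ℝ E] (q : ℝ) (f h : Finset ι → E) :
    Ex q (fun B => f B - h B) = Ex q f - Ex q h := by
  unfold Ex
  rw [← Finset.sum_sub_distrib]
  exact Finset.sum_congr rfl fun B _ => smul_sub _ _ _

lemma Ex_one (q : ℝ) : Ex q (fun _ : Finset ι => (1 : ℝ)) = 1 := by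
  have h := Ex_card (ι := ι) q (fun _ => 1)
  rw [h]
  simpa using sum_Pm (Fintype.card ι) q

lemma Ex_const (q a : ℝ) : Ex q (fun _ : Finset ι => a) = a := by
  have h := Ex_mul_left (ι := ι) q a (fun _ => 1)
  simp only [mul_one] at h
  rw [h, Ex_one, mul_one]

lemma Ex_nonneg {q : ℝ} (h0 : 0 ≤ q) (h1 : q ≤ 1) (f : Finset ι → ℝ) (hf : ∀ B, 0 ≤ f B) :
    0 ≤ Ex q f := by
  unfold Ex
  exact Finset.sum_nonneg fun B _ => by
    simp only [smul_eq_mul]
    exact mul_nonneg (mu_nonneg h0 h1 B) (hf B)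

/-- covariance -/
noncomputable def Cv (q : ℝ) (f h : Finset ι → ℝ) : ℝ :=
  Ex q (fun B => (f B - Ex q f) * (h B - Ex q h))

lemma Vr_comb (q α β : ℝ) (f h : Finset ι → ℝ) :
    Vr q (fun A => α * f A + β * h A) =
      α ^ 2 * Vr q f + 2 * α * β * Cv q f h + β ^ 2 * Vr q h := by
  have e : Ex q (fun A => α * f A + β * h A) = α * Ex q f + β * Ex q h := by
    rw [Ex_add, Ex_mul_left, Ex_mul_left]
  have e2 : (fun B : Finset ι => ((fun A => α * f A + β * h A) B -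
      Ex q (fun A => α * f A + β * h A)) ^ 2) =
      fun B => (α ^ 2 * (f B - Ex q f) ^ 2 + 2 * α * β * ((f B - Ex q f) * (h B - Ex q h))) +
        β ^ 2 * (h B - Ex q h) ^ 2 := by
    funext A
    rw [e]
    ring
  unfold Vr Cv
  rw [e2, Ex_add, Ex_add, Ex_mul_left, Ex_mul_left, Ex_mul_left]

lemma Vr_nonneg {q : ℝ} (h0 : 0 ≤ q) (h1 : q ≤ 1) (f : Finset ι → ℝ) : 0 ≤ Vr q f :=
  Ex_nonneg h0 h1 _ fun _ => sq_nonneg _

lemma Cv_sq_le {q : ℝ} (h0 : 0 ≤ q) (h1 : q ≤ 1) (f h : Finset ι → ℝ) :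
    Cv q f h ^ 2 ≤ Vr q f * Vr q h := by
  have key : ∀ β : ℝ, 0 ≤ Vr q f + 2 * β * Cv q f h + β ^ 2 * Vr q h := fun β => by
    have := Vr_nonneg h0 h1 (fun A => 1 * f A + β * h A)
    rw [Vr_comb] at this
    linarith
  rcases (Vr_nonneg h0 h1 h).eq_or_lt with hh | hh
  · -- variance of `h` zero
    have hc : Cv q f h = 0 := by
      by_contra hne
      have h2 := key (-(Vr q f + 1) / (2 * Cv q f h))
      rw [← hh] at h2
      have : 2 * (-(Vr q f + 1) / (2 * Cv q f h)) * Cv q f h = -(Vr q f + 1) := by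
        field_simp
      rw [this] at h2
      linarith
    rw [hc, ← hh]; simp
  · have h2 := key (-(Cv q f h) / Vr q h)
    have e : Vr q f + 2 * (-(Cv q f h) / Vr q h) * Cv q f h + (-(Cv q f h) / Vr q h) ^ 2 * Vr q h
        = Vr q f - Cv q f h ^ 2 / Vr q h := by
      field_simp
      ring
    rw [e] at h2
    have h3 : Cv q f h ^ 2 / Vr q h ≤ Vr q f := by linarith
    rwa [div_le_iff₀ hh] at h3

/-! ### the layer averages -/

lemma double_count (m : ℕ) (Φ : Finset ι → Finset ι → ℂ) :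
    ∑ A ∈ (univ : Finset ι).powersetCard m, ∑ x ∈ Aᶜ, Φ A (insert x A) =
      ∑ A ∈ (univ : Finset ι).powersetCard (m + 1), ∑ x ∈ A, Φ (A.erase x) A := by
  rw [Finset.sum_sigma', Finset.sum_sigma']
  refine Finset.sum_bij' (fun p _ => ⟨insert p.2 p.1, p.2⟩) (fun p _ => ⟨p.1.erase p.2, p.2⟩)
    ?_ ?_ ?_ ?_ ?_
  · rintro ⟨A, x⟩ h
    simp only [Finset.mem_sigma, Finset.mem_powersetCard, Finset.mem_compl] at h ⊢
    exact ⟨⟨Finset.subset_univ _, by rw [Finset.card_insert_of_notMem h.2, h.1.2]⟩,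
      Finset.mem_insert_self _ _⟩
  · rintro ⟨A, x⟩ h
    simp only [Finset.mem_sigma, Finset.mem_powersetCard, Finset.mem_compl] at h ⊢
    refine ⟨⟨Finset.subset_univ _, ?_⟩, Finset.notMem_erase _ _⟩
    rw [Finset.card_erase_of_mem h.2, h.1.2]; rfl
  · rintro ⟨A, x⟩ h
    simp only [Finset.mem_sigma, Finset.mem_powersetCard, Finset.mem_compl] at h ⊢
    rw [Finset.erase_insert h.2]
  · rintro ⟨A, x⟩ h
    simp only [Finset.mem_sigma, Finset.mem_powersetCard, Finset.mem_compl] at h ⊢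
    rw [Finset.insert_erase h.2]
  · rintro ⟨A, x⟩ h
    simp only [Finset.mem_sigma, Finset.mem_powersetCard, Finset.mem_compl] at h ⊢
    rw [Finset.erase_insert h.2]

lemma U_step (m : ℕ) (hm : m + 1 ≤ Fintype.card ι) (Φ : Finset ι → ℂ) :
    U (m + 1) Φ - U m Φ =
      (((Fintype.card ι).choose (m + 1) : ℂ))⁻¹ *
        ∑ A ∈ (univ : Finset ι).powersetCard (m + 1),
          ((m : ℂ) + 1)⁻¹ * ∑ x ∈ A, (Φ A - Φ (A.erase x)) := by
  set g := Fintype.card ι with hg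
  have h1 : ∑ A ∈ (univ : Finset ι).powersetCard (m + 1), ∑ x ∈ A, Φ A =
      ((m : ℂ) + 1) * ∑ A ∈ (univ : Finset ι).powersetCard (m + 1), Φ A := by
    rw [Finset.mul_sum]
    refine Finset.sum_congr rfl fun A hA => ?_
    rw [Finset.mem_powersetCard] at hA
    rw [Finset.sum_const, hA.2, nsmul_eq_mul]; push_cast; ring
  have h2 : ∑ A ∈ (univ : Finset ι).powersetCard (m + 1), ∑ x ∈ A, Φ (A.erase x) =
      ((g : ℂ) - m) * ∑ A ∈ (univ : Finset ι).powersetCard m, Φ A := by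
    rw [← double_count m (fun A _ => Φ A), Finset.mul_sum]
    refine Finset.sum_congr rfl fun A hA => ?_
    rw [Finset.mem_powersetCard] at hA
    rw [Finset.sum_const, Finset.card_compl, hA.2, nsmul_eq_mul, ← hg,
      Nat.cast_sub (by omega)]
  have hc1 : ((g.choose (m + 1) : ℕ) : ℂ) ≠ 0 := by
    exact_mod_cast (Nat.choose_pos hm).ne'
  have hc0 : ((g.choose m : ℕ) : ℂ) ≠ 0 := by
    exact_mod_cast (Nat.choose_pos (by omega : m ≤ g)).ne'
  have hm1 : ((m : ℂ) + 1) ≠ 0 := by exact_mod_cast Nat.succ_ne_zero m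
  have hcc : ((g.choose (m + 1) : ℕ) : ℂ) * ((m : ℂ) + 1) = ((g.choose m : ℕ) : ℂ) * ((g : ℂ) - m) := by
    have := Nat.choose_succ_right_eq g m
    have h3 : ((g.choose (m + 1) * (m + 1) : ℕ) : ℂ) = ((g.choose m * (g - m) : ℕ) : ℂ) := by
      exact_mod_cast this
    rw [Nat.cast_mul, Nat.cast_mul, Nat.cast_sub (by omega : m ≤ g)] at h3
    push_cast at h3
    exact h3
  simp only [Finset.sum_sub_distrib, mul_sub]
  rw [← Finset.mul_sum, ← Finset.mul_sum, h1, h2]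
  unfold U
  rw [← hg]
  set S1 := ∑ A ∈ (univ : Finset ι).powersetCard (m + 1), Φ A
  set S0 := ∑ A ∈ (univ : Finset ι).powersetCard m, Φ A
  have e1 : ((g.choose (m + 1) : ℕ) : ℂ)⁻¹ * (((m : ℂ) + 1)⁻¹ * (((m : ℂ) + 1) * S1)) =
      ((g.choose (m + 1) : ℕ) : ℂ)⁻¹ * S1 := by
    rw [inv_mul_cancel_left₀ hm1]
  have e2 : ((g.choose (m + 1) : ℕ) : ℂ)⁻¹ * (((m : ℂ) + 1)⁻¹ * (((g : ℂ) - m) * S0)) =
      ((g.choose m : ℕ) : ℂ)⁻¹ * S0 := by
    rw [← mul_assoc, ← mul_inv, hcc, mul_inv]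
    have hgm : ((g : ℂ) - m) ≠ 0 := by
      intro h0
      rw [h0, mul_zero] at hcc
      exact (mul_ne_zero hc1 hm1) hcc
    field_simp
  rw [e1, e2]

/-- the step of the layer averages, bounded -/
lemma U_step_le (m : ℕ) (hm : m + 1 ≤ Fintype.card ι) (Φ : Finset ι → ℂ) (F : Finset ι → ℝ)
    (C a κ : ℝ) (ha : 0 ≤ a) (hC : ∀ A : Finset ι, ∑ x ∈ A, (F A - F (A.erase x)) ^ 2 ≤ C)
    (hΦ : ∀ A : Finset ι, ∀ x ∈ A, ‖Φ A - Φ (A.erase x)‖ ≤ a * (|F A - F (A.erase x)| + κ)) :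
    ‖U (m + 1) Φ - U m Φ‖ ≤ a * (Real.sqrt C / Real.sqrt ((m : ℝ) + 1) + κ) := by
  have hm1 : (0 : ℝ) < (m : ℝ) + 1 := by positivity
  have hA : ∀ A ∈ (univ : Finset ι).powersetCard (m + 1),
      ‖((m : ℂ) + 1)⁻¹ * ∑ x ∈ A, (Φ A - Φ (A.erase x))‖ ≤
        a * (Real.sqrt C / Real.sqrt ((m : ℝ) + 1) + κ) := by
    intro A hA
    rw [Finset.mem_powersetCard] at hA
    have hcard : (A.card : ℝ) = (m : ℝ) + 1 := by rw [hA.2]; push_cast; ring
    have h1 : (∑ x ∈ A, |F A - F (A.erase x)|) ^ 2 ≤ ((m : ℝ) + 1) * C := by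
      have := sq_sum_le_card_mul_sum_sq (s := A) (f := fun x => |F A - F (A.erase x)|)
      simp only [sq_abs] at this
      rw [hcard] at this
      exact this.trans (mul_le_mul_of_nonneg_left (hC A) hm1.le)
    have h2 : ∑ x ∈ A, |F A - F (A.erase x)| ≤ Real.sqrt ((m : ℝ) + 1) * Real.sqrt C := by
      rw [← Real.sqrt_mul hm1.le]
      exact Real.le_sqrt_of_sq_le h1
    have h3 : ‖∑ x ∈ A, (Φ A - Φ (A.erase x))‖ ≤
        a * (Real.sqrt ((m : ℝ) + 1) * Real.sqrt C + ((m : ℝ) + 1) * κ) := by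
      calc ‖∑ x ∈ A, (Φ A - Φ (A.erase x))‖ ≤ ∑ x ∈ A, ‖Φ A - Φ (A.erase x)‖ := norm_sum_le _ _
        _ ≤ ∑ x ∈ A, a * (|F A - F (A.erase x)| + κ) := Finset.sum_le_sum fun x hx => hΦ A x hx
        _ = a * (∑ x ∈ A, |F A - F (A.erase x)| + ((m : ℝ) + 1) * κ) := by
          rw [← Finset.mul_sum, Finset.sum_add_distrib, Finset.sum_const, nsmul_eq_mul, hcard]
        _ ≤ _ := by
          refine mul_le_mul_of_nonneg_left ?_ ha
          linarith
    rw [norm_mul, norm_inv]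
    have hnm : ‖((m : ℂ) + 1)‖ = (m : ℝ) + 1 := by
      have : ((m : ℂ) + 1) = (((m : ℝ) + 1 : ℝ) : ℂ) := by push_cast; rfl
      rw [this, Complex.norm_real, Real.norm_of_nonneg hm1.le]
    rw [hnm]
    calc ((m : ℝ) + 1)⁻¹ * ‖∑ x ∈ A, (Φ A - Φ (A.erase x))‖
        ≤ ((m : ℝ) + 1)⁻¹ * (a * (Real.sqrt ((m : ℝ) + 1) * Real.sqrt C + ((m : ℝ) + 1) * κ)) :=
          mul_le_mul_of_nonneg_left h3 (by positivity)
      _ = a * (Real.sqrt C / Real.sqrt ((m : ℝ) + 1) + κ) := by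
          have hs : Real.sqrt ((m : ℝ) + 1) * Real.sqrt ((m : ℝ) + 1) = (m : ℝ) + 1 :=
            Real.mul_self_sqrt hm1.le
          have hs0 : Real.sqrt ((m : ℝ) + 1) ≠ 0 := (Real.sqrt_pos.mpr hm1).ne'
          have : ((m : ℝ) + 1)⁻¹ * Real.sqrt ((m : ℝ) + 1) = (Real.sqrt ((m : ℝ) + 1))⁻¹ := by
            nth_rewrite 1 [← hs]
            rw [mul_inv, mul_assoc, inv_mul_cancel₀ hs0, mul_one]
          calc ((m : ℝ) + 1)⁻¹ * (a * (Real.sqrt ((m : ℝ) + 1) * Real.sqrt C + ((m : ℝ) + 1) * κ))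
              = a * ((((m : ℝ) + 1)⁻¹ * Real.sqrt ((m : ℝ) + 1)) * Real.sqrt C
                + (((m : ℝ) + 1)⁻¹ * ((m : ℝ) + 1)) * κ) := by ring
            _ = _ := by
                rw [this, inv_mul_cancel₀ hm1.ne']
                ring
  rw [U_step m hm, norm_mul, norm_inv]
  have hc : (0 : ℝ) < ((Fintype.card ι).choose (m + 1) : ℝ) := by
    exact_mod_cast Nat.choose_pos hm
  have hcn : ‖((Fintype.card ι).choose (m + 1) : ℂ)‖ = ((Fintype.card ι).choose (m + 1) : ℝ) := by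
    simp
  rw [hcn]
  have hsum : ‖∑ A ∈ (univ : Finset ι).powersetCard (m + 1),
      ((m : ℂ) + 1)⁻¹ * ∑ x ∈ A, (Φ A - Φ (A.erase x))‖ ≤
      ((Fintype.card ι).choose (m + 1) : ℝ) * (a * (Real.sqrt C / Real.sqrt ((m : ℝ) + 1) + κ)) := by
    refine (norm_sum_le _ _).trans ?_
    refine (Finset.sum_le_sum hA).trans ?_
    rw [Finset.sum_const, Finset.card_powersetCard, Finset.card_univ, nsmul_eq_mul]
  calc _ ≤ ((Fintype.card ι).choose (m + 1) : ℝ)⁻¹ * (((Fintype.card ι).choose (m + 1) : ℝ) *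
        (a * (Real.sqrt C / Real.sqrt ((m : ℝ) + 1) + κ))) :=
        mul_le_mul_of_nonneg_left hsum (by positivity)
    _ = _ := by rw [inv_mul_cancel_left₀ hc.ne']

/-- telescoping -/
lemma tele (u : ℕ → ℂ) (d : ℕ → ℝ) (g : ℕ) (h : ∀ m, m + 1 ≤ g → ‖u (m + 1) - u m‖ ≤ d (m + 1) - d m)
    (m k : ℕ) (hmk : m ≤ k) (hk : k ≤ g) : ‖u k - u m‖ ≤ d k - d m := by
  induction k, hmk using Nat.le_induction with
  | base => simp
  | succ k hmk ih =>
    have h1 := ih (by omega)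
    have h2 := h k hk
    calc ‖u (k + 1) - u m‖ = ‖(u (k + 1) - u k) + (u k - u m)‖ := by ring_nf
      _ ≤ ‖u (k + 1) - u k‖ + ‖u k - u m‖ := norm_add_le _ _
      _ ≤ _ := by linarith

/-- **Regularity of the layer averages.** -/
lemma U_reg (n : ℕ) (hn : 1 ≤ n) (hng : n ≤ Fintype.card ι) (Φ : Finset ι → ℂ) (F : Finset ι → ℝ)
    (C a κ : ℝ) (ha : 0 ≤ a) (hκ : 0 ≤ κ)
    (hC : ∀ A : Finset ι, ∑ x ∈ A, (F A - F (A.erase x)) ^ 2 ≤ C)
    (hΦ : ∀ A : Finset ι, ∀ x ∈ A, ‖Φ A - Φ (A.erase x)‖ ≤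
      a * (|F A - F (A.erase x)| + κ / Real.sqrt n)) (m : ℕ) (hm : m ≤ Fintype.card ι) :
    ‖U m Φ - U n Φ‖ ≤ a * (2 * Real.sqrt C + κ) * |((m : ℝ) - n) / Real.sqrt n| := by
  have hn0 : (0 : ℝ) < n := by exact_mod_cast hn
  have hsn : 0 < Real.sqrt n := Real.sqrt_pos.mpr hn0
  set d : ℕ → ℝ := fun m => a * (2 * Real.sqrt C * Real.sqrt m + κ / Real.sqrt n * m) with hd
  have hstep : ∀ m, m + 1 ≤ Fintype.card ι → ‖U (m + 1) Φ - U m Φ‖ ≤ d (m + 1) - d m := by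
    intro m hm
    refine (U_step_le m hm Φ F C a _ ha hC hΦ).trans ?_
    have hm1 : (0 : ℝ) < (m : ℝ) + 1 := by positivity
    have hs1 : 0 < Real.sqrt ((m : ℝ) + 1) := Real.sqrt_pos.mpr hm1
    have hs0 : 0 ≤ Real.sqrt (m : ℝ) := Real.sqrt_nonneg _
    have hle : Real.sqrt (m : ℝ) ≤ Real.sqrt ((m : ℝ) + 1) := Real.sqrt_le_sqrt (by linarith)
    have hq1 : Real.sqrt ((m : ℝ) + 1) * Real.sqrt ((m : ℝ) + 1) = (m : ℝ) + 1 :=
      Real.mul_self_sqrt hm1.le
    have hq0 : Real.sqrt (m : ℝ) * Real.sqrt (m : ℝ) = (m : ℝ) :=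
      Real.mul_self_sqrt (Nat.cast_nonneg m)
    have h1 : 1 / Real.sqrt ((m : ℝ) + 1) ≤ 2 * (Real.sqrt ((m : ℝ) + 1) - Real.sqrt (m : ℝ)) := by
      rw [div_le_iff₀ hs1]
      nlinarith
    have h2 : Real.sqrt C / Real.sqrt ((m : ℝ) + 1) ≤
        2 * Real.sqrt C * Real.sqrt ((m : ℝ) + 1) - 2 * Real.sqrt C * Real.sqrt (m : ℝ) := by
      have := mul_le_mul_of_nonneg_left h1 (Real.sqrt_nonneg C)
      calc _ = Real.sqrt C * (1 / Real.sqrt ((m : ℝ) + 1)) := by ring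
        _ ≤ _ := this
        _ = _ := by ring
    simp only [hd]
    push_cast
    rw [← mul_sub]
    refine mul_le_mul_of_nonneg_left ?_ ha
    have h3 : κ / Real.sqrt n * ((m : ℝ) + 1) - κ / Real.sqrt n * m = κ / Real.sqrt n := by ring
    linarith
  have hdd : ∀ m k : ℕ, m ≤ k → (m = n ∨ k = n) → d k - d m ≤
      a * (2 * Real.sqrt C + κ) * (((k : ℝ) - m) / Real.sqrt n) := by
    intro m k hmk hor
    have hmk' : (m : ℝ) ≤ k := by exact_mod_cast hmk
    have hsm : 0 ≤ Real.sqrt (m : ℝ) := Real.sqrt_nonneg _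
    have hsk : 0 ≤ Real.sqrt (k : ℝ) := Real.sqrt_nonneg _
    have hqm : Real.sqrt (m : ℝ) * Real.sqrt (m : ℝ) = (m : ℝ) :=
      Real.mul_self_sqrt (Nat.cast_nonneg m)
    have hqk : Real.sqrt (k : ℝ) * Real.sqrt (k : ℝ) = (k : ℝ) :=
      Real.mul_self_sqrt (Nat.cast_nonneg k)
    have hle : Real.sqrt (m : ℝ) ≤ Real.sqrt (k : ℝ) := Real.sqrt_le_sqrt hmk'
    have h1 : Real.sqrt (k : ℝ) - Real.sqrt (m : ℝ) ≤ ((k : ℝ) - m) / Real.sqrt n := by
      rw [le_div_iff₀ hsn]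
      have h2 : Real.sqrt (n : ℝ) ≤ Real.sqrt (k : ℝ) + Real.sqrt (m : ℝ) := by
        rcases hor with h | h
        · rw [← h]; linarith
        · rw [← h]; linarith
      calc (Real.sqrt (k : ℝ) - Real.sqrt (m : ℝ)) * Real.sqrt n ≤
            (Real.sqrt (k : ℝ) - Real.sqrt (m : ℝ)) * (Real.sqrt (k : ℝ) + Real.sqrt (m : ℝ)) :=
              mul_le_mul_of_nonneg_left h2 (by linarith)
        _ = (k : ℝ) - m := by nlinarith
    have h4 : d k - d m = a * (2 * Real.sqrt C * (Real.sqrt (k : ℝ) - Real.sqrt (m : ℝ)) +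
        κ * (((k : ℝ) - m) / Real.sqrt n)) := by
      simp only [hd]; ring
    rw [h4]
    have h5 : a * (2 * Real.sqrt C + κ) * (((k : ℝ) - m) / Real.sqrt n) =
        a * (2 * Real.sqrt C * (((k : ℝ) - m) / Real.sqrt n) + κ * (((k : ℝ) - m) / Real.sqrt n)) := by
      ring
    rw [h5]
    refine mul_le_mul_of_nonneg_left ?_ ha
    have := mul_le_mul_of_nonneg_left h1 (by positivity : 0 ≤ 2 * Real.sqrt C)
    linarith
  rcases le_total m n with hmn | hmn
  · have h1 := tele (fun m => U m Φ) d (Fintype.card ι) hstep m n hmn hng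
    have h2 := hdd m n hmn (Or.inr rfl)
    rw [← norm_neg, neg_sub]
    refine (h1.trans h2).trans (le_of_eq ?_)
    have hmn' : (m : ℝ) ≤ n := by exact_mod_cast hmn
    rw [abs_div, abs_of_nonpos (by linarith : (m : ℝ) - n ≤ 0), abs_of_pos hsn]
    ring
  · have h1 := tele (fun m => U m Φ) d (Fintype.card ι) hstep n m hmn hm
    have h2 := hdd n m hmn (Or.inl rfl)
    refine (h1.trans h2).trans (le_of_eq ?_)
    have hmn' : (n : ℝ) ≤ m := by exact_mod_cast hmn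
    rw [abs_div, abs_of_nonneg (by linarith : 0 ≤ (m : ℝ) - n), abs_of_pos hsn]

end alg

end Pool.Agent.N940.TSP.Dep
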