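import Pool.Agent.N940.TSP.Mod2

/-!
# Configurations in a square and configurations in a box
-/

set_option autoImplicit false

namespace Pool.Agent.N940.TSP.Emb

open Finset Pool.Agent.N940.TSP

/-! ### an injection of index sets -/

section abs

variable {ι ι' : Type} [Fintype ι] [DecidableEq ι] [Fintype ι'] [DecidableEq ι']

theorem Ex_emb (e : ι' ↪ ι) (q : ℝ) (ψ : Finset ι' → ℝ) :
    Ex q (fun A : Finset ι => ψ (univ.filter fun k => e k ∈ A)) = Ex q ψ := by
  set V : Finset ι := (univ : Finset ι').map e with hV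
  have hmV : ∀ x : ι, x ∈ V ↔ ∃ k, e k = x := by
    intro x
    simp [hV]
  have hVc : ∀ S : Finset ι, S ⊆ Vᶜ → ∀ k, e k ∉ S := by
    intro S hS k hk
    have h1 := hS hk
    rw [mem_compl, hmV] at h1
    exact h1 ⟨k, rfl⟩
  have h1 : Ex q (fun A : Finset ι => ψ (univ.filter fun k => e k ∈ A)) =
      ∑ p ∈ (univ : Finset (Finset ι')) ×ˢ (Vᶜ).powerset,
        (mu q p.1 * ψ p.1) * (q ^ p.2.card * (1 - q) ^ ((Vᶜ).card - p.2.card)) := by
    unfold Ex
    refine Finset.sum_nbij' (fun A => (univ.filter fun k => e k ∈ A, A \ V))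
      (fun p => p.1.map e ∪ p.2) ?_ ?_ ?_ ?_ ?_
    · intro A _
      rw [mem_product]
      refine ⟨mem_univ _, ?_⟩
      rw [mem_powerset]
      intro x hx
      rw [mem_sdiff] at hx
      rw [mem_compl]
      exact hx.2
    · intro p _
      exact mem_univ _
    · intro A _
      ext x
      simp only [mem_union, mem_map, mem_filter, mem_univ, true_and, mem_sdiff]
      constructor
      · rintro (⟨k, hk, rfl⟩ | h)
        · exact hk
        · exact h.1
      · intro hx
        by_cases h : x ∈ V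
        · left
          obtain ⟨k, rfl⟩ := (hmV x).1 h
          exact ⟨k, hx, rfl⟩
        · right
          exact ⟨hx, h⟩
    · intro p hp
      rw [mem_product, mem_powerset] at hp
      have h2 := hVc p.2 hp.2
      refine Prod.ext ?_ ?_
      · ext k
        simp only [mem_filter, mem_univ, true_and, mem_union, mem_map, h2 k, or_false]
        constructor
        · rintro ⟨k', hk', h⟩
          rw [← e.injective h]
          exact hk'
        · intro h
          exact ⟨k, h, rfl⟩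
      · ext x
        simp only [mem_sdiff, mem_union, mem_map]
        constructor
        · rintro ⟨⟨k, _, rfl⟩ | h, h'⟩
          · exact absurd ((hmV _).2 ⟨k, rfl⟩) h'
          · exact h
        · intro h
          refine ⟨Or.inr h, ?_⟩
          have := hp.2 h
          rwa [mem_compl] at this
    · intro A _
      have h3 : A.card = (univ.filter fun k => e k ∈ A).card + (A \ V).card := by
        rw [← card_inter_add_card_sdiff A V]
        congr 1
        rw [← card_map e]
        congr 1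
        ext x
        simp only [mem_inter, mem_map, mem_filter, mem_univ, true_and, hmV]
        constructor
        · rintro ⟨hx, k, rfl⟩
          exact ⟨k, hx, rfl⟩
        · rintro ⟨k, hk, rfl⟩
          exact ⟨hk, k, rfl⟩
      have h4 : (Vᶜ).card + Fintype.card ι' = Fintype.card ι := by
        rw [card_compl, hV, card_map, card_univ]
        exact Nat.sub_add_cancel (Fintype.card_le_of_embedding e)
      have h5 : (A \ V).card ≤ (Vᶜ).card := by
        refine card_le_card fun x hx => ?_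
        rw [mem_sdiff] at hx
        rw [mem_compl]
        exact hx.2
      have h6 : (univ.filter fun k => e k ∈ A).card ≤ Fintype.card ι' := by
        rw [← card_univ]
        exact card_le_card (filter_subset _ _)
      show mu q A * ψ _ = (mu q (univ.filter fun k => e k ∈ A) * ψ _) *
        (q ^ (A \ V).card * (1 - q) ^ ((Vᶜ).card - (A \ V).card))
      unfold mu
      have h7 : (Aᶜ).card = ((univ.filter fun k => e k ∈ A)ᶜ).card + ((Vᶜ).card - (A \ V).card) := by
        rw [card_compl A, card_compl (univ.filter fun k => e k ∈ A)]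
        omega
      rw [h7, h3, pow_add, pow_add]
      ring
  rw [h1, sum_product]
  simp_rw [← Finset.mul_sum]
  rw [Finset.sum_pow_mul_eq_add_pow]
  unfold Ex
  refine Finset.sum_congr rfl fun B _ => ?_
  simp

end abs

/-! ### translations -/

theorem len_map (w : ℂ) : ∀ l : List ℂ, len (l.map (· + w)) = len l
  | [] => rfl
  | [_] => rfl
  | x :: y :: l => by
    show dist (x + w) (y + w) + len ((y :: l).map (· + w)) = dist x y + len (y :: l)
    rw [len_map w (y :: l), dist_add_right]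

theorem cyc_map (w : ℂ) (l : List ℂ) : cyc (l.map (· + w)) = cyc l := by
  cases l with
  | nil => rfl
  | cons x l =>
    show len ((x + w) :: (l.map (· + w) ++ [x + w])) = len (x :: (l ++ [x]))
    rw [← len_map w (x :: (l ++ [x]))]
    simp

theorem tsp_translate (w : ℂ) (F G : Set ℂ) (h : ∀ z, z ∈ F ↔ z + w ∈ G) : tsp F = tsp G := by
  unfold tsp
  congr 1
  ext ρ
  constructor
  · rintro ⟨l, hl, rfl⟩
    refine ⟨l.map (· + w), fun x hx => ?_, (cyc_map w l).symm⟩
    rw [List.mem_map]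
    refine ⟨x - w, hl _ ((h _).2 ?_), by ring⟩
    rw [sub_add_cancel]
    exact hx
  · rintro ⟨l, hl, rfl⟩
    refine ⟨l.map (· + (-w)), fun x hx => ?_, (cyc_map (-w) l).symm⟩
    rw [List.mem_map]
    exact ⟨x + w, hl _ ((h _).1 hx), by ring⟩

/-! ### the embedding of the box into the square -/

section emb

variable {N K M r : ℕ} {c : ℕ × ℕ}

theorem lt_of_range {j i : ℕ} (h : r * (j + 1) ≤ N * K) (hi : i < r * 1 * M) :
    r * M * j + i < N * K * M := by
  have h1 : r * (j + 1) * M ≤ N * K * M := Nat.mul_le_mul_right M h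
  have h2 : r * (j + 1) * M = r * M * j + r * 1 * M := by ring
  omega

/-- the embedding of index sets -/
def emb (h1 : r * (c.1 + 1) ≤ N * K) (h2 : r * (c.2 + 1) ≤ N * K) : Ix r 1 M ↪ Ix N K M where
  toFun k := (⟨r * M * c.1 + k.1, lt_of_range h1 k.1.2⟩, ⟨r * M * c.2 + k.2, lt_of_range h2 k.2.2⟩)
  inj' := by
    intro k k' h
    simp only [Prod.mk.injEq, Fin.mk.injEq] at h
    refine Prod.ext (Fin.ext ?_) (Fin.ext ?_)
    · omega
    · omega

theorem mem_rst (h1 : r * (c.1 + 1) ≤ N * K) (h2 : r * (c.2 + 1) ≤ N * K)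
    (A : Finset (Ix N K M)) (k : Ix r 1 M) : k ∈ rst N K M r c A ↔ emb h1 h2 k ∈ A := by
  unfold rst
  simp only [mem_filter, mem_univ, true_and]
  constructor
  · rintro ⟨k', hk', h3, h4⟩
    have h5 : emb h1 h2 k = k' := Prod.ext (Fin.ext h3.symm) (Fin.ext h4.symm)
    rw [h5]
    exact hk'
  · intro h
    exact ⟨_, h, rfl, rfl⟩

theorem rst_eq (h1 : r * (c.1 + 1) ≤ N * K) (h2 : r * (c.2 + 1) ≤ N * K)
    (A : Finset (Ix N K M)) : rst N K M r c A = univ.filter fun k => emb h1 h2 k ∈ A := by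
  ext k
  rw [mem_rst h1 h2]
  simp

theorem exists_emb (h1 : r * (c.1 + 1) ≤ N * K) (h2 : r * (c.2 + 1) ≤ N * K) (k : Ix N K M)
    (a1 : r * M * c.1 ≤ k.1) (a2 : (k.1 : ℕ) < r * M * c.1 + r * M)
    (b1 : r * M * c.2 ≤ k.2) (b2 : (k.2 : ℕ) < r * M * c.2 + r * M) :
    ∃ k', emb h1 h2 k' = k := by
  have e1 : r * 1 * M = r * M := by ring
  refine ⟨(⟨k.1 - r * M * c.1, by omega⟩, ⟨k.2 - r * M * c.2, by omega⟩),
    Prod.ext (Fin.ext ?_) (Fin.ext ?_)⟩
  · show r * M * c.1 + (k.1 - r * M * c.1) = k.1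
    omega
  · show r * M * c.2 + (k.2 - r * M * c.2) = k.2
    omega

theorem div_iff {i j : ℕ} (hr : 0 < r) (hM : 0 < M) :
    i / (M * r) = j ↔ r * M * j ≤ i ∧ i < r * M * j + r * M := by
  have h0 : 0 < M * r := Nat.mul_pos hM hr
  constructor
  · intro h
    have h1 := Nat.div_mul_le_self i (M * r)
    have h2 := Nat.lt_div_mul_add h0 (a := i)
    rw [h] at h1 h2
    have e1 : j * (M * r) = r * M * j := by ring
    have e2 : M * r = r * M := by ring
    rw [e1] at h1 h2
    omega
  · rintro ⟨h1, h2⟩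
    have e1 : r * M * j = j * (M * r) := by ring
    have e2 : r * M * j + r * M = (j + 1) * (M * r) := by ring
    apply le_antisymm
    · rw [e2] at h2
      exact Nat.lt_succ_iff.1 ((Nat.div_lt_iff_lt_mul h0).2 h2)
    · rw [e1] at h1
      exact (Nat.le_div_iff_mul_le h0).2 h1

theorem mem_bl_iff (hr : 0 < r) (hM : 0 < M) (h1 : r * (c.1 + 1) ≤ N * K)
    (h2 : r * (c.2 + 1) ≤ N * K) (k : Ix N K M) :
    k ∈ bl N K M r c ↔ ∃ k', emb h1 h2 k' = k := by
  have h0 : k ∈ bl N K M r c ↔ ((k.1 : ℕ) / (M * r) = c.1 ∧ (k.2 : ℕ) / (M * r) = c.2) := by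
    unfold bl lb
    simp only [mem_filter, mem_univ, true_and, Prod.ext_iff]
  rw [h0, div_iff hr hM, div_iff hr hM]
  constructor
  · rintro ⟨⟨a1, a2⟩, b1, b2⟩
    exact exists_emb h1 h2 k a1 a2 b1 b2
  · rintro ⟨k', rfl⟩
    have e1 : r * 1 * M = r * M := by ring
    have h3 := k'.1.2
    have h4 := k'.2.2
    refine ⟨⟨?_, ?_⟩, ?_, ?_⟩
    · show r * M * c.1 ≤ r * M * c.1 + k'.1
      omega
    · show r * M * c.1 + (k'.1 : ℕ) < r * M * c.1 + r * M
      omega
    · show r * M * c.2 ≤ r * M * c.2 + k'.2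
      omega
    · show r * M * c.2 + (k'.2 : ℕ) < r * M * c.2 + r * M
      omega

theorem sp_emb (hM : 0 < M) (h1 : r * (c.1 + 1) ≤ N * K) (h2 : r * (c.2 + 1) ≤ N * K)
    (k : Ix r 1 M) : sp N K M (emb h1 h2 k) = sp r 1 M k + cor r c := by
  have hM0 : (M : ℝ) ≠ 0 := by exact_mod_cast hM.ne'
  apply Complex.ext
  · show ((r * M * c.1 + (k.1 : ℕ) : ℕ) : ℝ) / M = ((k.1 : ℕ) : ℝ) / M + (r : ℝ) * (c.1 : ℝ)
    push_cast
    field_simp
    ring
  · show ((r * M * c.2 + (k.2 : ℕ) : ℕ) : ℝ) / M = ((k.2 : ℕ) : ℝ) / M + (r : ℝ) * (c.2 : ℝ)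
    push_cast
    field_simp
    ring

theorem mem_sq_iff (hr : 0 < r) (hM : 0 < M) (k : Ix N K M) :
    sp N K M k ∈ sq r c ↔ k ∈ bl N K M r c := by
  have hM0 : (0 : ℝ) < M := by exact_mod_cast hM
  unfold bl lb sq sp
  simp only [mem_filter, mem_univ, true_and, Prod.ext_iff, Set.mem_ofPred_eq]
  rw [div_iff hr hM, div_iff hr hM]
  have key : ∀ i j : ℕ, ((r : ℝ) * (j : ℝ) ≤ (i : ℝ) / M ∧ (i : ℝ) / M < (r : ℝ) * (j : ℝ) + r) ↔
      (r * M * j ≤ i ∧ i < r * M * j + r * M) := by
    intro i j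
    rw [le_div_iff₀ hM0, div_lt_iff₀ hM0]
    have e1 : (r : ℝ) * (j : ℝ) * M = ((r * M * j : ℕ) : ℝ) := by push_cast; ring
    have e2 : ((r : ℝ) * (j : ℝ) + r) * M = ((r * M * j + r * M : ℕ) : ℝ) := by push_cast; ring
    rw [e1, e2, Nat.cast_le, Nat.cast_lt]
  rw [← key, ← key]
  tauto

end emb

theorem main : S_EMB := by
  intro N K M r hN hK hM hr c h1 h2
  refine ⟨?_, ?_, ?_, ?_⟩
  · intro q ψ
    simp_rw [rst_eq h1 h2]
    exact Ex_emb (emb h1 h2) q ψ
  · intro U A B
    ext k
    rw [mem_rst h1 h2, mem_mix, mem_mix, mem_rst h1 h2, mem_rst h1 h2, mem_rst h1 h2]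
  · intro A
    constructor
    · unfold f0
      refine tsp_translate (cor r c) _ _ fun z => ?_
      constructor
      · rintro ⟨k, hk, rfl⟩
        rw [mem_rst h1 h2] at hk
        rw [← sp_emb hM h1 h2]
        refine ⟨⟨_, hk, rfl⟩, ?_⟩
        rw [mem_sq_iff hr hM, mem_bl_iff hr hM h1 h2]
        exact ⟨k, rfl⟩
      · rintro ⟨⟨k, hk, hz⟩, hz2⟩
        rw [hz, mem_sq_iff hr hM, mem_bl_iff hr hM h1 h2] at hz2
        obtain ⟨k', rfl⟩ := hz2
        rw [sp_emb hM h1 h2] at hz
        exact ⟨k', (mem_rst h1 h2 A k').2 hk, add_right_cancel hz⟩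
    · rw [← card_map (emb h1 h2)]
      congr 1
      ext k
      simp only [mem_map, mem_inter, mem_bl_iff hr hM h1 h2, mem_rst h1 h2]
      constructor
      · rintro ⟨k', hk', rfl⟩
        exact ⟨hk', k', rfl⟩
      · rintro ⟨hk, k', rfl⟩
        exact ⟨k', hk, rfl⟩
  · rintro s hs ⟨t, rfl⟩ d
    ext k
    rw [mem_rst h1 h2]
    unfold bl lb
    simp only [mem_filter, mem_univ, true_and, Prod.ext_iff]
    have h3 : s * t / s = t := Nat.mul_div_cancel_left t hs
    rw [h3]
    have h4 : 0 < M * s := Nat.mul_pos hM hs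
    have key : ∀ i j a : ℕ, (s * t * M * j + i) / (M * s) = t * j + a ↔ i / (M * s) = a := by
      intro i j a
      have e1 : s * t * M * j + i = i + (M * s) * (t * j) := by ring
      rw [e1, Nat.add_mul_div_left _ _ h4]
      omega
    show ((s * t * M * c.1 + (k.1 : ℕ)) / (M * s) = t * c.1 + d.1 ∧
      (s * t * M * c.2 + (k.2 : ℕ)) / (M * s) = t * c.2 + d.2) ↔ _
    rw [key, key]

end Pool.Agent.N940.TSP.Emb
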