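import Pool.Agent.N940.TSP.Mod2
import Pool.Agent.N940.TSP.Link
import Pool.Agent.N940.TSP.Loc
import Pool.Agent.N940.TSP.Dep1
import Pool.Agent.N940.TSP.Basic

/-!
# Convergence of the variance in a fixed box (`S_FIX`)
-/

set_option autoImplicit false

open Filter Topology

namespace Pool.Agent.N940.TSP.Fix

open Finset

/-! ### averages -/

/-- average over a finite type -/
noncomputable def ag {α : Type} [Fintype α] (F : α → ℝ) : ℝ := (∑ x, F x) / Fintype.card α

lemma ag_refine {α γ β : Type} [Fintype α] [Fintype γ] [Fintype β] [Nonempty γ] [Nonempty α]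
    (T : α × γ ≃ β) (F : β → ℝ) (G : α → ℝ) (ε : ℝ) (h : ∀ a c, |F (T (a, c)) - G a| ≤ ε) :
    |ag F - ag G| ≤ ε := by
  have hα : (0 : ℝ) < Fintype.card α := by exact_mod_cast Fintype.card_pos
  have hγ : (0 : ℝ) < Fintype.card γ := by exact_mod_cast Fintype.card_pos
  have hcard : (Fintype.card β : ℝ) = Fintype.card α * Fintype.card γ := by
    rw [← Fintype.card_congr T, Fintype.card_prod]
    push_cast
    rfl
  have e1 : ∑ x, F x = ∑ p : α × γ, F (T p) := (Equiv.sum_comp T F).symm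
  have e2 : ∑ p : α × γ, G p.1 = Fintype.card γ * ∑ x, G x := by
    rw [Fintype.sum_prod_type, Finset.mul_sum]
    refine Finset.sum_congr rfl fun a _ => ?_
    simp
  have e3 : ag F - ag G = (∑ p : α × γ, (F (T p) - G p.1)) / (Fintype.card α * Fintype.card γ) := by
    unfold ag
    rw [Finset.sum_sub_distrib, e2, hcard, e1]
    field_simp
  rw [e3, abs_div, abs_of_pos (by positivity : (0 : ℝ) < Fintype.card α * Fintype.card γ),
    div_le_iff₀ (by positivity)]
  refine (Finset.abs_sum_le_sum_abs _ _).trans ?_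
  calc ∑ p : α × γ, |F (T p) - G p.1| ≤ ∑ _p : α × γ, ε :=
        Finset.sum_le_sum fun p _ => h p.1 p.2
    _ = ε * (Fintype.card α * Fintype.card γ) := by
        rw [Finset.sum_const, Finset.card_univ, Fintype.card_prod, nsmul_eq_mul]
        push_cast
        ring

/-- a bounded Cauchy sequence -/
lemma exists_lim (a : ℕ → ℝ) (C : ℝ)
    (h : ∀ m n : ℕ, 0 < m → 0 < n → |a (m * n) - a m| ≤ C / m)
    (hsym : ∀ m n : ℕ, a (m * n) = a (n * m)) :
    ∃ I : ℝ, ∀ φ : ℕ → ℕ, Tendsto φ atTop atTop → Tendsto (fun n => a (φ n)) atTop (𝓝 I) := by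
  have hC : 0 ≤ C := by
    have := (abs_nonneg _).trans (h 1 1 one_pos one_pos)
    simpa using this
  have h2 : ∀ m n : ℕ, 0 < m → 0 < n → |a m - a n| ≤ C / m + C / n := by
    intro m n hm hn
    have k1 := h m n hm hn
    have k2 := h n m hn hm
    rw [← hsym m n] at k2
    have e : a m - a n = -(a (m * n) - a m) + (a (m * n) - a n) := by ring
    rw [e]
    refine (abs_add_le _ _).trans ?_
    rw [abs_neg]
    linarith
  have hc : CauchySeq a := by
    rw [Metric.cauchySeq_iff']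
    intro ε hε
    obtain ⟨N, hN⟩ := exists_nat_gt (2 * C / ε)
    refine ⟨N + 1, fun n hn => ?_⟩
    have hN0 : (0 : ℝ) < ((N + 1 : ℕ) : ℝ) := by positivity
    have hn0 : (0 : ℝ) < (n : ℝ) := by
      have : 0 < n := by omega
      exact_mod_cast this
    have hnN : ((N + 1 : ℕ) : ℝ) ≤ n := by exact_mod_cast hn
    have k := h2 n (N + 1) (by omega) (by omega)
    rw [Real.dist_eq]
    have k1 : C / n ≤ C / ((N + 1 : ℕ) : ℝ) := div_le_div_of_nonneg_left hC hN0 hnN
    have k2 : 2 * C / ((N + 1 : ℕ) : ℝ) < ε := by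
      rw [div_lt_iff₀ hN0]
      rw [div_lt_iff₀ hε] at hN
      push_cast
      nlinarith
    have k3 : 2 * C / ((N + 1 : ℕ) : ℝ) = C / ((N + 1 : ℕ) : ℝ) + C / ((N + 1 : ℕ) : ℝ) := by ring
    linarith
  obtain ⟨I, hI⟩ := cauchySeq_tendsto_of_complete hc
  exact ⟨I, fun φ hφ => hI.comp hφ⟩

/-! ### the refinement of the grid -/

/-- refinement in one coordinate -/
def e1 (r M m : ℕ) : Fin (r * 1 * M) × Fin m ≃ Fin (r * 1 * (M * m)) :=
  finProdFinEquiv.trans (finCongr (by ring))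

lemma e1_val (r M m : ℕ) (p : Fin (r * 1 * M) × Fin m) :
    ((e1 r M m p : Fin (r * 1 * (M * m))) : ℕ) = p.2 + m * p.1 := rfl

/-- refinement of the cells -/
def e2 (r M m : ℕ) : Ix r 1 M × (Fin m × Fin m) ≃ Ix r 1 (M * m) :=
  (Equiv.prodProdProdComm _ _ _ _).trans (Equiv.prodCongr (e1 r M m) (e1 r M m))

/-- refinement of the configurations -/
def e3 (k r M m : ℕ) : (Fin k → Ix r 1 M) × (Fin k → Fin m × Fin m) ≃
    (Fin k → Ix r 1 (M * m)) :=
  (Equiv.arrowProdEquivProdArrow _ _ _).symm.trans (Equiv.arrowCongr (Equiv.refl _) (e2 r M m))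

lemma e3_apply (k r M m : ℕ) (p : (Fin k → Ix r 1 M) × (Fin k → Fin m × Fin m)) (i : Fin k) :
    e3 k r M m p i = e2 r M m (p.1 i, p.2 i) := rfl

lemma coord {r M m : ℕ} (hM : 0 < M) (hm : 0 < m) (a : Fin (r * 1 * M)) (d : Fin m) :
    |(((e1 r M m (a, d) : Fin (r * 1 * (M * m))) : ℕ) : ℝ) / ((M * m : ℕ) : ℝ) -
      ((a : ℕ) : ℝ) / M| ≤ 1 / M := by
  rw [e1_val]
  have hM' : (0 : ℝ) < M := by exact_mod_cast hM
  have hm' : (0 : ℝ) < m := by exact_mod_cast hm
  have hd : ((d : ℕ) : ℝ) ≤ m := by exact_mod_cast d.2.le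
  have hd0 : (0 : ℝ) ≤ ((d : ℕ) : ℝ) := Nat.cast_nonneg _
  have e : (((((a, d) : Fin (r * 1 * M) × Fin m).2 : ℕ) + m * (((a, d) :
      Fin (r * 1 * M) × Fin m).1 : ℕ) : ℕ) : ℝ) / ((M * m : ℕ) : ℝ) - ((a : ℕ) : ℝ) / M =
      ((d : ℕ) : ℝ) / m * (1 / M) := by
    push_cast
    field_simp
    ring
  rw [e, abs_of_nonneg (by positivity)]
  have h1 : ((d : ℕ) : ℝ) / m ≤ 1 := by rwa [div_le_one hm']
  have h2 : (0 : ℝ) ≤ 1 / M := by positivity
  nlinarith

lemma dist_e2 {r M m : ℕ} (hM : 0 < M) (hm : 0 < m) (x : Ix r 1 M) (d : Fin m × Fin m) :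
    dist (sp r 1 (M * m) (e2 r M m (x, d))) (sp r 1 M x) ≤ 2 / M := by
  rw [dist_eq_norm]
  refine (Complex.norm_le_abs_re_add_abs_im _).trans ?_
  have h1 := coord hM hm x.1 d.1
  have h2 := coord hM hm x.2 d.2
  have e1' : (sp r 1 (M * m) (e2 r M m (x, d)) - sp r 1 M x).re =
      (((e1 r M m (x.1, d.1) : Fin (r * 1 * (M * m))) : ℕ) : ℝ) / ((M * m : ℕ) : ℝ) -
      ((x.1 : ℕ) : ℝ) / M := rfl
  have e2' : (sp r 1 (M * m) (e2 r M m (x, d)) - sp r 1 M x).im =
      (((e1 r M m (x.2, d.2) : Fin (r * 1 * (M * m))) : ℕ) : ℝ) / ((M * m : ℕ) : ℝ) -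
      ((x.2 : ℕ) : ℝ) / M := rfl
  rw [e1', e2']
  have : (2 : ℝ) / M = 1 / M + 1 / M := by ring
  linarith

/-! ### the box -/

/-- the box -/
def box (r : ℕ) : Set ℂ := sq r (0, 0)

lemma sp_box {r M : ℕ} (hM : 0 < M) (x : Ix r 1 M) : sp r 1 M x ∈ box r := by
  have hM' : (0 : ℝ) < M := by exact_mod_cast hM
  have h : ∀ a : Fin (r * 1 * M), ((a : ℕ) : ℝ) / M < r := by
    intro a
    rw [div_lt_iff₀ hM']
    have h1 := a.2
    have h2 : (a : ℕ) < r * M := by
      have : r * 1 * M = r * M := by ring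
      omega
    exact_mod_cast h2
  unfold box sq sp
  refine ⟨?_, ?_, ?_, ?_⟩
  · simp only [Nat.cast_zero, mul_zero]
    positivity
  · simp only [Nat.cast_zero, mul_zero, zero_add]
    exact h x.1
  · simp only [Nat.cast_zero, mul_zero]
    positivity
  · simp only [Nat.cast_zero, mul_zero, zero_add]
    exact h x.2

/-- the data: functions of `k` points -/
structure Dat (r : ℕ) (f : ∀ k : ℕ, (Fin k → ℂ) → ℝ) (B L : ℕ → ℝ) : Prop where
  bd : ∀ k y, (∀ i, y i ∈ box r) → |f k y| ≤ B k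
  lip : ∀ k y y', (∀ i, y i ∈ box r) → (∀ i, y' i ∈ box r) → ∀ ε : ℝ, 0 ≤ ε →
    (∀ i, dist (y i) (y' i) ≤ ε) → |f k y - f k y'| ≤ L k * ε

/-- average of `f k` over the maps to the grid -/
noncomputable def A (r k M : ℕ) (f : (Fin k → ℂ) → ℝ) : ℝ :=
  ag fun x : Fin k → Ix r 1 M => f fun i => sp r 1 M (x i)

lemma A_lim {r : ℕ} (hr : 0 < r) {f : ∀ k : ℕ, (Fin k → ℂ) → ℝ} {B L : ℕ → ℝ}
    (hD : Dat r f B L) (k : ℕ) : ∃ I : ℝ, ∀ φ : ℕ → ℕ, Tendsto φ atTop atTop →
      Tendsto (fun n => A r k (φ n) (f k)) atTop (𝓝 I) := by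
  apply exists_lim (fun M => A r k M (f k)) (L k * 2)
  · intro M m hM hm
    have n1 : Nonempty (Fin (r * 1 * M)) := ⟨⟨0, by positivity⟩⟩
    have n2 : Nonempty (Fin m) := ⟨⟨0, hm⟩⟩
    apply ag_refine (e3 k r M m)
    intro x d
    have h := hD.lip k (fun i => sp r 1 (M * m) (e3 k r M m (x, d) i))
      (fun i => sp r 1 M (x i)) (fun i => sp_box (by positivity) _) (fun i => sp_box hM _) (2 / M)
      (by positivity) (fun i => by
        rw [e3_apply]
        exact dist_e2 hM hm (x i) (d i))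
    calc _ ≤ L k * (2 / M) := h
      _ = L k * 2 / M := by ring
  · intro M m
    rw [mul_comm]

/-! ### the Poisson limit -/

lemma pow_lim (q : ℕ → ℝ) (g : ℕ → ℕ) (lam : ℝ) (hq : ∀ n, 0 ≤ q n)
    (hq0 : Tendsto q atTop (𝓝 0)) (hg : Tendsto (fun n => (g n : ℝ) * q n) atTop (𝓝 lam))
    (hg' : Tendsto g atTop atTop) (k : ℕ) :
    Tendsto (fun n => (1 - q n) ^ (g n - k)) atTop (𝓝 (Real.exp (-lam))) := by
  have hk : ∀ᶠ n in atTop, k ≤ g n := hg'.eventually_ge_atTop k
  have h1 : ∀ᶠ n in atTop, q n < 1 / 2 := hq0.eventually_lt_const (by norm_num)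
  have hm : Tendsto (fun n => ((g n - k : ℕ) : ℝ) * q n) atTop (𝓝 lam) := by
    have h2 : Tendsto (fun n => (g n : ℝ) * q n - k * q n) atTop (𝓝 (lam - k * 0)) :=
      hg.sub (hq0.const_mul _)
    rw [mul_zero, sub_zero] at h2
    refine h2.congr' ?_
    filter_upwards [hk] with n hn
    rw [Nat.cast_sub hn]
    ring
  have hlo : Tendsto (fun n => Real.exp (-(((g n - k : ℕ) : ℝ) * q n) / (1 - q n))) atTop
      (𝓝 (Real.exp (-lam))) := by
    apply (Real.continuous_exp.tendsto _).comp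
    have : Tendsto (fun n => -(((g n - k : ℕ) : ℝ) * q n) / (1 - q n)) atTop
        (𝓝 (-lam / (1 - 0))) := hm.neg.div (tendsto_const_nhds.sub hq0) (by norm_num)
    simpa using this
  have hhi : Tendsto (fun n => Real.exp (-(((g n - k : ℕ) : ℝ) * q n))) atTop
      (𝓝 (Real.exp (-lam))) := (Real.continuous_exp.tendsto _).comp hm.neg
  refine tendsto_of_tendsto_of_tendsto_of_le_of_le' hlo hhi ?_ ?_
  · filter_upwards [h1] with n hn
    have p : 0 < 1 - q n := by linarith
    have e : -(((g n - k : ℕ) : ℝ) * q n) / (1 - q n) =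
      ((g n - k : ℕ) : ℝ) * (-(q n / (1 - q n))) := by
      field_simp
    rw [e, Real.exp_nat_mul]
    apply pow_le_pow_left₀ (Real.exp_pos _).le
    have k1 := Real.add_one_le_exp (q n / (1 - q n))
    have k2 : q n / (1 - q n) + 1 = (1 - q n)⁻¹ := by
      field_simp
      ring
    rw [k2] at k1
    rw [Real.exp_neg]
    rw [inv_le_comm₀ (Real.exp_pos _) p]
    exact k1
  · filter_upwards [h1] with n hn
    have p : 0 < 1 - q n := by linarith
    have e : -(((g n - k : ℕ) : ℝ) * q n) = ((g n - k : ℕ) : ℝ) * (-(q n)) := by ring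
    rw [e, Real.exp_nat_mul]
    apply pow_le_pow_left₀ p.le
    have k1 := Real.add_one_le_exp (-(q n))
    linarith

/-! ### the expectation as a series -/

section ser

variable {ι : Type} [Fintype ι] [DecidableEq ι]

lemma sum_inj' (n : ℕ) (Φ : Finset ι → ℝ) :
    ∑ k ∈ (univ : Finset (Fin n → ι)).filter (fun k => Function.Injective k), Φ (univ.image k) =
      (n.factorial : ℝ) * ∑ A ∈ (univ : Finset ι).powersetCard n, Φ A := by
  have h := Link.sum_inj (α := ι) n (fun A => (Φ A : ℂ))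
  exact_mod_cast h

/-- a term of the series -/
noncomputable def term (q : ℝ) (F : ∀ k : ℕ, (Fin k → ι) → ℝ) (k : ℕ) : ℝ :=
  q ^ k * (1 - q) ^ (Fintype.card ι - k) / k.factorial *
    ∑ x ∈ (univ : Finset (Fin k → ι)).filter (fun x => Function.Injective x), F k x

lemma Ex_series (q : ℝ) (Φ : Finset ι → ℝ) (F : ∀ k : ℕ, (Fin k → ι) → ℝ)
    (h : ∀ k x, Function.Injective x → Φ (univ.image x) = F k x) :
    Ex q Φ = ∑' k, term q F k := by
  have h1 := Dep.sum_mu_layer (ι := ι) q (fun _ => 1) Φ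
  simp only [one_mul, mul_one, smul_eq_mul] at h1
  rw [h1]
  rw [tsum_eq_sum (s := range (Fintype.card ι + 1))]
  · refine Finset.sum_congr rfl fun k _ => ?_
    have h2 := sum_inj' (ι := ι) k Φ
    have h3 : ∑ x ∈ (univ : Finset (Fin k → ι)).filter (fun x => Function.Injective x), F k x =
        (k.factorial : ℝ) * ∑ A ∈ (univ : Finset ι).powersetCard k, Φ A := by
      rw [← h2]
      refine Finset.sum_congr rfl fun x hx => ?_
      rw [Finset.mem_filter] at hx
      exact (h k x hx.2).symm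
    unfold term
    rw [h3]
    have : (k.factorial : ℝ) ≠ 0 := by exact_mod_cast k.factorial_ne_zero
    field_simp
  · intro k hk
    rw [Finset.mem_range] at hk
    push Not at hk
    unfold term
    rw [Finset.filter_false_of_mem]
    · simp
    · intro x _ hx
      have := Fintype.card_le_of_injective x hx
      rw [Fintype.card_fin] at this
      omega

lemma term_bound {q : ℝ} (h0 : 0 ≤ q) (h1 : q ≤ 1) {F : ∀ k : ℕ, (Fin k → ι) → ℝ} {B : ℕ → ℝ}
    (hB : ∀ k x, |F k x| ≤ B k) (k : ℕ) :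
    |term q F k| ≤ (Fintype.card ι * q) ^ k / k.factorial * |B k| := by
  unfold term
  have p : 0 ≤ 1 - q := by linarith
  have p1 : (1 - q) ^ (Fintype.card ι - k) ≤ 1 := pow_le_one₀ p (by linarith)
  have p0 : 0 ≤ (1 - q) ^ (Fintype.card ι - k) := by positivity
  rw [abs_mul, abs_of_nonneg (by positivity :
    0 ≤ q ^ k * (1 - q) ^ (Fintype.card ι - k) / k.factorial)]
  have h2 : |∑ x ∈ (univ : Finset (Fin k → ι)).filter (fun x => Function.Injective x), F k x| ≤
      (Fintype.card ι : ℝ) ^ k * |B k| := by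
    refine (Finset.abs_sum_le_sum_abs _ _).trans ?_
    calc ∑ x ∈ (univ : Finset (Fin k → ι)).filter (fun x => Function.Injective x), |F k x| ≤
        ∑ x ∈ (univ : Finset (Fin k → ι)).filter (fun x => Function.Injective x), |B k| :=
          Finset.sum_le_sum fun x _ => (hB k x).trans (le_abs_self _)
      _ ≤ ∑ _x : Fin k → ι, |B k| := Finset.sum_le_sum_of_subset_of_nonneg
          (Finset.filter_subset _ _) fun _ _ _ => abs_nonneg _
      _ = (Fintype.card ι : ℝ) ^ k * |B k| := by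
          rw [Finset.sum_const, Finset.card_univ, nsmul_eq_mul]
          simp
  calc q ^ k * (1 - q) ^ (Fintype.card ι - k) / k.factorial * _
      ≤ q ^ k * 1 / k.factorial * ((Fintype.card ι : ℝ) ^ k * |B k|) := by
        apply mul_le_mul _ h2 (abs_nonneg _) (by positivity)
        apply div_le_div_of_nonneg_right _ (by positivity)
        exact mul_le_mul_of_nonneg_left p1 (by positivity)
    _ = _ := by
        rw [mul_pow]
        ring

/-- the sum over the injective maps, divided by the number of all maps -/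
lemma inj_close {F : ∀ k : ℕ, (Fin k → ι) → ℝ} {B : ℕ → ℝ}
    (hB : ∀ k x, |F k x| ≤ B k) (k : ℕ) (hk : k ≤ Fintype.card ι) (hg : 1 ≤ Fintype.card ι) :
    |(∑ x ∈ (univ : Finset (Fin k → ι)).filter (fun x => Function.Injective x), F k x) /
      (Fintype.card ι : ℝ) ^ k - ag (F k)| ≤ |B k| * ((k : ℝ) ^ 2 / Fintype.card ι) := by
  have hgR : (0 : ℝ) < Fintype.card ι := by exact_mod_cast hg
  have h1 : ∑ x : Fin k → ι, F k x =
      ∑ x ∈ (univ : Finset (Fin k → ι)).filter (fun x => Function.Injective x), F k x +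
      ∑ x ∈ (univ : Finset (Fin k → ι)).filter (fun x => ¬ Function.Injective x), F k x :=
    (Finset.sum_filter_add_sum_filter_not _ _ _).symm
  have h2 := Link.card_not_inj (α := ι) k hk hg
  have h3 : |∑ x ∈ (univ : Finset (Fin k → ι)).filter (fun x => ¬ Function.Injective x), F k x| ≤
      ((univ : Finset (Fin k → ι)).filter (fun x => ¬ Function.Injective x)).card * |B k| := by
    refine (Finset.abs_sum_le_sum_abs _ _).trans ?_
    calc _ ≤ ∑ x ∈ (univ : Finset (Fin k → ι)).filter (fun x => ¬ Function.Injective x), |B k| :=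
          Finset.sum_le_sum fun x _ => (hB k x).trans (le_abs_self _)
      _ = _ := by rw [Finset.sum_const, nsmul_eq_mul]
  have e : (∑ x ∈ (univ : Finset (Fin k → ι)).filter (fun x => Function.Injective x), F k x) /
      (Fintype.card ι : ℝ) ^ k - ag (F k) =
      -(∑ x ∈ (univ : Finset (Fin k → ι)).filter (fun x => ¬ Function.Injective x), F k x) /
        (Fintype.card ι : ℝ) ^ k := by
    unfold ag
    rw [h1]
    have : (Fintype.card (Fin k → ι) : ℝ) = (Fintype.card ι : ℝ) ^ k := by simp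
    rw [this]
    ring
  rw [e, abs_div, abs_neg, abs_of_pos (by positivity : (0 : ℝ) < (Fintype.card ι : ℝ) ^ k),
    div_le_iff₀ (by positivity)]
  refine h3.trans ?_
  calc _ ≤ ((k : ℝ) ^ 2 / (Fintype.card ι : ℝ) * (Fintype.card ι : ℝ) ^ k) * |B k| :=
        mul_le_mul_of_nonneg_right h2 (abs_nonneg _)
    _ = _ := by ring

end ser

/-! ### convergence of the expectations -/

lemma card_Ix (r M : ℕ) : Fintype.card (Ix r 1 M) = (r * M) ^ 2 := by
  simp only [Ix, Fintype.card_prod, Fintype.card_fin]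
  ring

theorem conv {r : ℕ} (hr : 0 < r) {f : ∀ k : ℕ, (Fin k → ℂ) → ℝ} {B L : ℕ → ℝ}
    (hD : Dat r f B L) (hs : Summable fun k : ℕ => (2 * (r : ℝ) ^ 2) ^ k / k.factorial * |B k|)
    (Φ : ∀ M : ℕ, Finset (Ix r 1 M) → ℝ)
    (hΦ : ∀ (M : ℕ) (k : ℕ) (x : Fin k → Ix r 1 M), Function.Injective x →
      Φ M (univ.image x) = f k fun i => sp r 1 M (x i)) :
    ∃ W : ℝ, ∀ (M : ℕ → ℕ) (q : ℕ → ℝ), Tendsto M atTop atTop →
      (∀ n, 0 ≤ q n ∧ q n ≤ 1) → Tendsto (fun n => q n * (M n : ℝ) ^ 2) atTop (𝓝 1) →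
      Tendsto (fun n => Ex (q n) (Φ (M n))) atTop (𝓝 W) := by
  choose I hI using A_lim hr hD
  refine ⟨∑' k : ℕ, ((r : ℝ) ^ 2) ^ k * Real.exp (-((r : ℝ) ^ 2)) / k.factorial * I k, ?_⟩
  intro M q hM hq hqM
  have hrR : (0 : ℝ) < r := by exact_mod_cast hr
  have hM1 : ∀ᶠ n in atTop, 1 ≤ M n := hM.eventually_ge_atTop 1
  have hMR : Tendsto (fun n => (M n : ℝ)) atTop atTop := tendsto_natCast_atTop_atTop.comp hM
  -- the expected number of points
  have hgq : Tendsto (fun n => (Fintype.card (Ix r 1 (M n)) : ℝ) * q n) atTop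
      (𝓝 ((r : ℝ) ^ 2)) := by
    have h := hqM.const_mul ((r : ℝ) ^ 2)
    rw [mul_one] at h
    refine h.congr fun n => ?_
    rw [card_Ix]
    push_cast
    ring
  have hg : Tendsto (fun n => Fintype.card (Ix r 1 (M n))) atTop atTop := by
    refine tendsto_atTop_mono' _ ?_ hM
    filter_upwards [hM1] with n hn
    rw [card_Ix]
    nlinarith [Nat.mul_le_mul hr hn, Nat.mul_le_mul_right (M n) hr]
  have hgR : Tendsto (fun n => (Fintype.card (Ix r 1 (M n)) : ℝ)) atTop atTop :=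
    tendsto_natCast_atTop_atTop.comp hg
  have hq0 : Tendsto q atTop (𝓝 0) := by
    have h := hgq.div_atTop hgR
    refine h.congr' ?_
    filter_upwards [hg.eventually_ge_atTop 1] with n hn
    have : (0 : ℝ) < Fintype.card (Ix r 1 (M n)) := by exact_mod_cast hn
    field_simp
  have hser : ∀ n, Ex (q n) (Φ (M n)) = ∑' k, term (q n)
      (fun k (x : Fin k → Ix r 1 (M n)) => f k fun i => sp r 1 (M n) (x i)) k := fun n =>
    Ex_series (q n) (Φ (M n)) _ fun k x hx => hΦ (M n) k x hx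
  simp only [hser]
  refine tendsto_tsum_of_dominated_convergence hs ?_ ?_
  · intro k
    -- the factors
    have t1 : Tendsto (fun n => ((Fintype.card (Ix r 1 (M n)) : ℝ) * q n) ^ k) atTop
        (𝓝 (((r : ℝ) ^ 2) ^ k)) := hgq.pow k
    have t2 := pow_lim q (fun n => Fintype.card (Ix r 1 (M n))) ((r : ℝ) ^ 2)
      (fun n => (hq n).1) hq0 hgq hg k
    have t3 : Tendsto (fun n => (∑ x ∈ (univ : Finset (Fin k → Ix r 1 (M n))).filter
        (fun x => Function.Injective x), f k fun i => sp r 1 (M n) (x i)) /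
        (Fintype.card (Ix r 1 (M n)) : ℝ) ^ k) atTop (𝓝 (I k)) := by
      have a1 := hI k M hM
      have a2 : Tendsto (fun n => |B k| * ((k : ℝ) ^ 2 / Fintype.card (Ix r 1 (M n)))) atTop
          (𝓝 0) := by
        have := (Tendsto.const_div_atTop hgR ((k : ℝ) ^ 2)).const_mul |B k|
        rwa [mul_zero] at this
      have a3 : Tendsto (fun n => (∑ x ∈ (univ : Finset (Fin k → Ix r 1 (M n))).filter
        (fun x => Function.Injective x), f k fun i => sp r 1 (M n) (x i)) /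
        (Fintype.card (Ix r 1 (M n)) : ℝ) ^ k - A r k (M n) (f k)) atTop (𝓝 0) := by
        apply squeeze_zero_norm' _ a2
        filter_upwards [hg.eventually_ge_atTop k, hg.eventually_ge_atTop 1, hM1] with n b1 b2 b3
        rw [Real.norm_eq_abs]
        exact inj_close (F := fun k (x : Fin k → Ix r 1 (M n)) => f k fun i => sp r 1 (M n) (x i))
          (fun k x => hD.bd k _ fun i => sp_box b3 _) k b1 b2
      have a4 := a3.add a1
      simp only [sub_add_cancel, zero_add] at a4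
      exact a4
    have t4 := ((t1.mul t2).div_const (k.factorial : ℝ)).mul t3
    refine t4.congr' ?_
    filter_upwards [hg.eventually_ge_atTop 1] with n hn
    have : (0 : ℝ) < Fintype.card (Ix r 1 (M n)) := by exact_mod_cast hn
    unfold term
    rw [mul_pow]
    field_simp
  · have h2 : ∀ᶠ n in atTop, (Fintype.card (Ix r 1 (M n)) : ℝ) * q n < 2 * (r : ℝ) ^ 2 :=
      hgq.eventually_lt_const (by nlinarith [sq_pos_of_pos hrR])
    filter_upwards [h2, hM1] with n hn hn1 k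
    rw [Real.norm_eq_abs]
    refine (term_bound (hq n).1 (hq n).2 (B := B)
      (fun k x => hD.bd k _ fun i => sp_box hn1 _) k).trans ?_
    apply mul_le_mul_of_nonneg_right _ (abs_nonneg _)
    apply div_le_div_of_nonneg_right _ (by positivity)
    exact pow_le_pow_left₀ (mul_nonneg (by positivity) (hq n).1) hn.le k

/-! ### the functional -/

/-- the functional as a function of `k` points -/
noncomputable def fn (β : ℝ) (k : ℕ) (y : Fin k → ℂ) : ℝ := tsp (Set.range y) + β * k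

lemma tsp_range_bd (hbasic : S_BASIC) {r k : ℕ} (y : Fin k → ℂ) (hy : ∀ i, y i ∈ box r) :
    tsp (Set.range y) ≤ 3 * r * k := by
  classical
  have h := Loc.tsp_card hbasic (s := r) (c := (0, 0)) (univ.image y) (by
    intro z hz
    obtain ⟨i, _, rfl⟩ := Finset.mem_image.1 hz
    exact hy i)
  rw [Finset.coe_image, Finset.coe_univ, Set.image_univ] at h
  refine h.trans ?_
  have h2 : ((univ.image y).card : ℝ) ≤ k := by
    have := Finset.card_image_le (s := (univ : Finset (Fin k))) (f := y)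
    rw [Finset.card_univ, Fintype.card_fin] at this
    exact_mod_cast this
  have h3 : (0 : ℝ) ≤ 3 * r := by positivity
  exact mul_le_mul_of_nonneg_left h2 h3

/-- the bound -/
noncomputable def B1 (r : ℕ) (β : ℝ) (k : ℕ) : ℝ := (3 * r + |β|) * k

lemma B1_nonneg (r : ℕ) (β : ℝ) (k : ℕ) : 0 ≤ B1 r β k := by
  unfold B1
  positivity

lemma fn_bd (hbasic : S_BASIC) {r k : ℕ} (β : ℝ) (y : Fin k → ℂ) (hy : ∀ i, y i ∈ box r) :
    |fn β k y| ≤ B1 r β k := by
  unfold fn B1
  have h1 := tsp_range_bd hbasic y hy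
  have h2 := hbasic.1 (Set.range y)
  have h3 : |β * k| = |β| * k := by
    rw [abs_mul, Nat.abs_cast]
  refine (abs_add_le _ _).trans ?_
  rw [h3, abs_of_nonneg h2]
  linarith

lemma fn_lip (hbasic : S_BASIC) {k : ℕ} (β : ℝ) (y y' : Fin k → ℂ) (ε : ℝ)
    (h : ∀ i, dist (y i) (y' i) ≤ ε) : |fn β k y - fn β k y'| ≤ 2 * k * ε := by
  unfold fn
  have := hbasic.2.2.2.2.2.2 k y y' ε h
  rw [add_sub_add_right_eq_sub]
  exact this

lemma dat1 (hbasic : S_BASIC) (r : ℕ) (β : ℝ) :
    Dat r (fn β) (B1 r β) (fun k => 2 * k) where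
  bd k y hy := fn_bd hbasic β y hy
  lip k y y' _ _ ε _ h := fn_lip hbasic β y y' ε h

lemma dat2 (hbasic : S_BASIC) (r : ℕ) (β : ℝ) :
    Dat r (fun k y => (fn β k y) ^ 2) (fun k => (B1 r β k) ^ 2)
      (fun k => 2 * k * (2 * B1 r β k)) where
  bd k y hy := by
    rw [abs_pow]
    exact pow_le_pow_left₀ (abs_nonneg _) (fn_bd hbasic β y hy) 2
  lip k y y' hy hy' ε hε h := by
    have h1 := fn_lip hbasic β y y' ε h
    have h2 := fn_bd hbasic β y hy
    have h3 := fn_bd hbasic β y' hy'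
    have e : (fn β k y) ^ 2 - (fn β k y') ^ 2 =
      (fn β k y - fn β k y') * (fn β k y + fn β k y') := by ring
    rw [e, abs_mul]
    have h4 : |fn β k y + fn β k y'| ≤ 2 * B1 r β k := (abs_add_le _ _).trans (by linarith)
    calc _ ≤ (2 * k * ε) * (2 * B1 r β k) := mul_le_mul h1 h4 (abs_nonneg _) (by positivity)
      _ = _ := by ring

lemma sum1 (a c : ℝ) (ha : 0 ≤ a) : Summable fun k : ℕ => a ^ k / k.factorial * |c * k| := by
  have h : ∀ k : ℕ, (k : ℝ) ≤ 2 ^ k := fun k => by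
    exact_mod_cast (Nat.lt_two_pow_self (n := k)).le
  have h2 := (Real.summable_pow_div_factorial (a * 2)).mul_left |c|
  refine h2.of_nonneg_of_le (fun k => by positivity) fun k => ?_
  rw [abs_mul, Nat.abs_cast, mul_pow]
  have h3 := h k
  have h4 : 0 ≤ a ^ k / k.factorial * |c| := by positivity
  calc a ^ k / k.factorial * (|c| * k) = (a ^ k / k.factorial * |c|) * k := by ring
    _ ≤ (a ^ k / k.factorial * |c|) * 2 ^ k := mul_le_mul_of_nonneg_left h3 h4
    _ = _ := by ring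

lemma sum2 (a c : ℝ) (ha : 0 ≤ a) :
    Summable fun k : ℕ => a ^ k / k.factorial * |(c * k) ^ 2| := by
  have h : ∀ k : ℕ, (k : ℝ) ≤ 2 ^ k := fun k => by
    exact_mod_cast (Nat.lt_two_pow_self (n := k)).le
  have h2 := (Real.summable_pow_div_factorial (a * 4)).mul_left (c ^ 2)
  refine h2.of_nonneg_of_le (fun k => by positivity) fun k => ?_
  rw [abs_of_nonneg (by positivity), mul_pow, mul_pow]
  have h3 : (k : ℝ) ^ 2 ≤ 4 ^ k := by
    calc (k : ℝ) ^ 2 ≤ (2 ^ k) ^ 2 := pow_le_pow_left₀ (by positivity) (h k) 2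
      _ = 4 ^ k := by rw [← pow_mul, mul_comm, pow_mul]; norm_num
  have h4 : 0 ≤ a ^ k / k.factorial * c ^ 2 := by positivity
  calc a ^ k / k.factorial * (c ^ 2 * k ^ 2) = (a ^ k / k.factorial * c ^ 2) * k ^ 2 := by ring
    _ ≤ (a ^ k / k.factorial * c ^ 2) * 4 ^ k := mul_le_mul_of_nonneg_left h3 h4
    _ = _ := by ring

lemma val (r : ℕ) (β : ℝ) (M k : ℕ) (x : Fin k → Ix r 1 M) (hx : Function.Injective x) :
    f0 r 1 M (univ.image x) + β * ((univ.image x).card : ℝ) =
      fn β k fun i => sp r 1 M (x i) := by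
  unfold f0 fn
  rw [Finset.card_image_of_injective _ hx, Finset.card_univ, Fintype.card_fin]
  congr 2
  ext z
  unfold pts
  simp only [Set.mem_ofPred_eq, Finset.mem_image, Finset.mem_univ, true_and, Set.mem_range]
  constructor
  · rintro ⟨k, ⟨i, rfl⟩, rfl⟩
    exact ⟨i, rfl⟩
  · rintro ⟨i, rfl⟩
    exact ⟨_, ⟨i, rfl⟩, rfl⟩

lemma Vr_eq {ι : Type} [Fintype ι] [DecidableEq ι] (q : ℝ) (f : Finset ι → ℝ) :
    Vr q f = Ex q (fun A => f A ^ 2) - (Ex q f) ^ 2 := by
  unfold Vr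
  have e : (fun B : Finset ι => (f B - Ex q f) ^ 2) =
      fun B => (f B ^ 2 - (2 * Ex q f) * f B) + (Ex q f) ^ 2 := by
    funext B
    ring
  rw [e, Dep.Ex_add, Dep.Ex_sub, Dep.Ex_mul_left, Dep.Ex_const]
  ring

theorem main (hbasic : S_BASIC) : S_FIX := by
  have key : ∀ (r : ℕ) (β : ℝ), ∃ W : ℝ, 0 < r → ∀ (M : ℕ → ℕ) (q : ℕ → ℝ),
      Tendsto M atTop atTop → (∀ n, 0 ≤ q n ∧ q n ≤ 1) →
      Tendsto (fun n => q n * (M n : ℝ) ^ 2) atTop (𝓝 1) →
      Tendsto (fun n => Vr (q n) (fun A : Finset (Ix r 1 (M n)) =>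
        f0 r 1 (M n) A + β * (A.card : ℝ))) atTop (𝓝 W) := by
    intro r β
    rcases Nat.eq_zero_or_pos r with h0 | hr
    · exact ⟨0, fun h => absurd h (by omega)⟩
    obtain ⟨W1, h1⟩ := conv hr (dat1 hbasic r β) (sum1 _ _ (by positivity))
      (fun M A => f0 r 1 M A + β * (A.card : ℝ)) (fun M k x hx => val r β M k x hx)
    obtain ⟨W2, h2⟩ := conv hr (dat2 hbasic r β) (sum2 _ _ (by positivity))
      (fun M A => (f0 r 1 M A + β * (A.card : ℝ)) ^ 2) (fun M k x hx => by
        rw [val r β M k x hx])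
    refine ⟨W2 - W1 ^ 2, fun _ M q hM hq hqM => ?_⟩
    have k1 := h1 M q hM hq hqM
    have k2 := h2 M q hM hq hqM
    refine (k2.sub (k1.pow 2)).congr fun n => ?_
    rw [Vr_eq]
  choose w hw using key
  exact ⟨w, fun r hr β => hw r β hr⟩

end Pool.Agent.N940.TSP.Fix
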