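import Pool.Agent.N940.TSP.Prod

/-!
# The weights of the Hoeffding decomposition
-/

set_option autoImplicit false
set_option linter.unusedSectionVars false
set_option linter.unusedVariables false

namespace Pool.Agent.N940.TSP

open Finset

variable {ι : Type} [Fintype ι] [DecidableEq ι]

lemma Ex_nonneg {q : ℝ} (h0 : 0 ≤ q) (h1 : q ≤ 1) {f : Finset ι → ℝ} (hf : ∀ A, 0 ≤ f A) :
    0 ≤ Ex q f :=
  Finset.sum_nonneg fun B _ => smul_nonneg (mu_nonneg h0 h1 B) (hf B)

lemma Ex_mono {q : ℝ} (h0 : 0 ≤ q) (h1 : q ≤ 1) {f g : Finset ι → ℝ} (hf : ∀ A, f A ≤ g A) :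
    Ex q f ≤ Ex q g :=
  Finset.sum_le_sum fun B _ => smul_le_smul_of_nonneg_left (hf B) (mu_nonneg h0 h1 B)

lemma Ex_mul_left (q : ℝ) (c : ℝ) (f : Finset ι → ℝ) :
    Ex q (fun A => c * f A) = c * Ex q f := Ex_smul q c f

/-- the energy of the conditional expectation -/
def en (q : ℝ) (f : Finset ι → ℝ) (U : Finset ι) : ℝ := Ex q (fun A => (Av q U f A) ^ 2)

lemma en_sub {q : ℝ} (f : Finset ι → ℝ) {U V : Finset ι} (h : U ⊆ V) :
    Ex q (fun A => (Av q V f A - Av q U f A) ^ 2) = en q f V - en q f U := by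
  have h1 : Ex q (fun A => Av q V f A * Av q U f A) = en q f U := by
    have e := Ex_mul_Av q U (Av q V f) f
    rw [e, Av_Av, inter_eq_left.2 h]
    unfold en
    congr 1
    funext A
    ring
  have h2 : (fun A => (Av q V f A - Av q U f A) ^ 2) = fun A =>
      (Av q V f A) ^ 2 - ((2 : ℝ) • (Av q V f A * Av q U f A) - (Av q U f A) ^ 2) := by
    funext A
    rw [smul_eq_mul]
    ring
  rw [h2, Ex_sub, Ex_sub, Ex_smul, h1, smul_eq_mul]
  unfold en
  ring

lemma en_nonneg {q : ℝ} (h0 : 0 ≤ q) (h1 : q ≤ 1) (f : Finset ι → ℝ) (U : Finset ι) :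
    0 ≤ en q f U := Ex_nonneg h0 h1 fun _ => sq_nonneg _

lemma en_insert {q : ℝ} (f : Finset ι → ℝ) {W : Finset ι} {i : ι} (hi : i ∉ W) :
    en q f (insert i W) = en q f W + en q (fun A => f A - Av q {i}ᶜ f A) (insert i W) := by
  have h1 : Av q (insert i W) (fun A => f A - Av q {i}ᶜ f A) =
      fun A => Av q (insert i W) f A - Av q W f A := by
    rw [Av_sub, Av_Av]
    have : insert i W ∩ {i}ᶜ = W := by
      ext x
      simp only [mem_inter, mem_insert, mem_compl, mem_singleton]
      constructor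
      · rintro ⟨h | h, h'⟩
        · exact absurd h h'
        · exact h
      · intro h
        exact ⟨Or.inr h, fun h' => hi (h' ▸ h)⟩
    rw [this]
  have h2 := en_sub (q := q) f (subset_insert i W)
  have h3 : en q (fun A => f A - Av q {i}ᶜ f A) (insert i W) =
      en q f (insert i W) - en q f W := by
    rw [← h2]
    unfold en
    rw [h1]
  linarith

lemma hoef_aux {q : ℝ} (h0 : 0 ≤ q) (h1 : q ≤ 1) (U : Finset ι) :
    ∀ (C : Finset ι) (g : Finset ι → ℝ), Disjoint U C →
      ∃ w : Finset ι → ℝ, (∀ S, 0 ≤ w S) ∧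
        ∀ U' ⊆ U, en q g (U' ∪ C) = ∑ S ∈ U'.powerset, w S := by
  induction U using Finset.induction_on with
  | empty =>
    intro C g _
    refine ⟨fun _ => en q g C, fun _ => en_nonneg h0 h1 _ _, fun U' hU' => ?_⟩
    rw [subset_empty.1 hU']
    simp
  | insert i U hi ih =>
    intro C g hd
    have hiC : i ∉ C := disjoint_left.1 hd (mem_insert_self i U)
    have hUC : Disjoint U C := disjoint_of_subset_left (subset_insert i U) hd
    obtain ⟨w1, hw1, hs1⟩ := ih C g hUC
    have hUC' : Disjoint U (insert i C) := by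
      rw [disjoint_insert_right]
      exact ⟨hi, hUC⟩
    obtain ⟨w2, hw2, hs2⟩ := ih (insert i C) (fun A => g A - Av q {i}ᶜ g A) hUC'
    refine ⟨fun S => if i ∈ S then w2 (S.erase i) else w1 S, fun S => ?_, fun U' hU' => ?_⟩
    · dsimp only
      split_ifs
      · exact hw2 _
      · exact hw1 _
    · by_cases hiU : i ∈ U'
      · obtain ⟨V, hV⟩ : ∃ V, V = U'.erase i := ⟨_, rfl⟩
        have hiV : i ∉ V := by rw [hV]; exact notMem_erase i U'
        have hU'V : U' = insert i V := by rw [hV, insert_erase hiU]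
        have hVU : V ⊆ U := by
          intro x hx
          have hx' : x ∈ insert i U := hU' (hU'V ▸ mem_insert_of_mem hx)
          rcases mem_insert.1 hx' with h | h
          · exact absurd (h ▸ hx) hiV
          · exact h
        rw [hU'V, sum_powerset_insert hiV]
        have e1 : ∑ S ∈ V.powerset, (if i ∈ S then w2 (S.erase i) else w1 S) =
            ∑ S ∈ V.powerset, w1 S := by
          refine sum_congr rfl fun S hS => ?_
          rw [if_neg (fun h => hiV (mem_powerset.1 hS h))]
        have e2 : ∑ S ∈ V.powerset, (if i ∈ insert i S then w2 ((insert i S).erase i)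
            else w1 (insert i S)) = ∑ S ∈ V.powerset, w2 S := by
          refine sum_congr rfl fun S hS => ?_
          rw [if_pos (mem_insert_self i S), erase_insert (fun h => hiV (mem_powerset.1 hS h))]
        rw [e1, e2, ← hs1 V hVU, ← hs2 V hVU]
        have e3 : insert i V ∪ C = insert i (V ∪ C) := insert_union i V C
        have e4 : V ∪ insert i C = insert i (V ∪ C) := union_insert i V C
        rw [e3, e4]
        refine en_insert g ?_
        rw [mem_union]
        rintro (h | h)
        · exact hiV h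
        · exact hiC h
      · have hU'U : U' ⊆ U := by
          intro x hx
          rcases mem_insert.1 (hU' hx) with h | h
          · exact absurd (h ▸ hx) hiU
          · exact h
        rw [hs1 U' hU'U]
        refine sum_congr rfl fun S hS => ?_
        beta_reduce
        rw [if_neg (fun h => hiU (mem_powerset.1 hS h))]

/-- **Hoeffding weights** -/
theorem hoef {q : ℝ} (h0 : 0 ≤ q) (h1 : q ≤ 1) (f : Finset ι → ℝ) :
    ∃ w : Finset ι → ℝ, (∀ S, 0 ≤ w S) ∧ ∀ U, en q f U = ∑ S ∈ U.powerset, w S := by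
  obtain ⟨w, hw, hs⟩ := hoef_aux h0 h1 (univ : Finset ι) ∅ f (disjoint_empty_right _)
  refine ⟨w, hw, fun U => ?_⟩
  have := hs U (subset_univ U)
  rwa [union_empty] at this

end Pool.Agent.N940.TSP
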