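import Pool.Agent.N940.TSP.Mod2
import Pool.Agent.N940.TSP.Loc
import Pool.Agent.N940.TSP.D1
import Pool.Agent.N940.TSP.Abs

/-!
# The functional without anchors: squared differences, localization, negligible anchors
-/

set_option autoImplicit false

namespace Pool.Agent.N940.TSP.Loc0

open Finset

variable {N K M : ℕ}

lemma pts_eq (A : Finset (Ix N K M)) : pts N K M A = ((A.image (sp N K M) : Finset ℂ) : Set ℂ) := by
  ext z
  rw [coe_image]
  constructor
  · rintro ⟨k, hk, rfl⟩
    exact ⟨k, hk, rfl⟩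
  · rintro ⟨k, hk, rfl⟩
    exact ⟨k, hk, rfl⟩

lemma pts_finite (A : Finset (Ix N K M)) : (pts N K M A).Finite := by
  rw [pts_eq]
  exact Finset.finite_toSet _

lemma pts_mono {A B : Finset (Ix N K M)} (h : A ⊆ B) : pts N K M A ⊆ pts N K M B := by
  rintro z ⟨k, hk, rfl⟩
  exact ⟨k, h hk, rfl⟩

lemma pts_sub_insert (A : Finset (Ix N K M)) (k : Ix N K M) :
    pts N K M A ⊆ insert (sp N K M k) (pts N K M (A.erase k)) := by
  rintro z ⟨k', hk', rfl⟩
  by_cases h : k' = k
  · subst h; exact Set.mem_insert _ _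
  · exact Set.mem_insert_of_mem _ ⟨k', mem_erase.2 ⟨h, hk'⟩, rfl⟩

theorem d10 (hbasic : S_BASIC) (hpack : S_PACK) : S_D10 := by
  obtain ⟨hnn, ⟨h0, h1⟩, hmono, hins, -, -, -⟩ := hbasic
  intro N K M hN hK hM A
  set f := f0 N K M with hf
  have hup : ∀ k ∈ A, ∀ a ∈ pts N K M (A.erase k), f A ≤ f (A.erase k) + 2 * dist a (sp N K M k) :=
    fun k hk a ha => (hmono _ _ (pts_sub_insert A k) ((pts_finite _).insert _)).trans
      (hins _ (pts_finite _) a ha _)
  set g : Ix N K M → ℝ := fun k => (f A - f (A.erase k)) / 2 with hg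
  have hinj := D1.sp_inj (N := N) (K := K) hM
  have hg0 : ∀ k ∈ A, 0 ≤ g k := by
    intro k hk
    have : f (A.erase k) ≤ f A := hmono _ _ (pts_mono (erase_subset k A)) (pts_finite _)
    show 0 ≤ (f A - f (A.erase k)) / 2
    linarith
  have hgd : ∀ k ∈ A, ∀ k' ∈ A, k' ≠ k → g k ≤ dist (sp N K M k) (sp N K M k') := by
    intro k hk k' hk' hne
    have := hup k hk (sp N K M k') ⟨k', mem_erase.2 ⟨hne, hk'⟩, rfl⟩
    show (f A - f (A.erase k)) / 2 ≤ _
    rw [dist_comm]
    linarith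
  have hR : (0 : ℝ) < (N : ℝ) * K := by positivity
  have hp := hpack ((N : ℝ) * K) hR (A.image (sp N K M)) (Function.extend (sp N K M) g 0)
    (by
      intro z hz
      obtain ⟨k, -, rfl⟩ := mem_image.1 hz
      exact D1.sp_range hM k)
    (by
      intro z hz
      obtain ⟨k, hk, rfl⟩ := mem_image.1 hz
      rw [hinj.extend_apply]
      refine ⟨hg0 k hk, ?_, ?_⟩
      · by_cases hex : ∃ k' ∈ A, k' ≠ k
        · obtain ⟨k', h1, h2⟩ := hex
          refine (hgd k hk k' h1 h2).trans ?_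
          obtain ⟨a1, a2, a3, a4⟩ := D1.sp_range (N := N) (K := K) hM k
          obtain ⟨b1, b2, b3, b4⟩ := D1.sp_range (N := N) (K := K) hM k'
          rw [Complex.dist_eq_re_im]
          refine Real.sqrt_le_iff.2 ⟨by positivity, ?_⟩
          have c1 : ((sp N K M k).re - (sp N K M k').re) ^ 2 ≤ ((N : ℝ) * K) ^ 2 :=
            sq_le_sq' (by linarith) (by linarith)
          have c2 : ((sp N K M k).im - (sp N K M k').im) ^ 2 ≤ ((N : ℝ) * K) ^ 2 :=
            sq_le_sq' (by linarith) (by linarith)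
          nlinarith
        · push Not at hex
          have hA : A = {k} := by
            ext x
            rw [mem_singleton]
            exact ⟨fun hx => hex x hx, fun hx => hx ▸ hk⟩
          have e1 : f A = 0 := by
            have : pts N K M A = {sp N K M k} := by
              rw [pts_eq, hA, image_singleton, coe_singleton]
            show tsp (pts N K M A) = 0
            rw [this, h1]
          have e2 : f (A.erase k) = 0 := by
            have : pts N K M (A.erase k) = ∅ := by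
              rw [pts_eq, hA]
              simp
            show tsp (pts N K M (A.erase k)) = 0
            rw [this, h0]
          show (f A - f (A.erase k)) / 2 ≤ _
          rw [e1, e2]
          simp only [sub_self, zero_div]
          positivity
      · intro w hw hne
        obtain ⟨k', hk', rfl⟩ := mem_image.1 hw
        exact hgd k hk k' hk' fun h => hne (by rw [h]))
  rw [sum_image fun a _ b _ h => hinj h] at hp
  simp only [hinj.extend_apply] at hp
  have h7 : ∑ k ∈ A, (f A - f (A.erase k)) ^ 2 = 4 * ∑ k ∈ A, g k ^ 2 := by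
    rw [mul_sum]
    refine sum_congr rfl fun k _ => ?_
    rw [hg]; ring
  rw [h7]
  linarith

/-! ### localization -/

lemma pts_mix {s : ℕ} (hM : 0 < M) (hs : 0 < s) (c : ℕ × ℕ) (A Z : Finset (Ix N K M)) :
    pts N K M (mix (bl N K M s c) A Z) =
      (pts N K M A ∩ sq s c) ∪ (pts N K M Z \ sq s c) := by
  ext z
  constructor
  · rintro ⟨k, hk, rfl⟩
    rcases mem_mix.1 hk with ⟨hA, hB⟩ | ⟨hZ, hB⟩
    · left
      refine ⟨⟨k, hA, rfl⟩, ?_⟩
      rw [Loc.sp_mem hM hs, ← Loc.mem_bl]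
      exact hB
    · right
      refine ⟨⟨k, hZ, rfl⟩, ?_⟩
      rw [Loc.sp_mem hM hs, ← Loc.mem_bl]
      exact hB
  · rintro (⟨⟨k, hk, rfl⟩, hQ⟩ | ⟨⟨k, hk, rfl⟩, hQ⟩)
    · refine ⟨k, ?_, rfl⟩
      rw [mem_mix]
      left
      refine ⟨hk, ?_⟩
      rwa [Loc.mem_bl, ← Loc.sp_mem hM hs]
    · refine ⟨k, ?_, rfl⟩
      rw [mem_mix]
      right
      refine ⟨hk, ?_⟩
      rwa [Loc.mem_bl, ← Loc.sp_mem hM hs]

lemma Dst_nonneg (s : ℕ) (c : ℕ × ℕ) (Z : Finset (Ix N K M)) : 0 ≤ Dst N K M s c Z := by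
  unfold Dst
  split_ifs with h
  · obtain ⟨k, hk, he⟩ := exists_mem_eq_inf' h (fun k => dist (sp N K M k) (cor s c))
    rw [he]
    exact dist_nonneg
  · exact le_rfl

theorem loc0 (hcut : S_CUT) (hbasic : S_BASIC) : S_LOC0 := by
  have hbasic' := hbasic
  obtain ⟨hnn, ⟨h0, h1⟩, hmono, hins, hun, -⟩ := hbasic
  intro N K M s hN hK hM hs c
  have hs' : (0 : ℝ) < (s : ℝ) := by exact_mod_cast hs
  set z : ℂ := cor s c with hz
  have hzQ : z ∈ sq s c := by
    refine ⟨le_rfl, ?_, le_rfl, ?_⟩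
    · simp only [hz, cor]; linarith
    · simp only [hz, cor]; linarith
  constructor
  · refine ⟨fun Z => tsp (insert z (pts N K M Z \ sq s c)), ?_⟩
    intro A Z
    unfold f0
    rw [pts_mix hM hs c A Z]
    set P := pts N K M A ∩ sq s c with hP
    set H := pts N K M Z \ sq s c with hH
    have hPf : P.Finite := (pts_finite A).subset Set.inter_subset_left
    have hHf : H.Finite := (pts_finite Z).subset Set.sdiff_subset
    have hD := Dst_nonneg (N := N) (K := K) (M := M) s c Z
    rcases P.eq_empty_or_nonempty with hPe | ⟨a, ha⟩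
    · rw [hPe, Set.empty_union, h0, sub_zero]
      have hle : tsp H ≤ tsp (insert z H) := hmono _ _ (Set.subset_insert _ _) (hHf.insert z)
      have hup : tsp (insert z H) ≤ tsp H + 2 * Dst N K M s c Z := by
        by_cases hne : (Z \ bl N K M s c).Nonempty
        · obtain ⟨k, hk, he⟩ := exists_mem_eq_inf' hne (fun k => dist (sp N K M k) (cor s c))
          have hDe : Dst N K M s c Z = dist (sp N K M k) (cor s c) := by
            unfold Dst
            rw [dif_pos hne, he]
          rw [hDe]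
          refine hins H hHf (sp N K M k) ?_ z
          refine ⟨⟨k, (mem_sdiff.1 hk).1, rfl⟩, ?_⟩
          rw [Loc.sp_mem hM hs, ← Loc.mem_bl]
          exact (mem_sdiff.1 hk).2
        · have hHe : H = ∅ := by
            rw [Set.eq_empty_iff_forall_notMem]
            rintro w ⟨⟨k, hk, rfl⟩, hQ⟩
            apply hne
            refine ⟨k, mem_sdiff.2 ⟨hk, ?_⟩⟩
            rwa [Loc.mem_bl, ← Loc.sp_mem hM hs]
          rw [hHe]
          have : (insert z ∅ : Set ℂ) = {z} := by simp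
          rw [this, h0, h1]
          linarith
      rw [abs_le]
      constructor
      · linarith
      · linarith
    · have hlow := hcut ((s : ℝ) * (c.1 : ℝ)) ((s : ℝ) * (c.2 : ℝ))
        (s : ℝ) hs' P H z hPf hHf ⟨a, ha⟩ (fun w hw => hw.2) (fun w hw => hw.2) hzQ
      have hup1 : tsp (P ∪ H) ≤ tsp (insert z P ∪ insert z H) := by
        refine hmono _ _ ?_ ((hPf.insert z).union (hHf.insert z))
        exact Set.union_subset_union (Set.subset_insert _ _) (Set.subset_insert _ _)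
      have hup2 := hun (insert z P) (insert z H) (hPf.insert z) (hHf.insert z) z
        (Set.mem_insert _ _) (Set.mem_insert _ _)
      have hup3 := hins P hPf a ha z
      have hd := Loc.dist_le ha.2 hzQ
      rw [abs_le]
      constructor
      · linarith
      · linarith
  · intro A
    set F : Finset ℂ := (A ∩ bl N K M s c).image (sp N K M) with hF
    have hFQ : ∀ w ∈ F, w ∈ sq s c := by
      intro w hw
      rw [hF, mem_image] at hw
      obtain ⟨k, hk, rfl⟩ := hw
      rw [Loc.sp_mem hM hs, ← Loc.mem_bl]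
      exact (mem_inter.1 hk).2
    have hsub : pts N K M A ∩ sq s c ⊆ (F : Set ℂ) := by
      rintro w ⟨⟨k, hk, rfl⟩, hQ⟩
      rw [mem_coe, hF, mem_image]
      refine ⟨k, mem_inter.2 ⟨hk, ?_⟩, rfl⟩
      rwa [Loc.mem_bl, ← Loc.sp_mem hM hs]
    have hcard : F.card ≤ (A ∩ bl N K M s c).card := card_image_le
    have h2 := hmono _ _ hsub F.finite_toSet
    have h3 := Loc.tsp_card hbasic' F hFQ
    have h4 : (F.card : ℝ) ≤ ((A ∩ bl N K M s c).card : ℝ) := by exact_mod_cast hcard
    have h5 := mul_le_mul_of_nonneg_left h4 (by positivity : (0 : ℝ) ≤ 3 * (s : ℝ))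
    linarith

/-! ### the anchors -/

section prob

variable {ι : Type} [Fintype ι] [DecidableEq ι]

lemma Ex_le {q : ℝ} (h0 : 0 ≤ q) (h1 : q ≤ 1) {f g : Finset ι → ℝ} (h : ∀ A, f A ≤ g A) :
    Ex q f ≤ Ex q g := by
  unfold Ex
  refine sum_le_sum fun B _ => ?_
  rw [smul_eq_mul, smul_eq_mul]
  exact mul_le_mul_of_nonneg_left (h B) (mu_nonneg h0 h1 B)

lemma Ex_nonneg {q : ℝ} (h0 : 0 ≤ q) (h1 : q ≤ 1) {f : Finset ι → ℝ} (h : ∀ A, 0 ≤ f A) :
    0 ≤ Ex q f := by
  have := Ex_le h0 h1 (f := fun _ : Finset ι => (0:ℝ)) (g := f) h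
  rwa [Ex_const] at this

/-- the indicator of the event that there is no point in `U` -/
def em (U : Finset ι) (A : Finset ι) : ℝ := if A ∩ U = ∅ then 1 else 0

lemma em_nonneg (U A : Finset ι) : 0 ≤ em U A := by
  unfold em; split_ifs <;> norm_num

lemma Dep_em (U : Finset ι) : Dep U (em U) := by
  intro A B h
  unfold em
  rw [h]

/-- the probability that there is no point in `U` -/
lemma Ex_em (q : ℝ) (U : Finset ι) : Ex q (em U) = (1 - q) ^ U.card := by
  have e1 : em U = fun A : Finset ι => ∏ x ∈ U, (if x ∈ A then (0:ℝ) else 1) := by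
    funext A
    unfold em
    by_cases h : A ∩ U = ∅
    · rw [if_pos h]
      symm
      apply prod_eq_one
      intro x hx
      rw [if_neg]
      intro hxA
      have : x ∈ A ∩ U := mem_inter.2 ⟨hxA, hx⟩
      rw [h] at this
      simp at this
    · rw [if_neg h]
      obtain ⟨x, hx⟩ := nonempty_iff_ne_empty.2 h
      symm
      exact prod_eq_zero (mem_inter.1 hx).2 (if_pos (mem_inter.1 hx).1)
  rw [e1, Ex_prod_indep q U (fun x => {x})]
  · rw [← prod_const]
    refine prod_congr rfl fun x _ => ?_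
    have h2 := Abs.Ex_mem (ι := ι) q x
    have h3 : (fun A : Finset ι => if x ∈ A then (0:ℝ) else 1) =
        fun A : Finset ι => (1:ℝ) - (if x ∈ A then (1:ℝ) else 0) := by
      funext A
      split_ifs <;> norm_num
    rw [h3, Ex_sub, Ex_const, h2]
  · intro c _ d _ hcd
    rwa [disjoint_singleton]
  · intro c _ A B h
    have : c ∈ A ↔ c ∈ B := by
      have h1 : c ∈ A ∩ {c} ↔ c ∈ B ∩ {c} := by rw [h]
      simpa using h1
    simp only [this]

/-- the second moment of the number of points on the event that there is no point in `U` -/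
lemma Ex_em_card (hm : S_MOM) {q : ℝ} (h0 : 0 ≤ q) (h1 : q ≤ 1) (U : Finset ι) :
    Ex q (fun A : Finset ι => em U A * (A.card : ℝ) ^ 2) ≤
      (1 - q) ^ U.card * (q * Fintype.card ι + 1) ^ 2 := by
  have e1 : (fun A : Finset ι => em U A * (A.card : ℝ) ^ 2) =
      fun A : Finset ι => em U A * ((A ∩ Uᶜ).card : ℝ) ^ 2 := by
    funext A
    unfold em
    by_cases h : A ∩ U = ∅
    · rw [if_pos h]
      have : A ∩ Uᶜ = A := by
        rw [inter_eq_left]
        intro x hx
        rw [mem_compl]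
        intro hxU
        have : x ∈ A ∩ U := mem_inter.2 ⟨hx, hxU⟩
        rw [h] at this
        simp at this
      rw [this]
    · rw [if_neg h, zero_mul, zero_mul]
  have d2 : Dep Uᶜ (fun A : Finset ι => ((A ∩ Uᶜ).card : ℝ) ^ 2) := by
    intro A B h
    simp only [h]
  rw [e1, Ex_mul_indep (Dep_em U) d2 disjoint_compl_right, Ex_em]
  have h2 := (hm ι q h0 h1 Uᶜ).2.1
  have h3 : 0 ≤ (1 - q) ^ U.card := pow_nonneg (by linarith) _
  refine mul_le_mul_of_nonneg_left (h2.trans ?_) h3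
  have h4 : ((Uᶜ).card : ℝ) ≤ Fintype.card ι := by exact_mod_cast card_le_univ _
  have h5 : q * ((Uᶜ).card : ℝ) ≤ q * Fintype.card ι := mul_le_mul_of_nonneg_left h4 h0
  have h6 : 0 ≤ q * ((Uᶜ).card : ℝ) := by positivity
  exact pow_le_pow_left₀ (by linarith) (by linarith) 2

end prob

/-- the number of the cells of a square of side `K` -/
lemma card_bl (hK : 0 < K) (hM : 0 < M) {v : ℕ × ℕ} (h1 : v.1 < N) (h2 : v.2 < N) :
    (bl N K M K v).card = (M * K) ^ 2 := by
  have hMK : 0 < M * K := Nat.mul_pos hM hK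
  have e : N * K * M = N * (M * K) := by ring
  have b : ∀ {w i : ℕ}, w < N → i < M * K → w * (M * K) + i < N * K * M := by
    intro w i hw hi
    rw [e]
    calc w * (M * K) + i < w * (M * K) + M * K := by omega
      _ = (w + 1) * (M * K) := by ring
      _ ≤ N * (M * K) := Nat.mul_le_mul_right _ hw
  have hc : (bl N K M K v).card = (univ : Finset (Fin (M * K) × Fin (M * K))).card := by
    symm
    refine card_bij (fun p _ => ((⟨v.1 * (M * K) + p.1, b h1 p.1.2⟩,
      ⟨v.2 * (M * K) + p.2, b h2 p.2.2⟩) : Ix N K M)) ?_ ?_ ?_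
    · rintro ⟨i, j⟩ _
      rw [Loc.mem_bl]
      unfold lb
      simp only
      rw [Nat.add_comm (v.1 * (M * K)), Nat.add_mul_div_right _ _ hMK, Nat.div_eq_of_lt i.2,
        Nat.add_comm (v.2 * (M * K)), Nat.add_mul_div_right _ _ hMK, Nat.div_eq_of_lt j.2]
      simp
    · rintro ⟨i, j⟩ _ ⟨i', j'⟩ _ h
      simp only [Prod.mk.injEq, Fin.mk.injEq] at h
      obtain ⟨ha, hb⟩ := h
      have ha' : (i : ℕ) = i' := by omega
      have hb' : (j : ℕ) = j' := by omega
      exact Prod.ext (Fin.ext ha') (Fin.ext hb')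
    · rintro ⟨i, j⟩ hk
      rw [Loc.mem_bl] at hk
      unfold lb at hk
      simp only [Prod.ext_iff] at hk
      obtain ⟨ha, hb⟩ := hk
      refine ⟨(⟨i % (M * K), Nat.mod_lt _ hMK⟩, ⟨j % (M * K), Nat.mod_lt _ hMK⟩), mem_univ _, ?_⟩
      refine Prod.ext (Fin.ext ?_) (Fin.ext ?_)
      · show v.1 * (M * K) + (i : ℕ) % (M * K) = i
        rw [← ha, mul_comm]
        exact Nat.div_add_mod _ _
      · show v.2 * (M * K) + (j : ℕ) % (M * K) = j
        rw [← hb, mul_comm]
        exact Nat.div_add_mod _ _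
  rw [hc, card_univ, Fintype.card_prod, Fintype.card_fin]
  ring

/-- tours through finite subsets of a square -/
lemma tsp_card' (hbasic : S_BASIC) {R : ℝ} (hR : 0 ≤ R) (F : Finset ℂ) :
    (∀ z ∈ F, 0 ≤ z.re ∧ z.re ≤ R ∧ 0 ≤ z.im ∧ z.im ≤ R) → tsp (F : Set ℂ) ≤ 3 * R * F.card := by
  obtain ⟨-, ⟨h0, h1⟩, -, hins, -⟩ := hbasic
  induction F using Finset.induction_on with
  | empty =>
    intro _
    simp [h0]
  | insert w F hw ih =>
    intro hF
    have ih' := ih fun z hz => hF z (mem_insert_of_mem hz)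
    rw [card_insert_of_notMem hw, coe_insert]
    push_cast
    rcases F.eq_empty_or_nonempty with rfl | ⟨a, ha⟩
    · simp only [coe_empty, insert_empty_eq, h1]
      positivity
    · have h2 := hins (F : Set ℂ) F.finite_toSet a (mem_coe.2 ha) w
      have h3 : dist a w ≤ 3 / 2 * R := by
        obtain ⟨a1, a2, a3, a4⟩ := hF a (mem_insert_of_mem ha)
        obtain ⟨b1, b2, b3, b4⟩ := hF w (mem_insert_self w F)
        rw [Complex.dist_eq_re_im, Real.sqrt_le_iff]
        refine ⟨by positivity, ?_⟩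
        have h1 : (a.re - w.re) ^ 2 ≤ R ^ 2 := sq_le_sq' (by linarith) (by linarith)
        have h2 : (a.im - w.im) ^ 2 ≤ R ^ 2 := sq_le_sq' (by linarith) (by linarith)
        nlinarith [sq_nonneg R]
      linarith

/-- the points and the anchors as a finite set -/
noncomputable def pF (A : Finset (Ix N K M)) : Finset ℂ :=
  A.image (sp N K M) ∪ (range N ×ˢ range N).image (Loc.an K)

lemma plus_sub_pF (A : Finset (Ix N K M)) : plus N K M A ⊆ (pF A : Set ℂ) := by
  intro z hz
  rw [mem_coe, pF, mem_union, mem_image, mem_image]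
  rcases (Loc.mem_plus A z).1 hz with ⟨k, hk, rfl⟩ | ⟨v, hv1, hv2, -, rfl⟩
  · exact Or.inl ⟨k, hk, rfl⟩
  · exact Or.inr ⟨v, by simp [hv1, hv2], rfl⟩

lemma pF_card (A : Finset (Ix N K M)) : (pF A).card ≤ A.card + N ^ 2 := by
  refine (card_union_le _ _).trans (add_le_add card_image_le (card_image_le.trans ?_))
  rw [card_product, card_range, pow_two]

lemma fT_le (hbasic : S_BASIC) (hM : 0 < M) (A : Finset (Ix N K M)) :
    fT N K M A ≤ 3 * ((N : ℝ) * K) * (A.card + (N : ℝ) ^ 2) := by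
  have hR : 0 ≤ (N : ℝ) * K := by positivity
  have h1 := hbasic.2.2.1 _ _ (plus_sub_pF A) (pF A).finite_toSet
  have h2 := tsp_card' hbasic hR (pF A) (by
    intro z hz
    rw [pF, mem_union, mem_image, mem_image] at hz
    rcases hz with ⟨k, hk, rfl⟩ | ⟨v, hv, rfl⟩
    · exact D1.sp_range hM k
    · rw [mem_product, mem_range, mem_range] at hv
      have v1 : (v.1 : ℝ) ≤ N := by exact_mod_cast hv.1.le
      have v2 : (v.2 : ℝ) ≤ N := by exact_mod_cast hv.2.le
      unfold Loc.an
      simp only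
      refine ⟨by positivity, ?_, by positivity, ?_⟩
      · rw [mul_comm]; exact mul_le_mul_of_nonneg_right v1 (by positivity)
      · rw [mul_comm]; exact mul_le_mul_of_nonneg_right v2 (by positivity))
  have h3 : ((pF A).card : ℝ) ≤ (A.card : ℝ) + (N : ℝ) ^ 2 := by exact_mod_cast pF_card A
  have h4 := mul_le_mul_of_nonneg_left h3 (by positivity : (0:ℝ) ≤ 3 * ((N : ℝ) * K))
  exact h1.trans (h2.trans h4)

lemma pts_sub_plus (A : Finset (Ix N K M)) : pts N K M A ⊆ plus N K M A :=
  fun _ hz => Or.inl hz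

/-- the two functionals agree if no square of side `K` is empty -/
lemma fT_eq {A : Finset (Ix N K M)}
    (h : ∀ v ∈ (range N ×ˢ range N : Finset (ℕ × ℕ)), A ∩ bl N K M K v ≠ ∅) :
    fT N K M A = f0 N K M A := by
  have : plus N K M A = pts N K M A := by
    refine Set.Subset.antisymm ?_ (pts_sub_plus A)
    intro z hz
    rcases (Loc.mem_plus A z).1 hz with hz | ⟨v, hv1, hv2, hv, rfl⟩
    · exact hz
    · exfalso
      obtain ⟨k, hk⟩ := nonempty_iff_ne_empty.2 (h v (by simp [hv1, hv2]))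
      exact hv k (mem_inter.1 hk).1 ((Loc.mem_bl v k).1 (mem_inter.1 hk).2)
  unfold fT f0
  rw [this]

theorem anc (hbasic : S_BASIC) (hm : S_MOM) : S_ANC := by
  intro N K M hN hK hM q h0 h1 hq1 hq4
  obtain ⟨R, hR⟩ : ∃ R : ℝ, R = (N : ℝ) * K := ⟨_, rfl⟩
  have hN' : (1 : ℝ) ≤ N := by exact_mod_cast hN
  have hK' : (1 : ℝ) ≤ K := by exact_mod_cast hK
  have hM' : (0 : ℝ) < M := by exact_mod_cast hM
  have hR1 : 1 ≤ R := by rw [hR]; nlinarith
  have hNR : (N : ℝ) ≤ R := by rw [hR]; nlinarith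
  -- pointwise
  have hpt : ∀ A : Finset (Ix N K M), (fT N K M A - f0 N K M A) ^ 2 ≤
      ∑ v ∈ (range N ×ˢ range N : Finset (ℕ × ℕ)),
        (18 * R ^ 2 * (em (bl N K M K v) A * (A.card : ℝ) ^ 2) +
          18 * R ^ 2 * (N : ℝ) ^ 4 * em (bl N K M K v) A) := by
    intro A
    have hterm : ∀ v ∈ (range N ×ˢ range N : Finset (ℕ × ℕ)),
        0 ≤ 18 * R ^ 2 * (em (bl N K M K v) A * (A.card : ℝ) ^ 2) +
          18 * R ^ 2 * (N : ℝ) ^ 4 * em (bl N K M K v) A := by
      intro v _
      have := em_nonneg (bl N K M K v) A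
      positivity
    by_cases hall : ∀ v ∈ (range N ×ˢ range N : Finset (ℕ × ℕ)), A ∩ bl N K M K v ≠ ∅
    · rw [fT_eq hall]
      simp only [sub_self]
      rw [zero_pow two_ne_zero]
      exact sum_nonneg hterm
    · push Not at hall
      obtain ⟨v, hv, he⟩ := hall
      refine le_trans ?_ (single_le_sum hterm hv)
      have e1 : em (bl N K M K v) A = 1 := by unfold em; rw [if_pos he]
      rw [e1]
      have a1 : f0 N K M A ≤ fT N K M A :=
        hbasic.2.2.1 _ _ (pts_sub_plus A) (D1.plus_finite A)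
      have a2 : 0 ≤ f0 N K M A := hbasic.1 _
      have a3 := fT_le hbasic hM A
      rw [← hR] at a3
      have a4 : (fT N K M A - f0 N K M A) ^ 2 ≤ (3 * R * (A.card + (N : ℝ) ^ 2)) ^ 2 :=
        pow_le_pow_left₀ (by linarith) (by linarith) 2
      refine a4.trans ?_
      nlinarith [mul_nonneg (sq_nonneg R) (sq_nonneg ((A.card : ℝ) - (N : ℝ) ^ 2))]
  refine (Ex_le h0 h1 hpt).trans ?_
  rw [Ex_sum]
  have hcard : (Fintype.card (Ix N K M) : ℝ) = R ^ 2 * (M : ℝ) ^ 2 := by
    rw [Fintype.card_prod, Fintype.card_fin, hR]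
    push_cast
    ring
  have hterm : ∀ v ∈ (range N ×ˢ range N : Finset (ℕ × ℕ)),
      Ex q (fun A : Finset (Ix N K M) => 18 * R ^ 2 * (em (bl N K M K v) A * (A.card : ℝ) ^ 2) +
          18 * R ^ 2 * (N : ℝ) ^ 4 * em (bl N K M K v) A) ≤
        468 * R ^ 6 * Real.exp (-((K : ℝ) ^ 2)) := by
    intro v hv
    rw [mem_product, mem_range, mem_range] at hv
    have e1 := Ex_smul q (18 * R ^ 2) (fun A : Finset (Ix N K M) =>
      em (bl N K M K v) A * (A.card : ℝ) ^ 2)
    have e2 := Ex_smul q (18 * R ^ 2 * (N : ℝ) ^ 4) (fun A : Finset (Ix N K M) =>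
      em (bl N K M K v) A)
    simp only [smul_eq_mul] at e1 e2
    rw [Ex_add, e1, e2]
    have b1 := Ex_em_card hm h0 h1 (bl N K M K v)
    have b2 : Ex q (fun A : Finset (Ix N K M) => em (bl N K M K v) A) =
        (1 - q) ^ (bl N K M K v).card := Ex_em q _
    rw [b2]
    rw [hcard] at b1
    -- the probability
    have hp : (1 - q) ^ (bl N K M K v).card ≤ Real.exp (-((K : ℝ) ^ 2)) := by
      rw [card_bl hK hM hv.1 hv.2]
      have c1 : 1 - q ≤ Real.exp (-q) := by
        have := Real.add_one_le_exp (-q)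
        linarith
      refine (pow_le_pow_left₀ (by linarith) c1 _).trans ?_
      rw [← Real.exp_nat_mul, Real.exp_le_exp]
      push_cast
      nlinarith [sq_nonneg (K : ℝ)]
    have hp0 : 0 ≤ (1 - q) ^ (bl N K M K v).card := pow_nonneg (by linarith) _
    have hE := Real.exp_pos (-((K : ℝ) ^ 2))
    have hqc : q * (R ^ 2 * (M : ℝ) ^ 2) + 1 ≤ 5 * R ^ 2 := by
      have : q * (R ^ 2 * (M : ℝ) ^ 2) = (q * (M : ℝ) ^ 2) * R ^ 2 := by ring
      rw [this]
      nlinarith [sq_nonneg R]
    have hqc0 : 0 ≤ q * (R ^ 2 * (M : ℝ) ^ 2) + 1 := by positivity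
    have b3 : (q * (R ^ 2 * (M : ℝ) ^ 2) + 1) ^ 2 ≤ 25 * R ^ 4 := by
      have := pow_le_pow_left₀ hqc0 hqc 2
      nlinarith
    have b4 : Ex q (fun A : Finset (Ix N K M) => em (bl N K M K v) A * (A.card : ℝ) ^ 2) ≤
        Real.exp (-((K : ℝ) ^ 2)) * (25 * R ^ 4) :=
      b1.trans (mul_le_mul hp b3 (by positivity) hE.le)
    have b5 : (N : ℝ) ^ 4 ≤ R ^ 4 := pow_le_pow_left₀ (by linarith) hNR 4
    have b6 : (N : ℝ) ^ 4 * (1 - q) ^ (bl N K M K v).card ≤
        R ^ 4 * Real.exp (-((K : ℝ) ^ 2)) :=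
      mul_le_mul b5 hp hp0 (by positivity)
    have b7 := mul_le_mul_of_nonneg_left b4 (by positivity : (0:ℝ) ≤ 18 * R ^ 2)
    have b8 := mul_le_mul_of_nonneg_left b6 (by positivity : (0:ℝ) ≤ 18 * R ^ 2)
    calc _ ≤ 18 * R ^ 2 * (Real.exp (-((K : ℝ) ^ 2)) * (25 * R ^ 4)) +
          18 * R ^ 2 * (R ^ 4 * Real.exp (-((K : ℝ) ^ 2))) := by
          refine add_le_add b7 (le_of_eq_of_le ?_ b8)
          ring
      _ = _ := by ring
  refine (sum_le_card_nsmul _ _ _ hterm).trans ?_
  rw [card_product, card_range, nsmul_eq_mul]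
  push_cast
  rw [← hR]
  have c1 : (N : ℝ) * N ≤ R ^ 2 := by nlinarith
  have c2 := mul_le_mul_of_nonneg_right c1
    (by positivity : (0:ℝ) ≤ 468 * R ^ 6 * Real.exp (-((K : ℝ) ^ 2)))
  refine c2.trans (le_of_eq (by ring))

end Pool.Agent.N940.TSP.Loc0
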