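import Pool.Agent.N940.TSP.Mod2
import Pool.Agent.N940.TSP.Abs

/-!
# Fourth moments by Efron-Stein, and variances from characteristic functions (helper97)
-/

set_option autoImplicit false

open Filter Topology

namespace Pool.Agent.N940.TSP.Mom4

open Finset

section prod

variable {κ : Type} [Fintype κ]

/-- average over one coordinate -/
noncomputable def E1 (φ : κ → ℝ) : ℝ := (Fintype.card κ : ℝ)⁻¹ * ∑ k, φ k

/-- average over all coordinates -/
noncomputable def E (n : ℕ) (φ : (Fin n → κ) → ℝ) : ℝ := ((Fintype.card κ : ℝ) ^ n)⁻¹ * ∑ k, φ k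

lemma E1_add (f g : κ → ℝ) : E1 (fun a => f a + g a) = E1 f + E1 g := by
  unfold E1
  rw [sum_add_distrib]; ring

lemma E1_mul (c : ℝ) (f : κ → ℝ) : E1 (fun a => c * f a) = c * E1 f := by
  unfold E1
  rw [← mul_sum]; ring

lemma E1_const [Nonempty κ] (c : ℝ) : E1 (fun _ : κ => c) = c := by
  unfold E1
  rw [sum_const, card_univ, nsmul_eq_mul]
  have : (Fintype.card κ : ℝ) ≠ 0 := by exact_mod_cast Fintype.card_ne_zero
  field_simp

lemma E1_mono {f g : κ → ℝ} (h : ∀ a, f a ≤ g a) : E1 f ≤ E1 g := by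
  unfold E1
  exact mul_le_mul_of_nonneg_left (sum_le_sum fun a _ => h a) (by positivity)

lemma E_add (n : ℕ) (f g : (Fin n → κ) → ℝ) : E n (fun a => f a + g a) = E n f + E n g := by
  unfold E
  rw [sum_add_distrib]; ring

lemma E_sub (n : ℕ) (f g : (Fin n → κ) → ℝ) : E n (fun a => f a - g a) = E n f - E n g := by
  unfold E
  rw [sum_sub_distrib]; ring

lemma E_mul (n : ℕ) (c : ℝ) (f : (Fin n → κ) → ℝ) : E n (fun a => c * f a) = c * E n f := by
  unfold E
  rw [← mul_sum]; ring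

lemma E_const [Nonempty κ] (n : ℕ) (c : ℝ) : E n (fun _ : Fin n → κ => c) = c := by
  unfold E
  rw [sum_const, card_univ, nsmul_eq_mul, Fintype.card_fun, Fintype.card_fin, Nat.cast_pow]
  have : (Fintype.card κ : ℝ) ≠ 0 := by exact_mod_cast Fintype.card_ne_zero
  field_simp

lemma E_mono (n : ℕ) {f g : (Fin n → κ) → ℝ} (h : ∀ a, f a ≤ g a) : E n f ≤ E n g := by
  unfold E
  exact mul_le_mul_of_nonneg_left (sum_le_sum fun a _ => h a) (by positivity)

lemma E_nonneg (n : ℕ) {f : (Fin n → κ) → ℝ} (h : ∀ a, 0 ≤ f a) : 0 ≤ E n f := by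
  unfold E
  exact mul_nonneg (by positivity) (sum_nonneg fun a _ => h a)

lemma E_succ (n : ℕ) (φ : (Fin (n + 1) → κ) → ℝ) :
    E (n + 1) φ = E n (fun x => E1 (fun a => φ (Fin.cons a x))) := by
  unfold E E1
  rw [← (Fin.consEquiv fun _ => κ).sum_comp, Fintype.sum_prod_type_right, ← mul_sum, pow_succ,
    mul_inv, mul_assoc]
  rfl

/-- **Efron-Stein** for independent uniform coordinates -/
theorem efron_stein [Nonempty κ] : ∀ (n : ℕ) (g : (Fin n → κ) → ℝ)
    (h : Fin n → (Fin n → κ) → ℝ), (∀ i k a, h i (Function.update k i a) = h i k) →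
    E n (fun k => g k ^ 2) - (E n g) ^ 2 ≤ E n (fun k => ∑ i, (g k - h i k) ^ 2)
  | 0, g, h, _ => by
    have h0 : ∀ φ : (Fin 0 → κ) → ℝ, E 0 φ = φ default := by
      intro φ
      unfold E
      rw [pow_zero, inv_one, one_mul, Fintype.sum_unique]
    rw [h0, h0, h0]
    simp
  | n + 1, g, h, hh => by
    set G : (Fin n → κ) → ℝ := fun x => E1 (fun a => g (Fin.cons a x)) with hG
    set H : Fin n → (Fin n → κ) → ℝ := fun i x => E1 (fun a => h i.succ (Fin.cons a x)) with hH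
    have hHu : ∀ i k a, H i (Function.update k i a) = H i k := by
      intro i k a
      rw [hH]
      show E1 _ = E1 _
      congr 1
      funext b
      rw [Fin.cons_update, hh]
    have ih := efron_stein n G H hHu
    have key1 : ∀ (u : κ → ℝ) (t : ℝ), E1 (fun a => u a ^ 2) - (E1 u) ^ 2 ≤
        E1 (fun a => (u a - t) ^ 2) := by
      intro u t
      have e : (fun a => (u a - t) ^ 2) = fun a => (u a ^ 2 + (-2 * t) * u a) + t ^ 2 := by
        funext a; ring
      rw [e, E1_add, E1_add, E1_mul, E1_const]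
      nlinarith [sq_nonneg (E1 u - t)]
    have key2 : ∀ (u v : κ → ℝ), (E1 u - E1 v) ^ 2 ≤ E1 (fun a => (u a - v a) ^ 2) := by
      intro u v
      have e0 : E1 u - E1 v = E1 (fun a => u a - v a) := by
        have : (fun a => u a - v a) = fun a => u a + (-1) * v a := by funext a; ring
        rw [this, E1_add, E1_mul]; ring
      rw [e0]
      set w : κ → ℝ := fun a => u a - v a
      have e : (fun a => (w a - E1 w) ^ 2) = fun a => (w a ^ 2 + (-2 * E1 w) * w a) + (E1 w) ^ 2 := by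
        funext a; ring
      have h1 : 0 ≤ E1 (fun a => (w a - E1 w) ^ 2) := by
        unfold E1
        exact mul_nonneg (by positivity) (sum_nonneg fun a _ => sq_nonneg _)
      rw [e, E1_add, E1_add, E1_mul, E1_const] at h1
      show (E1 w) ^ 2 ≤ E1 (fun a => w a ^ 2)
      nlinarith
    have hpt : ∀ x : Fin n → κ, (E1 (fun a => g (Fin.cons a x) ^ 2) - G x ^ 2) +
        ∑ i, (G x - H i x) ^ 2 ≤ E1 (fun a => ∑ i, (g (Fin.cons a x) - h i (Fin.cons a x)) ^ 2) := by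
      intro x
      obtain ⟨b⟩ := ‹Nonempty κ›
      have h0 : ∀ a : κ, h 0 (Fin.cons a x) = h 0 (Fin.cons b x) := by
        intro a
        have h1 := hh 0 (Fin.cons b x) a
        rw [Fin.update_cons_zero (α := fun _ => κ)] at h1
        exact h1
      have e1 : (fun a => ∑ i, (g (Fin.cons a x) - h i (Fin.cons a x)) ^ 2) = fun a =>
          (g (Fin.cons a x) - h 0 (Fin.cons b x)) ^ 2 +
            ∑ i : Fin n, (g (Fin.cons a x) - h i.succ (Fin.cons a x)) ^ 2 := by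
        funext a
        rw [Fin.sum_univ_succ, h0 a]
      rw [e1, E1_add]
      refine add_le_add (key1 (fun a => g (Fin.cons a x)) _) ?_
      have e2 : E1 (fun a => ∑ i : Fin n, (g (Fin.cons a x) - h i.succ (Fin.cons a x)) ^ 2) =
          ∑ i : Fin n, E1 (fun a => (g (Fin.cons a x) - h i.succ (Fin.cons a x)) ^ 2) := by
        unfold E1
        rw [sum_comm, mul_sum]
      rw [e2]
      exact sum_le_sum fun i _ => key2 (fun a => g (Fin.cons a x)) (fun a => h i.succ (Fin.cons a x))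
    rw [E_succ, E_succ, E_succ]
    have h3 := E_mono n hpt
    rw [E_add, E_sub] at h3
    have e3 : E n (fun x => E1 (fun a => g (Fin.cons a x))) = E n G := rfl
    rw [e3]
    linarith

end prod

section det

/-- the points without the `i`-th one -/
noncomputable def Gi (n m : ℕ) (i : Fin n) (k : Fin n → Fin m × Fin m) : ℝ :=
  tsp {z | ∃ j, j ≠ i ∧ z = gp m (k j)}

lemma Gi_update (n m : ℕ) (i : Fin n) (k : Fin n → Fin m × Fin m) (a : Fin m × Fin m) :
    Gi n m i (Function.update k i a) = Gi n m i k := by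
  unfold Gi
  congr 1
  ext z
  constructor
  · rintro ⟨j, hj, rfl⟩
    exact ⟨j, hj, by rw [Function.update_of_ne hj]⟩
  · rintro ⟨j, hj, rfl⟩
    exact ⟨j, hj, by rw [Function.update_of_ne hj]⟩

lemma gp_range {m : ℕ} (hm : 1 ≤ m) (k : Fin m × Fin m) :
    0 ≤ (gp m k).re ∧ (gp m k).re ≤ 1 ∧ 0 ≤ (gp m k).im ∧ (gp m k).im ≤ 1 := by
  have hm' : (0 : ℝ) < m := by exact_mod_cast hm
  have h1 : (((k.1 : ℕ)) : ℝ) ≤ (m : ℝ) := by exact_mod_cast k.1.2.le
  have h2 : (((k.2 : ℕ)) : ℝ) ≤ (m : ℝ) := by exact_mod_cast k.2.2.le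
  refine ⟨?_, ?_, ?_, ?_⟩
  · show 0 ≤ ((k.1 : ℕ) : ℝ) / m
    positivity
  · show ((k.1 : ℕ) : ℝ) / m ≤ _
    rw [div_le_iff₀ hm', one_mul]; exact h1
  · show 0 ≤ ((k.2 : ℕ) : ℝ) / m
    positivity
  · show ((k.2 : ℕ) : ℝ) / m ≤ _
    rw [div_le_iff₀ hm', one_mul]; exact h2

open Classical in
/-- squared differences for a finite set of points of the unit square -/
theorem sq_diff (hbasic : S_BASIC) (hpack : S_PACK) (A : Finset ℂ)
    (hA : ∀ z ∈ A, 0 ≤ z.re ∧ z.re ≤ 1 ∧ 0 ≤ z.im ∧ z.im ≤ 1) :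
    ∑ z ∈ A, (tsp (A : Set ℂ) - tsp ((A.erase z : Finset ℂ) : Set ℂ)) ^ 2 ≤ 48 := by
  obtain ⟨hnn, ⟨hemp, hsing⟩, hmono, hins, -, -, -⟩ := hbasic
  have hp := hpack 1 one_pos A
    (fun z => (tsp (A : Set ℂ) - tsp ((A.erase z : Finset ℂ) : Set ℂ)) / 2) hA ?_
  · have e : ∑ z ∈ A, (tsp (A : Set ℂ) - tsp ((A.erase z : Finset ℂ) : Set ℂ)) ^ 2 =
        4 * ∑ z ∈ A, ((tsp (A : Set ℂ) - tsp ((A.erase z : Finset ℂ) : Set ℂ)) / 2) ^ 2 := by
      rw [mul_sum]
      exact sum_congr rfl fun z _ => by ring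
    rw [e]
    linarith
  · intro z hz
    have h0 : tsp ((A.erase z : Finset ℂ) : Set ℂ) ≤ tsp (A : Set ℂ) :=
      hmono _ _ (by exact_mod_cast erase_subset z A) A.finite_toSet
    have h1 : ∀ w ∈ A, w ≠ z →
        (tsp (A : Set ℂ) - tsp ((A.erase z : Finset ℂ) : Set ℂ)) / 2 ≤ dist z w := by
      intro w hw hne
      have h2 := hins ((A.erase z : Finset ℂ) : Set ℂ) (A.erase z).finite_toSet w
        (by exact_mod_cast mem_erase.2 ⟨hne, hw⟩) z
      have h3 : insert z ((A.erase z : Finset ℂ) : Set ℂ) = (A : Set ℂ) := by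
        rw [← coe_insert, insert_erase hz]
      rw [h3, dist_comm w z] at h2
      linarith
    refine ⟨by linarith, ?_, h1⟩
    by_cases hex : ∃ w ∈ A, w ≠ z
    · obtain ⟨w, hw, hne⟩ := hex
      refine (h1 w hw hne).trans ?_
      obtain ⟨a1, a2, a3, a4⟩ := hA z hz
      obtain ⟨b1, b2, b3, b4⟩ := hA w hw
      rw [Complex.dist_eq_re_im]
      refine Real.sqrt_le_iff.2 ⟨by norm_num, ?_⟩
      have c1 : (z.re - w.re) ^ 2 ≤ 1 ^ 2 := sq_le_sq' (by linarith) (by linarith)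
      have c2 : (z.im - w.im) ^ 2 ≤ 1 ^ 2 := sq_le_sq' (by linarith) (by linarith)
      nlinarith
    · push Not at hex
      have h4 : A = {z} := by
        ext w
        rw [mem_singleton]
        exact ⟨fun h => hex w h, fun h => h ▸ hz⟩
      have h5 : tsp (A : Set ℂ) = 0 := by
        rw [h4, coe_singleton]; exact hsing z
      have h6 := hnn ((A.erase z : Finset ℂ) : Set ℂ)
      linarith

open Classical in
theorem det (hbasic : S_BASIC) (hpack : S_PACK) (n m : ℕ) (hm : 1 ≤ m)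
    (k : Fin n → Fin m × Fin m) : ∑ i, (Gr n m k - Gi n m i k) ^ 2 ≤ 48 := by
  set x : Fin n → ℂ := fun i => gp m (k i) with hx
  set A : Finset ℂ := univ.image x with hA
  have hAr : (A : Set ℂ) = Set.range x := by
    rw [hA, coe_image, coe_univ, Set.image_univ]
  set S : Finset (Fin n) := univ.filter fun i => ∀ j, x j = x i → j = i with hS
  have h1 : ∀ i ∈ S, (Gr n m k - Gi n m i k) ^ 2 =
      (tsp (A : Set ℂ) - tsp ((A.erase (x i) : Finset ℂ) : Set ℂ)) ^ 2 := by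
    intro i hi
    have hi' := (mem_filter.1 hi).2
    have e1 : Gr n m k = tsp (A : Set ℂ) := by
      rw [hAr]; rfl
    have e2 : Gi n m i k = tsp ((A.erase (x i) : Finset ℂ) : Set ℂ) := by
      unfold Gi
      congr 1
      ext z
      rw [Set.mem_setOf_eq, mem_coe, mem_erase]
      constructor
      · rintro ⟨j, hj, rfl⟩
        exact ⟨fun h => hj (hi' j h), mem_image.2 ⟨j, mem_univ _, rfl⟩⟩
      · rintro ⟨h, h'⟩
        obtain ⟨j, -, rfl⟩ := mem_image.1 h'
        exact ⟨j, fun hj => h (by rw [hj]), rfl⟩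
    rw [e1, e2]
  have h2 : ∀ i ∈ univ.filter (fun i => ¬ ∀ j, x j = x i → j = i),
      (Gr n m k - Gi n m i k) ^ 2 = 0 := by
    intro i hi
    have hi' := (mem_filter.1 hi).2
    push Not at hi'
    obtain ⟨j, hj, hji⟩ := hi'
    have e : Gi n m i k = Gr n m k := by
      unfold Gi Gr
      congr 1
      ext z
      constructor
      · rintro ⟨j', -, rfl⟩
        exact ⟨j', rfl⟩
      · rintro ⟨j', rfl⟩
        by_cases h : j' = i
        · subst h
          exact ⟨j, hji, hj.symm⟩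
        · exact ⟨j', h, rfl⟩
    rw [e]; ring
  rw [← sum_filter_add_sum_filter_not univ (fun i => ∀ j, x j = x i → j = i),
    sum_eq_zero h2, add_zero, sum_congr rfl h1]
  have h3 : ∑ i ∈ S, (tsp (A : Set ℂ) - tsp ((A.erase (x i) : Finset ℂ) : Set ℂ)) ^ 2 =
      ∑ z ∈ S.image x, (tsp (A : Set ℂ) - tsp ((A.erase z : Finset ℂ) : Set ℂ)) ^ 2 := by
    rw [sum_image]
    intro a ha b hb hab
    exact (mem_filter.1 (mem_coe.1 hb)).2 a hab
  rw [h3]
  refine (sum_le_sum_of_subset_of_nonneg ?_ fun z _ _ => sq_nonneg _).trans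
    (sq_diff hbasic hpack A ?_)
  · intro z hz
    obtain ⟨i, -, rfl⟩ := mem_image.1 hz
    exact mem_image.2 ⟨i, mem_univ _, rfl⟩
  · intro z hz
    obtain ⟨i, -, rfl⟩ := mem_image.1 hz
    exact gp_range hm (k i)

end det

lemma avg_eq (n m : ℕ) (φ : (Fin n → Fin m × Fin m) → ℝ) : avg n m φ = E n φ := by
  unfold avg E
  rw [Fintype.card_prod, Fintype.card_fin, pow_mul]
  push_cast
  rw [pow_two]

/-- bounded fourth moments -/
theorem m4 (hbasic : S_BASIC) (hpack : S_PACK) : S_M4 := by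
  refine ⟨11 * 48 ^ 2, fun n m hn hm => ?_⟩
  haveI : Nonempty (Fin m × Fin m) := ⟨(⟨0, hm⟩, ⟨0, hm⟩)⟩
  rw [avg_eq, avg_eq]
  set F : (Fin n → Fin m × Fin m) → ℝ := Gr n m with hF
  set g : (Fin n → Fin m × Fin m) → ℝ := fun k => F k - E n F with hg
  set h : Fin n → (Fin n → Fin m × Fin m) → ℝ := fun i k => Gi n m i k - E n F with hh
  have hd : ∀ k, ∑ i, (g k - h i k) ^ 2 ≤ 48 := by
    intro k
    have := det hbasic hpack n m hm k
    refine le_trans (le_of_eq ?_) this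
    refine sum_congr rfl fun i _ => ?_
    rw [hg, hh]; ring
  have hu : ∀ i k a, h i (Function.update k i a) = h i k := by
    intro i k a
    show Gi n m i (Function.update k i a) - E n F = _
    rw [Gi_update]
  have hEg : E n g = 0 := by
    show E n (fun k => F k - E n F) = 0
    rw [E_sub n F (fun _ => E n F), E_const, sub_self]
  have h2 : E n (fun k => g k ^ 2) ≤ 48 := by
    have h3 := efron_stein n g h hu
    have h4 := E_mono n hd
    rw [E_const] at h4
    rw [hEg] at h3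
    linarith
  have h5 : 0 ≤ E n (fun k => g k ^ 2) := E_nonneg n fun k => sq_nonneg _
  have h6 := efron_stein n (fun k => g k ^ 2) (fun i k => h i k ^ 2)
    (fun i k a => by show h i (Function.update k i a) ^ 2 = _; rw [hu])
  have h7 : ∀ k, ∑ i, (g k ^ 2 - h i k ^ 2) ^ 2 ≤ (8 * 48) * g k ^ 2 + 2 * 48 ^ 2 := by
    intro k
    have hdi : ∀ i, (g k - h i k) ^ 2 ≤ 48 := fun i =>
      (single_le_sum (f := fun i => (g k - h i k) ^ 2) (fun j _ => sq_nonneg _)
        (mem_univ i)).trans (hd k)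
    have h8 : ∀ i ∈ (univ : Finset (Fin n)), (g k ^ 2 - h i k ^ 2) ^ 2 ≤
        (g k - h i k) ^ 2 * (8 * g k ^ 2 + 2 * 48) := by
      intro i _
      have e : (g k ^ 2 - h i k ^ 2) ^ 2 =
          (g k - h i k) ^ 2 * (2 * g k - (g k - h i k)) ^ 2 := by ring
      rw [e]
      refine mul_le_mul_of_nonneg_left ?_ (sq_nonneg _)
      nlinarith [hdi i, sq_nonneg (2 * g k + (g k - h i k))]
    refine (sum_le_sum h8).trans ?_
    rw [← sum_mul]
    have := mul_le_mul_of_nonneg_right (hd k)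
      (show 0 ≤ 8 * g k ^ 2 + 2 * 48 by positivity)
    linarith
  have h9 := E_mono n h7
  rw [E_add, E_mul, E_const] at h9
  have e4 : (fun k => (F k - E n F) ^ 4) = fun k => (g k ^ 2) ^ 2 := by
    funext k
    rw [hg]; ring
  rw [e4]
  nlinarith

/-! ### variances from characteristic functions -/

section cplx

variable {κ : Type} [Fintype κ]

/-- complex average -/
noncomputable def EC (n : ℕ) (φ : (Fin n → κ) → ℂ) : ℂ :=
  ((Fintype.card κ : ℂ) ^ n)⁻¹ * ∑ k, φ k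

lemma EC_norm (n : ℕ) (φ : (Fin n → κ) → ℂ) : ‖EC n φ‖ ≤ E n (fun k => ‖φ k‖) := by
  unfold EC E
  rw [norm_mul, norm_inv, norm_pow, Complex.norm_natCast]
  exact mul_le_mul_of_nonneg_left (norm_sum_le _ _) (by positivity)

lemma EC_ofReal (n : ℕ) (f : (Fin n → κ) → ℝ) :
    EC n (fun k => ((f k : ℝ) : ℂ)) = ((E n f : ℝ) : ℂ) := by
  unfold EC E
  push_cast
  rfl

lemma EC_sub (n : ℕ) (f g : (Fin n → κ) → ℂ) : EC n (fun a => f a - g a) = EC n f - EC n g := by
  unfold EC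
  rw [sum_sub_distrib]; ring

lemma EC_add (n : ℕ) (f g : (Fin n → κ) → ℂ) : EC n (fun a => f a + g a) = EC n f + EC n g := by
  unfold EC
  rw [sum_add_distrib]; ring

lemma EC_mul (n : ℕ) (c : ℂ) (f : (Fin n → κ) → ℂ) : EC n (fun a => c * f a) = c * EC n f := by
  unfold EC
  rw [← mul_sum]; ring

lemma cubic [Nonempty κ] (n : ℕ) (Z : (Fin n → κ) → ℝ) (hZ : E n Z = 0) (t : ℝ) :
    ‖EC n (fun k => Complex.exp (Complex.I * ((t * Z k : ℝ) : ℂ))) -
      ((1 - t ^ 2 * E n (fun k => Z k ^ 2) / 2 : ℝ) : ℂ)‖ ≤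
      |t| ^ 3 * E n (fun k => |Z k| ^ 3) := by
  have e1 : ((1 - t ^ 2 * E n (fun k => Z k ^ 2) / 2 : ℝ) : ℂ) =
      EC n (fun k => 1 + Complex.I * ((t * Z k : ℝ) : ℂ) - ((t * Z k : ℝ) : ℂ) ^ 2 / 2) := by
    have e2 : (fun k => 1 + Complex.I * ((t * Z k : ℝ) : ℂ) - ((t * Z k : ℝ) : ℂ) ^ 2 / 2) =
        fun k => (((1 : ℝ) : ℂ) + (Complex.I * (t : ℂ)) * ((Z k : ℝ) : ℂ)) -
          ((t : ℂ) ^ 2 / 2) * (((Z k ^ 2 : ℝ)) : ℂ) := by
      funext k
      push_cast
      ring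
    rw [e2, EC_sub, EC_add, EC_mul, EC_mul, EC_ofReal, EC_ofReal, EC_ofReal, E_const, hZ]
    push_cast
    ring
  rw [e1, ← EC_sub]
  refine (EC_norm _ _).trans ?_
  rw [← E_mul]
  refine E_mono n fun k => ?_
  refine (Abs.exp3 (t * Z k)).trans ?_
  rw [abs_mul, mul_pow]

end cplx

lemma cube_le_quart (y : ℝ) : |y| ^ 3 ≤ 1 + y ^ 4 := by
  rcases le_total |y| 1 with h | h
  · have h1 : |y| ^ 3 ≤ 1 := pow_le_one₀ (abs_nonneg _) h
    have h2 : 0 ≤ y ^ 4 := by positivity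
    linarith
  · have h1 : |y| ^ 3 ≤ |y| ^ 4 := pow_le_pow_right₀ h (by norm_num)
    have h2 : |y| ^ 4 = y ^ 4 := by
      rw [show |y| ^ 4 = (|y| ^ 2) ^ 2 by ring, sq_abs]; ring
    linarith

lemma sq_le_quart (y : ℝ) : y ^ 2 ≤ 1 + y ^ 4 := by nlinarith [sq_nonneg (y ^ 2 - 1)]

/-- from characteristic functions and fourth moments to variances -/
theorem vl : S_VL := by
  intro m c s s₀ C n₀ hs₀ hm hs hC hchar
  -- the normalized variables
  set Z : ∀ n, (Fin n → Fin (m n) × Fin (m n)) → ℝ := fun n k =>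
    (Gr n (m n) k - E n (Gr n (m n))) / s n with hZ
  set v : ℕ → ℝ := fun n => E n (fun k => Z n k ^ 2) with hv
  have hsn : ∀ n, s n ≠ 0 := fun n => (lt_of_lt_of_le hs₀ (hs n)).ne'
  have hne : ∀ n, n₀ ≤ n → Nonempty (Fin (m n) × Fin (m n)) := fun n hn =>
    ⟨(⟨0, hm n hn⟩, ⟨0, hm n hn⟩)⟩
  have hgoal : ∀ n, avg n (m n) (fun k => (Gr n (m n) k - avg n (m n) (Gr n (m n))) ^ 2) /
      s n ^ 2 = v n := by
    intro n
    rw [avg_eq, avg_eq, hv]
    show _ = E n (fun k => ((Gr n (m n) k - E n (Gr n (m n))) / s n) ^ 2)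
    have e : (fun k => ((Gr n (m n) k - E n (Gr n (m n))) / s n) ^ 2) =
        fun k => (s n ^ 2)⁻¹ * (Gr n (m n) k - E n (Gr n (m n))) ^ 2 := by
      funext k
      rw [div_pow]; ring
    rw [e, E_mul]
    ring
  simp only [hgoal]
  have hC0 : 0 ≤ C := by
    have h := hC n₀ le_rfl
    rw [avg_eq] at h
    exact (E_nonneg _ fun k => by positivity).trans h
  set C3 : ℝ := 1 + C / s₀ ^ 4 with hC3
  have hC31 : 1 ≤ C3 := by
    rw [hC3]
    have : 0 ≤ C / s₀ ^ 4 := by positivity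
    linarith
  have h4 : ∀ n, n₀ ≤ n → E n (fun k => Z n k ^ 4) ≤ C / s₀ ^ 4 := by
    intro n hn
    have h := hC n hn
    rw [avg_eq, avg_eq] at h
    have e : (fun k => Z n k ^ 4) =
        fun k => (s n ^ 4)⁻¹ * (Gr n (m n) k - E n (Gr n (m n))) ^ 4 := by
      funext k
      show ((Gr n (m n) k - E n (Gr n (m n))) / s n) ^ 4 = _
      rw [div_pow]; ring
    rw [e, E_mul]
    have h1 : (s n ^ 4)⁻¹ ≤ (s₀ ^ 4)⁻¹ :=
      inv_anti₀ (by positivity) (pow_le_pow_left₀ hs₀.le (hs n) 4)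
    have h0 : 0 ≤ E n (fun k => (Gr n (m n) k - E n (Gr n (m n))) ^ 4) :=
      E_nonneg _ fun k => by positivity
    calc (s n ^ 4)⁻¹ * E n (fun k => (Gr n (m n) k - E n (Gr n (m n))) ^ 4)
        ≤ (s₀ ^ 4)⁻¹ * C := mul_le_mul h1 h h0 (by positivity)
      _ = C / s₀ ^ 4 := by ring
  have h3 : ∀ n, n₀ ≤ n → E n (fun k => |Z n k| ^ 3) ≤ C3 := by
    intro n hn
    haveI := hne n hn
    refine (E_mono n fun k => cube_le_quart (Z n k)).trans ?_
    rw [E_add, E_const, hC3]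
    linarith [h4 n hn]
  have h2 : ∀ n, n₀ ≤ n → v n ≤ C3 := by
    intro n hn
    haveI := hne n hn
    refine (E_mono n fun k => sq_le_quart (Z n k)).trans ?_
    rw [E_add, E_const, hC3]
    linarith [h4 n hn]
  have hv0 : ∀ n, 0 ≤ v n := fun n => E_nonneg n fun k => sq_nonneg _
  have hZ0 : ∀ n, n₀ ≤ n → E n (Z n) = 0 := by
    intro n hn
    haveI := hne n hn
    have e : Z n = fun k => (s n)⁻¹ * (Gr n (m n) k - E n (Gr n (m n))) := by
      funext k
      show (Gr n (m n) k - E n (Gr n (m n))) / s n = _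
      ring
    rw [e, E_mul, E_sub n (Gr n (m n)) (fun _ => E n (Gr n (m n))), E_const, sub_self, mul_zero]
  -- the modulus of the characteristic function
  set φ : ℝ → ℕ → ℝ := fun t n =>
    ‖EC n (fun k => Complex.exp (Complex.I * ((t * Z n k : ℝ) : ℂ)))‖ with hφ
  have hφt : ∀ t, Tendsto (φ t) atTop (𝓝 (Real.exp (-(t ^ 2) / 2))) := by
    intro t
    have h := (hchar t).norm
    rw [← Complex.ofReal_exp, Complex.norm_real, Real.norm_eq_abs, abs_of_pos (Real.exp_pos _)] at h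
    refine h.congr fun n => ?_
    rw [hφ]
    show _ = ‖EC n (fun k => Complex.exp (Complex.I * ((t * Z n k : ℝ) : ℂ)))‖
    have e : ∀ k : Fin n → Fin (m n) × Fin (m n), Complex.exp (Complex.I *
        ((t * ((tsp (Set.range fun i => gp (m n) (k i)) - c n) / s n) : ℝ) : ℂ)) =
        Complex.exp (Complex.I * ((t * ((E n (Gr n (m n)) - c n) / s n) : ℝ) : ℂ)) *
          Complex.exp (Complex.I * ((t * Z n k : ℝ) : ℂ)) := by
      intro k
      rw [← Complex.exp_add, ← mul_add, ← Complex.ofReal_add]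
      congr 3
      show t * ((Gr n (m n) k - c n) / s n) = t * ((E n (Gr n (m n)) - c n) / s n) +
        t * ((Gr n (m n) k - E n (Gr n (m n))) / s n)
      ring
    have e2 : (((m n : ℕ) : ℂ) ^ (2 * n))⁻¹ *
      ∑ k : Fin n → Fin (m n) × Fin (m n), Complex.exp (Complex.I *
        ((t * ((tsp (Set.range fun i => gp (m n) (k i)) - c n) / s n) : ℝ) : ℂ)) =
        Complex.exp (Complex.I * ((t * ((E n (Gr n (m n)) - c n) / s n) : ℝ) : ℂ)) *
        EC n (fun k => Complex.exp (Complex.I * ((t * Z n k : ℝ) : ℂ))) := by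
      rw [← EC_mul]
      unfold EC
      rw [Fintype.card_prod, Fintype.card_fin, pow_mul]
      push_cast
      rw [pow_two]
      congr 1
      refine sum_congr rfl fun k _ => ?_
      have := e k
      push_cast at this
      exact this
    rw [e2, norm_mul, mul_comm Complex.I, Complex.norm_exp_ofReal_mul_I, one_mul]
  -- the estimate for fixed `t`
  have hest : ∀ t : ℝ, 0 < t → t ^ 2 * C3 ≤ 2 → ∀ n, n₀ ≤ n →
      |v n - 2 * (1 - φ t n) / t ^ 2| ≤ 2 * C3 * t := by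
    intro t ht htC n hn
    haveI := hne n hn
    have h := cubic n (Z n) (hZ0 n hn) t
    have h1 := (abs_norm_sub_norm_le _ _).trans h
    have h5 : 0 ≤ 1 - t ^ 2 * v n / 2 := by
      have := mul_le_mul_of_nonneg_left (h2 n hn) (sq_nonneg t)
      linarith
    have h6 : ‖((1 - t ^ 2 * E n (fun k => Z n k ^ 2) / 2 : ℝ) : ℂ)‖ = 1 - t ^ 2 * v n / 2 := by
      rw [Complex.norm_real, Real.norm_eq_abs]
      exact abs_of_nonneg h5
    rw [h6] at h1
    have h7 : |φ t n - (1 - t ^ 2 * v n / 2)| ≤ t ^ 3 * C3 := by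
      refine h1.trans ?_
      rw [abs_of_pos ht]
      exact mul_le_mul_of_nonneg_left (h3 n hn) (by positivity)
    have e : v n - 2 * (1 - φ t n) / t ^ 2 = (2 / t ^ 2) * (φ t n - (1 - t ^ 2 * v n / 2)) := by
      field_simp
      ring
    rw [e, abs_mul, abs_of_pos (by positivity : 0 < 2 / t ^ 2)]
    calc 2 / t ^ 2 * |φ t n - (1 - t ^ 2 * v n / 2)| ≤ 2 / t ^ 2 * (t ^ 3 * C3) :=
          mul_le_mul_of_nonneg_left h7 (by positivity)
      _ = 2 * C3 * t := by field_simp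
  rw [Metric.tendsto_atTop]
  intro ε hε
  obtain ⟨t, ht, ht1, htC, htε, htε2⟩ : ∃ t : ℝ, 0 < t ∧ t ≤ 1 ∧ t ^ 2 * C3 ≤ 2 ∧
      2 * C3 * t < ε / 3 ∧ t ^ 2 < ε / 3 := by
    refine ⟨min (1 / C3) (ε / (9 * C3)), by positivity, ?_, ?_, ?_, ?_⟩
    · refine (min_le_left _ _).trans ?_
      rw [div_le_one (by linarith)]
      exact hC31
    · have h1 : min (1 / C3) (ε / (9 * C3)) ≤ 1 / C3 := min_le_left _ _
      have h0 : 0 < min (1 / C3) (ε / (9 * C3)) := by positivity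
      have h2 : (min (1 / C3) (ε / (9 * C3))) ^ 2 ≤ (1 / C3) ^ 2 := pow_le_pow_left₀ h0.le h1 2
      have h3 : (1 / C3) ^ 2 * C3 ≤ 1 := by
        have : (1 / C3) ^ 2 * C3 = 1 / C3 := by field_simp
        rw [this, div_le_one (by linarith)]
        exact hC31
      have := mul_le_mul_of_nonneg_right h2 (by linarith : 0 ≤ C3)
      linarith
    · have h1 : min (1 / C3) (ε / (9 * C3)) ≤ ε / (9 * C3) := min_le_right _ _
      have := mul_le_mul_of_nonneg_left h1 (by positivity : 0 ≤ 2 * C3)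
      have e : 2 * C3 * (ε / (9 * C3)) = 2 * ε / 9 := by field_simp
      linarith
    · have h1 : min (1 / C3) (ε / (9 * C3)) ≤ ε / (9 * C3) := min_le_right _ _
      have h1' : min (1 / C3) (ε / (9 * C3)) ≤ 1 := by
        refine (min_le_left _ _).trans ?_
        rw [div_le_one (by linarith)]
        exact hC31
      have h0 : 0 < min (1 / C3) (ε / (9 * C3)) := by positivity
      have h2 : ε / (9 * C3) ≤ ε / 9 := by
        apply div_le_div_of_nonneg_left hε.le (by norm_num)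
        linarith
      nlinarith
  have hlim := hφt t
  rw [Metric.tendsto_atTop] at hlim
  obtain ⟨N, hN⟩ := hlim (t ^ 2 * ε / 6) (by positivity)
  refine ⟨max N n₀, fun n hn => ?_⟩
  have hn1 := hN n ((le_max_left _ _).trans hn)
  have hn2 := hest t ht htC n ((le_max_right _ _).trans hn)
  rw [Real.dist_eq] at hn1 ⊢
  have hu : |Real.exp (-(t ^ 2) / 2) - (1 - t ^ 2 / 2)| ≤ (t ^ 2 / 2) ^ 2 / 2 := by
    have := Abs.exp_neg_bound (y := t ^ 2 / 2) (by positivity)
    rwa [show -(t ^ 2) / 2 = -(t ^ 2 / 2) by ring]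
  have e : v n - 1 = (v n - 2 * (1 - φ t n) / t ^ 2) -
      (2 / t ^ 2) * (φ t n - Real.exp (-(t ^ 2) / 2)) -
      (2 / t ^ 2) * (Real.exp (-(t ^ 2) / 2) - (1 - t ^ 2 / 2)) := by
    field_simp
    ring
  rw [e]
  have f1 : |(2 / t ^ 2) * (φ t n - Real.exp (-(t ^ 2) / 2))| < ε / 3 := by
    rw [abs_mul, abs_of_pos (by positivity : 0 < 2 / t ^ 2)]
    calc 2 / t ^ 2 * |φ t n - Real.exp (-(t ^ 2) / 2)| < 2 / t ^ 2 * (t ^ 2 * ε / 6) :=
          mul_lt_mul_of_pos_left hn1 (by positivity)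
      _ = ε / 3 := by field_simp; ring
  have f2 : |(2 / t ^ 2) * (Real.exp (-(t ^ 2) / 2) - (1 - t ^ 2 / 2))| ≤ t ^ 2 / 4 := by
    rw [abs_mul, abs_of_pos (by positivity : 0 < 2 / t ^ 2)]
    calc 2 / t ^ 2 * |Real.exp (-(t ^ 2) / 2) - (1 - t ^ 2 / 2)| ≤
          2 / t ^ 2 * ((t ^ 2 / 2) ^ 2 / 2) := mul_le_mul_of_nonneg_left hu (by positivity)
      _ = t ^ 2 / 4 := by field_simp; ring
  have g1 := abs_sub (v n - 2 * (1 - φ t n) / t ^ 2 -
      (2 / t ^ 2) * (φ t n - Real.exp (-(t ^ 2) / 2)))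
    ((2 / t ^ 2) * (Real.exp (-(t ^ 2) / 2) - (1 - t ^ 2 / 2)))
  have g2 := abs_sub (v n - 2 * (1 - φ t n) / t ^ 2)
    ((2 / t ^ 2) * (φ t n - Real.exp (-(t ^ 2) / 2)))
  linarith

end Pool.Agent.N940.TSP.Mom4
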