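import Pool.Agent.N940.TSP.Clt
import Pool.Agent.N940.TSP.Asm8
import Pool.Agent.N940.TSP.Loc0
import Pool.Agent.N940.TSP.Chain
import Pool.Agent.N940.TSP.Emb
import Pool.Agent.N940.TSP.Mom4
import Pool.Agent.N940.TSP.Fix
import Pool.Agent.N940.TSP.FinV

/-!
# The limiting variance of the random planar travelling salesman tour
-/

set_option autoImplicit false

open Filter Topology

namespace Pool.Agent.N940.TSP

theorem lim_of_cut (hcut : S_CUT) : ∃ c : ℝ, Tendsto frozenVar atTop (𝓝 c) :=
  asmV Abs.es Abs.mom Abs.clt (D1.main Basic.basic Basic.pack) (Loc.main hcut Basic.basic)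
    (Vlb.main hcut Basic.basic) Link.main (Loc0.loc0 hcut Basic.basic)
    (Loc0.d10 Basic.basic Basic.pack) Chain.ch Chain.ch2 Emb.main
    (Loc0.anc Basic.basic Abs.mom) (Fix.main Basic.basic) (Mom4.m4 Basic.basic Basic.pack)
    Mom4.vl (FinV.main PermEq.main Basic.basic)

end Pool.Agent.N940.TSP
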