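import Pool.Agent.N940.TSP.Mod

/-!
# The limiting variance of the random planar travelling salesman tour: statements

The functional without anchors.
-/

set_option autoImplicit false

open Filter Topology

namespace Pool.Agent.N940.TSP

open Finset

/-- the points of the configuration -/
def pts (N K M : ℕ) (A : Finset (Ix N K M)) : Set ℂ := {z | ∃ k ∈ A, z = sp N K M k}

/-- the length of the shortest closed tour through the configuration -/
noncomputable def f0 (N K M : ℕ) (A : Finset (Ix N K M)) : ℝ := tsp (pts N K M A)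

/-- the lower left corner of the square of side `s` with label `c` -/
noncomputable def cor (s : ℕ) (c : ℕ × ℕ) : ℂ := ⟨(s : ℝ) * (c.1 : ℝ), (s : ℝ) * (c.2 : ℝ)⟩

/-- the distance from the corner of a square to the part of the configuration outside of it
(0 if there is none) -/
noncomputable def Dst (N K M s : ℕ) (c : ℕ × ℕ) (Z : Finset (Ix N K M)) : ℝ :=
  if h : (Z \ bl N K M s c).Nonempty then
    (Z \ bl N K M s c).inf' h (fun k => dist (sp N K M k) (cor s c)) else 0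

/-- squared differences, summed over the points of the configuration -/
def S_D10 : Prop := ∀ N K M : ℕ, 0 < N → 0 < K → 0 < M → ∀ A : Finset (Ix N K M),
  ∑ k ∈ A, (f0 N K M A - f0 N K M (A.erase k)) ^ 2 ≤ 48 * ((N : ℝ) * K) ^ 2

/-- localization at a square, without anchors -/
def S_LOC0 : Prop := ∀ N K M s : ℕ, 0 < N → 0 < K → 0 < M → 0 < s → ∀ c : ℕ × ℕ,
  (∃ h : Finset (Ix N K M) → ℝ, ∀ A Z : Finset (Ix N K M),
    |f0 N K M (mix (bl N K M s c) A Z) - tsp (pts N K M A ∩ sq s c) - h Z| ≤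
      27 * s + 2 * Dst N K M s c Z) ∧
  ∀ A : Finset (Ix N K M), tsp (pts N K M A ∩ sq s c) ≤ 3 * s * ((A ∩ bl N K M s c).card)

/-- the distance to the next point outside of a square is of the order of its side -/
def S_CH : Prop := ∀ N K M s p : ℕ, 0 < N → 0 < K → 0 < M → 0 < s → 0 < p → ∀ c c' : ℕ × ℕ,
  c.1 / p = c'.1 → c.2 / p = c'.2 → p * s * (c'.1 + 1) ≤ N * K → p * s * (c'.2 + 1) ≤ N * K →
  ∀ q : ℝ, 0 ≤ q → q ≤ 1 → 1 ≤ q * (M : ℝ) ^ 2 → ∀ ζ : Finset (Ix N K M),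
  Ex q (fun C : Finset (Ix N K M) => Dst N K M s c (mix (bl N K M (p * s) c') C ζ)) ≤
    6 * s + (2 * p * s + Dst N K M (p * s) c' ζ) * Real.exp (-(((p : ℝ) - 1) / 2))

/-- tail of the distance to the next point outside of a square -/
def S_CH2 : Prop := ∀ N K M s : ℕ, 0 < N → 0 < K → 0 < M → 0 < s → s ∣ N * K → ∀ c : ℕ × ℕ,
  s * (c.1 + 1) ≤ N * K → s * (c.2 + 1) ≤ N * K →
  ∀ q : ℝ, 0 ≤ q → q ≤ 1 → 1 ≤ q * (M : ℝ) ^ 2 →
  Ex q (fun Z : Finset (Ix N K M) => if Dst N K M s c Z ≤ 4 * s then (0 : ℝ) else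
    (Dst N K M s c Z) ^ 2) ≤ 100 * (s : ℝ) ^ 2 * Real.exp (-((s : ℝ) ^ 2))

/-- the anchors are negligible if the squares are not too small -/
def S_ANC : Prop := ∀ N K M : ℕ, 0 < N → 0 < K → 0 < M →
  ∀ q : ℝ, 0 ≤ q → q ≤ 1 → 1 ≤ q * (M : ℝ) ^ 2 → q * (M : ℝ) ^ 2 ≤ 4 →
  Ex q (fun A : Finset (Ix N K M) => (fT N K M A - f0 N K M A) ^ 2) ≤
    468 * ((N : ℝ) * K) ^ 8 * Real.exp (-((K : ℝ) ^ 2))

/-- the part of a configuration in the square of side `r` with label `c`, moved to the box of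
side `r` at the origin -/
def rst (N K M r : ℕ) (c : ℕ × ℕ) (A : Finset (Ix N K M)) : Finset (Ix r 1 M) :=
  univ.filter fun k' => ∃ k ∈ A, (k.1 : ℕ) = r * M * c.1 + k'.1 ∧ (k.2 : ℕ) = r * M * c.2 + k'.2

/-- the part of a configuration in a square has the law of a configuration in a box -/
def S_EMB : Prop := ∀ N K M r : ℕ, 0 < N → 0 < K → 0 < M → 0 < r → ∀ c : ℕ × ℕ,
  r * (c.1 + 1) ≤ N * K → r * (c.2 + 1) ≤ N * K →
  (∀ (q : ℝ) (ψ : Finset (Ix r 1 M) → ℝ),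
    Ex q (fun A : Finset (Ix N K M) => ψ (rst N K M r c A)) = Ex q ψ) ∧
  (∀ U A B : Finset (Ix N K M), rst N K M r c (mix U A B) =
    mix (rst N K M r c U) (rst N K M r c A) (rst N K M r c B)) ∧
  (∀ A : Finset (Ix N K M), f0 r 1 M (rst N K M r c A) = tsp (pts N K M A ∩ sq r c) ∧
    (rst N K M r c A).card = (A ∩ bl N K M r c).card) ∧
  (∀ s : ℕ, 0 < s → s ∣ r → ∀ d : ℕ × ℕ, rst N K M r c
    (bl N K M s (r / s * c.1 + d.1, r / s * c.2 + d.2)) = bl r 1 M s d)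

/-- average over the independent random grid points -/
noncomputable def avg (n m : ℕ) (φ : (Fin n → Fin m × Fin m) → ℝ) : ℝ :=
  ((m : ℝ) ^ (2 * n))⁻¹ * ∑ k, φ k

/-- the tour through `n` grid points of the unit square -/
noncomputable def Gr (n m : ℕ) (k : Fin n → Fin m × Fin m) : ℝ :=
  tsp (Set.range fun i => gp m (k i))

/-- bounded fourth moments -/
def S_M4 : Prop := ∃ C : ℝ, ∀ n m : ℕ, 1 ≤ n → 1 ≤ m →
  avg n m (fun k => (Gr n m k - avg n m (Gr n m)) ^ 4) ≤ C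

/-- from characteristic functions and fourth moments to variances -/
def S_VL : Prop := ∀ (m : ℕ → ℕ) (c s : ℕ → ℝ) (s₀ C : ℝ) (n₀ : ℕ), 0 < s₀ →
  (∀ n, n₀ ≤ n → 1 ≤ m n) → (∀ n, s₀ ≤ s n) →
  (∀ n, n₀ ≤ n → avg n (m n) (fun k => (Gr n (m n) k - avg n (m n) (Gr n (m n))) ^ 4) ≤ C) →
  (∀ t : ℝ, Tendsto (fun n : ℕ => (((m n : ℕ) : ℂ) ^ (2 * n))⁻¹ *
      ∑ k : Fin n → Fin (m n) × Fin (m n), Complex.exp (Complex.I *
        ((t * ((tsp (Set.range fun i => gp (m n) (k i)) - c n) / s n) : ℝ) : ℂ)))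
      atTop (𝓝 (Complex.exp ((-(t ^ 2) / 2 : ℝ) : ℂ)))) →
  Tendsto (fun n => avg n (m n) (fun k => (Gr n (m n) k - avg n (m n) (Gr n (m n))) ^ 2) /
    s n ^ 2) atTop (𝓝 1)

/-- the variance in the statement `S19573` -/
noncomputable def frozenVar (n : ℕ) : ℝ :=
  ProbabilityTheory.variance
        (fun x : Fin n → ℝ × ℝ =>
          ⨅ σ : Equiv.Perm (Fin n), ∑ i : Fin n,
            Real.sqrt (((x (σ i)).1 - (x (σ (finRotate n i))).1) ^ 2
              + ((x (σ i)).2 - (x (σ (finRotate n i))).2) ^ 2))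
        (MeasureTheory.volume.restrict
          (Set.univ.pi fun _ : Fin n => Set.Icc (0:ℝ) 1 ×ˢ Set.Icc (0:ℝ) 1))

/-- from uniform points to grid points -/
def S_FINV : Prop := ∀ (m : ℕ → ℕ) (n₀ : ℕ), (∀ n, n₀ ≤ n → n ^ 3 ≤ m n ∧ 1 ≤ m n) →
  Tendsto (fun n => frozenVar n -
    avg n (m n) (fun k => (Gr n (m n) k - avg n (m n) (Gr n (m n))) ^ 2)) atTop (𝓝 0)

/-- for a fixed box the variances converge as the mesh of the grid tends to zero -/
def S_FIX : Prop := ∃ w : ℕ → ℝ → ℝ, ∀ r : ℕ, 0 < r → ∀ β : ℝ, ∀ (M : ℕ → ℕ) (q : ℕ → ℝ),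
  Tendsto M atTop atTop → (∀ n, 0 ≤ q n ∧ q n ≤ 1) →
  Tendsto (fun n => q n * (M n : ℝ) ^ 2) atTop (𝓝 1) →
  Tendsto (fun n => Vr (q n) (fun A : Finset (Ix r 1 (M n)) =>
    f0 r 1 (M n) A + β * (A.card : ℝ))) atTop (𝓝 (w r β))

end Pool.Agent.N940.TSP
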