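import Pool.Agent.N940.TSP.Def

/-!
# Statements of the geometric and limiting steps of the central limit theorem for the planar
travelling salesman tour
-/

set_option autoImplicit false

open Filter Topology

namespace Pool.Agent.N940.TSP

/-! ### geometry -/

/-- cutting a tour at the boundary of a square -/
def S_CUT : Prop := ∀ (a b r : ℝ), 0 < r → ∀ (A H : Set ℂ) (z : ℂ),
  A.Finite → H.Finite → A.Nonempty →
  (∀ w ∈ A, a ≤ w.re ∧ w.re < a + r ∧ b ≤ w.im ∧ w.im < b + r) →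
  (∀ w ∈ H, ¬ (a ≤ w.re ∧ w.re < a + r ∧ b ≤ w.im ∧ w.im < b + r)) →
  (a ≤ z.re ∧ z.re < a + r ∧ b ≤ z.im ∧ z.im < b + r) →
  tsp A + tsp (insert z H) ≤ tsp (A ∪ H) + 27 * r

/-- for distinct points, the minimum over the permutations is `tsp` -/
def S_PERM : Prop := ∀ (n : ℕ) (x : Fin n → ℂ), Function.Injective x →
  (⨅ σ : Equiv.Perm (Fin n), ∑ i : Fin n, dist (x (σ i)) (x (σ (finRotate n i)))) =
    tsp (Set.range x)

/-- elementary properties of `tsp` -/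
def S_BASIC : Prop :=
  (∀ F : Set ℂ, 0 ≤ tsp F) ∧
  (tsp ∅ = 0 ∧ ∀ z : ℂ, tsp {z} = 0) ∧
  (∀ F G : Set ℂ, F ⊆ G → G.Finite → tsp F ≤ tsp G) ∧
  (∀ F : Set ℂ, F.Finite → ∀ a ∈ F, ∀ c : ℂ, tsp (insert c F) ≤ tsp F + 2 * dist a c) ∧
  (∀ F G : Set ℂ, F.Finite → G.Finite → ∀ z : ℂ, z ∈ F → z ∈ G →
    tsp (F ∪ G) ≤ tsp F + tsp G) ∧
  (∀ (F : Finset ℂ) (δ : ℝ), 0 ≤ δ → 2 ≤ F.card →
    (∀ x ∈ F, ∀ y ∈ F, x ≠ y → δ ≤ dist x y) → δ * F.card ≤ tsp F) ∧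
  (∀ (n : ℕ) (x y : Fin n → ℂ) (ε : ℝ), (∀ i, dist (x i) (y i) ≤ ε) →
    |tsp (Set.range x) - tsp (Set.range y)| ≤ 2 * n * ε)

/-- the balls around the points of a finite subset of a square with half the distance to the
nearest neighbour as radius are disjoint -/
def S_PACK : Prop := ∀ (R : ℝ), 0 < R → ∀ (A : Finset ℂ) (δ : ℂ → ℝ),
  (∀ z ∈ A, 0 ≤ z.re ∧ z.re ≤ R ∧ 0 ≤ z.im ∧ z.im ≤ R) →
  (∀ z ∈ A, 0 ≤ δ z ∧ δ z ≤ 2 * R ∧ ∀ w ∈ A, w ≠ z → δ z ≤ dist z w) →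
  ∑ z ∈ A, δ z ^ 2 ≤ 12 * R ^ 2

/-! ### the finite probability space: Bernoulli random subsets of a finite set -/

section Bern

variable {ι : Type} [Fintype ι] [DecidableEq ι]

/-- probability of the subset `B` if every element is chosen with probability `q` -/
def mu (q : ℝ) (B : Finset ι) : ℝ := q ^ B.card * (1 - q) ^ (Bᶜ).card

/-- expectation -/
def Ex {E : Type} [AddCommGroup E] [Module ℝ E] (q : ℝ) (f : Finset ι → E) : E :=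
  ∑ B : Finset ι, mu q B • f B

/-- variance -/
def Vr (q : ℝ) (f : Finset ι → ℝ) : ℝ := Ex q (fun B => (f B - Ex q f) ^ 2)

end Bern

/-- the point of the unit square with index `k` -/
noncomputable def gp (m : ℕ) (k : Fin m × Fin m) : ℂ := ⟨(k.1 : ℝ) / m, (k.2 : ℝ) / m⟩

/-- from random subsets of random size to random subsets of fixed size -/
def S_DEP : Prop :=
  ∀ (ι : ℕ → Type) [∀ n, Fintype (ι n)] [∀ n, DecidableEq (ι n)] (F : ∀ n, Finset (ι n) → ℝ)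
    (q : ℕ → ℝ) (C c : ℝ) (η : ℕ → ℝ) (n₀ : ℕ), 0 < C → 0 < c → Tendsto η atTop (𝓝 0) →
    (∀ n, n₀ ≤ n → 1 ≤ n ∧ 2 * n ≤ Fintype.card (ι n) ∧ q n = (n : ℝ) / Fintype.card (ι n)) →
    (∀ n, n₀ ≤ n → ∀ A : Finset (ι n), ∑ x ∈ A, (F n A - F n (A.erase x)) ^ 2 ≤ C) →
    (∀ n, n₀ ≤ n → Vr (q n) (F n) ≤ C) →
    (∀ n, n₀ ≤ n → ∀ α β : ℝ,
      ‖Ex (q n) (fun A : Finset (ι n) => Complex.exp (Complex.I *
          ((α * (F n A - Ex (q n) (F n)) + β * (((A.card : ℝ) - n) / Real.sqrt n) : ℝ) : ℂ))) -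
        Complex.exp ((-(Vr (q n) fun A : Finset (ι n) =>
          α * F n A + β * ((A.card : ℝ) / Real.sqrt n)) / 2 : ℝ) : ℂ)‖
        ≤ η n * (1 + |α| + |β|) ^ 4) →
    (∀ n, n₀ ≤ n → ∀ β : ℝ, c ≤ Vr (q n) fun A : Finset (ι n) =>
      F n A + β * ((A.card : ℝ) / Real.sqrt n)) →
    ∃ (s₀ : ℝ) (s : ℕ → ℝ), 0 < s₀ ∧ (∀ n, s₀ ≤ s n) ∧ ∀ t : ℝ,
      Tendsto (fun n : ℕ => (((Fintype.card (ι n)).choose n : ℂ))⁻¹ *
        ∑ A ∈ (Finset.univ : Finset (ι n)).powersetCard n, Complex.exp (Complex.I *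
          ((t * ((F n A - Ex (q n) (F n)) / s n) : ℝ) : ℂ)))
        atTop (𝓝 (Complex.exp ((-(t ^ 2) / 2 : ℝ) : ℂ)))

/-- the statement `S19403` -/
def Frozen : Prop :=
    ∃ a b : ℕ → ℝ, (∀ n, 0 < b n) ∧ ∀ t : ℝ,
      Filter.Tendsto (fun n : ℕ =>
        (MeasureTheory.Measure.pi (fun _ : Fin n =>
            (MeasureTheory.volume : MeasureTheory.Measure (Fin 2 → ℝ)).restrict
              (Set.Icc (0 : Fin 2 → ℝ) 1))
          {x : Fin n → Fin 2 → ℝ |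
            ((⨅ σ : Equiv.Perm (Fin n), ∑ i : Fin n,
                Real.sqrt ((x (σ i) 0 - x (σ (finRotate n i)) 0) ^ 2
                  + (x (σ i) 1 - x (σ (finRotate n i)) 1) ^ 2)) - a n) / b n ≤ t}).toReal)
        Filter.atTop
        (nhds ((ProbabilityTheory.gaussianReal 0 1 (Set.Iic t)).toReal))

/-- from uniform points of a fine grid to uniform points of the unit square -/
def S_FIN : Prop :=
  ∀ (m : ℕ → ℕ) (c s : ℕ → ℝ) (s₀ : ℝ) (n₀ : ℕ), 0 < s₀ → (∀ n, n₀ ≤ n → n ^ 3 ≤ m n ∧ 1 ≤ m n) →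
    (∀ n, s₀ ≤ s n) →
    (∀ t : ℝ, Tendsto (fun n : ℕ => (((m n : ℕ) : ℂ) ^ (2 * n))⁻¹ *
        ∑ k : Fin n → Fin (m n) × Fin (m n), Complex.exp (Complex.I *
          ((t * ((tsp (Set.range fun i => gp (m n) (k i)) - c n) / s n) : ℝ) : ℂ)))
        atTop (𝓝 (Complex.exp ((-(t ^ 2) / 2 : ℝ) : ℂ)))) →
    Frozen

end Pool.Agent.N940.TSP
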