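import Pool.Agent.N940.TSP.ThmA

/-!
# Asymptotic additivity in L2, with exceptional sets
-/

set_option autoImplicit false
set_option linter.unusedSectionVars false
set_option linter.unusedVariables false

namespace Pool.Agent.N940.TSP

open Finset

open Classical in
/-- **Asymptotic additivity in L2**, with exceptional sets. -/
theorem thmA2 (C₁ C₂ ε : ℝ) (hC₁ : 0 < C₁) (hC₂ : 0 < C₂) (hε : 0 < ε) : ∃ j₀ : ℕ,
    ∀ (ι : Type) [Fintype ι] [DecidableEq ι] (κ : Type) [DecidableEq κ] (lab : ℕ → ι → κ),
      Nested lab j₀ → (∀ t < j₀, ∀ c, ((ch lab t c).card : ℝ) ≤ 4) →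
      ∀ (a 𝔸 : ℝ), 0 < a → 0 ≤ 𝔸 →
      (∀ t ≤ j₀, (((univ : Finset ι).image (lab t)).card : ℝ) * (4 ^ t * a) ≤ 𝔸) →
      ∀ (q : ℝ), 0 ≤ q → q ≤ 1 → ∀ f : Finset ι → ℝ,
      ∑ x : ι, (en q f univ - en q f {x}ᶜ) ≤ C₁ * 𝔸 →
      ∀ (Good : ℕ → κ → Finset ι → Prop) (δ : ℝ), 0 ≤ δ →
      (∀ t' ≤ j₀, ∀ t ≤ t', ∀ c' ∈ (univ : Finset ι).image (lab t'),
        ∀ c ∈ (cell lab t' c').image (lab t), ∀ ζ ζ' : Finset ι, Good t' c' ζ → Good t' c' ζ' →
        ∀ A : Finset ι, |Av q (cell lab t c) (Gd q f (cell lab t' c') ζ ζ') A| ≤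
          C₂ * Real.sqrt (4 ^ t * a)) →
      (∀ t' ≤ j₀, ∀ c' ∈ (univ : Finset ι).image (lab t'),
        Ex q (fun ζ : Finset ι => Ex q (fun ζ' : Finset ι =>
          if Good t' c' ζ ∧ Good t' c' ζ' then (0 : ℝ) else
            en q (Gd q f (cell lab t' c') ζ ζ') univ)) ≤ δ * (4 ^ t' * a)) →
      en q f univ - en q f ∅ - ∑ c ∈ (univ : Finset ι).image (lab j₀),
        (en q f (cell lab j₀ c) - en q f ∅) ≤ (ε + δ) * 𝔸 := by
  obtain ⟨ρ₀, k, hρ₀, hk, hB⟩ := lemB (ε / 2) C₂ (by positivity) hC₂
  obtain ⟨m, hm⟩ := pow_unbounded_of_one_lt ρ₀ (by norm_num : (1 : ℝ) < 4)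
  obtain ⟨n, hn⟩ := exists_nat_gt (2 * C₁ / ε)
  refine ⟨m * k * n, ?_⟩
  intro ι _ _ κ _ lab hnest hch a 𝔸 ha hA hcount q h0 h1 f H1 Good δ hδ H2 H3
  obtain ⟨w, hw0, hw⟩ := hoef h0 h1 f
  have hen := en_eq_sum hw
  have hn0 : 0 < n := by
    rcases Nat.eq_zero_or_pos n with h | h
    · subst h
      have : 0 < 2 * C₁ / ε := by positivity
      simp at hn
      linarith
    · exact h
  have hnR : (0 : ℝ) < n := by exact_mod_cast hn0
  set I : ℕ → ℝ := fun t => ∑ S : Finset ι, w S * (nb lab t S : ℝ) with hI
  -- the total weight at level 0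
  have hI0 : I 0 ≤ C₁ * 𝔸 := by
    refine le_trans ?_ H1
    have e1 : ∑ x : ι, (en q f univ - en q f {x}ᶜ) = ∑ S : Finset ι, w S * (S.card : ℝ) := by
      have e2 : ∀ x : ι, en q f univ - en q f {x}ᶜ =
          ∑ S : Finset ι, w S * (if x ∈ S then 1 else 0) := by
        intro x
        rw [hen, hen, ← sum_sub_distrib]
        refine sum_congr rfl fun S _ => ?_
        rw [← mul_sub]
        congr 1
        by_cases hx : x ∈ S
        · have : ¬ S ⊆ {x}ᶜ := fun h => by
            have := h hx
            simp at this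
          rw [if_pos (subset_univ S), if_neg this, if_pos hx, sub_zero]
        · have : S ⊆ {x}ᶜ := fun y hy => by
            rw [mem_compl, mem_singleton]
            rintro rfl
            exact hx hy
          rw [if_pos (subset_univ S), if_pos this, if_neg hx, sub_self]
      simp only [e2]
      rw [sum_comm]
      refine sum_congr rfl fun S _ => ?_
      rw [← mul_sum]
      congr 1
      simp
    rw [e1]
    refine sum_le_sum fun S _ => mul_le_mul_of_nonneg_left ?_ (hw0 S)
    exact_mod_cast nb_le_card lab 0 S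
  have hInn : ∀ t, 0 ≤ I t := fun t =>
    sum_nonneg fun S _ => mul_nonneg (hw0 S) (Nat.cast_nonneg _)
  -- pigeonhole
  obtain ⟨i, hi, hgap⟩ : ∃ i < n, I (m * k * i) - I (m * k * (i + 1)) ≤ ε / 2 * 𝔸 := by
    by_contra hcon
    push Not at hcon
    have h2 : ∀ l ≤ n, (l : ℝ) * (ε / 2 * 𝔸) ≤ I 0 - I (m * k * l) := by
      intro l
      induction l with
      | zero => intro _; simp
      | succ l ih =>
        intro hl
        have h3 := ih (by omega)
        have h4 := hcon l (by omega)
        push_cast
        linarith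
    have h3 := h2 n le_rfl
    have h4 := hInn (m * k * n)
    have h5 : (n : ℝ) * (ε / 2 * 𝔸) ≤ C₁ * 𝔸 := by linarith
    have h6 : 0 < 𝔸 ∨ 𝔸 = 0 := hA.lt_or_eq.imp id Eq.symm
    rcases h6 with h6 | h6
    · have h7 : (n : ℝ) * (ε / 2) ≤ C₁ := by
        refine le_of_mul_le_mul_right ?_ h6
        linarith
      have h8 : (n : ℝ) ≤ 2 * C₁ / ε := by
        rw [le_div_iff₀ hε]
        linarith
      linarith
    · have h7 := hcon 0 hn0
      rw [h6] at h7 hI0
      have h8 := hInn (m * k * (0 + 1))
      simp only [mul_zero] at h7 hI0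
      linarith
  set s := m * k * i with hs
  set r := m * k * (i + 1) with hr
  have hsr : s ≤ r := by
    rw [hs, hr]
    exact Nat.mul_le_mul_left _ (by omega)
  have hrj : r ≤ m * k * n := by
    rw [hr]
    exact Nat.mul_le_mul_left _ (by omega)
  -- the interaction bound for one block
  have hblock : ∀ d ∈ (univ : Finset ι).image (lab r), ∑ e ∈ (cell lab r d).image (lab s),
      (en q f (cell lab s e ∪ (cell lab r d)ᶜ) - en q f (cell lab r d)ᶜ -
        en q f (cell lab s e) + en q f ∅) ≤ (ε / 2 + δ) * (4 ^ r * a) := by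
    intro d hd
    set lab' : ℕ → ι → κ := fun t => lab (s + m * t) with hlab'
    have hrs : r = s + m * k := by rw [hr, hs]; ring
    have hnest' : Nested lab' k := by
      intro t ht x y hxy
      have : s + m * (t + 1) ≤ m * k * n := by
        calc s + m * (t + 1) ≤ s + m * k := by
              apply Nat.add_le_add_left; exact Nat.mul_le_mul_left _ ht
          _ = r := hrs.symm
          _ ≤ _ := hrj
      exact hnest.le (by simp only [mul_add]; omega) this hxy
    have hch' : ∀ t < k, ∀ c, ((ch lab' t c).card : ℝ) ≤ 4 ^ m := by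
      intro t ht c
      have hle : s + m * (t + 1) ≤ m * k * n := by
        calc s + m * (t + 1) ≤ s + m * k := by
              apply Nat.add_le_add_left; exact Nat.mul_le_mul_left _ ht
          _ = r := hrs.symm
          _ ≤ _ := hrj
      set lab'' : ℕ → ι → κ := fun u => lab (s + m * t + u) with hlab''
      have hn'' : Nested lab'' m := by
        intro u hu x y hxy
        exact hnest (s + m * t + u) (by
          have : m * (t + 1) = m * t + m := by ring
          omega) x y hxy
      have hc'' : ∀ u < m, ∀ c, ((ch lab'' u c).card : ℝ) ≤ 4 := by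
        intro u hu c
        exact hch (s + m * t + u) (by
          have : m * (t + 1) = m * t + m := by ring
          omega) c
      have := sub_card hn'' c (by norm_num : (0 : ℝ) ≤ 4) hc'' (Nat.zero_le m)
      rw [pow_zero, mul_one] at this
      have e : ch lab' t c = sub lab'' m c 0 := by
        unfold ch sub cell
        simp only [hlab', hlab'', add_zero]
        have e2 : s + m * (t + 1) = s + m * t + m := by ring
        rw [e2]
      rw [e]
      exact this
    have hpos : 0 < 4 ^ s * a := by positivity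
    have hstep0 : ∀ ζ ζ' : Finset ι, Good r d ζ → Good r d ζ' →
        ∑ e ∈ (cell lab r d).image (lab s),
        en q (Gd q f (cell lab r d) ζ ζ') (cell lab s e) ≤ ε / 2 * (4 ^ r * a) := by
      intro ζ ζ' hgood hgood'
      have h5 := hB (4 ^ m) hm.le ι κ lab' hnest' hch' (4 ^ s * a) hpos d q h0 h1
        (Gd q f (cell lab r d) ζ ζ') (Ex_Gd q f _ ζ ζ') ?_
      · have e1 : sub lab' k d 0 = (cell lab r d).image (lab s) := by
          unfold sub cell
          simp only [hlab', mul_zero, add_zero]
          rw [hrs]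
        have e2 : (4 : ℝ) ^ r * a = (4 ^ m) ^ k * (4 ^ s * a) := by
          rw [hrs, ← pow_mul, pow_add]
          ring
        rw [e1] at h5
        rw [e2]
        have e3 : ∀ e, cell lab' 0 e = cell lab s e := by
          intro e
          unfold cell
          simp only [hlab', mul_zero, add_zero]
        simp only [e3] at h5
        exact h5
      · intro t ht c hc A
        have e1 : cell lab' t c = cell lab (s + m * t) c := rfl
        have hle : s + m * t ≤ r := by
          rw [hrs]
          apply Nat.add_le_add_left; exact Nat.mul_le_mul_left _ ht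
        have hsubD : cell lab (s + m * t) c ⊆ cell lab r d := by
          intro x hx
          rw [mem_cell] at hx ⊢
          unfold sub at hc
          obtain ⟨y, hy, hyc⟩ := mem_image.1 hc
          have hy' : lab r y = d := by
            have := mem_cell.1 hy
            simp only [hlab', ← hrs] at this
            exact this
          rw [← hy']
          have hxy : lab (s + m * t) x = lab (s + m * t) y := hx.trans hyc.symm
          exact hnest.le hle hrj hxy
        rw [e1]
        have e2 : (4 : ℝ) ^ (s + m * t) * a = (4 ^ m) ^ t * (4 ^ s * a) := by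
          rw [← pow_mul, pow_add]
          ring
        rw [← e2]
        refine H2 r hrj _ hle d hd c ?_ ζ ζ' hgood hgood' A
        unfold sub at hc
        obtain ⟨y, hy, hyc⟩ := mem_image.1 hc
        refine mem_image.2 ⟨y, ?_, hyc⟩
        have := mem_cell.1 hy
        simp only [hlab', ← hrs] at this
        exact mem_cell.2 this
    have hstep : ∀ ζ ζ' : Finset ι, ∑ e ∈ (cell lab r d).image (lab s),
        en q (Gd q f (cell lab r d) ζ ζ') (cell lab s e) ≤ ε / 2 * (4 ^ r * a) +
          (if Good r d ζ ∧ Good r d ζ' then (0 : ℝ) else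
            en q (Gd q f (cell lab r d) ζ ζ') univ) := by
      intro ζ ζ'
      by_cases hg : Good r d ζ ∧ Good r d ζ'
      · rw [if_pos hg, add_zero]
        exact hstep0 ζ ζ' hg.1 hg.2
      · rw [if_neg hg]
        have h5 := pyth (q := q) (Gd q f (cell lab r d) ζ ζ') (Ex_Gd q f _ ζ ζ')
          ((cell lab r d).image (lab s)) (cell lab s)
          (fun c _ d _ hcd => cell_disjoint hcd) univ (fun c _ => subset_univ _)
        have h6 : 0 ≤ Ex q (fun A => (Av q univ (Gd q f (cell lab r d) ζ ζ') A -
          ∑ c ∈ (cell lab r d).image (lab s), Av q (cell lab s c)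
            (Gd q f (cell lab r d) ζ ζ') A) ^ 2) := Ex_nonneg h0 h1 fun _ => sq_nonneg _
        have h7 : 0 ≤ ε / 2 * (4 ^ r * a) := by positivity
        linarith
    calc ∑ e ∈ (cell lab r d).image (lab s),
          (en q f (cell lab s e ∪ (cell lab r d)ᶜ) - en q f (cell lab r d)ᶜ -
            en q f (cell lab s e) + en q f ∅)
        ≤ ∑ e ∈ (cell lab r d).image (lab s),
          Ex q (fun ζ => Ex q (fun ζ' => en q (Gd q f (cell lab r d) ζ ζ') (cell lab s e))) := by
          refine sum_le_sum fun e he => ?_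
          have hsubD : cell lab s e ⊆ cell lab r d := by
            intro x hx
            obtain ⟨y, hy, hye⟩ := mem_image.1 he
            rw [mem_cell] at hx hy ⊢
            rw [← hy]
            exact hnest.le hsr hrj (hx.trans hye.symm)
          rw [← inter_eq f hsubD]
          exact jensen h0 h1 f hsubD
      _ = Ex q (fun ζ => Ex q (fun ζ' => ∑ e ∈ (cell lab r d).image (lab s),
          en q (Gd q f (cell lab r d) ζ ζ') (cell lab s e))) := by
          rw [← Ex_sum]
          congr 1
          funext ζ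
          rw [← Ex_sum]
      _ ≤ Ex q (fun ζ : Finset ι => Ex q (fun ζ' : Finset ι => ε / 2 * (4 ^ r * a) +
          (if Good r d ζ ∧ Good r d ζ' then (0 : ℝ) else
            en q (Gd q f (cell lab r d) ζ ζ') univ))) :=
          Ex_mono h0 h1 fun ζ => Ex_mono h0 h1 fun ζ' => hstep ζ ζ'
      _ = ε / 2 * (4 ^ r * a) + Ex q (fun ζ : Finset ι => Ex q (fun ζ' : Finset ι =>
          (if Good r d ζ ∧ Good r d ζ' then (0 : ℝ) else
            en q (Gd q f (cell lab r d) ζ ζ') univ))) := by
          simp only [Ex_add, Ex_const]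
      _ ≤ (ε / 2 + δ) * (4 ^ r * a) := by
          have := H3 r hrj d hd
          linarith
  -- summation over the blocks
  have htotal : ∑ d ∈ (univ : Finset ι).image (lab r), ∑ e ∈ (cell lab r d).image (lab s),
      (en q f (cell lab s e ∪ (cell lab r d)ᶜ) - en q f (cell lab r d)ᶜ -
        en q f (cell lab s e) + en q f ∅) ≤ (ε / 2 + δ) * 𝔸 := by
    calc _ ≤ ∑ d ∈ (univ : Finset ι).image (lab r), (ε / 2 + δ) * (4 ^ r * a) :=
          sum_le_sum fun d hd => hblock d hd
      _ = (ε / 2 + δ) * ((((univ : Finset ι).image (lab r)).card : ℝ) * (4 ^ r * a)) := by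
          rw [sum_const, nsmul_eq_mul]; ring
      _ ≤ (ε / 2 + δ) * 𝔸 := mul_le_mul_of_nonneg_left (hcount r hrj) (by positivity)
  -- pointwise inequality
  have hpt : ∀ S : Finset ι, ((if S ⊆ univ then (1 : ℝ) else 0) - (if S ⊆ ∅ then 1 else 0) -
      ∑ c ∈ (univ : Finset ι).image (lab (m * k * n)),
        ((if S ⊆ cell lab (m * k * n) c then (1 : ℝ) else 0) - (if S ⊆ ∅ then 1 else 0))) ≤
      ((nb lab s S : ℝ) - nb lab r S) + ∑ d ∈ (univ : Finset ι).image (lab r),
        ∑ e ∈ (cell lab r d).image (lab s),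
        ((if S ⊆ cell lab s e ∪ (cell lab r d)ᶜ then 1 else 0) -
          (if S ⊆ (cell lab r d)ᶜ then 1 else 0) - (if S ⊆ cell lab s e then 1 else 0) +
            (if S ⊆ ∅ then 1 else 0)) := by
    intro S
    have hsum_le : ∑ d ∈ (univ : Finset ι).image (lab r), ∑ e ∈ (cell lab r d).image (lab s),
        (if (S ∩ cell lab r d ⊆ cell lab s e ∧ (S ∩ cell lab s e).Nonempty ∧
          ¬ S ⊆ cell lab s e) then (1 : ℝ) else 0) ≤ ∑ d ∈ (univ : Finset ι).image (lab r),
        ∑ e ∈ (cell lab r d).image (lab s),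
        ((if S ⊆ cell lab s e ∪ (cell lab r d)ᶜ then 1 else 0) -
          (if S ⊆ (cell lab r d)ᶜ then 1 else 0) - (if S ⊆ cell lab s e then 1 else 0) +
            (if S ⊆ ∅ then 1 else 0)) := by
      refine sum_le_sum fun d _ => sum_le_sum fun e he => if_interaction S _ _ ?_
      intro x hx
      obtain ⟨y, hy, hye⟩ := mem_image.1 he
      rw [mem_cell] at hx hy ⊢
      rw [← hy]
      exact hnest.le hsr hrj (hx.trans hye.symm)
    have hnn : (0 : ℝ) ≤ ∑ d ∈ (univ : Finset ι).image (lab r),
        ∑ e ∈ (cell lab r d).image (lab s),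
        (if (S ∩ cell lab r d ⊆ cell lab s e ∧ (S ∩ cell lab s e).Nonempty ∧
          ¬ S ⊆ cell lab s e) then (1 : ℝ) else 0) := by
      refine sum_nonneg fun d _ => sum_nonneg fun e _ => ?_
      split_ifs <;> norm_num
    have hmono : (nb lab r S : ℝ) ≤ nb lab s S := by exact_mod_cast nb_anti hnest hsr hrj S
    have hcn : 0 ≤ ∑ c ∈ (univ : Finset ι).image (lab (m * k * n)),
        ((if S ⊆ cell lab (m * k * n) c then (1 : ℝ) else 0) - (if S ⊆ ∅ then 1 else 0)) := by
      refine sum_nonneg fun c _ => ?_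
      by_cases h : S ⊆ ∅
      · rw [if_pos h, if_pos (h.trans (empty_subset _)), sub_self]
      · rw [if_neg h]
        split_ifs <;> norm_num
    rcases Nat.lt_or_ge (nb lab (m * k * n) S) 2 with hlt | hge
    · refine le_trans ?_ (add_nonneg (sub_nonneg.2 hmono) (hnn.trans hsum_le))
      rcases S.eq_empty_or_nonempty with h | ⟨x, hx⟩
      · subst h
        simp
      · have h2 : S ⊆ cell lab (m * k * n) (lab (m * k * n) x) := by
          intro y hy
          rw [mem_cell]
          have h3 : (S.image (lab (m * k * n))).card ≤ 1 := by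
            unfold nb at hlt
            omega
          exact card_le_one.1 h3 _ (mem_image_of_mem _ hy) _ (mem_image_of_mem _ hx)
        have h4 : ¬ S ⊆ ∅ := fun h => by
          have := h hx
          simp at this
        have h5 : (if S ⊆ cell lab (m * k * n) (lab (m * k * n) x) then (1 : ℝ) else 0) -
            (if S ⊆ ∅ then 1 else 0) ≤ ∑ c ∈ (univ : Finset ι).image (lab (m * k * n)),
          ((if S ⊆ cell lab (m * k * n) c then (1 : ℝ) else 0) - (if S ⊆ ∅ then 1 else 0)) := by
          refine single_le_sum (f := fun c =>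
            ((if S ⊆ cell lab (m * k * n) c then (1 : ℝ) else 0) - (if S ⊆ ∅ then 1 else 0)))
            (fun c _ => ?_) (mem_image_of_mem _ (mem_univ x))
          rw [if_neg h4]
          split_ifs <;> norm_num
        rw [if_pos h2] at h5
        rw [if_pos (subset_univ S)]
        linarith
    · have h2 : 2 ≤ nb lab r S := hge.trans (nb_anti hnest hrj le_rfl S)
      have h3 := key_ind hnest hsr hrj S h2
      have h4 : (0 : ℝ) ≤ (if S ⊆ ∅ then 1 else 0) := by split_ifs <;> norm_num
      rw [if_pos (subset_univ S)]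
      linarith
  -- conclusion
  have hfin : en q f univ - en q f ∅ - ∑ c ∈ (univ : Finset ι).image (lab (m * k * n)),
        (en q f (cell lab (m * k * n) c) - en q f ∅) ≤ (I s - I r) +
      ∑ d ∈ (univ : Finset ι).image (lab r), ∑ e ∈ (cell lab r d).image (lab s),
      (en q f (cell lab s e ∪ (cell lab r d)ᶜ) - en q f (cell lab r d)ᶜ -
        en q f (cell lab s e) + en q f ∅) := by
    have e1 : en q f univ - en q f ∅ - ∑ c ∈ (univ : Finset ι).image (lab (m * k * n)),
        (en q f (cell lab (m * k * n) c) - en q f ∅) = ∑ S : Finset ι, w S *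
        ((if S ⊆ univ then (1 : ℝ) else 0) - (if S ⊆ ∅ then 1 else 0) -
      ∑ c ∈ (univ : Finset ι).image (lab (m * k * n)),
        ((if S ⊆ cell lab (m * k * n) c then (1 : ℝ) else 0) - (if S ⊆ ∅ then 1 else 0))) := by
      simp only [hen, mul_sub, mul_sum, sum_sub_distrib]
      rw [sum_comm]
      congr 2
      rw [sum_comm]
    have e2 : (I s - I r) +
      ∑ d ∈ (univ : Finset ι).image (lab r), ∑ e ∈ (cell lab r d).image (lab s),
      (en q f (cell lab s e ∪ (cell lab r d)ᶜ) - en q f (cell lab r d)ᶜ -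
        en q f (cell lab s e) + en q f ∅) = ∑ S : Finset ι, w S *
        (((nb lab s S : ℝ) - nb lab r S) + ∑ d ∈ (univ : Finset ι).image (lab r),
        ∑ e ∈ (cell lab r d).image (lab s),
        ((if S ⊆ cell lab s e ∪ (cell lab r d)ᶜ then 1 else 0) -
          (if S ⊆ (cell lab r d)ᶜ then 1 else 0) - (if S ⊆ cell lab s e then 1 else 0) +
            (if S ⊆ ∅ then 1 else 0))) := by
      simp only [hI]
      rw [← sum_sub_distrib]
      rw [sum_congr rfl fun (S : Finset ι) _ => mul_add (w S) ((nb lab s S : ℝ) - nb lab r S) _]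
      rw [sum_add_distrib]
      congr 1
      · refine sum_congr rfl fun S _ => ?_
        ring
      · have e3 : ∀ d e, en q f (cell lab s e ∪ (cell lab r d)ᶜ) - en q f (cell lab r d)ᶜ -
            en q f (cell lab s e) + en q f ∅ = ∑ S : Finset ι, w S *
            ((if S ⊆ cell lab s e ∪ (cell lab r d)ᶜ then 1 else 0) -
          (if S ⊆ (cell lab r d)ᶜ then 1 else 0) - (if S ⊆ cell lab s e then 1 else 0) +
            (if S ⊆ ∅ then 1 else 0)) := by
          intro d e
          rw [hen, hen, hen, hen, ← sum_sub_distrib, ← sum_sub_distrib, ← sum_add_distrib]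
          refine sum_congr rfl fun S _ => ?_
          ring
        have e4 : ∀ S : Finset ι, w S * ∑ d ∈ (univ : Finset ι).image (lab r),
            ∑ e ∈ (cell lab r d).image (lab s),
            ((if S ⊆ cell lab s e ∪ (cell lab r d)ᶜ then (1 : ℝ) else 0) -
          (if S ⊆ (cell lab r d)ᶜ then 1 else 0) - (if S ⊆ cell lab s e then 1 else 0) +
            (if S ⊆ ∅ then 1 else 0)) = ∑ d ∈ (univ : Finset ι).image (lab r),
            ∑ e ∈ (cell lab r d).image (lab s), w S *
            ((if S ⊆ cell lab s e ∪ (cell lab r d)ᶜ then (1 : ℝ) else 0) -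
          (if S ⊆ (cell lab r d)ᶜ then 1 else 0) - (if S ⊆ cell lab s e then 1 else 0) +
            (if S ⊆ ∅ then 1 else 0)) := by
          intro S
          rw [mul_sum]
          refine sum_congr rfl fun d _ => ?_
          rw [mul_sum]
        simp only [e3]
        simp only [e4]
        rw [sum_comm]
        refine sum_congr rfl fun d _ => ?_
        rw [sum_comm]
    rw [e1, e2]
    exact sum_le_sum fun S _ => mul_le_mul_of_nonneg_left (hpt S) (hw0 S)
  linarith

end Pool.Agent.N940.TSP
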