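import Pool.Agent.N940.TSP.ThmA2
import Pool.Agent.N940.TSP.Asm1
import Pool.Agent.N940.TSP.Mod2

/-!
# Limiting variance, part 1: the functional without anchors is asymptotically additive
-/

set_option autoImplicit false
set_option linter.unusedSectionVars false
set_option linter.unusedVariables false

namespace Pool.Agent.N940.TSP

open Finset

section geom

variable (N K M s₀ : ℕ)

/-- dyadic blocks of side `s₀ 2^t` -/
def ds (t : ℕ) (k : Ix N K M) : ℕ × ℕ := lb N K M (s₀ * 2 ^ t) k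

lemma lb_mul (s p : ℕ) (k : Ix N K M) :
    lb N K M (p * s) k = ((lb N K M s k).1 / p, (lb N K M s k).2 / p) := by
  unfold lb
  simp only [Nat.div_div_eq_div_mul]
  have : M * (p * s) = M * s * p := by ring
  rw [this]

lemma ds_succ (t : ℕ) (k : Ix N K M) :
    ds N K M s₀ (t + 1) k = ((ds N K M s₀ t k).1 / 2, (ds N K M s₀ t k).2 / 2) := by
  unfold ds
  rw [← lb_mul]
  congr 1
  ring

lemma ds_nested (k : ℕ) : Nested (ds N K M s₀) k := by
  intro t _ x y hxy
  rw [ds_succ, ds_succ, hxy]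

lemma ds_ch (t : ℕ) (c : ℕ × ℕ) : ((ch (ds N K M s₀) t c).card : ℝ) ≤ 4 := by
  have h : ch (ds N K M s₀) t c ⊆ ({2 * c.1, 2 * c.1 + 1} : Finset ℕ) ×ˢ
      ({2 * c.2, 2 * c.2 + 1} : Finset ℕ) := by
    intro d hd
    unfold ch at hd
    obtain ⟨x, hx, rfl⟩ := mem_image.1 hd
    rw [mem_cell, ds_succ] at hx
    have h1 : (ds N K M s₀ t x).1 / 2 = c.1 := congrArg Prod.fst hx
    have h2 : (ds N K M s₀ t x).2 / 2 = c.2 := congrArg Prod.snd hx
    simp only [mem_product, mem_insert, mem_singleton]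
    omega
  have h2 := card_le_card h
  rw [card_product] at h2
  have h3 : ({2 * c.1, 2 * c.1 + 1} : Finset ℕ).card ≤ 2 := card_le_two
  have h4 : ({2 * c.2, 2 * c.2 + 1} : Finset ℕ).card ≤ 2 := card_le_two
  have h5 : (ch (ds N K M s₀) t c).card ≤ 4 := h2.trans (by nlinarith)
  exact_mod_cast h5

/-- labels are in range -/
lemma lb_range {s : ℕ} (hs : 0 < s) (hM : 0 < M) (hd : s ∣ N * K) (k : Ix N K M) :
    s * ((lb N K M s k).1 + 1) ≤ N * K ∧ s * ((lb N K M s k).2 + 1) ≤ N * K := by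
  obtain ⟨p, hp⟩ := hd
  have hpos : 0 < M * s := by positivity
  have key : ∀ x : Fin (N * K * M), (x : ℕ) / (M * s) < p := by
    intro x
    rw [Nat.div_lt_iff_lt_mul hpos]
    have h1 := x.2
    have e : N * K * M = p * (M * s) := by rw [hp]; ring
    omega
  unfold lb
  dsimp only
  exact ⟨(Nat.mul_le_mul_left s (key k.1)).trans hp.ge,
    (Nat.mul_le_mul_left s (key k.2)).trans hp.ge⟩

lemma lb_count {s : ℕ} (hs : 0 < s) (hM : 0 < M) (hd : s ∣ N * K) :
    (((univ : Finset (Ix N K M)).image (lb N K M s)).card : ℝ) * (s : ℝ) ^ 2 ≤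
      ((N : ℝ) * K) ^ 2 := by
  have hd' := hd
  obtain ⟨p, hp⟩ := hd
  have h : (univ : Finset (Ix N K M)).image (lb N K M s) ⊆ range p ×ˢ range p := by
    intro d hd
    obtain ⟨x, _, rfl⟩ := mem_image.1 hd
    obtain ⟨h1, h2⟩ := lb_range N K M hs hM hd' x
    rw [hp] at h1 h2
    simp only [mem_product, mem_range]
    exact ⟨Nat.lt_of_mul_lt_mul_left (a := s) (by nlinarith), 
      Nat.lt_of_mul_lt_mul_left (a := s) (by nlinarith)⟩
  have h2 := card_le_card h
  rw [card_product, card_range] at h2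
  have h3 : (((univ : Finset (Ix N K M)).image (lb N K M s)).card : ℝ) ≤ (p : ℝ) * p := by
    exact_mod_cast h2
  have h4 : (N : ℝ) * K = s * p := by exact_mod_cast hp
  rw [h4]
  have h5 : (0 : ℝ) ≤ (s : ℝ) ^ 2 := by positivity
  calc _ ≤ ((p : ℝ) * p) * (s : ℝ) ^ 2 := mul_le_mul_of_nonneg_right h3 h5
    _ = _ := by ring

end geom

section abs

variable {ι : Type} [Fintype ι] [DecidableEq ι]

/-- block averages of the difference of two sections -/
lemma Gd_bound' {q : ℝ} (h0 : 0 ≤ q) (h1 : q ≤ 1) (f : Finset ι → ℝ) {B D : Finset ι}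
    (hBD : B ⊆ D) (ζ ζ' : Finset ι) (K : Finset ι → ℝ)
    (hK : ∀ A A' C : Finset ι, |f (mix B A (mix D C ζ)) - f (mix B A' (mix D C ζ)) -
      f (mix B A (mix D C ζ')) + f (mix B A' (mix D C ζ'))| ≤ K C) (A : Finset ι) :
    |Av q B (Gd q f D ζ ζ') A| ≤ Ex q K := by
  have e1 : Av q B (Gd q f D ζ ζ') A = Ex q (fun C => Ex q (fun C' =>
      f (mix B A (mix D C ζ)) - f (mix B C' (mix D C ζ)) - f (mix B A (mix D C ζ')) +
        f (mix B C' (mix D C ζ')))) := by
    have e2 : Ex q (fun C => f (mix D C ζ) - f (mix D C ζ')) =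
        Ex q (fun C => Ex q (fun C' => f (mix D (mix B C' C) ζ) - f (mix D (mix B C' C) ζ'))) := by
      rw [Ex_comm, Ex_mix q B (fun C => f (mix D C ζ) - f (mix D C ζ'))]
    have e3 : ∀ X C Z, mix D (mix B X C) Z = mix B X (mix D C Z) := by
      intro X C Z
      ext x
      have := @hBD x
      simp only [mem_mix]
      tauto
    have e4 : Av q B (Gd q f D ζ ζ') A =
        Ex q (fun C => f (mix D (mix B A C) ζ) - f (mix D (mix B A C) ζ')) -
        Ex q (fun C => f (mix D C ζ) - f (mix D C ζ')) := by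
      unfold Av Gd
      rw [Ex_sub, Ex_const]
    rw [e4, e2, ← Ex_sub]
    congr 1
    funext C
    simp only [e3]
    rw [← Ex_const (ι := ι) q (f (mix B A (mix D C ζ)) - f (mix B A (mix D C ζ'))), ← Ex_sub]
    congr 1
    funext C'
    ring
  rw [e1]
  refine (Ex_abs_le h0 h1 _).trans ?_
  refine Ex_mono h0 h1 fun C => (Ex_abs_le h0 h1 _).trans ?_
  have h3 : Ex q (fun C' => |f (mix B A (mix D C ζ)) - f (mix B C' (mix D C ζ)) -
        f (mix B A (mix D C ζ')) + f (mix B C' (mix D C ζ'))|) ≤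
        Ex q (fun _ : Finset ι => K C) :=
    Ex_mono h0 h1 fun C' => hK _ _ _
  rwa [Ex_const] at h3

end abs

lemma exp_aux {p : ℝ} (hp : 1 ≤ p) : p * Real.exp (-((p - 1) / 2)) ≤ 5 / 4 := by
  have h1 : 1 + (p - 1) / 2 + ((p - 1) / 2) ^ 2 / 2 ≤ Real.exp ((p - 1) / 2) :=
    Real.quadratic_le_exp_of_nonneg (by linarith)
  rw [Real.exp_neg, ← div_eq_mul_inv, div_le_iff₀ (Real.exp_pos _)]
  nlinarith [sq_nonneg (p - 2)]

lemma Dst_nonneg (N K M s : ℕ) (c : ℕ × ℕ) (Z : Finset (Ix N K M)) : 0 ≤ Dst N K M s c Z := by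
  unfold Dst
  split_ifs with h
  · rw [Finset.le_inf'_iff]
    intro k _
    exact dist_nonneg
  · exact le_rfl

/-- mixed difference without anchors -/
lemma mixed0 (hLOC0 : S_LOC0) {N K M s : ℕ} (hN : 0 < N) (hK : 0 < K) (hM : 0 < M) (hs : 0 < s)
    (c : ℕ × ℕ) (A A' Z Z' : Finset (Ix N K M)) :
    |f0 N K M (mix (bl N K M s c) A Z) - f0 N K M (mix (bl N K M s c) A' Z) -
      f0 N K M (mix (bl N K M s c) A Z') + f0 N K M (mix (bl N K M s c) A' Z')| ≤
      108 * s + 4 * Dst N K M s c Z + 4 * Dst N K M s c Z' := by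
  obtain ⟨h, hh⟩ := (hLOC0 N K M s hN hK hM hs c).1
  have h1 := abs_le.1 (hh A Z)
  have h2 := abs_le.1 (hh A' Z)
  have h3 := abs_le.1 (hh A Z')
  have h4 := abs_le.1 (hh A' Z')
  rw [abs_le]
  constructor <;> linarith [h1.1, h1.2, h2.1, h2.2, h3.1, h3.2, h4.1, h4.2]

open Classical in
/-- the functional without anchors is asymptotically additive -/
theorem naF0 (hLOC0 : S_LOC0) (hD10 : S_D10) (hES : S_ES) (hCH : S_CH) (hCH2 : S_CH2)
    (ε : ℝ) (hε : 0 < ε) : ∃ s₁ : ℕ, 0 < s₁ ∧ (∃ i, s₁ = 2 ^ i) ∧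
    ∀ N K M : ℕ, 0 < N → 0 < K → 0 < M →
      s₁ ∣ N * K → ∀ q : ℝ, 0 ≤ q → q ≤ 1 → 1 ≤ q * (M : ℝ) ^ 2 →
      en q (f0 N K M) univ - en q (f0 N K M) ∅ -
        ∑ c ∈ (univ : Finset (Ix N K M)).image (lb N K M s₁),
          (en q (f0 N K M) (bl N K M s₁ c) - en q (f0 N K M) ∅) ≤ ε * ((N : ℝ) * K) ^ 2 := by
  obtain ⟨j₀, hj₀⟩ := thmA2 48 216 (ε / 2) (by norm_num) (by norm_num) (by positivity)
  -- choice of the smallest side
  obtain ⟨i₀, hi₀⟩ : ∃ i₀ : ℕ, 456600 * Real.exp (-(((2 ^ i₀ : ℕ) : ℝ) ^ 2)) ≤ ε / 2 := by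
    have ht : Filter.Tendsto (fun i : ℕ => 456600 * Real.exp (-(((2 ^ i : ℕ) : ℝ) ^ 2)))
        Filter.atTop (nhds (456600 * 0)) := by
      refine Filter.Tendsto.const_mul _ ?_
      refine Real.tendsto_exp_neg_atTop_nhds_zero.comp ?_
      refine (Filter.tendsto_pow_atTop (by norm_num)).comp ?_
      exact tendsto_natCast_atTop_atTop.comp
        (tendsto_pow_atTop_atTop_of_one_lt (by norm_num : 1 < 2))
    rw [mul_zero] at ht
    exact (ht.eventually_le_const (by positivity : (0 : ℝ) < ε / 2)).exists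
  set s₀ : ℕ := 2 ^ i₀ with hs₀
  have hs₀0 : 0 < s₀ := by positivity
  refine ⟨s₀ * 2 ^ j₀, by positivity, ⟨i₀ + j₀, by rw [hs₀, pow_add]⟩, ?_⟩
  intro N K M hN hK hM hdvd q h0 h1 hq
  have hsd : ∀ t ≤ j₀, s₀ * 2 ^ t ∣ N * K := fun t ht =>
    (Nat.mul_dvd_mul_left s₀ (pow_dvd_pow 2 ht)).trans hdvd
  have hspos : ∀ t, 0 < s₀ * 2 ^ t := fun t => by positivity
  have hsR : ∀ t : ℕ, ((s₀ * 2 ^ t : ℕ) : ℝ) ^ 2 = 4 ^ t * (s₀ : ℝ) ^ 2 := by
    intro t
    push_cast
    rw [mul_pow, ← pow_mul, mul_comm t 2, pow_mul]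
    norm_num
    ring
  have hsq : ∀ t : ℕ, Real.sqrt (4 ^ t * (s₀ : ℝ) ^ 2) = ((s₀ * 2 ^ t : ℕ) : ℝ) := by
    intro t
    rw [← hsR]
    exact Real.sqrt_sq (by positivity)
  have hmain := hj₀ (Ix N K M) (ℕ × ℕ) (ds N K M s₀) (ds_nested N K M s₀ j₀)
    (fun t _ c => ds_ch N K M s₀ t c) ((s₀ : ℝ) ^ 2) (((N : ℝ) * K) ^ 2) (by positivity)
    (by positivity)
    (fun t ht => by
      have := lb_count N K M (hspos t) hM (hsd t ht)
      rw [hsR] at this
      exact this) q h0 h1 (f0 N K M)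
    (hES _ _ h0 h1 _ _ fun A => hD10 N K M hN hK hM A)
    (fun t c ζ => Dst N K M (s₀ * 2 ^ t) c ζ ≤ 4 * ((s₀ * 2 ^ t : ℕ) : ℝ)) (ε / 2)
    (by positivity) ?_ ?_
  · have e : ε / 2 + ε / 2 = ε := by ring
    rw [e] at hmain
    exact hmain
  · -- good pairs
    intro t' ht' t htt c' hc' c hc ζ ζ' hgood hgood' A
    obtain ⟨x, hx, hxc⟩ := mem_image.1 hc
    rw [mem_cell] at hx
    obtain ⟨i, rfl⟩ := Nat.exists_eq_add_of_le htt
    obtain ⟨p, hp⟩ : ∃ p : ℕ, p = 2 ^ i := ⟨_, rfl⟩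
    have hp0 : 0 < p := by rw [hp]; positivity
    set s := s₀ * 2 ^ t with hsdef
    have hs0 : 0 < s := hspos t
    have hps : s₀ * 2 ^ (t + i) = p * s := by rw [hp, hsdef, pow_add]; ring
    have hcc : c.1 / p = c'.1 ∧ c.2 / p = c'.2 := by
      have h2 : ds N K M s₀ (t + i) x = c' := hx
      have h3 : lb N K M s x = c := hxc
      unfold ds at h2
      rw [hps, lb_mul] at h2
      rw [h3] at h2
      exact ⟨congrArg Prod.fst h2, congrArg Prod.snd h2⟩
    have hrange : p * s * (c'.1 + 1) ≤ N * K ∧ p * s * (c'.2 + 1) ≤ N * K := by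
      have h2 : ds N K M s₀ (t + i) x = c' := hx
      unfold ds at h2
      rw [hps] at h2
      have := lb_range N K M (s := p * s) (by positivity) hM (by rw [← hps]; exact hsd _ ht') x
      rw [h2] at this
      exact this
    have hBD : cell (ds N K M s₀) t c ⊆ cell (ds N K M s₀) (t + i) c' := by
      intro y hy
      rw [mem_cell] at hy ⊢
      rw [← hx]
      exact (ds_nested N K M s₀ (t + i)).le (by omega) le_rfl (hy.trans hxc.symm)
    have hcB : cell (ds N K M s₀) t c = bl N K M s c := rfl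
    have hcD : cell (ds N K M s₀) (t + i) c' = bl N K M (p * s) c' := by
      have : cell (ds N K M s₀) (t + i) c' = bl N K M (s₀ * 2 ^ (t + i)) c' := rfl
      rw [this, hps]
    have hb := Gd_bound' h0 h1 (f0 N K M) hBD ζ ζ'
      (fun C => 108 * s + 4 * Dst N K M s c (mix (bl N K M (p * s) c') C ζ) +
        4 * Dst N K M s c (mix (bl N K M (p * s) c') C ζ'))
      (fun A A' C => by
        rw [hcB, hcD]
        exact mixed0 hLOC0 hN hK hM hs0 c _ _ _ _) A
    refine hb.trans ?_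
    rw [Ex_add, Ex_add, Ex_const, Ex_mul_left, Ex_mul_left]
    have g1 := hCH N K M s p hN hK hM hs0 hp0 c c' hcc.1 hcc.2 hrange.1 hrange.2 q h0 h1 hq ζ
    have g2 := hCH N K M s p hN hK hM hs0 hp0 c c' hcc.1 hcc.2 hrange.1 hrange.2 q h0 h1 hq ζ'
    have g3 : Dst N K M (p * s) c' ζ ≤ 4 * ((p * s : ℕ) : ℝ) := by
      have := hgood
      rwa [hps] at this
    have g4 : Dst N K M (p * s) c' ζ' ≤ 4 * ((p * s : ℕ) : ℝ) := by
      have := hgood'
      rwa [hps] at this
    push_cast at g3 g4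
    have hp1 : (1 : ℝ) ≤ p := by exact_mod_cast hp0
    have g5 := exp_aux hp1
    have hE : 0 < Real.exp (-(((p : ℝ) - 1) / 2)) := Real.exp_pos _
    have hsR0 : (0 : ℝ) < s := by exact_mod_cast hs0
    rw [hsq t, ← hsdef]
    have g6 : (2 * (p : ℝ) * s + Dst N K M (p * s) c' ζ) * Real.exp (-(((p : ℝ) - 1) / 2)) ≤
        15 / 2 * s := by
      calc _ ≤ (6 * (p : ℝ) * s) * Real.exp (-(((p : ℝ) - 1) / 2)) :=
            mul_le_mul_of_nonneg_right (by linarith) hE.le
        _ = 6 * s * ((p : ℝ) * Real.exp (-(((p : ℝ) - 1) / 2))) := by ring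
        _ ≤ 6 * s * (5 / 4) := mul_le_mul_of_nonneg_left g5 (by positivity)
        _ = _ := by ring
    have g7 : (2 * (p : ℝ) * s + Dst N K M (p * s) c' ζ') * Real.exp (-(((p : ℝ) - 1) / 2)) ≤
        15 / 2 * s := by
      calc _ ≤ (6 * (p : ℝ) * s) * Real.exp (-(((p : ℝ) - 1) / 2)) :=
            mul_le_mul_of_nonneg_right (by linarith) hE.le
        _ = 6 * s * ((p : ℝ) * Real.exp (-(((p : ℝ) - 1) / 2))) := by ring
        _ ≤ 6 * s * (5 / 4) := mul_le_mul_of_nonneg_left g5 (by positivity)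
        _ = _ := by ring
    linarith
  · -- bad pairs
    intro t' ht' c' hc'
    set s := s₀ * 2 ^ t' with hsdef
    have hs0 : 0 < s := hspos t'
    have hsR0 : (0 : ℝ) < s := by exact_mod_cast hs0
    obtain ⟨x, _, hx⟩ := mem_image.1 hc'
    have hrange : s * (c'.1 + 1) ≤ N * K ∧ s * (c'.2 + 1) ≤ N * K := by
      have h2 : lb N K M s x = c' := hx
      have := lb_range N K M (s := s) hs0 hM (hsd _ ht') x
      rw [h2] at this
      exact this
    have g1 := hCH2 N K M s hN hK hM hs0 (hsd _ ht') c' hrange.1 hrange.2 q h0 h1 hq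
    set X : Finset (Ix N K M) → ℝ := fun Z => if Dst N K M s c' Z ≤ 4 * s then (0 : ℝ) else
      (Dst N K M s c' Z) ^ 2 with hX
    have hXn : ∀ Z, 0 ≤ X Z := by
      intro Z
      simp only [hX]
      split_ifs
      · exact le_rfl
      · positivity
    have hcD : cell (ds N K M s₀) t' c' = bl N K M s c' := rfl
    have hpt : ∀ ζ ζ' : Finset (Ix N K M),
        (if (Dst N K M (s₀ * 2 ^ t') c' ζ ≤ 4 * ((s₀ * 2 ^ t' : ℕ) : ℝ)) ∧
            (Dst N K M (s₀ * 2 ^ t') c' ζ' ≤ 4 * ((s₀ * 2 ^ t' : ℕ) : ℝ)) then (0 : ℝ) else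
          en q (Gd q (f0 N K M) (cell (ds N K M s₀) t' c') ζ ζ') univ) ≤
        2283 * (X ζ + X ζ') := by
      intro ζ ζ'
      rw [← hsdef]
      split_ifs with hg
      · have := hXn ζ
        have := hXn ζ'
        linarith
      · set a := Dst N K M s c' ζ with ha
        set b := Dst N K M s c' ζ' with hb
        have ha0 : 0 ≤ a := Dst_nonneg _ _ _ _ _ _
        have hb0 : 0 ≤ b := Dst_nonneg _ _ _ _ _ _
        have hsup : ∀ A, |Gd q (f0 N K M) (bl N K M s c') ζ ζ' A| ≤ 108 * s + 4 * a + 4 * b := by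
          intro A
          have e1 := Gd_bound' h0 h1 (f0 N K M) (subset_refl (bl N K M s c')) ζ ζ'
            (fun _ => 108 * s + 4 * a + 4 * b) (fun A A' C => by
              have hmm : ∀ X Z : Finset (Ix N K M), mix (bl N K M s c') X
                  (mix (bl N K M s c') C Z) = mix (bl N K M s c') X Z := by
                intro X Z
                ext y
                simp only [mem_mix]
                tauto
              rw [hmm, hmm, hmm, hmm]
              exact mixed0 hLOC0 hN hK hM hs0 c' _ _ _ _) A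
          rw [Ex_const] at e1
          have hdep : Dep (bl N K M s c') (Gd q (f0 N K M) (bl N K M s c') ζ ζ') := by
            intro A A' hAA
            unfold Gd
            rw [mix_congr hAA, mix_congr hAA]
          rw [hdep.Av_eq] at e1
          exact e1
        have hen : en q (Gd q (f0 N K M) (cell (ds N K M s₀) t' c') ζ ζ') univ ≤
            (108 * s + 4 * a + 4 * b) ^ 2 := by
          unfold en
          rw [Av_univ, ← Ex_const (ι := Ix N K M) q ((108 * (s : ℝ) + 4 * a + 4 * b) ^ 2)]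
          refine Ex_mono h0 h1 fun A => ?_
          rw [← sq_abs]
          exact pow_le_pow_left₀ (abs_nonneg _) (hsup A) 2
        have h3 : (108 * (s : ℝ) + 4 * a + 4 * b) ^ 2 ≤
            3 * (108 ^ 2 * (s : ℝ) ^ 2 + 16 * a ^ 2 + 16 * b ^ 2) := by
          nlinarith [sq_nonneg (108 * (s : ℝ) - 4 * a), sq_nonneg (108 * (s : ℝ) - 4 * b),
            sq_nonneg (4 * a - 4 * b)]
        have hsum : 16 * (s : ℝ) ^ 2 ≤ X ζ + X ζ' ∧ a ^ 2 ≤ X ζ + X ζ' ∧ b ^ 2 ≤ X ζ + X ζ' := by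
          simp only [hX]
          rw [← ha, ← hb]
          by_cases h4 : a ≤ 4 * s
          · have h5 : ¬ b ≤ 4 * s := fun h => hg ⟨h4, h⟩
            rw [if_pos h4, if_neg h5]
            push Not at h5
            have h6 : (4 * (s : ℝ)) ^ 2 ≤ b ^ 2 := pow_le_pow_left₀ (by positivity) h5.le 2
            have h7 : a ^ 2 ≤ (4 * (s : ℝ)) ^ 2 := pow_le_pow_left₀ ha0 h4 2
            refine ⟨by nlinarith, by nlinarith, by nlinarith⟩
          · rw [if_neg h4]
            push Not at h4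
            have h6 : (4 * (s : ℝ)) ^ 2 ≤ a ^ 2 := pow_le_pow_left₀ (by positivity) h4.le 2
            by_cases h5 : b ≤ 4 * s
            · rw [if_pos h5]
              have h7 : b ^ 2 ≤ (4 * (s : ℝ)) ^ 2 := pow_le_pow_left₀ hb0 h5 2
              refine ⟨by nlinarith, by nlinarith, by nlinarith⟩
            · rw [if_neg h5]
              refine ⟨by nlinarith, by nlinarith, by nlinarith⟩
        linarith [hsum.1, hsum.2.1, hsum.2.2]
    have hle := Ex_mono (ι := Ix N K M) h0 h1 (fun ζ => Ex_mono h0 h1 (fun ζ' => hpt ζ ζ'))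
    refine hle.trans ?_
    have e1 : Ex q (fun ζ : Finset (Ix N K M) => Ex q (fun ζ' : Finset (Ix N K M) =>
        2283 * (X ζ + X ζ'))) = 2283 * (Ex q X + Ex q X) := by
      have e2 : ∀ ζ : Finset (Ix N K M), Ex q (fun ζ' : Finset (Ix N K M) =>
          2283 * (X ζ + X ζ')) = 2283 * (X ζ + Ex q X) := by
        intro ζ
        rw [Ex_mul_left, Ex_add, Ex_const]
      simp only [e2]
      rw [Ex_mul_left, Ex_add, Ex_const]
    rw [e1, ← hsR t', ← hsdef]
    have h8 : Real.exp (-((s : ℝ) ^ 2)) ≤ Real.exp (-((s₀ : ℝ) ^ 2)) := by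
      apply Real.exp_le_exp.2
      have h9 : (s₀ : ℝ) ≤ s := by
        have : s₀ ≤ s := by
          rw [hsdef]
          exact Nat.le_mul_of_pos_right _ (by positivity)
        exact_mod_cast this
      have : (s₀ : ℝ) ^ 2 ≤ (s : ℝ) ^ 2 := pow_le_pow_left₀ (by positivity) h9 2
      linarith
    have h10 : 456600 * Real.exp (-((s₀ : ℝ) ^ 2)) ≤ ε / 2 := hi₀
    have hs2 : (0 : ℝ) ≤ (s : ℝ) ^ 2 := by positivity
    calc 2283 * (Ex q X + Ex q X) ≤ 2283 * (100 * (s : ℝ) ^ 2 * Real.exp (-((s : ℝ) ^ 2)) +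
          100 * (s : ℝ) ^ 2 * Real.exp (-((s : ℝ) ^ 2))) := by
          have : Ex q X ≤ 100 * (s : ℝ) ^ 2 * Real.exp (-((s : ℝ) ^ 2)) := g1
          linarith
      _ = (456600 * Real.exp (-((s : ℝ) ^ 2))) * (s : ℝ) ^ 2 := by ring
      _ ≤ (ε / 2) * (s : ℝ) ^ 2 := by
          refine mul_le_mul_of_nonneg_right ?_ hs2
          linarith

end Pool.Agent.N940.TSP
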