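import Pool.Agent.N940.TSP.V1

/-!
# Limiting variance, part 2: abstract comparison of a functional with local functionals
-/

set_option autoImplicit false
set_option linter.unusedSectionVars false
set_option linter.unusedVariables false

namespace Pool.Agent.N940.TSP

open Finset

variable {ι : Type} [Fintype ι] [DecidableEq ι] {κ : Type} [DecidableEq κ]

/-- interaction part of a difference -/
lemma na_sub {q : ℝ} (h0 : 0 ≤ q) (h1 : q ≤ 1) (x y : Finset ι → ℝ) (hx : Ex q x = 0)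
    (hy : Ex q y = 0) (E : Finset κ) (D : κ → Finset ι)
    (hd : ∀ c ∈ E, ∀ d ∈ E, c ≠ d → Disjoint (D c) (D d)) (C : Finset ι)
    (hC : ∀ e ∈ E, D e ⊆ C) :
    en q (fun A => x A - y A) C - ∑ e ∈ E, en q (fun A => x A - y A) (D e) ≤
      2 * (en q x C - ∑ e ∈ E, en q x (D e)) + 2 * (en q y C - ∑ e ∈ E, en q y (D e)) := by
  have hxy : Ex q (fun A => x A - y A) = 0 := by
    rw [Ex_sub]
    have e1 : Ex q (fun A => x A) = 0 := hx
    have e2 : Ex q (fun A => y A) = 0 := hy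
    rw [e1, e2, sub_zero]
  rw [← pyth (fun A => x A - y A) hxy E D hd C hC, ← pyth x hx E D hd C hC,
    ← pyth y hy E D hd C hC, ← Ex_mul_left, ← Ex_mul_left, ← Ex_add]
  refine Ex_mono h0 h1 fun A => ?_
  have e1 : ∀ U, Av q U (fun A => x A - y A) A = Av q U x A - Av q U y A := by
    intro U
    unfold Av
    rw [Ex_sub]
  simp only [e1]
  rw [sum_sub_distrib]
  nlinarith [sq_nonneg ((Av q C x A - ∑ e ∈ E, Av q (D e) x A) +
    (Av q C y A - ∑ e ∈ E, Av q (D e) y A))]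

lemma en_Av {q : ℝ} (f : Finset ι → ℝ) {U V : Finset ι} (h : U ⊆ V) :
    en q (Av q V f) U = en q f U := by
  unfold en
  rw [Av_Av, inter_eq_left.2 h]

/-- the remainders are small -/
lemma absV {q : ℝ} (h0 : 0 ≤ q) (h1 : q ≤ 1) (T : Finset κ) (C : κ → Finset ι)
    (hCd : ∀ c ∈ T, ∀ d ∈ T, c ≠ d → Disjoint (C c) (C d)) (E : κ → Finset κ) (D : κ → Finset ι)
    (hDd : ∀ c ∈ T, ∀ d ∈ E c, ∀ e ∈ E c, d ≠ e → Disjoint (D d) (D e))
    (hDC : ∀ c ∈ T, ∀ e ∈ E c, D e ⊆ C c)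
    (f : Finset ι → ℝ) (hf : Ex q f = 0) (y : κ → Finset ι → ℝ)
    (hy : ∀ c ∈ T, Dep (C c) (y c)) (hy0 : ∀ c ∈ T, Ex q (y c) = 0) (α α' γ : ℝ)
    (ha : en q f univ - ∑ c ∈ T, ∑ e ∈ E c, en q f (D e) ≤ α)
    (hb : ∀ c ∈ T, en q (y c) (C c) - ∑ e ∈ E c, en q (y c) (D e) ≤ α')
    (hc : ∀ c ∈ T, ∑ e ∈ E c, en q (fun A => Av q (C c) f A - y c A) (D e) ≤ γ) :
    ∑ c ∈ T, Ex q (fun A => (Av q (C c) f A - y c A) ^ 2) ≤
      2 * α + (T.card : ℝ) * (2 * α' + γ) := by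
  have h2 : ∀ c ∈ T, Ex q (fun A => (Av q (C c) f A - y c A) ^ 2) ≤
      2 * (en q f (C c) - ∑ e ∈ E c, en q f (D e)) + (2 * α' + γ) := by
    intro c hcT
    have e1 : Ex q (fun A => (Av q (C c) f A - y c A) ^ 2) =
        en q (fun A => Av q (C c) f A - y c A) (C c) := by
      unfold en
      have hdep : Dep (C c) (fun A => Av q (C c) f A - y c A) := by
        intro A B hAB
        have e2 := Dep_Av q (C c) f A B hAB
        have e3 := hy c hcT A B hAB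
        simp only [e2, e3]
      rw [hdep.Av_eq]
    have h3 := na_sub h0 h1 (Av q (C c) f) (y c) (by rw [Ex_Av, hf]) (hy0 c hcT) (E c) D
      (hDd c hcT) (C c) (hDC c hcT)
    have h4 : en q (Av q (C c) f) (C c) = en q f (C c) := en_Av f (subset_refl _)
    have h5 : ∑ e ∈ E c, en q (Av q (C c) f) (D e) = ∑ e ∈ E c, en q f (D e) :=
      sum_congr rfl fun e he => en_Av f (hDC c hcT e he)
    rw [h4, h5] at h3
    have h6 := hb c hcT
    have h7 := hc c hcT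
    rw [e1]
    linarith
  refine (sum_le_sum h2).trans ?_
  rw [sum_add_distrib, ← mul_sum, sum_sub_distrib, sum_const, nsmul_eq_mul]
  have h8 := pyth (q := q) f hf T C hCd univ (fun c _ => subset_univ _)
  have h9 : 0 ≤ Ex q (fun A => (Av q univ f A - ∑ c ∈ T, Av q (C c) f A) ^ 2) :=
    Ex_nonneg h0 h1 fun _ => sq_nonneg _
  linarith

/-- comparison of quadratic means -/
lemma cmpV {q : ℝ} (h0 : 0 ≤ q) (h1 : q ≤ 1) (T : Finset κ) (X u : κ → Finset ι → ℝ) (θ : ℝ)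
    (hθ : 0 < θ) :
    |∑ c ∈ T, Ex q (fun A => (X c A + u c A) ^ 2) - ∑ c ∈ T, Ex q (fun A => (X c A) ^ 2)| ≤
      θ * ∑ c ∈ T, Ex q (fun A => (X c A) ^ 2) +
        (1 + 1 / θ) * ∑ c ∈ T, Ex q (fun A => (u c A) ^ 2) := by
  have hpt : ∀ x y : ℝ, |(x + y) ^ 2 - x ^ 2| ≤ θ * x ^ 2 + (1 + 1 / θ) * y ^ 2 := by
    intro x y
    have e1 : 0 ≤ (θ * x - y) ^ 2 / θ := by positivity
    have e2 : 0 ≤ (θ * x + y) ^ 2 / θ := by positivity
    have e3 : (θ * x - y) ^ 2 / θ = θ * x ^ 2 - 2 * (x * y) + 1 / θ * y ^ 2 := by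
      field_simp
      ring
    have e4 : (θ * x + y) ^ 2 / θ = θ * x ^ 2 + 2 * (x * y) + 1 / θ * y ^ 2 := by
      field_simp
      ring
    rw [e3] at e1
    rw [e4] at e2
    rw [abs_le]
    constructor <;> nlinarith [sq_nonneg y]
  rw [← sum_sub_distrib, mul_sum, mul_sum, ← sum_add_distrib]
  refine (abs_sum_le_sum_abs _ _).trans (sum_le_sum fun c _ => ?_)
  rw [← Ex_sub, ← Ex_mul_left, ← Ex_mul_left, ← Ex_add]
  exact (Ex_abs_le h0 h1 _).trans (Ex_mono h0 h1 fun A => hpt _ _)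

end Pool.Agent.N940.TSP
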