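import Pool.Agent.N940.TSP.V2
import Pool.Agent.N940.TSP.Loc

/-!
# Limiting variance, part 3: the remainder has bounded block averages
-/

set_option autoImplicit false
set_option linter.unusedSectionVars false
set_option linter.unusedVariables false

namespace Pool.Agent.N940.TSP

open Finset

section abs

variable {ι : Type} [Fintype ι] [DecidableEq ι]

lemma av_close {q : ℝ} (h0 : 0 ≤ q) (h1 : q ≤ 1) (f G h w : Finset ι → ℝ) (B : Finset ι)
    (hf : ∀ A Z, |f (mix B A Z) - G A - h Z| ≤ w Z) (A : Finset ι) :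
    |(Av q B f A - Ex q f) - (G A - Ex q G)| ≤ 2 * Ex q w := by
  have e1 : (Av q B f A - Ex q f) - (G A - Ex q G) = Ex q (fun A' => Ex q (fun Z =>
      (f (mix B A Z) - G A - h Z) - (f (mix B A' Z) - G A' - h Z))) := by
    have e2 : Ex q (fun A' => Ex q (fun Z => f (mix B A' Z))) = Ex q f := Ex_mix q B f
    simp only [Ex_sub, Ex_const]
    rw [e2]
    have e3 : Ex q (fun A' => G A') = Ex q G := rfl
    have e4 : Ex q (fun Z => f (mix B A Z)) = Av q B f A := rfl
    rw [e3, e4]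
    ring
  rw [e1]
  refine (Ex_abs_le h0 h1 _).trans ?_
  rw [← Ex_mul_left, ← Ex_const (ι := ι) q (Ex q (fun Z => 2 * w Z))]
  refine Ex_mono h0 h1 fun A' => (Ex_abs_le h0 h1 _).trans ?_
  refine Ex_mono h0 h1 fun Z => ?_
  have h3 := hf A Z
  have h4 := hf A' Z
  calc |(f (mix B A Z) - G A - h Z) - (f (mix B A' Z) - G A' - h Z)| ≤
        |f (mix B A Z) - G A - h Z| + |f (mix B A' Z) - G A' - h Z| := abs_sub _ _
    _ ≤ 2 * w Z := by linarith

end abs

section conc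

variable {N K M : ℕ}

/-- the local functional -/
noncomputable def gl (N K M r : ℕ) (c : ℕ × ℕ) (A : Finset (Ix N K M)) : ℝ :=
  tsp (pts N K M A ∩ sq r c)

lemma gl_eq (hM : 0 < M) {r : ℕ} (hr : 0 < r) (c : ℕ × ℕ) (A : Finset (Ix N K M)) :
    gl N K M r c A = f0 N K M (mix (bl N K M r c) A ∅) := by
  unfold gl f0
  congr 1
  ext z
  unfold pts
  simp only [Set.mem_inter_iff, Set.mem_ofPred_eq, mem_mix]
  constructor
  · rintro ⟨⟨k, hk, rfl⟩, hz⟩
    refine ⟨k, Or.inl ⟨hk, ?_⟩, rfl⟩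
    rw [Loc.sp_mem hM hr] at hz
    rw [Loc.mem_bl]
    exact hz
  · rintro ⟨k, hk, rfl⟩
    rcases hk with ⟨hk, hkc⟩ | ⟨hk, _⟩
    · refine ⟨⟨k, hk, rfl⟩, ?_⟩
      rw [Loc.sp_mem hM hr]
      rwa [Loc.mem_bl] at hkc
    · simp at hk

lemma gl_dep (hM : 0 < M) {r : ℕ} (hr : 0 < r) (c : ℕ × ℕ) :
    Dep (bl N K M r c) (gl N K M r c) := by
  intro A B hAB
  rw [gl_eq hM hr, gl_eq hM hr, mix_congr hAB]

lemma bl_full (hM : 0 < M) (hR : 0 < N * K) : bl N K M (N * K) (0, 0) = univ := by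
  ext k
  rw [Loc.mem_bl]
  simp only [mem_univ, iff_true]
  unfold lb
  have h1 : (k.1 : ℕ) / (M * (N * K)) = 0 := Nat.div_eq_of_lt (by
    have := k.1.2
    have e : M * (N * K) = N * K * M := by ring
    omega)
  have h2 : (k.2 : ℕ) / (M * (N * K)) = 0 := Nat.div_eq_of_lt (by
    have := k.2.2
    have e : M * (N * K) = N * K * M := by ring
    omega)
  rw [h1, h2]

lemma Dst_full (hM : 0 < M) (hR : 0 < N * K) (Z : Finset (Ix N K M)) :
    Dst N K M (N * K) (0, 0) Z = 0 := by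
  unfold Dst
  rw [dif_neg]
  rw [bl_full hM hR]
  simp

lemma Dst_empty (s : ℕ) (c : ℕ × ℕ) : Dst N K M s c ∅ = 0 := by
  unfold Dst
  rw [dif_neg]
  simp

/-- the mean distance to the next point outside of a square -/
lemma Dst_mean (hCH : S_CH) (hN : 0 < N) (hK : 0 < K) (hM : 0 < M) {s p : ℕ} (hs : 0 < s)
    (hp : 0 < p) (c c' : ℕ × ℕ) (h1 : c.1 / p = c'.1) (h2 : c.2 / p = c'.2)
    (h3 : p * s * (c'.1 + 1) ≤ N * K) (h4 : p * s * (c'.2 + 1) ≤ N * K) {q : ℝ}
    (hq0 : 0 ≤ q) (hq1 : q ≤ 1) (hq : 1 ≤ q * (M : ℝ) ^ 2) (ζ : Finset (Ix N K M))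
    (hζ : Dst N K M (p * s) c' ζ = 0) :
    Ex q (fun C : Finset (Ix N K M) => Dst N K M s c (mix (bl N K M (p * s) c') C ζ)) ≤
      17 / 2 * s := by
  have h := hCH N K M s p hN hK hM hs hp c c' h1 h2 h3 h4 q hq0 hq1 hq ζ
  rw [hζ, add_zero] at h
  have hp1 : (1 : ℝ) ≤ p := by exact_mod_cast hp
  have h5 := exp_aux hp1
  have hs0 : (0 : ℝ) < s := by exact_mod_cast hs
  calc _ ≤ 6 * (s : ℝ) + 2 * p * s * Real.exp (-(((p : ℝ) - 1) / 2)) := h
    _ = 6 * (s : ℝ) + 2 * s * (p * Real.exp (-(((p : ℝ) - 1) / 2))) := by ring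
    _ ≤ 6 * (s : ℝ) + 2 * s * (5 / 4) := by
        have := mul_le_mul_of_nonneg_left h5 (by positivity : 0 ≤ 2 * (s : ℝ))
        linarith
    _ = _ := by ring

/-- the remainder -/
noncomputable def ul (q : ℝ) (N K M r : ℕ) (c : ℕ × ℕ) (A : Finset (Ix N K M)) : ℝ :=
  (Av q (bl N K M r c) (f0 N K M) A - Ex q (f0 N K M)) -
    (gl N K M r c A - Ex q (gl N K M r c))

lemma ul_bound (hLOC0 : S_LOC0) (hCH : S_CH) (hN : 0 < N) (hK : 0 < K) (hM : 0 < M) {s p r : ℕ}
    (hs : 0 < s) (hp : 0 < p) (hr : r = p * s) (hdvd : r ∣ N * K) (e c : ℕ × ℕ)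
    (h1 : e.1 / p = c.1) (h2 : e.2 / p = c.2)
    (h3 : r * (c.1 + 1) ≤ N * K) (h4 : r * (c.2 + 1) ≤ N * K) {q : ℝ}
    (hq0 : 0 ≤ q) (hq1 : q ≤ 1) (hq : 1 ≤ q * (M : ℝ) ^ 2) (A : Finset (Ix N K M)) :
    |Av q (bl N K M s e) (ul q N K M r c) A| ≤ 176 * s := by
  have hr0 : 0 < r := by rw [hr]; positivity
  have hsub : bl N K M s e ⊆ bl N K M r c := by
    intro k hk
    rw [Loc.mem_bl] at hk ⊢
    rw [hr, lb_mul, hk, h1, h2]
  obtain ⟨h, hh⟩ := (hLOC0 N K M s hN hK hM hs e).1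
  have hR : 0 < N * K := Nat.mul_pos hN hK
  -- the functional f0
  have b1 := av_close hq0 hq1 (f0 N K M) (fun A => tsp (pts N K M A ∩ sq s e)) h
    (fun Z => 27 * s + 2 * Dst N K M s e Z) (bl N K M s e) hh A
  -- the local functional
  have hmm : ∀ A Z : Finset (Ix N K M), mix (bl N K M r c) (mix (bl N K M s e) A Z) ∅ =
      mix (bl N K M s e) A (mix (bl N K M r c) Z ∅) := by
    intro A Z
    ext x
    have := @hsub x
    simp only [mem_mix]
    tauto
  have b2 := av_close hq0 hq1 (gl N K M r c) (fun A => tsp (pts N K M A ∩ sq s e))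
    (fun Z => h (mix (bl N K M r c) Z ∅))
    (fun Z => 27 * s + 2 * Dst N K M s e (mix (bl N K M r c) Z ∅)) (bl N K M s e)
    (fun A Z => by
      rw [gl_eq hM hr0, hmm]
      exact hh A _) A
  have hs0 : (0 : ℝ) < s := by exact_mod_cast hs
  -- means of the distances
  have m1 : Ex q (fun Z : Finset (Ix N K M) => Dst N K M s e Z) ≤ 17 / 2 * s := by
    obtain ⟨P, hP⟩ : s ∣ N * K := (Dvd.intro_left p hr.symm).trans hdvd
    have hP0 : 0 < P := by
      rcases Nat.eq_zero_or_pos P with h | h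
      · rw [h, mul_zero] at hP; omega
      · exact h
    have hPs : P * s = N * K := by rw [hP]; ring
    have g1 : e.1 / P = 0 ∧ e.2 / P = 0 := by
      have k1 : r * e.1 < r * (p * (c.1 + 1)) := by
        have : e.1 < p * (c.1 + 1) := by
          rw [← h1]
          have := Nat.lt_mul_div_succ e.1 hp
          linarith
        exact Nat.mul_lt_mul_of_pos_left this hr0
      have k2 : r * e.2 < r * (p * (c.2 + 1)) := by
        have : e.2 < p * (c.2 + 1) := by
          rw [← h2]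
          have := Nat.lt_mul_div_succ e.2 hp
          linarith
        exact Nat.mul_lt_mul_of_pos_left this hr0
      have k3 : s * (p * (c.1 + 1)) ≤ s * P := by
        rw [← hP]
        calc s * (p * (c.1 + 1)) = r * (c.1 + 1) := by rw [hr]; ring
          _ ≤ N * K := h3
      have k4 : s * (p * (c.2 + 1)) ≤ s * P := by
        rw [← hP]
        calc s * (p * (c.2 + 1)) = r * (c.2 + 1) := by rw [hr]; ring
          _ ≤ N * K := h4
      have k5 := Nat.le_of_mul_le_mul_left k3 hs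
      have k6 := Nat.le_of_mul_le_mul_left k4 hs
      have k7 := Nat.lt_of_mul_lt_mul_left k1
      have k8 := Nat.lt_of_mul_lt_mul_left k2
      exact ⟨Nat.div_eq_of_lt (by omega), Nat.div_eq_of_lt (by omega)⟩
    have g2 := Dst_mean hCH hN hK hM hs hP0 e (0, 0) g1.1 g1.2 (by rw [hPs]; simp)
      (by rw [hPs]; simp) hq0 hq1 hq ∅ (Dst_empty _ _)
    have g3 : ∀ C : Finset (Ix N K M), mix (bl N K M (P * s) (0, 0)) C ∅ = C := by
      intro C
      rw [hPs, bl_full hM hR, mix_univ]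
    simp only [g3] at g2
    exact g2
  have m2 : Ex q (fun Z : Finset (Ix N K M) => Dst N K M s e (mix (bl N K M r c) Z ∅)) ≤
      17 / 2 * s := by
    subst hr
    exact Dst_mean hCH hN hK hM hs hp e c h1 h2 h3 h4 hq0 hq1 hq ∅ (Dst_empty _ _)
  rw [Ex_add, Ex_const, Ex_mul_left] at b1 b2
  -- identification
  have hid : Av q (bl N K M s e) (ul q N K M r c) A =
      (Av q (bl N K M s e) (f0 N K M) A - Ex q (f0 N K M)) -
        (Av q (bl N K M s e) (gl N K M r c) A - Ex q (gl N K M r c)) := by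
    have e1 : Av q (bl N K M s e) (Av q (bl N K M r c) (f0 N K M)) A =
        Av q (bl N K M s e) (f0 N K M) A := by
      rw [Av_Av, inter_eq_left.2 hsub]
    rw [← e1]
    unfold Av ul
    simp only [Ex_sub, Ex_const]
    rfl
  rw [hid]
  set x := tsp (pts N K M A ∩ sq s e) - Ex q (fun A => tsp (pts N K M A ∩ sq s e)) with hx
  have e3 : (Av q (bl N K M s e) (f0 N K M) A - Ex q (f0 N K M)) -
        (Av q (bl N K M s e) (gl N K M r c) A - Ex q (gl N K M r c)) =
      ((Av q (bl N K M s e) (f0 N K M) A - Ex q (f0 N K M)) - x) -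
      ((Av q (bl N K M s e) (gl N K M r c) A - Ex q (gl N K M r c)) - x) := by ring
  rw [e3]
  refine (abs_sub _ _).trans ?_
  linarith

end conc

end Pool.Agent.N940.TSP
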