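import Pool.Agent.N940.TSP.V3
import Pool.Agent.N940.TSP.Dep1

/-!
# Limiting variance, part 4: the variance in a large box and in a small box
-/

set_option autoImplicit false
set_option linter.unusedSectionVars false
set_option linter.unusedVariables false

namespace Pool.Agent.N940.TSP

open Finset

lemma en_center1 {ι : Type} [Fintype ι] [DecidableEq ι] {q : ℝ} (f : Finset ι → ℝ)
    (U : Finset ι) : en q (fun A => f A - Ex q f) U = en q f U - en q f ∅ := by
  have h := en_center (q := q) f 1 U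
  simpa using h

/-- the variance of the number of points -/
lemma Vr_card_le {ι : Type} [Fintype ι] [DecidableEq ι] {q : ℝ} (h0 : 0 ≤ q) (h1 : q ≤ 1) :
    Vr q (fun A : Finset ι => (A.card : ℝ)) ≤ q * Fintype.card ι := by
  have hE : Ex q (fun A : Finset ι => (A.card : ℝ)) = Fintype.card ι * q := by
    rw [Dep.Ex_card (ι := ι) q (fun m => (m : ℝ))]
    exact Dep.sum_Pm_mul _ _
  unfold Vr
  rw [hE, Dep.Ex_card (ι := ι) q (fun m => ((m : ℝ) - Fintype.card ι * q) ^ 2),
    Dep.sum_Pm_sq]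
  have : 0 ≤ (Fintype.card ι : ℝ) * q := by positivity
  nlinarith

section labels

variable {N K M : ℕ}

lemma lab_full (hM : 0 < M) {s P : ℕ} (hs : 0 < s) (hP : N * K = s * P) :
    (univ : Finset (Ix N K M)).image (lb N K M s) = range P ×ˢ range P := by
  ext d
  simp only [mem_image, mem_univ, true_and, mem_product, mem_range]
  constructor
  · rintro ⟨k, rfl⟩
    obtain ⟨h1, h2⟩ := lb_range N K M hs hM ⟨P, hP⟩ k
    rw [hP] at h1 h2
    exact ⟨Nat.lt_of_succ_le (Nat.le_of_mul_le_mul_left h1 hs),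
      Nat.lt_of_succ_le (Nat.le_of_mul_le_mul_left h2 hs)⟩
  · rintro ⟨h1, h2⟩
    have hpos : 0 < M * s := by positivity
    have g1 : M * s * d.1 < N * K * M := by
      have : M * s * d.1 < M * s * P := Nat.mul_lt_mul_of_pos_left h1 hpos
      calc M * s * d.1 < M * s * P := this
        _ = N * K * M := by rw [hP]; ring
    have g2 : M * s * d.2 < N * K * M := by
      have : M * s * d.2 < M * s * P := Nat.mul_lt_mul_of_pos_left h2 hpos
      calc M * s * d.2 < M * s * P := this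
        _ = N * K * M := by rw [hP]; ring
    refine ⟨(⟨M * s * d.1, g1⟩, ⟨M * s * d.2, g2⟩), ?_⟩
    unfold lb
    simp only [Nat.mul_div_cancel_left _ hpos]

lemma card_lab (hM : 0 < M) {s P : ℕ} (hs : 0 < s) (hP : N * K = s * P) :
    (((univ : Finset (Ix N K M)).image (lb N K M s)).card : ℝ) = (P : ℝ) ^ 2 := by
  rw [lab_full hM hs hP, card_product, card_range]
  push_cast
  ring

/-- the labels of side `s` in a block of side `p s` -/
lemma lab_sub (hM : 0 < M) {s p Q : ℕ} (hs : 0 < s) (hp : 0 < p) (hQ : N * K = p * s * Q)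
    {c : ℕ × ℕ} (hc1 : c.1 < Q) (hc2 : c.2 < Q) :
    (bl N K M (p * s) c).image (lb N K M s) =
      (range p ×ˢ range p).image (fun d => (p * c.1 + d.1, p * c.2 + d.2)) := by
  ext e
  simp only [mem_image, mem_product, mem_range]
  constructor
  · rintro ⟨k, hk, rfl⟩
    rw [Loc.mem_bl, lb_mul] at hk
    have h1 : (lb N K M s k).1 / p = c.1 := congrArg Prod.fst hk
    have h2 : (lb N K M s k).2 / p = c.2 := congrArg Prod.snd hk
    refine ⟨((lb N K M s k).1 % p, (lb N K M s k).2 % p), ⟨Nat.mod_lt _ hp, Nat.mod_lt _ hp⟩, ?_⟩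
    dsimp only
    rw [← h1, ← h2, Nat.div_add_mod, Nat.div_add_mod]
  · rintro ⟨d, ⟨hd1, hd2⟩, rfl⟩
    have hP : N * K = s * (p * Q) := by rw [hQ]; ring
    have hmem : (p * c.1 + d.1, p * c.2 + d.2) ∈
        (univ : Finset (Ix N K M)).image (lb N K M s) := by
      rw [lab_full hM hs hP]
      simp only [mem_product, mem_range]
      have g1 : p * c.1 + d.1 < p * Q := by
        calc p * c.1 + d.1 < p * c.1 + p := by omega
          _ = p * (c.1 + 1) := by ring
          _ ≤ p * Q := Nat.mul_le_mul_left _ hc1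
      have g2 : p * c.2 + d.2 < p * Q := by
        calc p * c.2 + d.2 < p * c.2 + p := by omega
          _ = p * (c.2 + 1) := by ring
          _ ≤ p * Q := Nat.mul_le_mul_left _ hc2
      exact ⟨g1, g2⟩
    obtain ⟨k, _, hk⟩ := mem_image.1 hmem
    refine ⟨k, ?_, hk⟩
    rw [Loc.mem_bl, lb_mul, hk]
    dsimp only
    rw [Nat.mul_add_div hp, Nat.mul_add_div hp, Nat.div_eq_of_lt hd1, Nat.div_eq_of_lt hd2]
    simp

lemma sum_lab_sub (hM : 0 < M) {s p Q : ℕ} (hs : 0 < s) (hp : 0 < p) (hQ : N * K = p * s * Q)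
    {c : ℕ × ℕ} (hc1 : c.1 < Q) (hc2 : c.2 < Q) (φ : ℕ × ℕ → ℝ) :
    ∑ e ∈ (bl N K M (p * s) c).image (lb N K M s), φ e =
      ∑ d ∈ range p ×ˢ range p, φ (p * c.1 + d.1, p * c.2 + d.2) := by
  rw [lab_sub hM hs hp hQ hc1 hc2, sum_image]
  intro d _ d' _ h
  simp only [Prod.mk.injEq] at h
  exact Prod.ext (by omega) (by omega)

/-- all labels of side `s`, grouped by the blocks of side `p s` -/
lemma sum_lab (s p : ℕ) (φ : ℕ × ℕ → ℝ) :
    ∑ c ∈ (univ : Finset (Ix N K M)).image (lb N K M (p * s)),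
      ∑ e ∈ (bl N K M (p * s) c).image (lb N K M s), φ e =
    ∑ e ∈ (univ : Finset (Ix N K M)).image (lb N K M s), φ e := by
  rw [← sum_biUnion]
  · refine sum_congr ?_ fun _ _ => rfl
    ext e
    simp only [mem_biUnion, mem_image, mem_univ, true_and]
    constructor
    · rintro ⟨_, ⟨k, rfl⟩, l, _, rfl⟩
      exact ⟨l, rfl⟩
    · rintro ⟨k, rfl⟩
      exact ⟨_, ⟨k, rfl⟩, k, (Loc.mem_bl _ _).2 rfl, rfl⟩
  · intro c _ d _ hcd
    simp only [Function.onFun]
    rw [disjoint_left]
    intro e he he'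
    obtain ⟨k, hk, hke⟩ := mem_image.1 he
    obtain ⟨l, hl, hle⟩ := mem_image.1 he'
    rw [Loc.mem_bl, lb_mul] at hk hl
    apply hcd
    rw [← hk, ← hl, hke, hle]

end labels

section trans

variable {N K M : ℕ}

/-- energies of functions of the part in a block -/
lemma en_rst (hEMB : S_EMB) (hN : 0 < N) (hK : 0 < K) (hM : 0 < M) {r : ℕ} (hr : 0 < r)
    {c : ℕ × ℕ} (h1 : r * (c.1 + 1) ≤ N * K) (h2 : r * (c.2 + 1) ≤ N * K) (q : ℝ)
    (ψ : Finset (Ix r 1 M) → ℝ) (U : Finset (Ix N K M)) :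
    en q (fun A => ψ (rst N K M r c A)) U = en q ψ (rst N K M r c U) := by
  obtain ⟨e1, e2, _, _⟩ := hEMB N K M r hN hK hM hr c h1 h2
  have h3 : ∀ A, Av q U (fun A => ψ (rst N K M r c A)) A =
      Av q (rst N K M r c U) ψ (rst N K M r c A) := by
    intro A
    unfold Av
    simp only [e2]
    exact e1 q (fun B => ψ (mix (rst N K M r c U) (rst N K M r c A) B))
  unfold en
  simp only [h3]
  exact e1 q (fun B => (Av q (rst N K M r c U) ψ B) ^ 2)

end trans

end Pool.Agent.N940.TSP
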