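import Pool.Agent.N940.TSP.Mod

/-!
# Lower bound for the variance: the probability part
-/

set_option autoImplicit false
set_option linter.unusedSectionVars false
set_option linter.unusedVariables false

namespace Pool.Agent.N940.TSP.Vlb

open Finset Pool.Agent.N940.TSP

variable {ι : Type} [Fintype ι] [DecidableEq ι]

/-- the variance is at least the sum of the variances of the conditional expectations -/
lemma var_blocks {κ : Type} [DecidableEq κ] {q : ℝ} (h0 : 0 ≤ q) (h1 : q ≤ 1)
    (f : Finset ι → ℝ) (T : Finset κ) (cl : κ → Finset ι)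
    (hd : ∀ c ∈ T, ∀ d ∈ T, c ≠ d → Disjoint (cl c) (cl d)) :
    ∑ c ∈ T, Vr q (Av q (cl c) f) ≤ Vr q f := by
  have hg0 : Ex q (fun A => f A - Ex q f) = 0 := by rw [Ex_sub, Ex_const, sub_self]
  have h := pyth (fun A => f A - Ex q f) hg0 T cl hd univ (fun c _ => subset_univ _)
  have h2 : 0 ≤ en q (fun A => f A - Ex q f) univ -
      ∑ c ∈ T, en q (fun A => f A - Ex q f) (cl c) := by
    rw [← h]
    exact Ex_nonneg h0 h1 fun _ => sq_nonneg _
  have h3 : en q (fun A => f A - Ex q f) univ = Vr q f := by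
    unfold en Vr
    rw [Av_univ]
  have h4 : ∀ c, en q (fun A => f A - Ex q f) (cl c) = Vr q (Av q (cl c) f) := by
    intro c
    unfold en Vr
    rw [Ex_Av, Av_sub, Av_const]
  rw [h3] at h2
  simp only [h4] at h2
  linarith

/-- two classes of configurations on which `X` is far apart -/
lemma var_two {q : ℝ} (h0 : 0 ≤ q) (h1 : q ≤ 1) (X : Finset ι → ℝ) (E1 E2 : Finset (Finset ι))
    (p : ℝ) (hp1 : p ≤ ∑ B ∈ E1, mu q B) (hp2 : p ≤ ∑ B ∈ E2, mu q B)
    (h : ∀ B1 ∈ E1, ∀ B2 ∈ E2, 1 ≤ X B2 - X B1) : p / 4 ≤ Vr q X := by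
  have key : ∀ E : Finset (Finset ι), p ≤ ∑ B ∈ E, mu q B →
      (∀ B ∈ E, 1 / 4 ≤ (X B - Ex q X) ^ 2) → p / 4 ≤ Vr q X := by
    intro E hE hB
    calc p / 4 ≤ (∑ B ∈ E, mu q B) * (1 / 4) := by linarith
      _ = ∑ B ∈ E, mu q B * (1 / 4) := by rw [sum_mul]
      _ ≤ ∑ B ∈ E, mu q B * (X B - Ex q X) ^ 2 :=
          sum_le_sum fun B hB' => mul_le_mul_of_nonneg_left (hB B hB') (mu_nonneg h0 h1 B)
      _ ≤ ∑ B : Finset ι, mu q B * (X B - Ex q X) ^ 2 :=
          sum_le_univ_sum_of_nonneg fun B => mul_nonneg (mu_nonneg h0 h1 B) (sq_nonneg _)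
      _ = Vr q X := rfl
  by_cases hc : ∀ B ∈ E1, 1 / 4 ≤ (X B - Ex q X) ^ 2
  · exact key E1 hp1 hc
  · push Not at hc
    obtain ⟨B1, hB1, hlt⟩ := hc
    refine key E2 hp2 fun B2 hB2 => ?_
    have h3 := h B1 hB1 B2 hB2
    have h4 : X B1 - Ex q X > -(1 / 2) := by nlinarith
    have h5 : 1 / 2 ≤ X B2 - Ex q X := by linarith
    nlinarith

/-- the distribution of the part of the random set in `U` -/
lemma prob_inter (q : ℝ) (U S : Finset ι) (hS : S ⊆ U) :
    ∑ A ∈ univ.filter (fun A : Finset ι => A ∩ U = S), mu q A =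
      q ^ S.card * (1 - q) ^ (U.card - S.card) := by
  have h1 : ∑ A ∈ univ.filter (fun A : Finset ι => A ∩ U = S), mu q A =
      ∑ B ∈ (Uᶜ).powerset, mu q (S ∪ B) := by
    refine Finset.sum_nbij' (fun A => A \ U) (fun B => S ∪ B) ?_ ?_ ?_ ?_ ?_
    · intro A _
      rw [mem_powerset]
      intro x hx
      rw [mem_sdiff] at hx
      exact mem_compl.2 hx.2
    · intro B hB
      rw [mem_powerset] at hB
      rw [mem_filter]
      refine ⟨mem_univ _, ?_⟩
      ext x
      have hx := @hB x
      have hx' := @hS x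
      simp only [mem_inter, mem_union, mem_compl] at hx ⊢
      tauto
    · intro A hA
      rw [mem_filter] at hA
      rw [← hA.2]
      ext x
      simp only [mem_inter, mem_union, mem_sdiff]
      tauto
    · intro B hB
      rw [mem_powerset] at hB
      ext x
      have hx := @hB x
      have hx' := @hS x
      simp only [mem_sdiff, mem_union, mem_compl] at hx ⊢
      tauto
    · intro A hA
      rw [mem_filter] at hA
      have : S ∪ A \ U = A := by
        rw [← hA.2]
        ext x
        simp only [mem_inter, mem_union, mem_sdiff]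
        tauto
      rw [this]
  have h2 : ∀ B ∈ (Uᶜ).powerset, mu q (S ∪ B) =
      q ^ S.card * (1 - q) ^ (U.card - S.card) * (q ^ B.card * (1 - q) ^ ((Uᶜ).card - B.card)) := by
    intro B hB
    rw [mem_powerset] at hB
    have hd : Disjoint S B := by
      rw [disjoint_left]
      intro x hx hx'
      exact (mem_compl.1 (hB hx')) (hS hx)
    have c1 : (S ∪ B).card = S.card + B.card := card_union_of_disjoint hd
    have c2 := card_compl (S ∪ B)
    have c3 := card_compl U
    have c4 := card_le_card hS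
    have c5 := card_le_card hB
    have c6 := card_le_univ U
    have c7 := card_le_univ (S ∪ B)
    unfold mu
    have e1 : (S ∪ B)ᶜ.card = (U.card - S.card) + ((Uᶜ).card - B.card) := by omega
    rw [e1, c1, pow_add, pow_add]
    ring
  rw [h1, sum_congr rfl h2, ← mul_sum, Finset.sum_pow_mul_eq_add_pow]
  simp

/-- the probability of the class of the configurations with exactly one point in every `W i` and
no other point in `U` -/
lemma prob_class {I : Type} [Fintype I] [DecidableEq I] {q : ℝ} (h0 : 0 ≤ q) (h1 : q ≤ 1)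
    (U : Finset ι) (W : I → Finset ι) (hW : ∀ i, W i ⊆ U)
    (hd : ∀ i j, i ≠ j → Disjoint (W i) (W j)) :
    (∏ i, ((W i).card : ℝ)) * q ^ Fintype.card I * (1 - q) ^ U.card ≤
      ∑ A ∈ univ.filter (fun A : Finset ι => ∃ s : I → ι, (∀ i, s i ∈ W i) ∧
        A ∩ U = univ.image s), mu q A := by
  classical
  have hinj : ∀ s : I → ι, (∀ i, s i ∈ W i) → Function.Injective s := by
    intro s hs i j hij
    by_contra hne
    have h3 := hs j
    rw [← hij] at h3
    exact disjoint_left.1 (hd i j hne) (hs i) h3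
  have heq : ∀ s s' : I → ι, (∀ i, s i ∈ W i) → (∀ i, s' i ∈ W i) →
      univ.image s = univ.image s' → s = s' := by
    intro s s' hs hs' h
    funext i
    have h3 : s i ∈ univ.image s' := h ▸ mem_image_of_mem s (mem_univ i)
    obtain ⟨j, _, hj⟩ := mem_image.1 h3
    by_cases hij : i = j
    · rw [hij] at hj ⊢
      exact hj.symm
    · exfalso
      have h4 := hs' j
      rw [hj] at h4
      exact disjoint_left.1 (hd i j hij) (hs i) h4
  have hset : univ.filter (fun A : Finset ι => ∃ s : I → ι, (∀ i, s i ∈ W i) ∧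
        A ∩ U = univ.image s) = (Fintype.piFinset W).biUnion
          (fun s => univ.filter (fun A : Finset ι => A ∩ U = univ.image s)) := by
    ext A
    simp only [mem_filter, mem_univ, true_and, mem_biUnion, Fintype.mem_piFinset]
  rw [hset, sum_biUnion]
  · have h3 : ∀ s ∈ Fintype.piFinset W, q ^ Fintype.card I * (1 - q) ^ U.card ≤
        ∑ A ∈ univ.filter (fun A : Finset ι => A ∩ U = univ.image s), mu q A := by
      intro s hs
      rw [Fintype.mem_piFinset] at hs
      have hsub : univ.image s ⊆ U := by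
        intro x hx
        obtain ⟨i, _, rfl⟩ := mem_image.1 hx
        exact hW i (hs i)
      rw [prob_inter q U _ hsub, card_image_of_injective _ (hinj s hs), card_univ]
      refine mul_le_mul_of_nonneg_left ?_ (pow_nonneg h0 _)
      exact pow_le_pow_of_le_one (by linarith) (by linarith) (Nat.sub_le _ _)
    calc (∏ i, ((W i).card : ℝ)) * q ^ Fintype.card I * (1 - q) ^ U.card
        = ∑ s ∈ Fintype.piFinset W, q ^ Fintype.card I * (1 - q) ^ U.card := by
          rw [sum_const, Fintype.card_piFinset, nsmul_eq_mul]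
          push_cast
          ring
      _ ≤ _ := sum_le_sum h3
  · intro s hs s' hs' hne
    rw [Finset.mem_coe, Fintype.mem_piFinset] at hs hs'
    show Disjoint _ _
    rw [disjoint_left]
    intro A hA hA'
    rw [mem_filter] at hA hA'
    exact hne (heq s s' hs hs' (hA.2.symm.trans hA'.2))

/-- `(1 - q) ^ n` is bounded below if `q n` is bounded -/
lemma one_sub_pow {q : ℝ} {n : ℕ} (h0 : 0 ≤ q) (h1 : q ≤ 1 / 2) (h2 : q * n ≤ 4) :
    Real.exp (-8) ≤ (1 - q) ^ n := by
  have h3 : Real.exp (-(2 * q)) ≤ 1 - q := by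
    have h4 : (1 - q)⁻¹ ≤ Real.exp (2 * q) := by
      have h5 := Real.add_one_le_exp (2 * q)
      refine le_trans ?_ h5
      rw [inv_le_iff_one_le_mul₀ (by linarith)]
      nlinarith
    rw [Real.exp_neg]
    exact inv_le_of_inv_le₀ (by linarith) h4
  calc Real.exp (-8) ≤ Real.exp (n * (-(2 * q))) := by
        apply Real.exp_le_exp.2
        nlinarith
    _ = Real.exp (-(2 * q)) ^ n := by rw [Real.exp_nat_mul]
    _ ≤ (1 - q) ^ n := pow_le_pow_left₀ (Real.exp_pos _).le h3 n

end Pool.Agent.N940.TSP.Vlb
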